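import Mathlib
import Pool.Agent.H3.Frg2.Defs
import Pool.Agent.H3.Frg2.PALem
import Pool.Agent.H3.Frg2.Quad
import Pool.Agent.H3.Frg2.Proj

set_option autoImplicit false
set_option linter.unusedSectionVars false

/-!
# Frege proofs with long lines: blow-up by butterfly networks, definitions

A *stage* replaces a graph `(src tgt : E → Wv)` by a smaller graph `(src' tgt' : E' → Wv')`: for a
choice `c : C` every vertex `w` of the small graph has a centre `cen c w` in the large graph, and
every variable `i : E` of the large graph becomes `a i` plus the parity of the variables in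
`lvi c i ⊆ E'` of the small graph.
-/

namespace Pool.Agent.H3.Frg3

open Finset Pool.Agent.H3.Frg Pool.Agent.H3.Frg2

section Graph

variable {E Wv : Type} [Fintype E] [DecidableEq E] [Fintype Wv] [DecidableEq Wv]

/-- the hypotheses on a graph of one level -/
structure LG (src tgt : E → Wv) (D c0 q : ℕ) : Prop where
  /-- there are no loops -/
  loopless : ∀ e, src e ≠ tgt e
  /-- bounded degree -/
  deg : ∀ w, (bd src tgt {w}).card ≤ D
  /-- edge expansion -/
  cheeger : ∀ X : Finset Wv,
    min X.card (Fintype.card Wv - X.card) ≤ c0 * (bd src tgt X).card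
  /-- a small set has a vertex most of whose edges leave the set -/
  peel : ∀ X : Finset Wv, X.Nonempty → q * X.card ≤ Fintype.card Wv →
    ∃ w ∈ X, (toIn src tgt w X).card < (toOut src tgt w X).card

/-- only the trivial sets have empty boundary -/
def Con (src tgt : E → Wv) : Prop :=
  ∀ X : Finset Wv, bd src tgt X = ∅ → X = ∅ ∨ X = univ

/-- closure property: every set with boundary inside `S0` is, up to complement, inside `Y` -/
def Clos (src tgt : E → Wv) (S0 : Finset E) (Y : Finset Wv) : Prop :=
  ∀ X : Finset Wv, bd src tgt X ⊆ S0 → X ⊆ Y ∨ Xᶜ ⊆ Y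

/-- the function `∑_{X ⊆ Y} ε_X χ_{bd X}` -/
noncomputable def phY (src tgt : E → Wv) (ε : Wv → ℝ) (Y : Finset Wv) (x : E → Bool) : ℝ :=
  ∑ X ∈ Y.powerset, epsX ε X * chi (bd src tgt X) x

/-- sums of transforms over the group generated by `Y` -/
noncomputable def gt3 (src tgt : E → Wv) (ε : Wv → ℝ) (Y : Finset Wv)
    (f : (E → Bool) → ℝ) (S : Finset E) : ℝ :=
  ∑ X ∈ Y.powerset, epsX ε X * W f (symmDiff S (bd src tgt X))

/-- A family of abstract pseudo-evaluations, one for every sign vector. -/
structure PFam (src tgt : E → Wv) where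
  /-- the pseudo-evaluation -/
  P : (ε : Wv → ℝ) → (∀ v, ε v * ε v = 1) → PA (E → Bool)
  /-- allowed degree -/
  M : ℕ
  /-- bound on the size of the sets in `bf` -/
  K : ℕ
  /-- degrees are Fourier degrees -/
  dg : ∀ ε h (p : (E → Bool) → ℝ) (a : ℕ), (P ε h).Dg p a ↔ Dg p a
  /-- allowed degree -/
  hM : ∀ ε h, (P ε h).M = M
  /-- the axioms of small sets of vertices are pseudo-true -/
  bf : ∀ ε h (O : Finset Wv), O.card ≤ K →
    (P ε h).Z (fun z => chi (bd src tgt O) z - epsX ε O)

end Graph

section Stage

variable {E Wv E' Wv' C : Type} [Fintype E] [DecidableEq E] [Fintype Wv] [DecidableEq Wv]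
  [Fintype E'] [DecidableEq E'] [Fintype Wv'] [DecidableEq Wv'] [Fintype C] [DecidableEq C]

/-- live part: the variables of the small graph that occur an odd number of times in `S` -/
def lv (lvi : C → E → Finset E') (c : C) (S : Finset E) : Finset E' :=
  univ.filter fun e => Odd (S.filter fun i => e ∈ lvi c i).card

/-- all variables of the small graph that occur in `S` -/
def uv (lvi : C → E → Finset E') (c : C) (S : Finset E) : Finset E' := S.biUnion (lvi c)

/-- vertices of the small graph whose centre is in `X` -/
def cn (cen : C → Wv' → Wv) (c : C) (X : Finset Wv) : Finset Wv' :=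
  univ.filter fun w => cen c w ∈ X

/-- the centres over a set of vertices of the small graph -/
def lft (cen : C → Wv' → Wv) (c : C) (X : Finset Wv') : Finset Wv := X.image (cen c)

/-- the vertices that are not centres -/
def nce (cen : C → Wv' → Wv) (c : C) : Finset Wv := univ.filter fun v => ∀ w, cen c w ≠ v

/-- the restriction -/
def rs (lvi : C → E → Finset E') (c : C) (a : E → Bool) (z : E' → Bool) (i : E) : Bool :=
  xor (a i) (decide (Odd ((lvi c i).filter fun e => z e = true).card))

/-- A stage: centres are different, the live part of a boundary is the boundary of the set of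
centres, every variable of the large graph becomes a parity of at most `D` variables. -/
structure Stg (src tgt : E → Wv) (src' tgt' : E' → Wv') (cen : C → Wv' → Wv)
    (lvi : C → E → Finset E') (D : ℕ) : Prop where
  /-- the centres are different -/
  inj : ∀ c, Function.Injective (cen c)
  /-- live part of a boundary -/
  path : ∀ c X, lv lvi c (bd src tgt X) = bd src' tgt' (cn cen c X)
  /-- bounded size -/
  card : ∀ c i, (lvi c i).card ≤ D

/-- assignments satisfying the axioms of all non-centres -/
noncomputable def Asn (src tgt : E → Wv) (ε : Wv → ℝ) (cen : C → Wv' → Wv) (c : C) :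
    Finset (E → Bool) := by
  classical
  exact univ.filter fun a => ∀ v ∈ nce cen c, chi (bd src tgt {v}) a = ε v

/-- signs of the axioms of the small graph -/
noncomputable def eN (src tgt : E → Wv) (ε : Wv → ℝ) (cen : C → Wv' → Wv) (c : C)
    (a : E → Bool) (w : Wv') : ℝ :=
  ε (cen c w) * chi (bd src tgt {cen c w}) a

/-- distance of the live part of `T` from the boundaries of subsets of `Y` -/
def Nd (src tgt : E → Wv) (lvi : C → E → Finset E') (c : C) (Y : Finset Wv) (T : Finset E) : ℕ :=
  Y.powerset.inf' ⟨∅, by simp⟩ fun X => (lv lvi c (symmDiff T (bd src tgt X))).card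

/-- the weight -/
noncomputable def Ph (src tgt : E → Wv) (lvi : C → E → Finset E') (u : ℝ) (Y : Finset Wv)
    (T : Finset E) : ℝ :=
  ∑ c : C, u ^ Nd src tgt lvi c Y T

/-- the Boolean function `f` after restriction and projection -/
noncomputable def GP (src tgt : E → Wv) (src' tgt' : E' → Wv') (ε : Wv → ℝ)
    (cen : C → Wv' → Wv) (lvi : C → E → Finset E') (c : C) (a : E → Bool)
    (π : Wv' → Finset E') (X : Finset Wv') (f : (E → Bool) → Bool) (z : E' → Bool) : Bool :=
  f (rs lvi c a (PiE src' tgt' (eN src tgt ε cen c a) π X z))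

/-- the sample space of restrictions -/
noncomputable def Omg (src tgt : E → Wv) (ε : Wv → ℝ) (cen : C → Wv' → Wv) :
    Finset (C × (E → Bool)) := by
  classical
  exact univ.filter fun ω => ω.2 ∈ Asn src tgt ε cen ω.1

end Stage

section Net

/-- rows of the butterfly -/
abbrev Al (k : ℕ) : Type := Fin k → Bool

/-- vertices of the blow-up: every vertex of the small graph becomes a butterfly network -/
abbrev NV (Wv' : Type) (k : ℕ) : Type := Wv' × Fin (k + 1) × Al k

/-- edges of the blow-up: for every edge of the small graph a matching between the last columns,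
the edges of the butterflies, and further edges `R` -/
abbrev NE (E' Wv' : Type) (k : ℕ) (R : Type) : Type :=
  (E' × Al k) ⊕ ((Wv' × Fin k × Al k × Bool) ⊕ R)

/-- the choices: a row (centre) for every vertex, a row for every edge of the small graph -/
abbrev Ch (E' Wv' : Type) (k : ℕ) : Type := (Wv' → Al k) × (E' → Al k)

instance instDecNE {E' Wv' : Type} {k : ℕ} {R : Type} [DecidableEq E'] [DecidableEq Wv']
    [DecidableEq R] : DecidableEq (NE E' Wv' k R) :=
  @instDecidableEqSum _ _ inferInstance (@instDecidableEqSum _ _ inferInstance inferInstance)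

variable {E' Wv' R : Type} {k : ℕ}

/-- source -/
def nsrc (src' : E' → Wv') (rsrc : R → NV Wv' k) : NE E' Wv' k R → NV Wv' k
  | Sum.inl v => (src' v.1, Fin.last k, v.2)
  | Sum.inr (Sum.inl v) => (v.1, v.2.1.castSucc, v.2.2.1)
  | Sum.inr (Sum.inr e) => rsrc e

/-- target -/
def ntgt (tgt' : E' → Wv') (rtgt : R → NV Wv' k) : NE E' Wv' k R → NV Wv' k
  | Sum.inl v => (tgt' v.1, Fin.last k, v.2)
  | Sum.inr (Sum.inl v) => (v.1, v.2.1.succ, Function.update v.2.2.1 v.2.1 v.2.2.2)
  | Sum.inr (Sum.inr e) => rtgt e

/-- the row with the first `l` entries of `y` and the other entries of `α` -/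
def mix (l : ℕ) (y α : Al k) : Al k := fun j => if (j : ℕ) < l then y j else α j

/-- the centres -/
def ncen (c : Ch E' Wv' k) (w : Wv') : NV Wv' k := (w, 0, c.1 w)

variable [Fintype E'] [DecidableEq E'] [DecidableEq Wv']

/-- the live variables: the variable `e` of the small graph runs along the path from the centre of
`src' e` through its butterfly to the row `c.2 e` of the last column, through the matching, and
back to the centre of `tgt' e` -/
def nlvi (R : Type) (src' tgt' : E' → Wv') (c : Ch E' Wv' k) : NE E' Wv' k R → Finset E'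
  | Sum.inl v => if c.2 v.1 = v.2 then {v.1} else ∅
  | Sum.inr (Sum.inl v) => univ.filter fun e => (src' e = v.1 ∨ tgt' e = v.1) ∧
      mix (v.2.1 : ℕ) (c.2 e) (c.1 v.1) = v.2.2.1 ∧ c.2 e v.2.1 = v.2.2.2
  | Sum.inr (Sum.inr _) => ∅

end Net

end Pool.Agent.H3.Frg3
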