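import Mathlib
import Pool.Agent.H3.Frg3.Defs

set_option autoImplicit false
set_option linter.unusedSectionVars false

/-!
# Module DEGLEAF: the weighted spectral bound for a Boolean function of degree `t`

`NP Φ f = ∑_S Φ S (W f S)²` (`Frg2/Quad.lean`; there `var_bound` is the case of a variable). Claim: if
`Φ (S Δ {i}) ≤ (1 + η) Φ S` for all `S, i` and the Boolean function `g` has degree `≤ t`
(`Dg (rl g) t`: `W (rl g) T = 0` for `|T| > t`) then `NP Φ (g f) ≤ (1 + 40 ((t+1) η)²) NP Φ f`,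
provided `(t+1) η ≤ 1/100`, `0 < η`.

**Notation.** `ℓ²(Finset V)` with `⟨a, b⟩ = ∑ a T * b T`, `‖a‖² = ⟨a, a⟩`. Let
`(Q a) T = 2^{-|V|} ∑_{T'} W (rl g) (T Δ T') a T'`. Then `Q (W f) = W (g f)` (convolution; from `inversion`,
compare the proof of `Dg_mul` in `Frg/Tseitin.lean` or `W_syn`/`syn` in `Frg/Fourier.lean`: every `a` is
`W f` for some `f`), `Q` is symmetric, `Q² = Q`, and `‖Q a‖ ≤ ‖a‖` (`parseval`, `g` is 0/1-valued).
Let `d T = √(Φ T)`, `Q_d = d Q d⁻¹`, i.e. `(Q_d a) T = d T * Q (a / d) T`. The claim is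
`‖Q_d a‖² ≤ (1 + κ²) ‖a‖²` for `a = d * W f`, with `κ² = 40 ((t+1) η)²`.

**Step 1 (oblique projections).** Let `Q_d^t = d⁻¹ Q d` be the transpose, `K = Q_d - Q_d^t`,
`‖K a‖ ≤ κ ‖a‖` for all `a`. For `y = Q_d x`: `Q_d y = y`, so `Q_d^t y = y - K y` and
`‖y‖² = ⟨y, Q_d x⟩ = ⟨Q_d^t y, x⟩ = ⟨y - K y, x⟩ ≤ ‖y - K y‖ ‖x‖`; `K` is antisymmetric, so
`⟨K y, y⟩ = 0` and `‖y - K y‖² = ‖y‖² + ‖K y‖² ≤ (1 + κ²) ‖y‖²`. Hence `‖y‖² ≤ (1 + κ²) ‖x‖²`.

**Step 2 (bands).** Let `τ = (t+1) η / 2 > 0`, `L T = (1/2) log (Φ T)`, `d T = exp (L T)`. By the Lipschitz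
property (also applied to `S Δ {i}`) `|L (T Δ {i}) - L T| ≤ η / 2`, so `|L T - L T'| ≤ t η / 2 < τ` if
`|T Δ T'| ≤ t`. Let `B j = {T : ⌊L T / τ⌋ = j}`, `j ∈ ℤ`, and `x_j = x · 1_{B j}`. Since
`W (rl g) (T Δ T') = 0` unless `|T Δ T'| ≤ t`, the vectors `Q x_j`, `K x_j` live on
`B (j-1) ∪ B j ∪ B (j+1)`.
Bound `‖K x_j‖ ≤ 7 τ ‖x_j‖`: `K x_j` does not change if `d` is replaced by `d_j = d exp (-j τ)`; on the
three bands `-τ ≤ log d_j < 2 τ`, on `B j` `0 ≤ log d_j < τ`. Write (all norms on the three bands)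
`d_j Q d_j⁻¹ x_j - Q x_j = (d_j - 1) Q d_j⁻¹ x_j + Q (d_j⁻¹ - 1) x_j`, norm
`≤ (exp (2τ) - 1) ‖x_j‖ + (1 - exp (-τ)) ‖x_j‖ ≤ 3.1 τ ‖x_j‖` (`τ ≤ 1/200`), and
`d_j⁻¹ Q d_j x_j - Q x_j = (d_j⁻¹ - 1) Q d_j x_j + Q (d_j - 1) x_j`, norm
`≤ (1 - exp (-2τ)) exp τ ‖x_j‖ + (exp τ - 1) ‖x_j‖ ≤ 3.2 τ ‖x_j‖`
(`|d_j⁻¹ - 1| ≤ max (1 - exp (-2τ)) (exp τ - 1) ≤ 2 τ`).
Every `T` is in three of the sets `B (j-1) ∪ B j ∪ B (j+1)`, so by Cauchy-Schwarz
`‖K x‖² ≤ 3 ∑_j ‖K x_j‖² ≤ 3 * 49 τ² ‖x‖² = 147 τ² ‖x‖² ≤ 40 ((t+1) η)² ‖x‖²` (the sum is over the finitely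
many `j` in the image of `T ↦ ⌊L T / τ⌋`).
-/

namespace Pool.Agent.H3.Frg3

open Finset Pool.Agent.H3.Frg Pool.Agent.H3.Frg2

variable {V : Type} [Fintype V] [DecidableEq V]

namespace DegLeaf

section Abstract

variable {ι : Type} [Fintype ι]

/-- application of a kernel -/
def ap (Q : ι → ι → ℝ) (a : ι → ℝ) (T : ι) : ℝ := ∑ T', Q T T' * a T'

theorem abs_exp_sub_one {m τ : ℝ} (hτ' : τ ≤ 1 / 200) (hm : |m| ≤ 2 * τ) :
    |Real.exp m - 1| ≤ 2.02 * τ := by
  have h0 : 0 ≤ |m| := abs_nonneg m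
  have h1 : |m| ≤ 1 := by linarith
  have h2 := Real.abs_exp_sub_one_sub_id_le h1
  have h3 : |Real.exp m - 1| ≤ |Real.exp m - 1 - m| + |m| := by
    have := abs_add_le (Real.exp m - 1 - m) m
    simpa using this
  have h4 : m ^ 2 ≤ (2 * τ) ^ 2 := by
    rw [← sq_abs m]
    exact pow_le_pow_left₀ h0 hm 2
  nlinarith

theorem sq_three (a b c : ℝ) : (a + b + c) ^ 2 ≤ 3 * (a ^ 2 + b ^ 2 + c ^ 2) := by
  nlinarith [sq_nonneg (a - b), sq_nonneg (b - c), sq_nonneg (a - c)]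

/-- the antisymmetric kernel -/
noncomputable def kk (Q : ι → ι → ℝ) (L : ι → ℝ) (x : ι → ℝ) (T : ι) : ℝ :=
  ∑ T', Q T T' * (Real.exp (L T - L T') - Real.exp (L T' - L T)) * x T'

theorem band_one {Q : ι → ι → ℝ} (hc : ∀ a : ι → ℝ, ∑ T, ap Q a T ^ 2 ≤ ∑ T, a T ^ 2)
    {L : ι → ℝ} {τ : ℝ} (hτ : 0 < τ) (hτ' : τ ≤ 1 / 200)
    (hQ : ∀ T T', Q T T' ≠ 0 → |L T - L T'| < τ) (c : ℝ) {x : ι → ℝ}
    (hx : ∀ T, x T ≠ 0 → c ≤ L T ∧ L T < c + τ) :
    ∑ T, kk Q L x T ^ 2 ≤ 37 * τ ^ 2 * ∑ T, x T ^ 2 := by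
  set a1 : ι → ℝ := fun T => Real.exp (c - L T) * x T with ha1
  set a2 : ι → ℝ := fun T => Real.exp (L T - c) * x T with ha2
  set a3 : ι → ℝ := fun T => (Real.exp (c - L T) - Real.exp (L T - c)) * x T with ha3
  have hexp : Real.exp τ ≤ 1.0101 := by
    have := abs_exp_sub_one (m := τ) hτ' (by rw [abs_of_pos hτ]; linarith)
    have := (abs_le.mp this).2
    linarith
  have h1 : ∀ T, a1 T ^ 2 ≤ x T ^ 2 := by
    intro T
    by_cases h0 : x T = 0
    · simp [ha1, h0]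
    · have h2 := hx T h0
      have h3 : Real.exp (c - L T) ≤ 1 := by
        rw [← Real.exp_zero]; exact Real.exp_le_exp.mpr (by linarith)
      have h4 : 0 < Real.exp (c - L T) := Real.exp_pos _
      rw [ha1]
      simp only [mul_pow]
      have h5 : Real.exp (c - L T) ^ 2 ≤ 1 := pow_le_one₀ h4.le h3
      nlinarith [sq_nonneg (x T)]
  have h2 : ∀ T, a2 T ^ 2 ≤ 1.0205 * x T ^ 2 := by
    intro T
    by_cases h0 : x T = 0
    · simp [ha2, h0]
    · have h2 := hx T h0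
      have h3 : Real.exp (L T - c) ≤ 1.0101 :=
        (Real.exp_le_exp.mpr (by linarith)).trans hexp
      have h4 : 0 < Real.exp (L T - c) := Real.exp_pos _
      rw [ha2]
      simp only [mul_pow]
      have h5 : Real.exp (L T - c) ^ 2 ≤ 1.0101 ^ 2 := pow_le_pow_left₀ h4.le h3 2
      nlinarith [sq_nonneg (x T)]
  have h3 : ∀ T, a3 T ^ 2 ≤ (2.01 * τ) ^ 2 * x T ^ 2 := by
    intro T
    by_cases h0 : x T = 0
    · simp [ha3, h0]
    · have h2 := hx T h0
      set m := L T - c with hm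
      have hm' : c - L T = -m := by rw [hm]; ring
      have hm0 : 0 ≤ m := by rw [hm]; linarith
      have hm1 : m ≤ τ := by rw [hm]; linarith
      have e1 : Real.exp m ≤ 1 + m + m ^ 2 := by
        have := Real.abs_exp_sub_one_sub_id_le (x := m) (by rw [abs_of_nonneg hm0]; linarith)
        have := (abs_le.mp this).2
        linarith
      have e2 : 1 - m ≤ Real.exp (-m) := by
        have := Real.add_one_le_exp (-m); linarith
      have e3 : Real.exp (-m) ≤ Real.exp m := Real.exp_le_exp.mpr (by linarith)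
      have e4 : (Real.exp (-m) - Real.exp m) ^ 2 ≤ (2.01 * τ) ^ 2 := by
        rw [← neg_sub, neg_sq]
        refine pow_le_pow_left₀ (by linarith) ?_ 2
        nlinarith
      have e5 : a3 T = (Real.exp (-m) - Real.exp m) * x T := by
        rw [ha3, hm]
        simp only
        rw [show -(L T - c) = c - L T by ring]
      rw [e5, mul_pow]
      exact mul_le_mul_of_nonneg_right e4 (sq_nonneg _)
  have key : ∀ T, kk Q L x T ^ 2 ≤ 3 * ((2.02 * τ) ^ 2 * ap Q a1 T ^ 2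
      + (2.02 * τ) ^ 2 * ap Q a2 T ^ 2 + ap Q a3 T ^ 2) := by
    intro T
    by_cases h0 : ∃ T', Q T T' ≠ 0 ∧ x T' ≠ 0
    · obtain ⟨T', hT1, hT2⟩ := h0
      have h4 := hQ T T' hT1
      have h5 := hx T' hT2
      have h6 := abs_lt.mp h4
      have h7 : |L T - c| ≤ 2 * τ := abs_le.mpr ⟨by linarith, by linarith⟩
      have h8 : |c - L T| ≤ 2 * τ := by rw [abs_sub_comm]; exact h7
      have h9 := abs_exp_sub_one hτ' h7
      have h10 := abs_exp_sub_one hτ' h8
      have h11 : kk Q L x T = (Real.exp (L T - c) - 1) * ap Q a1 T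
          + (-(Real.exp (c - L T) - 1) * ap Q a2 T) + ap Q a3 T := by
        unfold kk ap
        rw [Finset.mul_sum, Finset.mul_sum, ← Finset.sum_add_distrib, ← Finset.sum_add_distrib]
        refine Finset.sum_congr rfl fun S _ => ?_
        have e1 : Real.exp (L T - L S) = Real.exp (L T - c) * Real.exp (c - L S) := by
          rw [← Real.exp_add]; congr 1; ring
        have e2 : Real.exp (L S - L T) = Real.exp (c - L T) * Real.exp (L S - c) := by
          rw [← Real.exp_add]; congr 1; ring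
        rw [e1, e2, ha1, ha2, ha3]
        ring
      rw [h11]
      refine (sq_three _ _ _).trans ?_
      have h12 : ((Real.exp (L T - c) - 1) * ap Q a1 T) ^ 2 ≤ (2.02 * τ) ^ 2 * ap Q a1 T ^ 2 := by
        rw [mul_pow, ← sq_abs (Real.exp (L T - c) - 1)]
        exact mul_le_mul_of_nonneg_right (pow_le_pow_left₀ (abs_nonneg _) h9 2) (sq_nonneg _)
      have h13 : (-(Real.exp (c - L T) - 1) * ap Q a2 T) ^ 2 ≤ (2.02 * τ) ^ 2 * ap Q a2 T ^ 2 := by
        rw [mul_pow, neg_sq, ← sq_abs (Real.exp (c - L T) - 1)]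
        exact mul_le_mul_of_nonneg_right (pow_le_pow_left₀ (abs_nonneg _) h10 2) (sq_nonneg _)
      linarith
    · push Not at h0
      have h4 : kk Q L x T = 0 := by
        unfold kk
        refine Finset.sum_eq_zero fun T' _ => ?_
        by_cases h5 : Q T T' = 0
        · rw [h5]; ring
        · rw [h0 T' h5]; ring
      rw [h4, zero_pow two_ne_zero]
      positivity
  calc ∑ T, kk Q L x T ^ 2
      ≤ ∑ T, 3 * ((2.02 * τ) ^ 2 * ap Q a1 T ^ 2
      + (2.02 * τ) ^ 2 * ap Q a2 T ^ 2 + ap Q a3 T ^ 2) := Finset.sum_le_sum fun T _ => key T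
    _ = 3 * ((2.02 * τ) ^ 2 * ∑ T, ap Q a1 T ^ 2
      + (2.02 * τ) ^ 2 * ∑ T, ap Q a2 T ^ 2 + ∑ T, ap Q a3 T ^ 2) := by
        rw [← Finset.mul_sum, Finset.sum_add_distrib, Finset.sum_add_distrib, ← Finset.mul_sum,
          ← Finset.mul_sum]
    _ ≤ 3 * ((2.02 * τ) ^ 2 * ∑ T, x T ^ 2
      + (2.02 * τ) ^ 2 * (1.0205 * ∑ T, x T ^ 2) + (2.01 * τ) ^ 2 * ∑ T, x T ^ 2) := by
        have e1 : ∑ T, ap Q a1 T ^ 2 ≤ ∑ T, x T ^ 2 :=
          (hc a1).trans (Finset.sum_le_sum fun T _ => h1 T)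
        have e2 : ∑ T, ap Q a2 T ^ 2 ≤ 1.0205 * ∑ T, x T ^ 2 := by
          refine (hc a2).trans ?_
          rw [Finset.mul_sum]
          exact Finset.sum_le_sum fun T _ => h2 T
        have e3 : ∑ T, ap Q a3 T ^ 2 ≤ (2.01 * τ) ^ 2 * ∑ T, x T ^ 2 := by
          refine (hc a3).trans ?_
          rw [Finset.mul_sum]
          exact Finset.sum_le_sum fun T _ => h3 T
        have e4 : 0 ≤ (2.02 * τ) ^ 2 := sq_nonneg _
        have e5 := mul_le_mul_of_nonneg_left e1 e4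
        have e6 := mul_le_mul_of_nonneg_left e2 e4
        linarith
    _ ≤ 37 * τ ^ 2 * ∑ T, x T ^ 2 := by
        have e1 : 0 ≤ ∑ T, x T ^ 2 := Finset.sum_nonneg fun T _ => sq_nonneg _
        have e2 : 0 ≤ τ ^ 2 * ∑ T, x T ^ 2 := mul_nonneg (sq_nonneg _) e1
        nlinarith

theorem K_bound {Q : ι → ι → ℝ} (hc : ∀ a : ι → ℝ, ∑ T, ap Q a T ^ 2 ≤ ∑ T, a T ^ 2)
    {L : ι → ℝ} {τ : ℝ} (hτ : 0 < τ) (hτ' : τ ≤ 1 / 200)
    (hQ : ∀ T T', Q T T' ≠ 0 → |L T - L T'| < τ) (x : ι → ℝ) :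
    ∑ T, kk Q L x T ^ 2 ≤ 111 * τ ^ 2 * ∑ T, x T ^ 2 := by
  classical
  set k : ι → ℤ := fun T => ⌊L T / τ⌋ with hk
  set J : Finset ℤ := Finset.univ.image k with hJ
  let xj : ℤ → ι → ℝ := fun j T => if k T = j then x T else 0
  have hmem : ∀ T, k T ∈ J := fun T => Finset.mem_image_of_mem _ (Finset.mem_univ T)
  have hxs : ∀ T, x T = ∑ j ∈ J, xj j T := by
    intro T
    rw [Finset.sum_ite_eq J (k T) (fun _ => x T), if_pos (hmem T)]
  have hxsq : ∀ T, ∑ j ∈ J, xj j T ^ 2 = x T ^ 2 := by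
    intro T
    have : ∀ j ∈ J, xj j T ^ 2 = if k T = j then x T ^ 2 else 0 := by
      intro j _
      simp only [xj]
      split_ifs <;> simp
    rw [Finset.sum_congr rfl this, Finset.sum_ite_eq J (k T) (fun _ => x T ^ 2),
      if_pos (hmem T)]
  have hks : ∀ T, kk Q L x T = ∑ j ∈ J, kk Q L (xj j) T := by
    intro T
    unfold kk
    rw [Finset.sum_comm]
    refine Finset.sum_congr rfl fun T' _ => ?_
    rw [← Finset.mul_sum, ← hxs]
  have hband : ∀ j T, xj j T ≠ 0 → (j:ℝ) * τ ≤ L T ∧ L T < (j:ℝ) * τ + τ := by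
    intro j T h0
    have h1 : k T = j := by
      by_contra h2
      exact h0 (by simp [xj, h2])
    have h2 : (j:ℝ) ≤ L T / τ := by rw [← h1]; exact Int.floor_le _
    have h3 : L T / τ < (j:ℝ) + 1 := by rw [← h1]; exact Int.lt_floor_add_one _
    rw [le_div_iff₀ hτ] at h2
    rw [div_lt_iff₀ hτ] at h3
    exact ⟨h2, by linarith⟩
  have hsupp : ∀ T j, kk Q L (xj j) T ≠ 0 → j ∈ ({k T - 1, k T, k T + 1} : Finset ℤ) := by
    intro T j h0
    unfold kk at h0
    obtain ⟨T', -, h1⟩ := Finset.exists_ne_zero_of_sum_ne_zero h0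
    have hQ0 : Q T T' ≠ 0 := fun h => h1 (by rw [h]; ring)
    have hx0 : xj j T' ≠ 0 := fun h => h1 (by rw [h]; ring)
    have h2 := abs_lt.mp (hQ T T' hQ0)
    have h3 := hband j T' hx0
    have h4 : (k T : ℝ) * τ ≤ L T := by
      have := Int.floor_le (L T / τ)
      rwa [le_div_iff₀ hτ] at this
    have h5 : L T < ((k T : ℝ) + 1) * τ := by
      have := Int.lt_floor_add_one (L T / τ)
      rwa [div_lt_iff₀ hτ] at this
    have h6 : (k T : ℝ) < (j:ℝ) + 2 := by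
      by_contra h
      push Not at h
      have := mul_le_mul_of_nonneg_right h hτ.le
      linarith
    have h7 : (j : ℝ) < (k T:ℝ) + 2 := by
      by_contra h
      push Not at h
      have := mul_le_mul_of_nonneg_right h hτ.le
      linarith
    have h8 : k T < j + 2 := by exact_mod_cast h6
    have h9 : j < k T + 2 := by exact_mod_cast h7
    simp only [Finset.mem_insert, Finset.mem_singleton]
    omega
  have hCS : ∀ T, kk Q L x T ^ 2 ≤ 3 * ∑ j ∈ J, kk Q L (xj j) T ^ 2 := by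
    intro T
    rw [hks]
    set S3 : Finset ℤ := {k T - 1, k T, k T + 1}
    have h1 : ∑ j ∈ J, kk Q L (xj j) T = ∑ j ∈ J.filter (· ∈ S3), kk Q L (xj j) T := by
      rw [Finset.sum_filter]
      refine Finset.sum_congr rfl fun j _ => ?_
      split_ifs with h
      · rfl
      · by_contra h0
        exact h (hsupp T j h0)
    have h2 : ((J.filter (· ∈ S3)).card : ℝ) ≤ 3 := by
      have h3 : J.filter (· ∈ S3) ⊆ S3 := fun j hj => (Finset.mem_filter.mp hj).2
      have h4 := (Finset.card_le_card h3).trans Finset.card_le_three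
      exact_mod_cast h4
    rw [h1]
    calc (∑ j ∈ J.filter (· ∈ S3), kk Q L (xj j) T) ^ 2
        ≤ ((J.filter (· ∈ S3)).card : ℝ) * ∑ j ∈ J.filter (· ∈ S3), kk Q L (xj j) T ^ 2 :=
          sq_sum_le_card_mul_sum_sq
      _ ≤ 3 * ∑ j ∈ J.filter (· ∈ S3), kk Q L (xj j) T ^ 2 :=
          mul_le_mul_of_nonneg_right h2 (Finset.sum_nonneg fun _ _ => sq_nonneg _)
      _ ≤ 3 * ∑ j ∈ J, kk Q L (xj j) T ^ 2 := by
          refine mul_le_mul_of_nonneg_left ?_ (by norm_num)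
          exact Finset.sum_le_sum_of_subset_of_nonneg (Finset.filter_subset _ _)
            fun _ _ _ => sq_nonneg _
  calc ∑ T, kk Q L x T ^ 2 ≤ ∑ T, 3 * ∑ j ∈ J, kk Q L (xj j) T ^ 2 :=
        Finset.sum_le_sum fun T _ => hCS T
    _ = 3 * ∑ j ∈ J, ∑ T, kk Q L (xj j) T ^ 2 := by
        rw [← Finset.mul_sum, Finset.sum_comm]
    _ ≤ 3 * ∑ j ∈ J, 37 * τ ^ 2 * ∑ T, xj j T ^ 2 := by
        refine mul_le_mul_of_nonneg_left (Finset.sum_le_sum fun j _ => ?_) (by norm_num)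
        exact band_one hc hτ hτ' hQ ((j:ℝ) * τ) (hband j)
    _ = 111 * τ ^ 2 * ∑ T, x T ^ 2 := by
        rw [← Finset.mul_sum, Finset.sum_comm]
        simp only [hxsq]
        ring

/-- oblique projections -/
theorem oblique {Q : ι → ι → ℝ} (hs : ∀ T T', Q T T' = Q T' T)
    (hp : ∀ (a : ι → ℝ) T, ap Q (ap Q a) T = ap Q a T) {L : ι → ℝ} {κ : ℝ} (hκ : 0 ≤ κ)
    (hK : ∀ x : ι → ℝ, ∑ T, kk Q L x T ^ 2 ≤ κ * ∑ T, x T ^ 2) (x : ι → ℝ) :
    ∑ T, (∑ T', Q T T' * Real.exp (L T - L T') * x T') ^ 2 ≤ (1 + κ) * ∑ T, x T ^ 2 := by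
  set u : ι → ℝ := fun T => Real.exp (-L T) * x T with hu
  set y : ι → ℝ := fun T => Real.exp (L T) * ap Q u T with hy
  have hyy : ∀ T, ∑ T', Q T T' * Real.exp (L T - L T') * x T' = y T := by
    intro T
    rw [hy, hu]
    simp only [ap]
    rw [Finset.mul_sum]
    refine Finset.sum_congr rfl fun T' _ => ?_
    rw [sub_eq_add_neg, Real.exp_add]
    ring
  have hQs : ∀ a b : ι → ℝ, ∑ T, ap Q a T * b T = ∑ T, a T * ap Q b T := by
    intro a b
    simp only [ap, Finset.sum_mul, Finset.mul_sum]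
    rw [Finset.sum_comm]
    refine Finset.sum_congr rfl fun T _ => Finset.sum_congr rfl fun T' _ => ?_
    rw [hs T' T]; ring
  set z : ι → ℝ := fun T => Real.exp (-L T) * ap Q (fun S => Real.exp (L S) * y S) T with hz
  have hw : ∀ T, kk Q L y T = y T - z T := by
    intro T
    have e1 : y T = Real.exp (L T) * ap Q (fun S => Real.exp (-L S) * y S) T := by
      have e2 : (fun S => Real.exp (-L S) * y S) = ap Q u := by
        funext S
        rw [hy]
        simp only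
        rw [← mul_assoc, ← Real.exp_add]
        simp
      rw [e2, hp]
    conv_rhs => rw [e1, hz]
    simp only [kk, ap]
    rw [Finset.mul_sum, Finset.mul_sum, ← Finset.sum_sub_distrib]
    refine Finset.sum_congr rfl fun T' _ => ?_
    have e3 : Real.exp (L T - L T') = Real.exp (L T) * Real.exp (-L T') := by
      rw [← Real.exp_add]; rfl
    have e4 : Real.exp (L T' - L T) = Real.exp (L T') * Real.exp (-L T) := by
      rw [← Real.exp_add]; rfl
    rw [e3, e4]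
    ring
  have hzx : ∑ T, y T * y T = ∑ T, z T * x T := by
    have e1 : ∀ T, y T * y T = ap Q u T * (Real.exp (L T) * y T) := by
      intro T
      rw [hy]; ring
    simp only [e1]
    rw [hQs]
    refine Finset.sum_congr rfl fun T _ => ?_
    rw [hu, hz]; ring
  have hzy : ∑ T, z T * y T = ∑ T, y T * y T := by
    have e1 : ∀ T, z T * y T = ap Q (fun S => Real.exp (L S) * y S) T * ap Q u T := by
      intro T
      rw [hz]
      simp only
      have : y T = Real.exp (L T) * ap Q u T := rfl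
      rw [this]
      have e2 : Real.exp (-L T) * Real.exp (L T) = 1 := by rw [← Real.exp_add]; simp
      linear_combination (ap Q (fun S => Real.exp (L S) * y S) T * ap Q u T) * e2
    simp only [e1]
    rw [hQs]
    refine Finset.sum_congr rfl fun T _ => ?_
    rw [hp]
    have : y T = Real.exp (L T) * ap Q u T := rfl
    rw [this]; ring
  have hN : ∑ T, z T ^ 2 ≤ (1 + κ) * ∑ T, y T ^ 2 := by
    have e1 : ∑ T, z T ^ 2 = ∑ T, kk Q L y T ^ 2 + 2 * ∑ T, z T * y T - ∑ T, y T ^ 2 := by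
      rw [Finset.mul_sum, ← Finset.sum_add_distrib, ← Finset.sum_sub_distrib]
      refine Finset.sum_congr rfl fun T _ => ?_
      rw [hw]; ring
    have e2 : ∑ T, y T * y T = ∑ T, y T ^ 2 := Finset.sum_congr rfl fun T _ => by ring
    rw [e1, hzy, e2]
    have := hK y
    linarith
  simp only [hyy]
  have hy0 : 0 ≤ ∑ T, y T ^ 2 := Finset.sum_nonneg fun _ _ => sq_nonneg _
  have hx0 : 0 ≤ ∑ T, x T ^ 2 := Finset.sum_nonneg fun _ _ => sq_nonneg _
  have hCS := Finset.sum_mul_sq_le_sq_mul_sq Finset.univ z x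
  have e2 : ∑ T, y T * y T = ∑ T, y T ^ 2 := Finset.sum_congr rfl fun T _ => by ring
  rw [← hzx, e2] at hCS
  rcases hy0.eq_or_lt with h0 | h0
  · rw [← h0]; positivity
  · have h1 : (∑ T, y T ^ 2) ^ 2 ≤ ((1 + κ) * ∑ T, y T ^ 2) * ∑ T, x T ^ 2 :=
      hCS.trans (mul_le_mul_of_nonneg_right hN hx0)
    refine le_of_mul_le_mul_left ?_ h0
    calc (∑ T, y T ^ 2) * ∑ T, y T ^ 2 = (∑ T, y T ^ 2) ^ 2 := by ring
      _ ≤ ((1 + κ) * ∑ T, y T ^ 2) * ∑ T, x T ^ 2 := h1
      _ = _ := by ring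

end Abstract

theorem phi_pow {Φ : Finset V → ℝ} (hΦ : ∀ S, 0 < Φ S) {η : ℝ} (hη : 0 < η)
    (hlip : ∀ S i, Φ (symmDiff S {i}) ≤ (1 + η) * Φ S) (S R : Finset V) :
    Φ (symmDiff S R) ≤ (1 + η) ^ R.card * Φ S := by
  induction R using Finset.induction_on with
  | empty =>
    have h1 : symmDiff S ∅ = S := by rw [← Finset.bot_eq_empty, symmDiff_bot]
    rw [h1]
    simp
  | insert i R hi ih =>
    have h1 : symmDiff S (insert i R) = symmDiff (symmDiff S R) {i} := by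
      rw [symmDiff_assoc]
      congr 1
      ext j
      simp only [Finset.mem_insert, Finset.mem_symmDiff, Finset.mem_singleton]
      by_cases h : j = i
      · subst h; simp [hi]
      · simp [h]
    rw [h1, Finset.card_insert_of_notMem hi]
    refine (hlip _ i).trans ?_
    have h2 : 0 < 1 + η := by linarith
    calc (1 + η) * Φ (symmDiff S R) ≤ (1 + η) * ((1 + η) ^ R.card * Φ S) :=
          mul_le_mul_of_nonneg_left ih h2.le
      _ = _ := by ring

theorem log_le {Φ : Finset V → ℝ} (hΦ : ∀ S, 0 < Φ S) {η : ℝ} (hη : 0 < η)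
    (hlip : ∀ S i, Φ (symmDiff S {i}) ≤ (1 + η) * Φ S) (S T : Finset V) :
    Real.log (Φ T) - Real.log (Φ S) ≤ (symmDiff S T).card * η := by
  have h1 := phi_pow hΦ hη hlip S (symmDiff S T)
  rw [symmDiff_symmDiff_cancel_left] at h1
  have h2 : 0 < 1 + η := by linarith
  have h3 := Real.log_le_log (hΦ T) h1
  rw [Real.log_mul (by positivity) (hΦ S).ne', Real.log_pow] at h3
  have h4 : Real.log (1 + η) ≤ η := by
    have := Real.log_le_sub_one_of_pos h2
    linarith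
  have h5 : ((symmDiff S T).card : ℝ) * Real.log (1 + η) ≤ (symmDiff S T).card * η :=
    mul_le_mul_of_nonneg_left h4 (Nat.cast_nonneg _)
  linarith

/-- the kernel of the multiplication by `g` -/
noncomputable def qk (g : (V → Bool) → ℝ) (T T' : Finset V) : ℝ :=
  ((2:ℝ) ^ Fintype.card V)⁻¹ * W g (symmDiff T T')

theorem ap_qk (g f : (V → Bool) → ℝ) (T : Finset V) :
    ap (qk g) (W f) T = W (fun x => g x * f x) T := by
  have h0 : (2:ℝ) ^ Fintype.card V ≠ 0 := by positivity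
  have h1 : (2:ℝ) ^ Fintype.card V * ap (qk g) (W f) T =
      (2:ℝ) ^ Fintype.card V * W (fun x => g x * f x) T := by
    have h2 : (2:ℝ) ^ Fintype.card V * ap (qk g) (W f) T =
        ∑ T', ∑ x, g x * chi T x * (W f T' * chi T' x) := by
      unfold ap qk
      rw [Finset.mul_sum]
      refine Finset.sum_congr rfl fun T' _ => ?_
      have h3 : (2:ℝ) ^ Fintype.card V * (((2:ℝ) ^ Fintype.card V)⁻¹ * W g (symmDiff T T') * W f T')
          = W g (symmDiff T T') * W f T' := by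
        field_simp
      rw [h3]
      conv_lhs => rw [W]
      rw [Finset.sum_mul]
      refine Finset.sum_congr rfl fun x _ => ?_
      rw [← chi_mul]; ring
    rw [h2, Finset.sum_comm]
    simp only [← Finset.mul_sum, inversion]
    rw [W, Finset.mul_sum]
    exact Finset.sum_congr rfl fun x _ => by ring
  exact mul_left_cancel₀ h0 h1

theorem exists_W (a : Finset V → ℝ) : ∃ f : (V → Bool) → ℝ, W f = a := by
  refine ⟨syn fun S => ((2:ℝ) ^ Fintype.card V)⁻¹ * a S, ?_⟩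
  funext S
  rw [W_syn]
  have h0 : (2:ℝ) ^ Fintype.card V ≠ 0 := by positivity
  field_simp

end DegLeaf

open DegLeaf

theorem deg_bound {Φ : Finset V → ℝ} (hΦ : ∀ S, 0 < Φ S) {η : ℝ} (hη : 0 < η)
    (hlip : ∀ S i, Φ (symmDiff S {i}) ≤ (1 + η) * Φ S) (g : (V → Bool) → Bool) (t : ℕ)
    (hg : Dg (rl g) t) (ht : ((t:ℝ) + 1) * η ≤ 1 / 100) (f : (V → Bool) → ℝ) :
    NP Φ (fun x => rl g x * f x) ≤ (1 + 40 * (((t:ℝ) + 1) * η) ^ 2) * NP Φ f := by
  have hgg : ∀ x, rl g x * rl g x = rl g x := by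
    intro x; unfold rl; split_ifs <;> norm_num
  set Q := qk (rl g) with hQdef
  set τ : ℝ := ((t:ℝ) + 1) * η / 2 with hτdef
  have hτ : 0 < τ := by positivity
  have hτ' : τ ≤ 1 / 200 := by linarith
  set L : Finset V → ℝ := fun T => Real.log (Φ T) / 2 with hL
  have hs : ∀ T T', Q T T' = Q T' T := by
    intro T T'
    rw [hQdef]; unfold qk; rw [symmDiff_comm]
  have hp : ∀ (a : Finset V → ℝ) T, ap Q (ap Q a) T = ap Q a T := by
    intro a T
    obtain ⟨f, rfl⟩ := exists_W a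
    have h1 : ap Q (W f) = W (fun x => rl g x * f x) := funext fun T => ap_qk (rl g) f T
    rw [h1, hQdef, ap_qk]
    congr 1
    funext x
    rw [← mul_assoc, hgg]
  have hc : ∀ a : Finset V → ℝ, ∑ T, ap Q a T ^ 2 ≤ ∑ T, a T ^ 2 := by
    intro a
    obtain ⟨f, rfl⟩ := exists_W a
    simp only [hQdef, ap_qk]
    rw [parseval, parseval]
    refine mul_le_mul_of_nonneg_left (Finset.sum_le_sum fun x _ => ?_) (by positivity)
    have h1 : rl g x = 0 ∨ rl g x = 1 := by unfold rl; split_ifs <;> simp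
    rcases h1 with h1 | h1 <;> rw [h1] <;> nlinarith [sq_nonneg (f x)]
  have hQ0 : ∀ T T', Q T T' ≠ 0 → |L T - L T'| < τ := by
    intro T T' h
    have h1 : (symmDiff T T').card ≤ t := by
      by_contra h2
      push Not at h2
      exact h (by rw [hQdef]; unfold qk; rw [hg _ h2, mul_zero])
    have h2 := log_le hΦ hη hlip T T'
    have h3 := log_le hΦ hη hlip T' T
    rw [symmDiff_comm T' T] at h3
    have h4 : ((symmDiff T T').card : ℝ) * η ≤ t * η :=
      mul_le_mul_of_nonneg_right (by exact_mod_cast h1) hη.le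
    rw [abs_lt, hL, hτdef]
    constructor <;> simp only <;> linarith
  have hK := fun x => K_bound hc hτ hτ' hQ0 x
  have h := oblique hs hp (by positivity) hK (fun T => Real.exp (L T) * W f T)
  have hd : ∀ T, Real.exp (L T) ^ 2 = Φ T := by
    intro T
    rw [← Real.exp_nat_mul, hL]
    simp only
    rw [show ((2:ℕ):ℝ) * (Real.log (Φ T) / 2) = Real.log (Φ T) by push_cast; ring,
      Real.exp_log (hΦ T)]
  have h1 : ∀ T, (∑ T', Q T T' * Real.exp (L T - L T') * (Real.exp (L T') * W f T')) ^ 2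
      = Φ T * W (fun x => rl g x * f x) T ^ 2 := by
    intro T
    have h2 : ∑ T', Q T T' * Real.exp (L T - L T') * (Real.exp (L T') * W f T')
        = Real.exp (L T) * W (fun x => rl g x * f x) T := by
      rw [← ap_qk, ap, Finset.mul_sum]
      refine Finset.sum_congr rfl fun T' _ => ?_
      have h3 : Real.exp (L T - L T') * Real.exp (L T') = Real.exp (L T) := by
        rw [← Real.exp_add]; congr 1; ring
      rw [← h3, hQdef]; ring
    rw [h2, mul_pow, hd]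
  have h2 : ∀ T, (Real.exp (L T) * W f T) ^ 2 = Φ T * W f T ^ 2 := by
    intro T
    rw [mul_pow, hd]
  simp only [h1, h2] at h
  unfold NP
  refine h.trans ?_
  refine mul_le_mul_of_nonneg_right ?_ (NP_nonneg hΦ f)
  rw [hτdef]
  nlinarith [sq_nonneg (((t:ℝ) + 1) * η)]

end Pool.Agent.H3.Frg3
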