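import Mathlib
import Pool.Agent.H3.Frg3.Defs

set_option autoImplicit false
set_option linter.unusedSectionVars false

/-!
# Module JUNTA: a Boolean function of degree `t` depends on at most `4 t 2^t` variables

`W f S = ∑_x f x χ_S(x)`, `Dg f t`: `W f T = 0` for `|T| > t`.

**(1) Nonzero points.** If `h : (V → Bool) → ℝ` is not zero and `Dg h t` then `h x ≠ 0` for at least
`2^(n-t)` points `x` (`n = |V|`), i.e. `2^n ≤ 2^t * #{x | h x ≠ 0}`. Proof: choose `R` of maximal cardinality with
`W h R ≠ 0`, `m = |R| ≤ t`. For every assignment `y` to the variables outside `R` consider the `2^m` points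
`x` that agree with `y` outside `R`: `∑ over them of h x χ_R(x)` equals, by `inversion`,
`2^{-n} ∑_S W h S ∑_x χ_S(x) χ_R(x)`, and the inner sum is `0` unless `R ⊆ S`; for `R ⊊ S` `W h S = 0` by
maximality, so only `S = R` remains and the value is `2^{m-n} W h R ≠ 0`. So in every one of these
`2^(n-m)` disjoint sets there is a point with `h x ≠ 0`.
(Compare `gran`, `gran_inner` in `Pool/Agent/H3/Frg2/Gran.lean`. The points can be written as
`fun i => if i ∈ R then decide (i ∈ T) else y i`.)

**(2) Influences.** For `i : V` let `h_i x = rl g x - rl g (x with i flipped)`. Then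
`W h_i T = if i ∈ T then 2 * W (rl g) T else 0` (compare `W_ind_supp` in `Frg2/Small.lean`), so `Dg h_i t`,
`h_i x ^ 2 ≤ 1`, and by `parseval`
`∑_i ∑_x h_i x ^ 2 = 2^{-n} ∑_T 4 |T| (W (rl g) T)^2 ≤ 4 t * 2^{-n} ∑_T (W (rl g) T)^2 = 4 t ∑_x (rl g x)^2 ≤ 4 t 2^n`.

**(3)** Let `S = {i | ∃ T, i ∈ T ∧ W (rl g) T ≠ 0}`. For `i ∈ S` the function `h_i` is not zero, so by (1)
`∑_x h_i x ^ 2 = #{x | h_i x ≠ 0} ≥ 2^(n-t)`. Hence `|S| 2^(n-t) ≤ 4 t 2^n`, `|S| ≤ 4 t 2^t`.
-/

namespace Pool.Agent.H3.Frg3

open Finset Pool.Agent.H3.Frg Pool.Agent.H3.Frg2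

variable {V : Type} [Fintype V] [DecidableEq V]

/-- flip the variable `i` -/
def jflip (i : V) (x : V → Bool) : V → Bool := Function.update x i (!x i)

theorem jflip_flip (i : V) (x : V → Bool) : jflip i (jflip i x) = x := by
  simp only [jflip, Function.update_self, Bool.not_not, Function.update_idem,
        Function.update_eq_self]

theorem chi_jflip (i : V) (T : Finset V) (x : V → Bool) :
    chi T (jflip i x) = if i ∈ T then - chi T x else chi T x := by
  unfold chi
  split_ifs with hi
  · rw [← Finset.mul_prod_erase T _ hi, ← Finset.mul_prod_erase T _ hi, ← neg_mul]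
    congr 1
    · show sg (Function.update x i (!x i) i) = _
      rw [Function.update_self]
      cases x i <;> simp [sg]
    · refine Finset.prod_congr rfl fun j hj => ?_
      show sg (Function.update x i (!x i) j) = _
      rw [Function.update_of_ne (Finset.ne_of_mem_erase hj)]
  · refine Finset.prod_congr rfl fun j hj => ?_
    show sg (Function.update x i (!x i) j) = _
    rw [Function.update_of_ne]
    rintro rfl
    exact hi hj

theorem W_jflip (f : (V → Bool) → ℝ) (i : V) (T : Finset V) :
    W (fun x => f x - f (jflip i x)) T = if i ∈ T then 2 * W f T else 0 := by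
  let φ : Equiv.Perm (V → Bool) := Function.Involutive.toPerm (jflip i) (jflip_flip i)
  have h1 : ∑ x : V → Bool, f (jflip i x) * chi T x = ∑ x : V → Bool, f x * chi T (jflip i x) := by
    rw [← Equiv.sum_comp φ (fun x => f (jflip i x) * chi T x)]
    refine Finset.sum_congr rfl fun x _ => ?_
    show f (jflip i (jflip i x)) * chi T (jflip i x) = _
    rw [jflip_flip]
  unfold W
  simp only [sub_mul]
  rw [Finset.sum_sub_distrib, h1]
  simp only [chi_jflip]
  split_ifs
  · simp only [mul_neg, Finset.sum_neg_distrib]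
    ring
  · ring

/-- the point with values `T` on `R` and `y` outside of `R` -/
def jpt (R : Finset V) (y : V → Bool) (T : Finset V) : V → Bool :=
  fun i => if i ∈ R then decide (i ∈ T) else y i

theorem chi_jpt (R A T : Finset V) (y : V → Bool) (hT : T ⊆ R) :
    chi A (jpt R y T) = chi (A \ R) y * ∏ e ∈ T, (if e ∈ A then (-1 : ℝ) else 1) := by
  rw [chi_eq_univ, chi_eq_univ]
  have h : ∏ e ∈ T, (if e ∈ A then (-1 : ℝ) else 1) =
      ∏ e, (if e ∈ T then (if e ∈ A then (-1 : ℝ) else 1) else 1) := by
    rw [Finset.prod_ite_mem univ T (fun e => if e ∈ A then (-1 : ℝ) else 1), Finset.univ_inter]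
  rw [h, ← Finset.prod_mul_distrib]
  refine Finset.prod_congr rfl fun e _ => ?_
  unfold jpt
  by_cases h1 : e ∈ R
  · by_cases h2 : e ∈ T <;> by_cases h3 : e ∈ A <;> simp [h1, h2, h3, sg]
  · have h2 : e ∉ T := fun h => h1 (hT h)
    by_cases h3 : e ∈ A <;> simp [h1, h2, h3]

theorem jpt_inner (S R : Finset V) (y : V → Bool) (hns : ¬ R ⊂ S) :
    ∑ T ∈ R.powerset, chi S (jpt R y T) * chi R (jpt R y T) =
      if S = R then (2 : ℝ) ^ R.card else 0 := by
  split_ifs with h
  · subst h
    simp only [chi_mul_self]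
    simp
  · have h0 : ¬ R ⊆ S := fun h1 => hns (Finset.ssubset_iff_subset_ne.2 ⟨h1, Ne.symm h⟩)
    obtain ⟨e, he, heS⟩ := Finset.not_subset.1 h0
    have h1 : ∑ T ∈ R.powerset, chi S (jpt R y T) * chi R (jpt R y T) =
        chi (symmDiff S R \ R) y * ∏ e ∈ R, (1 + (if e ∈ symmDiff S R then (-1 : ℝ) else 1)) := by
      rw [Finset.prod_one_add, Finset.mul_sum]
      refine Finset.sum_congr rfl fun T hT => ?_
      rw [chi_mul, chi_jpt R _ T y (Finset.mem_powerset.1 hT)]
    rw [h1]
    have h2 : ∏ e ∈ R, (1 + (if e ∈ symmDiff S R then (-1 : ℝ) else 1)) = 0 := by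
      refine Finset.prod_eq_zero he ?_
      have : e ∈ symmDiff S R := by
        simp [Finset.mem_symmDiff, he, heS]
      rw [if_pos this]
      norm_num
    rw [h2, mul_zero]

theorem exists_nonzero_fiber (h : (V → Bool) → ℝ) (R : Finset V) (hR : W h R ≠ 0)
    (hmax : ∀ S, R.card < S.card → W h S = 0) (y : V → Bool) :
    ∃ T ∈ R.powerset, h (jpt R y T) ≠ 0 := by
  by_contra hcon
  push Not at hcon
  have hmain : (2 : ℝ) ^ Fintype.card V * ∑ T ∈ R.powerset, h (jpt R y T) * chi R (jpt R y T) =
      2 ^ R.card * W h R := by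
    calc (2 : ℝ) ^ Fintype.card V * ∑ T ∈ R.powerset, h (jpt R y T) * chi R (jpt R y T)
        = ∑ T ∈ R.powerset, (∑ S : Finset V, W h S * chi S (jpt R y T)) *
            chi R (jpt R y T) := by
          rw [Finset.mul_sum]
          refine Finset.sum_congr rfl fun T _ => ?_
          rw [inversion]
          ring
      _ = ∑ S : Finset V, W h S * ∑ T ∈ R.powerset, chi S (jpt R y T) *
            chi R (jpt R y T) := by
          simp only [Finset.sum_mul, Finset.mul_sum]
          rw [Finset.sum_comm]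
          refine Finset.sum_congr rfl fun S _ => Finset.sum_congr rfl fun T _ => ?_
          ring
      _ = ∑ S : Finset V, if S = R then 2 ^ R.card * W h R else 0 := by
          refine Finset.sum_congr rfl fun S _ => ?_
          by_cases hs : R ⊂ S
          · have hne : S ≠ R := (Finset.ssubset_iff_subset_ne.1 hs).2.symm
            rw [hmax S (Finset.card_lt_card hs), zero_mul, if_neg hne]
          · rw [jpt_inner S R y hs]
            split_ifs with hSR
            · rw [hSR]
              ring
            · rw [mul_zero]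
      _ = 2 ^ R.card * W h R := by simp
  have h0 : ∑ T ∈ R.powerset, h (jpt R y T) * chi R (jpt R y T) = 0 := by
    refine Finset.sum_eq_zero fun T hT => ?_
    rw [hcon T hT, zero_mul]
  rw [h0, mul_zero] at hmain
  have : (2 : ℝ) ^ R.card ≠ 0 := by positivity
  exact hR ((mul_eq_zero.1 hmain.symm).resolve_left this)

theorem nonzero_points (h : (V → Bool) → ℝ) (t : ℕ) (hd : Dg h t) (S : Finset V)
    (hS : W h S ≠ 0) :
    2 ^ Fintype.card V ≤ 2 ^ t * (univ.filter fun x => h x ≠ 0).card := by
  classical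
  obtain ⟨R, hR, hmax⟩ := Finset.exists_max_image (univ.filter fun S : Finset V => W h S ≠ 0)
    Finset.card ⟨S, by simp [hS]⟩
  have hWR : W h R ≠ 0 := (Finset.mem_filter.1 hR).2
  have hmax' : ∀ S, R.card < S.card → W h S = 0 := by
    intro S hS
    by_contra hne
    have := hmax S (by simp [hne])
    omega
  have hRt : R.card ≤ t := by
    by_contra hlt
    exact hWR (hd R (by omega))
  have hcov : (univ : Finset (V → Bool)) ⊆ (univ.filter fun x => h x ≠ 0).biUnion
      fun x' => univ.filter fun x => ∀ i, i ∉ R → x i = x' i := by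
    intro y _
    obtain ⟨T, _, hT⟩ := exists_nonzero_fiber h R hWR hmax' y
    rw [Finset.mem_biUnion]
    refine ⟨jpt R y T, by simp [hT], ?_⟩
    rw [Finset.mem_filter]
    refine ⟨mem_univ _, fun i hi => ?_⟩
    simp [jpt, hi]
  have hfib : ∀ x' : V → Bool, (univ.filter fun x : V → Bool => ∀ i, i ∉ R → x i = x' i).card ≤
      2 ^ R.card := by
    intro x'
    rw [← Finset.card_powerset]
    refine Finset.card_le_card_of_injOn (fun x => R.filter fun i => x i = true) ?_ ?_
    · intro x _
      exact Finset.mem_coe.2 (Finset.mem_powerset.2 (Finset.filter_subset _ _))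
    · intro x hx y hy hxy
      have hx' := (Finset.mem_filter.1 (Finset.mem_coe.1 hx)).2
      have hy' := (Finset.mem_filter.1 (Finset.mem_coe.1 hy)).2
      funext i
      by_cases hi : i ∈ R
      · have h1 := Finset.ext_iff.1 hxy i
        simp only [Finset.mem_filter, hi, true_and] at h1
        exact Bool.eq_iff_iff.2 h1
      · rw [hx' i hi, hy' i hi]
  have h1 := (Finset.card_le_card hcov).trans Finset.card_biUnion_le
  have h2 := h1.trans (Finset.sum_le_sum fun x _ => hfib x)
  rw [Finset.sum_const, smul_eq_mul, Finset.card_univ, Fintype.card_fun, Fintype.card_bool] at h2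
  refine h2.trans ?_
  rw [mul_comm]
  exact Nat.mul_le_mul_right _ (Nat.pow_le_pow_right (by norm_num) hRt)

theorem junta (g : (V → Bool) → Bool) (t : ℕ) (hg : Dg (rl g) t) :
    ∃ S : Finset V, S.card ≤ 4 * t * 2 ^ t ∧ ∀ T, W (rl g) T ≠ 0 → T ⊆ S := by
  classical
  set hf : V → (V → Bool) → ℝ := fun i x => rl g x - rl g (jflip i x) with hhf
  have hW : ∀ i T, W (hf i) T = if i ∈ T then 2 * W (rl g) T else 0 := fun i T =>
    W_jflip (rl g) i T
  have hrl : ∀ x, rl g x = 0 ∨ rl g x = 1 := by
    intro x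
    unfold rl
    split_ifs
    · right; rfl
    · left; rfl
  have hsq : ∀ i x, hf i x ^ 2 = if hf i x ≠ 0 then 1 else 0 := by
    intro i x
    simp only [hhf]
    rcases hrl x with h1 | h1 <;> rcases hrl (jflip i x) with h2 | h2 <;> rw [h1, h2] <;> norm_num
  refine ⟨univ.filter fun i => ∃ T, i ∈ T ∧ W (rl g) T ≠ 0, ?_, ?_⟩
  · set S : Finset V := univ.filter fun i => ∃ T, i ∈ T ∧ W (rl g) T ≠ 0 with hSdef
    have hlow : ∀ i ∈ S, (2 : ℝ) ^ Fintype.card V ≤ 2 ^ t * ∑ x, hf i x ^ 2 := by
      intro i hi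
      obtain ⟨T, hiT, hT⟩ := (Finset.mem_filter.1 hi).2
      have hdi : Dg (hf i) t := by
        intro U hU
        rw [hW]
        split_ifs
        · rw [hg U hU, mul_zero]
        · rfl
      have hWi : W (hf i) T ≠ 0 := by
        rw [hW, if_pos hiT]
        exact mul_ne_zero two_ne_zero hT
      have h1 := nonzero_points (hf i) t hdi T hWi
      have h2 : ∑ x, hf i x ^ 2 = ((univ.filter fun x => hf i x ≠ 0).card : ℝ) := by
        rw [Finset.sum_congr rfl fun x _ => hsq i x, Finset.sum_boole]
      rw [h2]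
      exact_mod_cast h1
    have hup : ∑ i, ∑ x, hf i x ^ 2 ≤ 4 * t * (2 : ℝ) ^ Fintype.card V := by
      have hpos : (0 : ℝ) < 2 ^ Fintype.card V := by positivity
      have h1 : (2 : ℝ) ^ Fintype.card V * ∑ i, ∑ x, hf i x ^ 2 =
          ∑ T : Finset V, 4 * T.card * W (rl g) T ^ 2 := by
        rw [Finset.mul_sum]
        have : ∀ i : V, (2 : ℝ) ^ Fintype.card V * ∑ x, hf i x ^ 2 =
            ∑ T : Finset V, if i ∈ T then 4 * W (rl g) T ^ 2 else 0 := by
          intro i
          rw [← parseval]
          refine Finset.sum_congr rfl fun T _ => ?_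
          rw [hW]
          split_ifs
          · ring
          · ring
        rw [Finset.sum_congr rfl fun i _ => this i, Finset.sum_comm]
        refine Finset.sum_congr rfl fun T _ => ?_
        rw [Finset.sum_ite_mem, Finset.univ_inter, Finset.sum_const, nsmul_eq_mul]
        ring
      have h2 : ∑ T : Finset V, 4 * T.card * W (rl g) T ^ 2 ≤
          4 * t * ∑ T : Finset V, W (rl g) T ^ 2 := by
        rw [Finset.mul_sum]
        refine Finset.sum_le_sum fun T _ => ?_
        by_cases hT : T.card ≤ t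
        · have : (T.card : ℝ) ≤ t := by exact_mod_cast hT
          have h0 : 0 ≤ W (rl g) T ^ 2 := sq_nonneg _
          nlinarith
        · rw [hg T (by omega)]
          simp
      have h3 : ∑ x, rl g x ^ 2 ≤ (2 : ℝ) ^ Fintype.card V := by
        have : ∑ x : V → Bool, rl g x ^ 2 ≤ ∑ x : V → Bool, (1 : ℝ) := by
          refine Finset.sum_le_sum fun x _ => ?_
          rcases hrl x with h1 | h1 <;> rw [h1] <;> norm_num
        refine this.trans (le_of_eq ?_)
        rw [Finset.sum_const, Finset.card_univ, Fintype.card_fun, Fintype.card_bool,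
          nsmul_eq_mul, mul_one]
        push_cast
        rfl
      rw [parseval] at h2
      have h4 : (2 : ℝ) ^ Fintype.card V * ∑ i, ∑ x, hf i x ^ 2 ≤
          2 ^ Fintype.card V * (4 * t * (2 : ℝ) ^ Fintype.card V) := by
        rw [h1]
        refine h2.trans ?_
        have h5 : (0 : ℝ) ≤ 4 * t * 2 ^ Fintype.card V := by positivity
        calc 4 * (t : ℝ) * (2 ^ Fintype.card V * ∑ x, rl g x ^ 2)
            = 4 * t * 2 ^ Fintype.card V * ∑ x, rl g x ^ 2 := by ring
          _ ≤ 4 * t * 2 ^ Fintype.card V * 2 ^ Fintype.card V :=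
              mul_le_mul_of_nonneg_left h3 h5
          _ = _ := by ring
      exact le_of_mul_le_mul_left h4 hpos
    have hfin : (S.card : ℝ) * 2 ^ Fintype.card V ≤ 4 * t * 2 ^ t * 2 ^ Fintype.card V := by
      calc (S.card : ℝ) * 2 ^ Fintype.card V = ∑ i ∈ S, (2 : ℝ) ^ Fintype.card V := by
            rw [Finset.sum_const, nsmul_eq_mul]
        _ ≤ ∑ i ∈ S, 2 ^ t * ∑ x, hf i x ^ 2 := Finset.sum_le_sum hlow
        _ ≤ ∑ i, 2 ^ t * ∑ x, hf i x ^ 2 :=
            Finset.sum_le_sum_of_subset_of_nonneg (Finset.subset_univ _)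
              fun _ _ _ => mul_nonneg (by positivity) (Finset.sum_nonneg fun _ _ => sq_nonneg _)
        _ = 2 ^ t * ∑ i, ∑ x, hf i x ^ 2 := by rw [Finset.mul_sum]
        _ ≤ 2 ^ t * (4 * t * (2 : ℝ) ^ Fintype.card V) :=
            mul_le_mul_of_nonneg_left hup (by positivity)
        _ = _ := by ring
    have := le_of_mul_le_mul_right hfin (by positivity)
    exact_mod_cast this
  · intro T hT i hi
    rw [Finset.mem_filter]
    exact ⟨mem_univ _, T, hi, hT⟩

end Pool.Agent.H3.Frg3
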