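import Mathlib
import Pool.Agent.H3.Frg3.Defs
import Pool.Agent.H3.Frg2.Decomp
import Pool.Agent.H3.Frg2.Eval

set_option autoImplicit false
set_option linter.unusedSectionVars false

/-!
# Module MID: coherent evaluation of a large formula by a short formula over small pieces

This is `exists_ce` of `Pool/Agent/H3/Frg2/Decomp.lean` (read its header first) with two changes:
the small instances are not assumed to have an honest value of small degree, only a coherent value of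
degree `≤ t` (which may have an additional property `Q`), and the value of the large formula is
given by a *short formula* over such small values.

`Fm.all p A`: all variables of `A` satisfy `p`. Formulas `Â : Fm (X → Bool)` have Boolean functions as
variables, the value is `fun z => Â.eval fun g => g z` (`vl Â`).

**Hypothesis** (for a formula `A`), `SR A`: every `B ∈ allInst v A` with `B.len ≤ 4 h` has some
`g : X → Bool` with `P.Dg (rl g) t`, `Q g`, `CE P F k B g`. It is inherited by subformulas.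

**Claim** by strong induction on `len A`: if `SR A` and `t (h + 18 len A) ≤ h k` then there is `Â` with
`Â.all (fun g => P.Dg (rl g) t ∧ Q g)`, `CE P F k A (vl Â)` and
(`len A ≤ 4 h ∧ Â.len ≤ 1`) or (`4 h < len A ∧ h * Â.len + 9 * h ≤ 18 * len A`).
(Degree: `P.Dg (rl (vl Â)) (t * Â.len)` by induction on `Â`.)

* `len A ≤ 4 h`: `Â = Fm.var g`.
* `len A > 4 h`: `exists_heavy` gives `A = κ.plug B`, `κ.len ≤ h`, the children `C₁, C₂` of `B` have
  `len C_i + h < len A` and `B` is not a variable. Induction gives `Ĉ_i` and the value `b̂ = neg Ĉ₁` or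
  `imp Ĉ₁ Ĉ₂` of `B`, `CE P F k B (vl b̂)` (the value of `neg`/`imp` is respected exactly).
  Let `q₁, q₀` be small values of `κ.plug (top v)`, `κ.plug (bot v)` (members of `insts v A`, of length
  `≤ h + 4 ≤ 4 h`).
  - (PLUG) `CE P F k (κ.plug B) (fun z => if b z then q₁ z else q₀ z)` for ALL coherent values `q₁, q₀` of
    degree `≤ t` of `κ.plug (top v)`, `κ.plug (bot v)` and every coherent value `b` of `B` of degree `Db`
    with `Db + t ≤ k`. Induction on `κ` as in `ce_plug` of `Decomp.lean`, but simpler. `hole`: `q₁ ≈ 1`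
    (`ce_top`: `top v = v → v`, compare `ce_bot` in `Eval.lean`), `q₀ ≈ 0` (`ce_bot`).
    `impL κ C`: take small values `q₁', q₀', g` of `κ.plug top`, `κ.plug bot`, `C`. Unfolding
    `CE (imp (κ.plug top) C) q₁` gives coherent values `a, a'` with `q₁ ≈ 1 - a (1 - a')`, and
    `a ≈ q₁'`, `a' ≈ g` by `ce_uniq`, so `q₁ ≈ 1 - q₁' (1 - g)`; the same for `0`. Then continue as in
    `ce_plug` (`peq_ite`). `impR`, `neg` are analogous.
  - (MONO) Let `κ.pos : Bool` be the parity of the number of negations and `impL` in `κ` (hole: `true`).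
    If `κ.pos` then `P.Z (q₀ (1 - q₁))`, otherwise `P.Z (q₁ (1 - q₀))`, for all coherent values of degree
    `≤ t` of `κ.plug top`, `κ.plug bot`. Induction on `κ`: `hole`: `q₀ ≈ 0`. `neg κ`: `q₁ ≈ 1 - q₁'`,
    `q₀ ≈ 1 - q₀'`, so `q₀ (1 - q₁) ≈ (1 - q₀') q₁'` and `q₁ (1 - q₀) ≈ (1 - q₁') q₀'`.
    `impL κ C`: `q ≈ 1 - q' (1 - g)`, so `q₀ (1 - q₁) ≈ (1 - q₀' (1-g)) q₁' (1-g) = q₁' (1 - q₀') (1-g)`
    (`g (1-g) = 0`, `rl_sq`), `q₁ (1 - q₀) ≈ q₀' (1 - q₁') (1 - g)`. `impR C κ`: `q ≈ 1 - g (1 - q')`, so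
    `q₀ (1 - q₁) ≈ (1 - g (1 - q₀')) g (1 - q₁') = g q₀' (1 - q₁')`, and symmetrically.
    (All products have degree `≤ 6 k ≤ M`; use `P.z_mul`, `P.peq_mul`.)
  - The formula: if `κ.pos`: `Â = imp (neg Q₀) (neg (imp Q₁ (neg b̂)))` with `Q_i = Fm.var q_i`; its value is
    `q₀ ∨ (q₁ ∧ b)`, and `rl (q₀ ∨ (q₁ ∧ b)) - (b q₁ + (1 - b) q₀) = b q₀ (1 - q₁) ≈ 0` (MONO). Otherwise
    `Â = imp (neg Q₁) (neg (imp Q₀ b̂))`, value `q₁ ∨ (q₀ ∧ ¬ b)`, and
    `rl (q₁ ∨ (q₀ ∧ ¬b)) - (b q₁ + (1 - b) q₀) = (1 - b) q₁ (1 - q₀) ≈ 0`. So `CE P F k A (vl Â)` by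
    (PLUG) and `ce_congr`. `Â.len ≤ b̂.len + 7 ≤ Ĉ₁.len + Ĉ₂.len + 8`.
  - Length: both children small: `h (1 + 1 + 8) + 9 h = 19 h ≤ 18 len A`. One large:
    `h Ĉ₁.len + h + 8 h + 9 h ≤ 18 len C₁ + 9 h ≤ 18 len A`. Both large:
    `≤ 18 len C₁ + 18 len C₂ - 18 h + 8 h + 9 h ≤ 18 len A`.
  - Degrees: `t * Â.len ≤ k` since `h * t * Â.len ≤ 18 t len A ≤ h k`; the degree `Db = t * b̂.len` of `b`
    satisfies `Db + t ≤ t * Â.len ≤ k`.
-/

namespace Pool.Agent.H3.Frg3

open Finset Pool.Agent.H3.Frg Pool.Agent.H3.Frg2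

/-- all variables satisfy `p` -/
def _root_.Pool.Agent.H3.Frg.Fm.all {V : Type} (p : V → Prop) : Fm V → Prop
  | Fm.var i => p i
  | Fm.neg A => A.all p
  | Fm.imp A B => A.all p ∧ B.all p

/-- value of a formula whose variables are Boolean functions -/
def vl {X : Type} (A : Fm (X → Bool)) (z : X) : Bool := A.eval fun g => g z

variable {V X : Type}

section Lemmas

variable {P : PA X} {F : V → X → Bool} {k t : ℕ} {Q : (X → Bool) → Prop}

theorem vl_var (g : X → Bool) : vl (Fm.var g) = g := rfl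

theorem rl_vl_neg (A : Fm (X → Bool)) (z : X) : rl (vl (Fm.neg A)) z = 1 - rl (vl A) z := by
  rw [← rl_not]; rfl

theorem rl_vl_imp (A B : Fm (X → Bool)) (z : X) :
    rl (vl (Fm.imp A B)) z = 1 - rl (vl A) z * (1 - rl (vl B) z) := by
  rw [← rl_imp]; rfl

theorem dg_vl {A : Fm (X → Bool)} : A.all (fun g => P.Dg (rl g) t ∧ Q g) →
    P.Dg (rl (vl A)) (t * A.len) := by
  induction A with
  | var g =>
    intro h
    exact P.dg_mono h.1 (by simp [Fm.len])
  | neg A ih =>
    intro h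
    refine P.dg_mono (P.dg_congr (P.dg_one_sub (ih h)) (fun z => (rl_vl_neg A z).symm)) ?_
    simp only [Fm.len]
    exact Nat.mul_le_mul_left t (by omega)
  | imp A B ihA ihB =>
    intro h
    refine P.dg_mono (P.dg_congr (P.dg_one_sub (P.dg_mul (ihA h.1) (P.dg_one_sub (ihB h.2))))
      (fun z => (rl_vl_imp A B z).symm)) ?_
    simp only [Fm.len]
    have : t * (A.len + B.len + 1) = t * A.len + t * B.len + t := by ring
    omega

theorem ce_top (hM : 2 * k ≤ P.M) {v0 : V} {p : X → Bool} (h : CE P F k (top v0) p) :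
    P.Peq (rl p) (fun _ => 1) := by
  obtain ⟨_, a, b, ha, hb, h2⟩ := ce_imp_iff.1 (show CE P F k (Fm.imp _ _) p from h)
  have h3 : P.Peq (rl a) (rl b) := ce_uniq hM ha hb
  have h4 : P.Peq (fun z => rl a z * rl a z) (fun z => rl a z * rl b z) :=
    P.peq_mul (ce_dg ha) (ce_dg ha) (ce_dg ha) (ce_dg hb) (by omega) (P.peq_refl _) h3
  refine P.z_congr (P.z_sub h2 h4) ?_
  intro z
  have := rl_sq a z
  linear_combination -this

theorem ce_neg_of (hM : 2 * k ≤ P.M) {A : Fm V} {q a : X → Bool} (h : CE P F k (Fm.neg A) q)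
    (ha : CE P F k A a) : P.Peq (rl q) (fun z => 1 - rl a z) := by
  obtain ⟨_, a', ha', h1⟩ := ce_neg_iff.1 h
  exact P.peq_trans h1 (P.peq_one_sub (ce_uniq hM ha' ha))

theorem ce_imp_of (hM : 2 * k ≤ P.M) {A B : Fm V} {q a b : X → Bool}
    (h : CE P F k (Fm.imp A B) q) (ha : CE P F k A a) (hb : CE P F k B b) :
    P.Peq (rl q) (fun z => 1 - rl a z * (1 - rl b z)) := by
  obtain ⟨_, a', b', ha', hb', h1⟩ := ce_imp_iff.1 h
  exact P.peq_trans h1 (P.peq_imp (ce_dg ha') (ce_dg ha) (ce_dg hb') (ce_dg hb) (by omega)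
    (ce_uniq hM ha' ha) (ce_uniq hM hb' hb))

/-- the coherent value of `κ[B]` -/
theorem ce_plug3 (hM : 20 * k ≤ P.M) (htk : t ≤ k) (v : V) {h D : ℕ} (hh : 4 ≤ h)
    (hD : D + t ≤ k) {B : Fm V} {b : X → Bool} (hB : CE P F k B b) (hb : P.Dg (rl b) D)
    (κ : Ctx V) : κ.len ≤ h →
    (∀ C ∈ allInst v (κ.plug B), C.len ≤ 4 * h → ∃ g : X → Bool, P.Dg (rl g) t ∧ CE P F k C g) →
    ∀ {q₁ q₀ : X → Bool}, P.Dg (rl q₁) t → P.Dg (rl q₀) t →
      CE P F k (κ.plug (top v)) q₁ → CE P F k (κ.plug (bot v)) q₀ →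
      CE P F k (κ.plug B) (fun z => if b z then q₁ z else q₀ z) := by
  induction κ with
  | hole =>
    intro _ _ q₁ q₀ hd1 hd0 h1 h0
    refine ce_congr hB (P.dg_mono (dg_ite hb hd1 hd0) hD) ?_
    refine peq_ite (e := t) (r₁ := fun _ => 1) (r₀ := fun _ => 0) hb ?_ ?_ hd1 hd0
      (P.dg_const' _ _) (P.dg_const' _ _) (by omega) (fun z => by ring)
    · exact ce_top (by omega) h1
    · exact P.z_congr (ce_bot (by omega) h0) (fun z => by ring)
  | neg κ ih =>
    intro hlen hgood q₁ q₀ hd1 hd0 h1 h0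
    simp only [Ctx.len] at hlen
    have hgood' : ∀ C ∈ allInst v (κ.plug B), C.len ≤ 4 * h →
        ∃ g : X → Bool, P.Dg (rl g) t ∧ CE P F k C g := fun C hC =>
      hgood C (allInst_neg_sub v _ hC)
    have hgT : ∀ T, T = top v ∨ T = bot v →
        ∃ g : X → Bool, P.Dg (rl g) t ∧ CE P F k (κ.plug T) g := by
      intro T hT
      refine hgood' _ (insts_subset_allInst v _ (κ.plug_mem_insts B T hT)) ?_
      rw [Ctx.len_plug]
      rcases hT with rfl | rfl <;> simp [top, bot, Fm.len] <;> omega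
    obtain ⟨q₁', hd1', h1'⟩ := hgT _ (Or.inl rfl)
    obtain ⟨q₀', hd0', h0'⟩ := hgT _ (Or.inr rfl)
    have hce := ih (by omega) hgood' hd1' hd0' h1' h0'
    refine ⟨P.dg_mono (dg_ite hb hd1 hd0) hD, _, hce, ?_⟩
    refine peq_ite (e := t) (r₁ := fun z => 1 - rl q₁' z) (r₀ := fun z => 1 - rl q₀' z) hb
      (ce_neg_of (by omega) h1 h1') (ce_neg_of (by omega) h0 h0') hd1 hd0
      (P.dg_one_sub hd1') (P.dg_one_sub hd0') (by omega) ?_
    intro z
    rw [rl_ite]
    ring
  | impL κ C ih =>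
    intro hlen hgood q₁ q₀ hd1 hd0 h1 h0
    simp only [Ctx.len] at hlen
    have hgood' : ∀ C ∈ allInst v (κ.plug B), C.len ≤ 4 * h →
        ∃ g : X → Bool, P.Dg (rl g) t ∧ CE P F k C g := fun C hC =>
      hgood C (allInst_impL_sub v _ _ hC)
    have hgT : ∀ T, T = top v ∨ T = bot v →
        ∃ g : X → Bool, P.Dg (rl g) t ∧ CE P F k (κ.plug T) g := by
      intro T hT
      refine hgood' _ (insts_subset_allInst v _ (κ.plug_mem_insts B T hT)) ?_
      rw [Ctx.len_plug]
      rcases hT with rfl | rfl <;> simp [top, bot, Fm.len] <;> omega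
    obtain ⟨g, hdg, hceC⟩ := hgood C (allInst_impR_sub v _ _ (self_mem_allInst v C)) (by omega)
    obtain ⟨q₁', hd1', h1'⟩ := hgT _ (Or.inl rfl)
    obtain ⟨q₀', hd0', h0'⟩ := hgT _ (Or.inr rfl)
    have hce := ih (by omega) hgood' hd1' hd0' h1' h0'
    refine ⟨P.dg_mono (dg_ite hb hd1 hd0) hD, _, g, hce, hceC, ?_⟩
    refine peq_ite (e := t + t) (r₁ := fun z => 1 - rl q₁' z * (1 - rl g z))
      (r₀ := fun z => 1 - rl q₀' z * (1 - rl g z)) hb
      (ce_imp_of (by omega) h1 h1' hceC) (ce_imp_of (by omega) h0 h0' hceC)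
      (P.dg_mono hd1 (by omega)) (P.dg_mono hd0 (by omega))
      (P.dg_one_sub (P.dg_mul hd1' (P.dg_one_sub hdg)))
      (P.dg_one_sub (P.dg_mul hd0' (P.dg_one_sub hdg))) (by omega) ?_
    intro z
    rw [rl_ite]
    ring
  | impR C κ ih =>
    intro hlen hgood q₁ q₀ hd1 hd0 h1 h0
    simp only [Ctx.len] at hlen
    have hgood' : ∀ C ∈ allInst v (κ.plug B), C.len ≤ 4 * h →
        ∃ g : X → Bool, P.Dg (rl g) t ∧ CE P F k C g := fun C hC =>
      hgood C (allInst_impR_sub v _ _ hC)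
    have hgT : ∀ T, T = top v ∨ T = bot v →
        ∃ g : X → Bool, P.Dg (rl g) t ∧ CE P F k (κ.plug T) g := by
      intro T hT
      refine hgood' _ (insts_subset_allInst v _ (κ.plug_mem_insts B T hT)) ?_
      rw [Ctx.len_plug]
      rcases hT with rfl | rfl <;> simp [top, bot, Fm.len] <;> omega
    obtain ⟨g, hdg, hceC⟩ := hgood C (allInst_impL_sub v _ _ (self_mem_allInst v C)) (by omega)
    obtain ⟨q₁', hd1', h1'⟩ := hgT _ (Or.inl rfl)
    obtain ⟨q₀', hd0', h0'⟩ := hgT _ (Or.inr rfl)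
    have hce := ih (by omega) hgood' hd1' hd0' h1' h0'
    refine ⟨P.dg_mono (dg_ite hb hd1 hd0) hD, g, _, hceC, hce, ?_⟩
    refine peq_ite (e := t + t) (r₁ := fun z => 1 - rl g z * (1 - rl q₁' z))
      (r₀ := fun z => 1 - rl g z * (1 - rl q₀' z)) hb
      (ce_imp_of (by omega) h1 hceC h1') (ce_imp_of (by omega) h0 hceC h0')
      (P.dg_mono hd1 (by omega)) (P.dg_mono hd0 (by omega))
      (P.dg_one_sub (P.dg_mul hdg (P.dg_one_sub hd1')))
      (P.dg_one_sub (P.dg_mul hdg (P.dg_one_sub hd0'))) (by omega) ?_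
    intro z
    rw [rl_ite]
    ring

/-- parity of the number of negations and left sides of implications above the hole -/
def _root_.Pool.Agent.H3.Frg2.Ctx.pos : Ctx V → Bool
  | Ctx.hole => true
  | Ctx.neg κ => !κ.pos
  | Ctx.impL κ _ => !κ.pos
  | Ctx.impR _ κ => κ.pos

/-- replace the factors of `p (1 - q)` by pseudo-equal functions -/
theorem z_swap (hM : 4 * k ≤ P.M) {p q r s e w : X → ℝ} (hp : P.Dg p k) (hq : P.Dg q k)
    (hr : P.Dg r (2 * k)) (hs : P.Dg s (2 * k)) (h1 : P.Peq p r) (h2 : P.Peq q s)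
    (he : P.Z e) (hde : P.Dg e (2 * k)) (hw : P.Dg w k)
    (heq : ∀ z, r z * (1 - s z) = w z * e z) : P.Z (fun z => p z * (1 - q z)) := by
  have h3 : P.Peq (fun z => p z * (1 - q z)) (fun z => r z * (1 - s z)) :=
    P.peq_mul (a := 2 * k) (b := 2 * k) (P.dg_mono hp (by omega)) hr
      (P.dg_one_sub (P.dg_mono hq (by omega))) (P.dg_one_sub hs) (by omega) h1
      (P.peq_one_sub h2)
  have h4 := P.z_mul he hde hw (by omega)
  refine P.z_congr (P.z_add h3 h4) ?_
  intro z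
  have := heq z
  linear_combination (-1 : ℝ) * this

theorem ce_mono (hM : 20 * k ≤ P.M) (htk : t ≤ k) (v : V) {h : ℕ} (hh : 4 ≤ h) (B : Fm V)
    (κ : Ctx V) : κ.len ≤ h →
    (∀ C ∈ allInst v (κ.plug B), C.len ≤ 4 * h → ∃ g : X → Bool, P.Dg (rl g) t ∧ CE P F k C g) →
    ∀ {q₁ q₀ : X → Bool}, P.Dg (rl q₁) t → P.Dg (rl q₀) t →
      CE P F k (κ.plug (top v)) q₁ → CE P F k (κ.plug (bot v)) q₀ →
      (κ.pos = true → P.Z (fun z => rl q₀ z * (1 - rl q₁ z))) ∧
      (κ.pos = false → P.Z (fun z => rl q₁ z * (1 - rl q₀ z))) := by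
  induction κ with
  | hole =>
    intro _ _ q₁ q₀ hd1 hd0 h1 h0
    refine ⟨fun _ => ?_, fun h => by simp [Ctx.pos] at h⟩
    have h2 : P.Z (rl q₀) := ce_bot (by omega) h0
    exact P.z_congr (P.z_mul h2 hd0 (P.dg_one_sub hd1) (by omega)) (fun z => by ring)
  | neg κ ih =>
    intro hlen hgood q₁ q₀ hd1 hd0 h1 h0
    simp only [Ctx.len] at hlen
    have hgood' : ∀ C ∈ allInst v (κ.plug B), C.len ≤ 4 * h →
        ∃ g : X → Bool, P.Dg (rl g) t ∧ CE P F k C g := fun C hC =>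
      hgood C (allInst_neg_sub v _ hC)
    have hgT : ∀ T, T = top v ∨ T = bot v →
        ∃ g : X → Bool, P.Dg (rl g) t ∧ CE P F k (κ.plug T) g := by
      intro T hT
      refine hgood' _ (insts_subset_allInst v _ (κ.plug_mem_insts B T hT)) ?_
      rw [Ctx.len_plug]
      rcases hT with rfl | rfl <;> simp [top, bot, Fm.len] <;> omega
    obtain ⟨q₁', hd1', h1'⟩ := hgT _ (Or.inl rfl)
    obtain ⟨q₀', hd0', h0'⟩ := hgT _ (Or.inr rfl)
    obtain ⟨ihp, ihn⟩ := ih (by omega) hgood' hd1' hd0' h1' h0'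
    have e1 := ce_neg_of (by omega) h1 h1'
    have e0 := ce_neg_of (by omega) h0 h0'
    have dk1 := P.dg_mono hd1 htk
    have dk0 := P.dg_mono hd0 htk
    have dk1' : P.Dg (fun z => 1 - rl q₁' z) (2 * k) := P.dg_one_sub (P.dg_mono hd1' (by omega))
    have dk0' : P.Dg (fun z => 1 - rl q₀' z) (2 * k) := P.dg_one_sub (P.dg_mono hd0' (by omega))
    refine ⟨fun hpos => ?_, fun hneg => ?_⟩
    · have hκ : κ.pos = false := by simpa [Ctx.pos] using hpos
      exact z_swap (by omega) dk0 dk1 dk0' dk1' e0 e1 (ihn hκ)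
        (P.dg_mono (P.dg_mul hd1' (P.dg_one_sub hd0')) (by omega)) (P.dg_const' 1 k)
        (fun z => by ring)
    · have hκ : κ.pos = true := by simpa [Ctx.pos] using hneg
      exact z_swap (by omega) dk1 dk0 dk1' dk0' e1 e0 (ihp hκ)
        (P.dg_mono (P.dg_mul hd0' (P.dg_one_sub hd1')) (by omega)) (P.dg_const' 1 k)
        (fun z => by ring)
  | impL κ C ih =>
    intro hlen hgood q₁ q₀ hd1 hd0 h1 h0
    simp only [Ctx.len] at hlen
    have hgood' : ∀ C ∈ allInst v (κ.plug B), C.len ≤ 4 * h →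
        ∃ g : X → Bool, P.Dg (rl g) t ∧ CE P F k C g := fun C hC =>
      hgood C (allInst_impL_sub v _ _ hC)
    have hgT : ∀ T, T = top v ∨ T = bot v →
        ∃ g : X → Bool, P.Dg (rl g) t ∧ CE P F k (κ.plug T) g := by
      intro T hT
      refine hgood' _ (insts_subset_allInst v _ (κ.plug_mem_insts B T hT)) ?_
      rw [Ctx.len_plug]
      rcases hT with rfl | rfl <;> simp [top, bot, Fm.len] <;> omega
    obtain ⟨g, hdg, hceC⟩ := hgood C (allInst_impR_sub v _ _ (self_mem_allInst v C)) (by omega)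
    obtain ⟨q₁', hd1', h1'⟩ := hgT _ (Or.inl rfl)
    obtain ⟨q₀', hd0', h0'⟩ := hgT _ (Or.inr rfl)
    obtain ⟨ihp, ihn⟩ := ih (by omega) hgood' hd1' hd0' h1' h0'
    have e1 := ce_imp_of (by omega) h1 h1' hceC
    have e0 := ce_imp_of (by omega) h0 h0' hceC
    have dk1 := P.dg_mono hd1 htk
    have dk0 := P.dg_mono hd0 htk
    have dk1' : P.Dg (fun z => 1 - rl q₁' z * (1 - rl g z)) (2 * k) :=
      P.dg_mono (P.dg_one_sub (P.dg_mul hd1' (P.dg_one_sub hdg))) (by omega)
    have dk0' : P.Dg (fun z => 1 - rl q₀' z * (1 - rl g z)) (2 * k) :=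
      P.dg_mono (P.dg_one_sub (P.dg_mul hd0' (P.dg_one_sub hdg))) (by omega)
    have dw : P.Dg (fun z => 1 - rl g z) k := P.dg_one_sub (P.dg_mono hdg htk)
    refine ⟨fun hpos => ?_, fun hneg => ?_⟩
    · have hκ : κ.pos = false := by simpa [Ctx.pos] using hpos
      exact z_swap (by omega) dk0 dk1 dk0' dk1' e0 e1 (ihn hκ)
        (P.dg_mono (P.dg_mul hd1' (P.dg_one_sub hd0')) (by omega)) dw
        (fun z => by
          have := rl_sq g z
          linear_combination (-(rl q₀' z * rl q₁' z)) * this)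
    · have hκ : κ.pos = true := by simpa [Ctx.pos] using hneg
      exact z_swap (by omega) dk1 dk0 dk1' dk0' e1 e0 (ihp hκ)
        (P.dg_mono (P.dg_mul hd0' (P.dg_one_sub hd1')) (by omega)) dw
        (fun z => by
          have := rl_sq g z
          linear_combination (-(rl q₀' z * rl q₁' z)) * this)
  | impR C κ ih =>
    intro hlen hgood q₁ q₀ hd1 hd0 h1 h0
    simp only [Ctx.len] at hlen
    have hgood' : ∀ C ∈ allInst v (κ.plug B), C.len ≤ 4 * h →
        ∃ g : X → Bool, P.Dg (rl g) t ∧ CE P F k C g := fun C hC =>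
      hgood C (allInst_impR_sub v _ _ hC)
    have hgT : ∀ T, T = top v ∨ T = bot v →
        ∃ g : X → Bool, P.Dg (rl g) t ∧ CE P F k (κ.plug T) g := by
      intro T hT
      refine hgood' _ (insts_subset_allInst v _ (κ.plug_mem_insts B T hT)) ?_
      rw [Ctx.len_plug]
      rcases hT with rfl | rfl <;> simp [top, bot, Fm.len] <;> omega
    obtain ⟨g, hdg, hceC⟩ := hgood C (allInst_impL_sub v _ _ (self_mem_allInst v C)) (by omega)
    obtain ⟨q₁', hd1', h1'⟩ := hgT _ (Or.inl rfl)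
    obtain ⟨q₀', hd0', h0'⟩ := hgT _ (Or.inr rfl)
    obtain ⟨ihp, ihn⟩ := ih (by omega) hgood' hd1' hd0' h1' h0'
    have e1 := ce_imp_of (by omega) h1 hceC h1'
    have e0 := ce_imp_of (by omega) h0 hceC h0'
    have dk1 := P.dg_mono hd1 htk
    have dk0 := P.dg_mono hd0 htk
    have dk1' : P.Dg (fun z => 1 - rl g z * (1 - rl q₁' z)) (2 * k) :=
      P.dg_mono (P.dg_one_sub (P.dg_mul hdg (P.dg_one_sub hd1'))) (by omega)
    have dk0' : P.Dg (fun z => 1 - rl g z * (1 - rl q₀' z)) (2 * k) :=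
      P.dg_mono (P.dg_one_sub (P.dg_mul hdg (P.dg_one_sub hd0'))) (by omega)
    have dw : P.Dg (rl g) k := P.dg_mono hdg htk
    refine ⟨fun hpos => ?_, fun hneg => ?_⟩
    · have hκ : κ.pos = true := by simpa [Ctx.pos] using hpos
      exact z_swap (by omega) dk0 dk1 dk0' dk1' e0 e1 (ihp hκ)
        (P.dg_mono (P.dg_mul hd0' (P.dg_one_sub hd1')) (by omega)) dw
        (fun z => by
          have := rl_sq g z
          linear_combination (-((1 - rl q₀' z) * (1 - rl q₁' z))) * this)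
    · have hκ : κ.pos = false := by simpa [Ctx.pos] using hneg
      exact z_swap (by omega) dk1 dk0 dk1' dk0' e1 e0 (ihn hκ)
        (P.dg_mono (P.dg_mul hd1' (P.dg_one_sub hd0')) (by omega)) dw
        (fun z => by
          have := rl_sq g z
          linear_combination (-((1 - rl q₀' z) * (1 - rl q₁' z))) * this)

end Lemmas

theorem mid_aux (P : PA X) (F : V → X → Bool) (k t h : ℕ) (hh : 4 ≤ h) (htk : t ≤ k)
    (hM : 20 * k ≤ P.M) (v : V) (Q : (X → Bool) → Prop) (N : ℕ) : ∀ A : Fm V, A.len = N →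
    t * (h + 18 * A.len) ≤ h * k →
    (∀ B ∈ allInst v A, B.len ≤ 4 * h → ∃ g : X → Bool, P.Dg (rl g) t ∧ Q g ∧ CE P F k B g) →
    ∃ Ah : Fm (X → Bool), Ah.all (fun g => P.Dg (rl g) t ∧ Q g) ∧ CE P F k A (vl Ah) ∧
      ((A.len ≤ 4 * h ∧ Ah.len ≤ 1) ∨ (4 * h < A.len ∧ h * Ah.len + 9 * h ≤ 18 * A.len)) := by
  induction N using Nat.strong_induction_on with
  | _ N IH =>
    intro A hAN hsize hrep
    by_cases hsm : A.len ≤ 4 * h
    · obtain ⟨g, h1, h2, h3⟩ := hrep A (self_mem_allInst v A) hsm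
      exact ⟨Fm.var g, ⟨h1, h2⟩, h3, Or.inl ⟨hsm, le_rfl⟩⟩
    · push Not at hsm
      obtain ⟨κ, B, hκ, hBl, hchild⟩ := exists_heavy A.len h A (by omega)
      have hlen : A.len = κ.len + B.len := by
        conv_lhs => rw [hκ]
        exact κ.len_plug B
      have hκh : κ.len ≤ h := by omega
      have hrepB : ∀ C ∈ allInst v B, C.len ≤ 4 * h →
          ∃ g : X → Bool, P.Dg (rl g) t ∧ Q g ∧ CE P F k C g := fun C hC =>
        hrep C (by rw [hκ]; exact κ.allInst_plug v B hC)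
      have hsz : ∀ C : Fm V, C.len ≤ A.len → t * (h + 18 * C.len) ≤ h * k := fun C hC =>
        (Nat.mul_le_mul_left t (by omega)).trans hsize
      -- short formulas have small degree
      have hdeg : ∀ n : ℕ, h * n ≤ 18 * A.len → t * n ≤ k := by
        intro n hn
        have h1 : h * (t * n) ≤ h * k := by
          have h2 : t * (h * n) ≤ t * (18 * A.len) := Nat.mul_le_mul_left t hn
          have h3 : t * (18 * A.len) ≤ t * (h + 18 * A.len) := Nat.mul_le_mul_left t (by omega)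
          have h4 : h * (t * n) = t * (h * n) := by ring
          rw [h4]
          exact (h2.trans h3).trans hsize
        exact Nat.le_of_mul_le_mul_left h1 (by omega)
      -- a value of `B`
      have hBval : ∃ Bh : Fm (X → Bool), Bh.all (fun g => P.Dg (rl g) t ∧ Q g) ∧
          CE P F k B (vl Bh) ∧ h * (Bh.len + 7) + 9 * h ≤ 18 * A.len := by
        rcases hchild with ⟨i, rfl⟩ | ⟨C, rfl, hC⟩ | ⟨C, C', rfl, hC, hC'⟩
        · simp only [Fm.len] at hlen
          omega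
        · simp only [Fm.len] at hlen
          obtain ⟨Ch, hall, hce, hD⟩ := IH C.len (by omega) C rfl (hsz C (by omega))
            (fun E hE => hrepB E (allInst_neg_sub v _ hE))
          have hineq : h * (Ch.len + 1 + 7) + 9 * h ≤ 18 * A.len := by
            have e1 : h * (Ch.len + 1 + 7) = h * Ch.len + 8 * h := by ring
            rcases hD with ⟨_, hD⟩ | ⟨_, hD⟩
            · have h6 : h * Ch.len ≤ h * 1 := Nat.mul_le_mul_left h hD
              omega
            · omega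
          refine ⟨Fm.neg Ch, hall, ⟨?_, vl Ch, hce, P.peq_of_eq fun z => rl_vl_neg Ch z⟩, hineq⟩
          have hall' : (Fm.neg Ch).all (fun g => P.Dg (rl g) t ∧ Q g) := hall
          refine P.dg_mono (dg_vl hall') (hdeg _ ?_)
          simp only [Fm.len]
          have e1 : h * (Ch.len + 1 + 7) = h * (Ch.len + 1) + 7 * h := by ring
          omega
        · simp only [Fm.len] at hlen
          obtain ⟨Ch, hall, hce, hD⟩ := IH C.len (by omega) C rfl (hsz C (by omega))
            (fun E hE => hrepB E (allInst_impL_sub v _ _ hE))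
          obtain ⟨Ch', hall', hce', hD'⟩ := IH C'.len (by omega) C' rfl (hsz C' (by omega))
            (fun E hE => hrepB E (allInst_impR_sub v _ _ hE))
          have hineq : h * (Ch.len + Ch'.len + 1 + 7) + 9 * h ≤ 18 * A.len := by
            have e1 : h * (Ch.len + Ch'.len + 1 + 7) = h * Ch.len + h * Ch'.len + 8 * h := by ring
            rcases hD with ⟨_, hD⟩ | ⟨_, hD⟩
            · have h6 : h * Ch.len ≤ h * 1 := Nat.mul_le_mul_left h hD
              rcases hD' with ⟨_, hD'⟩ | ⟨_, hD'⟩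
              · have h6' : h * Ch'.len ≤ h * 1 := Nat.mul_le_mul_left h hD'
                omega
              · omega
            · rcases hD' with ⟨_, hD'⟩ | ⟨_, hD'⟩
              · have h6' : h * Ch'.len ≤ h * 1 := Nat.mul_le_mul_left h hD'
                omega
              · omega
          have hallB : (Fm.imp Ch Ch').all (fun g => P.Dg (rl g) t ∧ Q g) := ⟨hall, hall'⟩
          refine ⟨Fm.imp Ch Ch', hallB,
            ⟨?_, vl Ch, vl Ch', hce, hce', P.peq_of_eq fun z => rl_vl_imp Ch Ch' z⟩, hineq⟩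
          refine P.dg_mono (dg_vl hallB) (hdeg _ ?_)
          simp only [Fm.len]
          have e1 : h * (Ch.len + Ch'.len + 1 + 7) = h * (Ch.len + Ch'.len + 1) + 7 * h := by ring
          omega
      obtain ⟨Bh, hallB, hceB, hineq⟩ := hBval
      have hgT : ∀ T, T = top v ∨ T = bot v →
          ∃ g : X → Bool, P.Dg (rl g) t ∧ Q g ∧ CE P F k (κ.plug T) g := by
        intro T hT
        refine hrep _ ?_ ?_
        · rw [hκ]
          exact insts_subset_allInst v _ (κ.plug_mem_insts B T hT)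
        · rw [Ctx.len_plug]
          rcases hT with rfl | rfl <;> simp [top, bot, Fm.len] <;> omega
      obtain ⟨q₁, hd1, hQ1, h1⟩ := hgT _ (Or.inl rfl)
      obtain ⟨q₀, hd0, hQ0, h0⟩ := hgT _ (Or.inr rfl)
      have hgood : ∀ C ∈ allInst v (κ.plug B), C.len ≤ 4 * h →
          ∃ g : X → Bool, P.Dg (rl g) t ∧ CE P F k C g := by
        intro C hC hl
        obtain ⟨g, a, _, b⟩ := hrep C (by rw [hκ]; exact hC) hl
        exact ⟨g, a, b⟩
      have hDb := dg_vl hallB
      have hD7 : t * (Bh.len + 7) ≤ k := hdeg _ (by omega)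
      have e7 : t * (Bh.len + 7) = t * Bh.len + 7 * t := by ring
      have hce := ce_plug3 hM htk v hh (by omega : t * Bh.len + t ≤ k) hceB hDb κ hκh hgood
        hd1 hd0 h1 h0
      rw [← hκ] at hce
      obtain ⟨hmp, hmn⟩ := ce_mono hM htk v hh B κ hκh hgood hd1 hd0 h1 h0
      have dBk : P.Dg (rl (vl Bh)) k := P.dg_mono hDb (by omega)
      rcases hpos : κ.pos with _ | _
      · -- negative position
        have hall : (Fm.imp (Fm.neg (Fm.var q₁)) (Fm.neg (Fm.imp (Fm.var q₀) Bh))).all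
            (fun g => P.Dg (rl g) t ∧ Q g) := ⟨⟨hd1, hQ1⟩, ⟨hd0, hQ0⟩, hallB⟩
        have hl : (Fm.imp (Fm.neg (Fm.var q₁)) (Fm.neg (Fm.imp (Fm.var q₀) Bh))).len =
            Bh.len + 6 := by simp only [Fm.len]; ring
        have hle : h * (Bh.len + 6) ≤ h * (Bh.len + 7) := Nat.mul_le_mul_left h (by omega)
        refine ⟨_, hall, ce_congr hce (P.dg_mono (dg_vl hall) ?_) ?_, Or.inr ⟨hsm, ?_⟩⟩
        · rw [hl]
          exact hdeg _ (by omega)
        · have hz := P.z_mul (hmn hpos) (P.dg_mono (P.dg_mul hd1 (P.dg_one_sub hd0))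
            (by omega : t + t ≤ 2 * k)) (P.dg_one_sub dBk) (by omega)
          refine P.z_congr hz ?_
          intro z
          rw [rl_ite, rl_vl_imp, rl_vl_neg, rl_vl_neg, rl_vl_imp, vl_var, vl_var]
          ring
        · rw [hl]
          omega
      · have hall : (Fm.imp (Fm.neg (Fm.var q₀)) (Fm.neg (Fm.imp (Fm.var q₁) (Fm.neg Bh)))).all
            (fun g => P.Dg (rl g) t ∧ Q g) := ⟨⟨hd0, hQ0⟩, ⟨hd1, hQ1⟩, hallB⟩
        have hl : (Fm.imp (Fm.neg (Fm.var q₀)) (Fm.neg (Fm.imp (Fm.var q₁) (Fm.neg Bh)))).len =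
            Bh.len + 7 := by simp only [Fm.len]; ring
        refine ⟨_, hall, ce_congr hce (P.dg_mono (dg_vl hall) ?_) ?_, Or.inr ⟨hsm, ?_⟩⟩
        · rw [hl]
          exact hdeg _ (by omega)
        · have hz := P.z_mul (hmp hpos) (P.dg_mono (P.dg_mul hd0 (P.dg_one_sub hd1))
            (by omega : t + t ≤ 2 * k)) dBk (by omega)
          refine P.z_congr hz ?_
          intro z
          rw [rl_ite, rl_vl_imp, rl_vl_neg, rl_vl_neg, rl_vl_imp, rl_vl_neg, vl_var, vl_var]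
          ring
        · rw [hl]
          omega

theorem mid (P : PA X) (F : V → X → Bool) (k t h : ℕ) (hh : 4 ≤ h) (htk : t ≤ k)
    (hM : 20 * k ≤ P.M) (v : V) (Q : (X → Bool) → Prop) (A : Fm V)
    (hsize : t * (h + 18 * A.len) ≤ h * k)
    (hrep : ∀ B ∈ allInst v A, B.len ≤ 4 * h →
      ∃ g : X → Bool, P.Dg (rl g) t ∧ Q g ∧ CE P F k B g) :
    ∃ Ah : Fm (X → Bool), Ah.all (fun g => P.Dg (rl g) t ∧ Q g) ∧ CE P F k A (vl Ah) ∧
      h * Ah.len ≤ h + 18 * A.len := by
  obtain ⟨Ah, h1, h2, h3⟩ := mid_aux P F k t h hh htk hM v Q A.len A rfl hsize hrep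
  refine ⟨Ah, h1, h2, ?_⟩
  rcases h3 with ⟨_, h3⟩ | ⟨_, h3⟩
  · have h4 : h * Ah.len ≤ h * 1 := Nat.mul_le_mul_left h h3
    omega
  · omega

end Pool.Agent.H3.Frg3
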