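import Mathlib
import Pool.Agent.H3.Frg3.Defs

set_option autoImplicit false
set_option linter.unusedSectionVars false

/-!
# Module NDEG: degrees and cardinalities of the butterfly blow-up

* `net_deg`: let `v = (w, l, x)`. An edge in `bd {v}` has `v` as one of its two ends.
  Edges `inl (e, y)`: then `src' e = w` or `tgt' e = w` and `y = x`, so `e ∈ bd src' tgt' {w}` (no loops)
  and there are at most `D`. Edges `inr (inl (w', l', x', b))` with source `v`: `w' = w`, `x' = x`,
  `l'.castSucc = l`, two choices of `b`, at most 2; with target `v`: `w' = w`, `l'.succ = l`,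
  `Function.update x' l' b = x`: then `b = x l'` and `x' = Function.update x l' (x' l')`, at most 2.
  Edges `inr (inr e)`: then `e ∈ bd rsrc rtgt {v}` or the edge is a loop, and loops are not in `bd`;
  precisely `inr (inr e) ∈ bd … X ↔ e ∈ bd rsrc rtgt X`.
* `net_bd_ge`: `e ↦ inr (inr e)` maps `bd rsrc rtgt X` injectively into the boundary of `X`.
* `net_loopless`: matching edges by `hloop`, butterfly edges because `l.castSucc ≠ l.succ`.
* cardinalities: `simp` with `Fintype.card_sum`, `Fintype.card_prod`, `Fintype.card_fun`.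
-/

namespace Pool.Agent.H3.Frg3

open Finset Pool.Agent.H3.Frg Pool.Agent.H3.Frg2

variable {E' Wv' R : Type} [Fintype E'] [DecidableEq E'] [Fintype Wv'] [DecidableEq Wv']
  [Fintype R] [DecidableEq R] {k : ℕ}

theorem netdeg_out (w : Wv') (l : Fin (k + 1)) (x : Al k) :
    (univ.filter fun e : Wv' × Fin k × Al k × Bool =>
      e.1 = w ∧ e.2.1.castSucc = l ∧ e.2.2.1 = x).card ≤ 2 := by
  have h2 : (univ : Finset Bool).card = 2 := by simp
  rw [← h2]
  apply Finset.card_le_card_of_injOn (fun e => e.2.2.2)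
  · intro e _
    simp
  · rintro ⟨w1, l1, x1, b1⟩ h1 ⟨w2, l2, x2, b2⟩ h2 hb
    simp only [Finset.coe_filter, Finset.mem_univ, true_and, Set.mem_ofPred_eq] at h1 h2 hb
    obtain ⟨rfl, h1l, rfl⟩ := h1
    obtain ⟨rfl, h2l, rfl⟩ := h2
    have : l1 = l2 := by
      apply Fin.castSucc_injective
      rw [h1l, h2l]
    subst this
    subst hb
    rfl

theorem netdeg_in (w : Wv') (l : Fin (k + 1)) (x : Al k) :
    (univ.filter fun e : Wv' × Fin k × Al k × Bool =>
      e.1 = w ∧ e.2.1.succ = l ∧ Function.update e.2.2.1 e.2.1 e.2.2.2 = x).card ≤ 2 := by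
  have h2 : (univ : Finset Bool).card = 2 := by simp
  rw [← h2]
  apply Finset.card_le_card_of_injOn (fun e => e.2.2.1 e.2.1)
  · intro e _
    simp
  · rintro ⟨w1, l1, x1, b1⟩ h1 ⟨w2, l2, x2, b2⟩ h2 hb
    simp only [Finset.coe_filter, Finset.mem_univ, true_and, Set.mem_ofPred_eq] at h1 h2 hb
    obtain ⟨rfl, h1l, h1x⟩ := h1
    obtain ⟨rfl, h2l, h2x⟩ := h2
    have : l1 = l2 := by
      apply Fin.succ_injective
      rw [h1l, h2l]
    subst this
    have hb1 : b1 = x l1 := by rw [← h1x]; simp
    have hb2 : b2 = x l1 := by rw [← h2x]; simp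
    have hx : x1 = x2 := by
      funext j
      by_cases hj : j = l1
      · rw [hj]; exact hb
      · have e1 := congrFun h1x j
        have e2 := congrFun h2x j
        rw [Function.update_of_ne hj] at e1 e2
        rw [e1, e2]
    rw [hb1, hb2, hx]

theorem net_deg {src' tgt' : E' → Wv'} {D ρ : ℕ} (hloop : ∀ e, src' e ≠ tgt' e)
    (hdeg : ∀ w, (bd src' tgt' {w}).card ≤ D) {rsrc rtgt : R → NV Wv' k}
    (hR : ∀ v, (bd rsrc rtgt {v}).card ≤ ρ) (v : NV Wv' k) :
    (bd (nsrc src' rsrc) (ntgt tgt' rtgt) {v}).card ≤ D + 4 + ρ := by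
  obtain ⟨w, l, x⟩ := v
  have hsub : bd (nsrc src' rsrc) (ntgt tgt' rtgt) {((w, l, x) : NV Wv' k)} ⊆
      (bd src' tgt' {w}).image (fun e => (Sum.inl (e, x) : NE E' Wv' k R)) ∪
      (((univ.filter fun e : Wv' × Fin k × Al k × Bool =>
        e.1 = w ∧ e.2.1.castSucc = l ∧ e.2.2.1 = x).image
          (fun e => (Sum.inr (Sum.inl e) : NE E' Wv' k R)) ∪
       (univ.filter fun e : Wv' × Fin k × Al k × Bool =>
        e.1 = w ∧ e.2.1.succ = l ∧ Function.update e.2.2.1 e.2.1 e.2.2.2 = x).image
          (fun e => (Sum.inr (Sum.inl e) : NE E' Wv' k R))) ∪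
      (bd rsrc rtgt {((w, l, x) : NV Wv' k)}).image
          (fun e => (Sum.inr (Sum.inr e) : NE E' Wv' k R))) := by
    intro e he
    rw [mem_bd] at he
    rcases e with ⟨e, y⟩ | (⟨w', l', x', b⟩ | e)
    · apply Finset.mem_union_left
      simp only [nsrc, ntgt, Finset.mem_singleton, Prod.mk.injEq] at he
      rw [Finset.mem_image]
      have hy : y = x := by
        by_contra hy
        apply he
        simp [hy]
      refine ⟨e, ?_, by rw [hy]⟩
      rw [mem_bd]
      simp only [Finset.mem_singleton]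
      intro hiff
      apply he
      constructor
      · rintro ⟨a, b⟩
        exact ⟨hiff.mp a, b⟩
      · rintro ⟨a, b⟩
        exact ⟨hiff.mpr a, b⟩
    · apply Finset.mem_union_right
      apply Finset.mem_union_left
      simp only [nsrc, ntgt, Finset.mem_singleton, Prod.mk.injEq] at he
      by_cases h1 : w' = w ∧ l'.castSucc = l ∧ x' = x
      · apply Finset.mem_union_left
        rw [Finset.mem_image]
        exact ⟨(w', l', x', b), by simp [h1.1, h1.2.1, h1.2.2], rfl⟩
      · by_cases h2 : w' = w ∧ l'.succ = l ∧ Function.update x' l' b = x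
        · apply Finset.mem_union_right
          rw [Finset.mem_image]
          refine ⟨(w', l', x', b), ?_, rfl⟩
          rw [Finset.mem_filter]
          exact ⟨Finset.mem_univ _, h2⟩
        · exact absurd (iff_of_false h1 h2) he
    · apply Finset.mem_union_right
      apply Finset.mem_union_right
      rw [Finset.mem_image]
      refine ⟨e, ?_, rfl⟩
      rw [mem_bd]
      exact he
  refine (Finset.card_le_card hsub).trans ?_
  refine (Finset.card_union_le _ _).trans ?_
  have h1 := (Finset.card_image_le (s := bd src' tgt' {w})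
    (f := fun e => (Sum.inl (e, x) : NE E' Wv' k R))).trans (hdeg w)
  have h2 := (Finset.card_image_le (s := univ.filter fun e : Wv' × Fin k × Al k × Bool =>
        e.1 = w ∧ e.2.1.castSucc = l ∧ e.2.2.1 = x)
    (f := fun e => (Sum.inr (Sum.inl e) : NE E' Wv' k R))).trans (netdeg_out w l x)
  have h3 := (Finset.card_image_le (s := univ.filter fun e : Wv' × Fin k × Al k × Bool =>
        e.1 = w ∧ e.2.1.succ = l ∧ Function.update e.2.2.1 e.2.1 e.2.2.2 = x)
    (f := fun e => (Sum.inr (Sum.inl e) : NE E' Wv' k R))).trans (netdeg_in w l x)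
  have h4 := (Finset.card_image_le (s := bd rsrc rtgt {((w, l, x) : NV Wv' k)})
    (f := fun e => (Sum.inr (Sum.inr e) : NE E' Wv' k R))).trans (hR (w, l, x))
  have h5 : ∀ (A B C : Finset (NE E' Wv' k R)), (A ∪ B ∪ C).card ≤ A.card + B.card + C.card := by
    intro A B C
    refine (Finset.card_union_le _ _).trans ?_
    have := Finset.card_union_le A B
    omega
  refine (Nat.add_le_add h1 ((h5 _ _ _).trans
    (Nat.add_le_add (Nat.add_le_add h2 h3) h4))).trans ?_
  omega

theorem net_bd_ge (src' tgt' : E' → Wv') (rsrc rtgt : R → NV Wv' k) (X : Finset (NV Wv' k)) :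
    (bd rsrc rtgt X).card ≤ (bd (nsrc src' rsrc) (ntgt tgt' rtgt) X).card := by
  apply Finset.card_le_card_of_injOn (fun e => (Sum.inr (Sum.inr e) : NE E' Wv' k R))
  · intro e he
    rw [Finset.mem_coe, mem_bd] at he ⊢
    exact he
  · intro a _ b _ h
    simpa using h

theorem net_loopless {src' tgt' : E' → Wv'} (hloop : ∀ e, src' e ≠ tgt' e)
    {rsrc rtgt : R → NV Wv' k} (hR : ∀ e, rsrc e ≠ rtgt e) :
    ∀ e, nsrc src' rsrc e ≠ ntgt tgt' rtgt e := by
  intro e
  rcases e with ⟨e, y⟩ | (⟨w', l', x', b⟩ | e)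
  · simp only [nsrc, ntgt, ne_eq, Prod.mk.injEq, not_and]
    intro h
    exact absurd h (hloop e)
  · simp only [nsrc, ntgt, ne_eq, Prod.mk.injEq, not_and]
    intro _ h
    exfalso
    have := congrArg Fin.val h
    simp at this
  · exact hR e

theorem card_NV : Fintype.card (NV Wv' k) = Fintype.card Wv' * ((k + 1) * 2 ^ k) := by
  simp [NV, Al]

theorem card_NE : Fintype.card (NE E' Wv' k R) =
    Fintype.card E' * 2 ^ k + (Fintype.card Wv' * (k * (2 ^ k * 2)) + Fintype.card R) := by
  simp [NE, Al]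

theorem card_Ch : Fintype.card (Ch E' Wv' k) =
    (2 ^ k) ^ Fintype.card Wv' * (2 ^ k) ^ Fintype.card E' := by
  simp [Ch, Al]

end Pool.Agent.H3.Frg3
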