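import Mathlib
import Pool.Agent.H3.Frg3.NetDeg

set_option autoImplicit false
set_option linter.unusedSectionVars false

/-!
# Module NETLG: the butterfly blow-up with sufficiently many expander edges is again an `LG`

`loopless`, `deg`, `cheeger` (`net_bd_ge`) are immediate from `NetDeg.lean`.

`peel`: let `X` be nonempty, `1024 |X| ≤ n`. For `w ∈ X`, `toIn` of the blow-up at `w` has at most
`D + 4` edges that are not in `R` (they are in the boundary of `{w}`, no loops; the proof of
`net_deg` shows that at most `D + 4` edges of `bd {w}` are not in `R`), and the edges in `R` are those of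
`toIn rsrc rtgt w X`. Also `toOut` of the blow-up contains the edges of `toOut rsrc rtgt w X`. Hence
`∑_{w ∈ X} toIn ≤ (D + 4) |X| + ∑_{w ∈ X} (toIn rsrc rtgt w X).card < ∑_{w ∈ X} (toOut rsrc rtgt w X).card
≤ ∑_{w ∈ X} toOut`, so `toIn < toOut` for some `w ∈ X`.
(The bound for the edges that are not in `R` is `net_deg` for `R = Empty`.)
-/

namespace Pool.Agent.H3.Frg3

open Finset Pool.Agent.H3.Frg Pool.Agent.H3.Frg2

variable {E' Wv' R : Type} [Fintype E'] [DecidableEq E'] [Fintype Wv'] [DecidableEq Wv']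
  [Fintype R] [DecidableEq R] {k : ℕ}

/-- the edges of the blow-up that are not in `R` -/
private def netG (E' Wv' R : Type) (k : ℕ) : NE E' Wv' k Empty → NE E' Wv' k R
  | Sum.inl v => Sum.inl v
  | Sum.inr (Sum.inl v) => Sum.inr (Sum.inl v)
  | Sum.inr (Sum.inr e) => e.elim

private theorem netG_mem {src' tgt' : E' → Wv'} (hloop : ∀ e, src' e ≠ tgt' e)
    {rsrc rtgt : R → NV Wv' k} (w : NV Wv' k) (X : Finset (NV Wv' k)) :
    toIn (nsrc src' rsrc) (ntgt tgt' rtgt) w X ⊆
      (bd (nsrc (k := k) src' (Empty.elim : Empty → NV Wv' k)) (ntgt tgt' Empty.elim) {w}).image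
        (netG E' Wv' R k) ∪
      (toIn rsrc rtgt w X).image (fun e => Sum.inr (Sum.inr e)) := by
  intro i hi
  rw [toIn, Finset.mem_filter] at hi
  have hi2 := hi.2
  rw [Finset.mem_union]
  rcases i with v | v | e
  · left
    rw [Finset.mem_image]
    refine ⟨Sum.inl v, ?_, rfl⟩
    rw [mem_bd]
    intro hc
    simp only [Finset.mem_singleton, nsrc, ntgt] at hc hi2
    have h1 : ((src' v.1, Fin.last k, v.2) : NV Wv' k) ≠ (tgt' v.1, Fin.last k, v.2) := by
      intro h
      exact hloop v.1 (congrArg Prod.fst h)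
    rcases hi2 with ⟨h, -⟩ | ⟨h, -⟩
    · exact h1 (h.trans (hc.mp h).symm)
    · exact h1 ((hc.mpr h).trans h.symm)
  · left
    rw [Finset.mem_image]
    refine ⟨Sum.inr (Sum.inl v), ?_, rfl⟩
    rw [mem_bd]
    intro hc
    simp only [Finset.mem_singleton, nsrc, ntgt] at hc hi2
    have h1 : ((v.1, v.2.1.castSucc, v.2.2.1) : NV Wv' k) ≠
        (v.1, v.2.1.succ, Function.update v.2.2.1 v.2.1 v.2.2.2) := by
      intro h
      have h2 : v.2.1.castSucc = v.2.1.succ := congrArg (fun z : NV Wv' k => z.2.1) h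
      exact absurd h2 (Fin.castSucc_lt_succ).ne
    rcases hi2 with ⟨h, -⟩ | ⟨h, -⟩
    · exact h1 (h.trans (hc.mp h).symm)
    · exact h1 ((hc.mpr h).trans h.symm)
  · right
    rw [Finset.mem_image]
    refine ⟨e, ?_, rfl⟩
    rw [toIn, Finset.mem_filter]
    exact ⟨mem_univ _, hi2⟩

theorem net_LG {src' tgt' : E' → Wv'} {D ρ c0 : ℕ} (hloop : ∀ e, src' e ≠ tgt' e)
    (hdeg : ∀ w, (bd src' tgt' {w}).card ≤ D) {rsrc rtgt : R → NV Wv' k}
    (h1 : ∀ e, rsrc e ≠ rtgt e) (h2 : ∀ v, (bd rsrc rtgt {v}).card ≤ ρ)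
    (h3 : ∀ X : Finset (NV Wv' k),
      min X.card (Fintype.card (NV Wv' k) - X.card) ≤ c0 * (bd rsrc rtgt X).card)
    (h4 : ∀ X : Finset (NV Wv' k), X.Nonempty → 1024 * X.card ≤ Fintype.card (NV Wv' k) →
      (D + 4) * X.card + ∑ w ∈ X, (toIn rsrc rtgt w X).card
        < ∑ w ∈ X, (toOut rsrc rtgt w X).card) :
    LG (nsrc src' rsrc) (ntgt tgt' rtgt) (D + 4 + ρ) c0 1024 := by
  refine ⟨net_loopless hloop h1, net_deg hloop hdeg h2, ?_, ?_⟩
  · intro X
    exact (h3 X).trans (Nat.mul_le_mul_left _ (net_bd_ge src' tgt' rsrc rtgt X))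
  · intro X hX hXn
    by_contra hcon
    push Not at hcon
    have hsum := Finset.sum_le_sum hcon
    have hin : ∀ w ∈ X, (toIn (nsrc src' rsrc) (ntgt tgt' rtgt) w X).card ≤
        (D + 4) + (toIn rsrc rtgt w X).card := by
      intro w _
      refine (Finset.card_le_card (netG_mem hloop w X)).trans ((Finset.card_union_le _ _).trans ?_)
      refine Nat.add_le_add ?_ Finset.card_image_le
      refine Finset.card_image_le.trans ?_
      exact net_deg (R := Empty) (ρ := 0) hloop hdeg (fun v => by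
        rw [Nat.le_zero, Finset.card_eq_zero]
        exact Finset.eq_empty_of_isEmpty _) w
    have hout : ∀ w ∈ X, (toOut rsrc rtgt w X).card ≤
        (toOut (nsrc src' rsrc) (ntgt tgt' rtgt) w X).card := by
      intro w _
      refine Finset.card_le_card_of_injOn (fun e => Sum.inr (Sum.inr e)) ?_ ?_
      · intro e he
        rw [Finset.mem_coe, toOut, Finset.mem_filter] at he
        rw [Finset.mem_coe, toOut, Finset.mem_filter]
        exact ⟨mem_univ _, he.2⟩
      · intro e _ e' _ h
        exact Sum.inr_injective (Sum.inr_injective h)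
    have hs1 := Finset.sum_le_sum hin
    have hs2 := Finset.sum_le_sum hout
    rw [Finset.sum_add_distrib, Finset.sum_const, smul_eq_mul, mul_comm X.card] at hs1
    have h5 := h4 X hX hXn
    omega

end Pool.Agent.H3.Frg3
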