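import Mathlib
import Pool.Agent.H3.Frg3.Defs
import Pool.Agent.H3.Frg2.SuperGraph

set_option autoImplicit false
set_option linter.unusedSectionVars false

/-!
# Module RGRAPH: graphs of random permutations with very strong expansion of small sets

Everything about permutations is in `Pool/Agent/H3/Frg2/SuperGraph.lean` (`sgmv`, `sg_moment`,
`sgbad_card_mul`, `sg_choose_le`, `sg_exists_perms`, `sg_cr_ge`, …), for a general finite type `W`.

Let `ρ = D + 100`, `n = card W ≥ 1000`.

**(A)** There are permutations `τ : Fin ρ → Equiv.Perm W` such that for every nonempty `X` with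
`1024 |X| ≤ n`: `4 * ∑ i, sgmv (τ i) X ≤ ρ * |X|`.
Proof: for one permutation `∑_τ λ^(sgmv τ X) ≤ 2^x n!` with `x = |X|`, `λ = n / x ≥ 1024`
(`sg_moment`). So the number of `τ : Fin ρ → Perm W` with `ρ x < 4 ∑ i, sgmv (τ i) X` is at most
`(2^x n!)^ρ λ^(-ρ x / 4)` (compare `sgbad_card_mul`, which treats `∑ ≥ K/2 x`; here use for instance
`(∑ i sgmv) * 4 ≥ ρ x`, so `(λ^(∑ sgmv))^4 ≥ λ^(ρ x)`, or work with `μ = λ^(1/4)`, `μ ≥ 5.65`). The number
of `X` with `|X| = x` is at most `(3 n / x)^x = (3 λ)^x` (`sg_choose_le`). Sum over `x ≥ 1`: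
`∑_x (3 λ 2^ρ λ^(-ρ/4))^x`, and `3 λ 2^ρ λ^(-ρ/4) = 3 λ (2 / λ^(1/4))^ρ ≤ 3 λ (2/λ^(1/4))^100
 = 3 * 2^100 λ^(-24) ≤ 3 * 2^100 * 2^(-240) ≤ 1/4` (the bracket is `< 1`, so a larger `ρ` is only better),
so the sum is `≤ 1/3 < 1`.

**(B)** Let `G1` be the graph of 40 permutations `σ` from `sg_exists_perms` (its expansion and degree
are proved as in `exists_super`), `G2` the graph of the non-loops of `τ`, and take the disjoint union
`R = {e : Fin 40 × W // σ e.1 e.2 ≠ e.2} ⊕ {e : Fin ρ × W // τ e.1 e.2 ≠ e.2}`.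
* degree `≤ 80 + 2 ρ = 2 D + 280`;
* `cheeger` with constant `1000` already from `G1` (`bd` of the union has at least the edges of `G1`);
* last property: let `X` be nonempty with `1024 |X| ≤ n`, `x = |X|`, `a = ∑ i, sgmv (τ i) X`.
  For `G2`: `∑_{w ∈ X} toOut ≥ |bd X| ≥ 2 (ρ x - a)` and `∑_{w ∈ X} toIn ≤ 2 a` (as in `sg_sum_out`,
  `sg_sum_in`, `sgins_card`, `sg_cr_ge`, with `Fin ρ` in place of `Fin 40`). For `G1`:
  `∑_{w ∈ X} toIn ≤ ∑_{w ∈ X} |bd {w}| ≤ 80 x`. So
  `∑ toOut - ∑ toIn ≥ 2 ρ x - 4 a - 80 x ≥ ρ x - 80 x = (D + 20) x > D x`.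
-/

namespace Pool.Agent.H3.Frg3

open Finset Pool.Agent.H3.Frg Pool.Agent.H3.Frg2

section Perm

variable {W : Type} [Fintype W] [DecidableEq W]

/-- bad choices of permutations for a small set -/
def rbad (K : ℕ) (X : Finset W) : Finset (Fin K → Equiv.Perm W) :=
  univ.filter fun σ => K * X.card < 4 * ∑ i, sgmv (σ i) X

/-- fourth root -/
noncomputable def rmu (n x : ℕ) : ℝ := Real.sqrt (Real.sqrt ((n : ℝ) / x))

theorem rmu_pow (n x : ℕ) : rmu n x ^ 4 = (n : ℝ) / x := by
  unfold rmu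
  have h0 : (0 : ℝ) ≤ (n : ℝ) / x := by positivity
  have h1 : ∀ y : ℝ, y ^ 4 = (y ^ 2) ^ 2 := fun y => by ring
  rw [h1, Real.sq_sqrt (Real.sqrt_nonneg _), Real.sq_sqrt h0]

theorem rmu_ge (n x : ℕ) (hx : 1 ≤ x) (hn : 1024 * x ≤ n) : 5 ≤ rmu n x := by
  unfold rmu
  have hx0 : (0 : ℝ) < x := by exact_mod_cast hx
  have h1 : (625 : ℝ) ≤ (n : ℝ) / x := by
    rw [le_div_iff₀ hx0]
    have : (1024 * x : ℝ) ≤ n := by exact_mod_cast hn
    linarith
  refine Real.le_sqrt_of_sq_le (Real.le_sqrt_of_sq_le ?_)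
  norm_num
  exact h1

theorem rbad_card_mul (K : ℕ) (X : Finset W) (hX : 1 ≤ X.card)
    (hXn : 1024 * X.card ≤ Fintype.card W) :
    ((rbad K X).card : ℝ) * (rmu (Fintype.card W) X.card) ^ (K * X.card) ≤
      ((Fintype.card W).factorial * 2 ^ X.card) ^ K := by
  have h0 := sg_moment X hX
  have hm := rmu_pow (Fintype.card W) X.card
  have hm5 := rmu_ge (Fintype.card W) X.card hX hXn
  rw [← hm] at h0
  generalize rmu (Fintype.card W) X.card = μ at h0 hm5 ⊢
  have hl0 : 0 ≤ μ := by linarith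
  have hl1 : 1 ≤ μ := by linarith
  calc ((rbad K X).card : ℝ) * μ ^ (K * X.card) = ∑ σ ∈ rbad K X, μ ^ (K * X.card) := by
        rw [Finset.sum_const, nsmul_eq_mul]
    _ ≤ ∑ σ ∈ rbad K X, ∏ i, (μ ^ 4) ^ sgmv (σ i) X := by
        refine Finset.sum_le_sum fun σ hσ => ?_
        rw [Finset.prod_pow_eq_pow_sum, ← pow_mul]
        exact pow_le_pow_right₀ hl1 (Finset.mem_filter.mp hσ).2.le
    _ ≤ ∑ σ : Fin K → Equiv.Perm W, ∏ i, (μ ^ 4) ^ sgmv (σ i) X :=
        Finset.sum_le_sum_of_subset_of_nonneg (Finset.subset_univ _)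
          fun _ _ _ => Finset.prod_nonneg fun _ _ => pow_nonneg (pow_nonneg hl0 _) _
    _ = (∑ τ : Equiv.Perm W, (μ ^ 4) ^ sgmv τ X) ^ K := by
        rw [Fintype.sum_pow]
    _ ≤ _ := pow_le_pow_left₀ (Finset.sum_nonneg fun _ _ => pow_nonneg (pow_nonneg hl0 _) _) h0 K

theorem rbad_card (K : ℕ) (X : Finset W) (hX : 1 ≤ X.card)
    (hXn : 1024 * X.card ≤ Fintype.card W) :
    ((rbad K X).card : ℝ) ≤
      (Fintype.card W).factorial ^ K * ((2 / rmu (Fintype.card W) X.card) ^ K) ^ X.card := by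
  have h1 := rbad_card_mul K X hX hXn
  have hm5 := rmu_ge (Fintype.card W) X.card hX hXn
  generalize rmu (Fintype.card W) X.card = μ at h1 hm5 ⊢
  have hμ : (0 : ℝ) < μ := by linarith
  have h2 : ((Fintype.card W).factorial * 2 ^ X.card : ℝ) ^ K =
      (Fintype.card W).factorial ^ K * ((2 / μ) ^ K) ^ X.card * μ ^ (K * X.card) := by
    rw [mul_pow, ← pow_mul, ← pow_mul, div_pow, mul_comm X.card K]
    field_simp
  rw [h2] at h1
  exact le_of_mul_le_mul_right h1 (by positivity)

theorem rterm (D n x : ℕ) (hx : 1 ≤ x) (hxn : 1024 * x ≤ n) :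
    (n.choose x : ℝ) * ((2 / rmu n x) ^ (D + 100)) ^ x ≤ (1 / 8 : ℝ) ^ x := by
  have hc := sg_choose_le n x hx
  have h3 : (3 * n / x : ℝ) = 3 * rmu n x ^ 4 := by
    rw [rmu_pow]
    ring
  rw [h3] at hc
  have hm5 := rmu_ge n x hx hxn
  generalize rmu n x = μ at hc hm5 ⊢
  have hμ : (0 : ℝ) < μ := by linarith
  have hq : (2 / μ) ^ (D + 100) ≤ (2 / μ) ^ 100 := by
    refine pow_le_pow_of_le_one (by positivity) ?_ (by omega)
    rw [div_le_one hμ]
    linarith
  calc (n.choose x : ℝ) * ((2 / μ) ^ (D + 100)) ^ x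
      ≤ (3 * μ ^ 4) ^ x * ((2 / μ) ^ 100) ^ x := by
        refine mul_le_mul hc (pow_le_pow_left₀ (by positivity) hq x) (by positivity)
          (by positivity)
    _ = (3 * 2 ^ 100 * (1 / μ) ^ 96) ^ x := by
        rw [← mul_pow]
        congr 1
        field_simp
    _ ≤ (3 * 2 ^ 100 * (1 / 5 : ℝ) ^ 96) ^ x := by
        have : 1 / μ ≤ 1 / 5 := one_div_le_one_div_of_le (by norm_num) hm5
        gcongr
    _ ≤ (1 / 8 : ℝ) ^ x := by
        refine pow_le_pow_left₀ (by positivity) ?_ x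
        norm_num

theorem rsum_small (D : ℕ) :
    ∑ X : Finset W, (if 1 ≤ X.card ∧ 1024 * X.card ≤ Fintype.card W then
      ((2 / rmu (Fintype.card W) X.card) ^ (D + 100)) ^ X.card else 0) ≤ 1 / 4 := by
  set N := Fintype.card W with hN
  have h1 := Finset.sum_powerset_apply_card (fun x : ℕ => if 1 ≤ x ∧ 1024 * x ≤ N then
      ((2 / rmu N x) ^ (D + 100)) ^ x else 0) (x := (univ : Finset W))
  rw [Finset.powerset_univ, Finset.card_univ, ← hN] at h1
  rw [h1]
  calc ∑ m ∈ Finset.range (N + 1), N.choose m • (if 1 ≤ m ∧ 1024 * m ≤ N then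
        ((2 / rmu N m) ^ (D + 100)) ^ m else 0)
      ≤ ∑ m ∈ Finset.range (N + 1), (if 1 ≤ m then (1 / 8 : ℝ) ^ m else 0) := by
        refine Finset.sum_le_sum fun m _ => ?_
        by_cases h : 1 ≤ m ∧ 1024 * m ≤ N
        · rw [if_pos h, if_pos h.1, nsmul_eq_mul]
          exact rterm D N m h.1 h.2
        · rw [if_neg h, smul_zero]
          split_ifs <;> positivity
    _ = (∑ m ∈ Finset.range (N + 1), (1 / 8 : ℝ) ^ m) - 1 := by
        rw [Finset.sum_range_succ', Finset.sum_range_succ']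
        simp
    _ ≤ _ := by
        have h2 := (summable_geometric_of_lt_one (r := (1 / 8 : ℝ)) (by norm_num)
          (by norm_num)).sum_le_tsum (Finset.range (N + 1)) (fun i _ => by positivity)
        rw [tsum_geometric_of_lt_one (by norm_num) (by norm_num)] at h2
        norm_num at h2 ⊢
        linarith

theorem rexists_perms (D : ℕ) :
    ∃ σ : Fin (D + 100) → Equiv.Perm W,
      ∀ X : Finset W, X.Nonempty → 1024 * X.card ≤ Fintype.card W →
        4 * ∑ i, sgmv (σ i) X ≤ (D + 100) * X.card := by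
  classical
  by_contra hcon
  push Not at hcon
  set N := Fintype.card W with hN
  set K := D + 100 with hK
  have hsub : (univ : Finset (Fin K → Equiv.Perm W)) ⊆
      ((univ.filter fun X : Finset W => 1 ≤ X.card ∧ 1024 * X.card ≤ N).biUnion
        fun X => rbad K X) := by
    intro σ _
    obtain ⟨X, h1, h2, h3⟩ := hcon σ
    rw [Finset.mem_biUnion]
    refine ⟨X, by
        simp only [Finset.mem_filter, mem_univ, true_and]
        exact ⟨Finset.card_pos.mpr h1, h2⟩, ?_⟩
    simp only [rbad, Finset.mem_filter, mem_univ, true_and]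
    exact h3
  have hcard : ((univ : Finset (Fin K → Equiv.Perm W)).card : ℝ) = (N.factorial : ℝ) ^ K := by
    rw [Finset.card_univ, Fintype.card_fun, Fintype.card_fin, Fintype.card_perm]
    push_cast
    rfl
  have hF : (0 : ℝ) < (N.factorial : ℝ) ^ K := by
    have : (0 : ℝ) < N.factorial := by exact_mod_cast N.factorial_pos
    positivity
  have hle := Finset.card_le_card hsub
  have hle' : (N.factorial : ℝ) ^ K ≤
      (((univ.filter fun X : Finset W => 1 ≤ X.card ∧ 1024 * X.card ≤ N).biUnion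
        fun X => rbad K X).card : ℝ) := by
    rw [← hcard]
    exact_mod_cast hle
  have hA : ((((univ.filter fun X : Finset W => 1 ≤ X.card ∧ 1024 * X.card ≤ N).biUnion
        fun X => rbad K X).card : ℕ) : ℝ) ≤ (N.factorial : ℝ) ^ K * (1 / 4) := by
    calc ((((univ.filter fun X : Finset W => 1 ≤ X.card ∧ 1024 * X.card ≤ N).biUnion
        fun X => rbad K X).card : ℕ) : ℝ)
        ≤ ∑ X ∈ univ.filter fun X : Finset W => 1 ≤ X.card ∧ 1024 * X.card ≤ N,
          ((rbad K X).card : ℝ) := by exact_mod_cast Finset.card_biUnion_le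
      _ ≤ ∑ X ∈ univ.filter fun X : Finset W => 1 ≤ X.card ∧ 1024 * X.card ≤ N,
          (N.factorial : ℝ) ^ K * ((2 / rmu N X.card) ^ K) ^ X.card := by
          refine Finset.sum_le_sum fun X hX => ?_
          exact rbad_card K X (Finset.mem_filter.mp hX).2.1 (Finset.mem_filter.mp hX).2.2
      _ = (N.factorial : ℝ) ^ K * ∑ X : Finset W, (if 1 ≤ X.card ∧ 1024 * X.card ≤ N then
          ((2 / rmu N X.card) ^ K) ^ X.card else 0) := by
          rw [Finset.sum_filter, Finset.mul_sum]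
          refine Finset.sum_congr rfl fun X _ => ?_
          split_ifs
          · rfl
          · rw [mul_zero]
      _ ≤ _ := by
          refine mul_le_mul_of_nonneg_left ?_ hF.le
          exact rsum_small D
  linarith

/-! ### the graph of a family of permutations -/

/-- edges of the graph: non-loops -/
abbrev RE {K : ℕ} (σ : Fin K → Equiv.Perm W) : Type := {e : Fin K × W // σ e.1 e.2 ≠ e.2}

/-- source -/
def resrc {K : ℕ} (σ : Fin K → Equiv.Perm W) (e : RE σ) : W := e.1.2

/-- target -/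
def retgt {K : ℕ} (σ : Fin K → Equiv.Perm W) (e : RE σ) : W := σ e.1.1 e.1.2

variable {K : ℕ}

theorem re_bd_ge (σ : Fin K → Equiv.Perm W) (X : Finset W) :
    ∑ i, (cr (σ i) X).card ≤ (bd (resrc σ) (retgt σ) X).card := by
  have h1 : ∑ i, (cr (σ i) X).card =
      ((univ : Finset (Fin K)).sigma fun i => cr (σ i) X).card := by
    rw [Finset.card_sigma]
  rw [h1]
  refine Finset.card_le_card_of_surjOn (fun e : RE σ => (⟨e.1.1, e.1.2⟩ : Σ _ : Fin K, W)) ?_
  rintro ⟨i, v⟩ hv
  rw [Finset.mem_coe, Finset.mem_sigma] at hv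
  have hv2 := hv.2
  simp only [cr, Finset.mem_filter, mem_univ, true_and] at hv2
  refine ⟨⟨(i, v), ?_⟩, ?_, rfl⟩
  · intro h
    apply hv2
    rw [h]
  · rw [Finset.mem_coe, mem_bd]
    exact hv2

theorem re_deg (σ : Fin K → Equiv.Perm W) (w : W) :
    (bd (resrc σ) (retgt σ) {w}).card ≤ 2 * K := by
  have h1 : bd (resrc σ) (retgt σ) {w} ⊆ (univ.filter fun e => resrc σ e = w) ∪
      (univ.filter fun e => retgt σ e = w) := by
    intro e he
    rw [mem_bd] at he
    simp only [Finset.mem_union, Finset.mem_filter, mem_univ, true_and]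
    simp only [Finset.mem_singleton] at he
    tauto
  have h2 : (univ.filter fun e => resrc σ e = w).card ≤ (univ : Finset (Fin K)).card := by
    refine Finset.card_le_card_of_injOn (fun e => e.1.1) (fun _ _ => mem_coe.mpr (mem_univ _)) ?_
    rintro ⟨⟨i, v⟩, h⟩ he ⟨⟨j, u⟩, h'⟩ he' hij
    have he2 : v = w := (Finset.mem_filter.mp (Finset.mem_coe.mp he)).2
    have he3 : u = w := (Finset.mem_filter.mp (Finset.mem_coe.mp he')).2
    simp only at hij
    subst hij
    rw [Subtype.mk.injEq, Prod.mk.injEq]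
    exact ⟨rfl, he2.trans he3.symm⟩
  have h3 : (univ.filter fun e => retgt σ e = w).card ≤ (univ : Finset (Fin K)).card := by
    refine Finset.card_le_card_of_injOn (fun e => e.1.1) (fun _ _ => mem_coe.mpr (mem_univ _)) ?_
    rintro ⟨⟨i, v⟩, h⟩ he ⟨⟨j, u⟩, h'⟩ he' hij
    have he2 : σ i v = w := (Finset.mem_filter.mp (Finset.mem_coe.mp he)).2
    have he3 : σ j u = w := (Finset.mem_filter.mp (Finset.mem_coe.mp he')).2
    simp only at hij
    subst hij
    rw [Subtype.mk.injEq, Prod.mk.injEq]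
    exact ⟨rfl, (σ i).injective (he2.trans he3.symm)⟩
  have h4 := (Finset.card_le_card h1).trans (Finset.card_union_le _ _)
  rw [Finset.card_univ, Fintype.card_fin] at h2 h3
  omega

/-- edges inside `X` -/
def reins (σ : Fin K → Equiv.Perm W) (X : Finset W) : Finset (RE σ) :=
  univ.filter fun e => resrc σ e ∈ X ∧ retgt σ e ∈ X

theorem reins_card (σ : Fin K → Equiv.Perm W) (X : Finset W) :
    (reins σ X).card ≤ ∑ i, sgmv (σ i) X := by
  have h1 : ∑ i, sgmv (σ i) X =
      ((univ : Finset (Fin K)).sigma fun i => X.filter fun v => σ i v ∈ X).card := by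
    rw [Finset.card_sigma]
    rfl
  rw [h1]
  refine Finset.card_le_card_of_injOn (fun e : RE σ => (⟨e.1.1, e.1.2⟩ : Σ _ : Fin K, W)) ?_ ?_
  · intro e he
    rw [Finset.mem_coe, reins, Finset.mem_filter] at he
    rw [Finset.mem_coe, Finset.mem_sigma]
    refine ⟨mem_univ _, ?_⟩
    rw [Finset.mem_filter]
    exact he.2
  · rintro ⟨⟨i, v⟩, h⟩ _ ⟨⟨j, u⟩, h'⟩ _ hij
    simp only [Sigma.mk.injEq, heq_eq_eq] at hij
    rw [Subtype.mk.injEq, Prod.mk.injEq]
    exact hij

theorem re_sum_in (σ : Fin K → Equiv.Perm W) (X : Finset W) :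
    ∑ w ∈ X, (toIn (resrc σ) (retgt σ) w X).card ≤ 2 * (reins σ X).card := by
  have h1 : ∀ w ∈ X, (toIn (resrc σ) (retgt σ) w X).card ≤
      ((reins σ X).filter fun e => resrc σ e = w).card +
      ((reins σ X).filter fun e => retgt σ e = w).card := by
    intro w hw
    refine (Finset.card_le_card ?_).trans (Finset.card_union_le _ _)
    intro e he
    simp only [toIn, Finset.mem_filter, mem_univ, true_and] at he
    simp only [reins, Finset.mem_union, Finset.mem_filter, mem_univ, true_and]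
    rcases he with ⟨h, h'⟩ | ⟨h, h'⟩
    · left
      rw [h]
      exact ⟨⟨hw, h'⟩, rfl⟩
    · right
      rw [h]
      exact ⟨⟨h', hw⟩, rfl⟩
  refine (Finset.sum_le_sum h1).trans ?_
  rw [Finset.sum_add_distrib]
  have h2 : ∑ w ∈ X, ((reins σ X).filter fun e => resrc σ e = w).card = (reins σ X).card :=
    (Finset.card_eq_sum_card_fiberwise (f := resrc σ) fun e he => by
      rw [Finset.mem_coe, reins, Finset.mem_filter] at he
      exact mem_coe.mpr he.2.1).symm
  have h3 : ∑ w ∈ X, ((reins σ X).filter fun e => retgt σ e = w).card = (reins σ X).card :=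
    (Finset.card_eq_sum_card_fiberwise (f := retgt σ) fun e he => by
      rw [Finset.mem_coe, reins, Finset.mem_filter] at he
      exact mem_coe.mpr he.2.2).symm
  rw [h2, h3]
  omega

theorem re_sum_out (σ : Fin K → Equiv.Perm W) (X : Finset W) :
    (bd (resrc σ) (retgt σ) X).card ≤ ∑ w ∈ X, (toOut (resrc σ) (retgt σ) w X).card := by
  refine le_trans (Finset.card_le_card ?_) Finset.card_biUnion_le
  intro e he
  rw [mem_bd] at he
  rw [Finset.mem_biUnion]
  by_cases h : resrc σ e ∈ X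
  · refine ⟨resrc σ e, h, ?_⟩
    rw [toOut, Finset.mem_filter]
    exact ⟨mem_univ _, Or.inl ⟨rfl, fun h' => he ⟨fun _ => h', fun _ => h⟩⟩⟩
  · have h' : retgt σ e ∈ X := by
      by_contra h'
      exact he ⟨fun h1 => absurd h1 h, fun h1 => absurd h1 h'⟩
    refine ⟨retgt σ e, h', ?_⟩
    rw [toOut, Finset.mem_filter]
    exact ⟨mem_univ _, Or.inr ⟨rfl, h⟩⟩

theorem re_out_ge (σ : Fin K → Equiv.Perm W) (X : Finset W) :
    2 * (K * X.card) ≤ ∑ w ∈ X, (toOut (resrc σ) (retgt σ) w X).card +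
      2 * ∑ i, sgmv (σ i) X := by
  have h2 := re_sum_out σ X
  have h5 := re_bd_ge σ X
  have h6 : ∑ i : Fin K, 2 * X.card ≤ ∑ i, ((cr (σ i) X).card + 2 * sgmv (σ i) X) :=
    Finset.sum_le_sum fun i _ => sg_cr_ge (σ i) X
  rw [Finset.sum_const, Finset.sum_add_distrib, ← Finset.mul_sum, Finset.card_univ,
    Fintype.card_fin, smul_eq_mul] at h6
  have h7 : K * (2 * X.card) = 2 * (K * X.card) := by ring
  omega

theorem re_in_le (σ : Fin K → Equiv.Perm W) (X : Finset W) :
    ∑ w ∈ X, (toIn (resrc σ) (retgt σ) w X).card ≤ 2 * ∑ i, sgmv (σ i) X :=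
  (re_sum_in σ X).trans (Nat.mul_le_mul_left _ (reins_card σ X))

end Perm

section Union

variable {W E1 E2 : Type} [Fintype E1] [DecidableEq E1] [Fintype E2] [DecidableEq E2]

theorem card_filter_sum (p : E1 ⊕ E2 → Prop) [DecidablePred p] :
    (univ.filter p).card = (univ.filter fun e => p (Sum.inl e)).card +
      (univ.filter fun e => p (Sum.inr e)).card := by
  rw [Finset.card_filter, Finset.card_filter, Finset.card_filter, Fintype.sum_sum_type]

variable [Fintype W] [DecidableEq W] (s1 t1 : E1 → W) (s2 t2 : E2 → W)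

theorem bd_union_card (X : Finset W) :
    (bd (Sum.elim s1 s2) (Sum.elim t1 t2) X).card =
      (bd s1 t1 X).card + (bd s2 t2 X).card := by
  have h1 : bd (Sum.elim s1 s2) (Sum.elim t1 t2) X =
      univ.filter fun e => ¬ (Sum.elim s1 s2 e ∈ X ↔ Sum.elim t1 t2 e ∈ X) := by
    ext e
    rw [mem_bd, Finset.mem_filter]
    simp only [mem_univ, true_and]
  have h2 : bd s1 t1 X = univ.filter fun e => ¬ (s1 e ∈ X ↔ t1 e ∈ X) := by
    ext e
    rw [mem_bd, Finset.mem_filter]
    simp only [mem_univ, true_and]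
  have h3 : bd s2 t2 X = univ.filter fun e => ¬ (s2 e ∈ X ↔ t2 e ∈ X) := by
    ext e
    rw [mem_bd, Finset.mem_filter]
    simp only [mem_univ, true_and]
  rw [h1, h2, h3, card_filter_sum]
  rfl

theorem toIn_union_card (w : W) (X : Finset W) :
    (toIn (Sum.elim s1 s2) (Sum.elim t1 t2) w X).card =
      (toIn s1 t1 w X).card + (toIn s2 t2 w X).card := by
  unfold toIn
  rw [card_filter_sum]
  rfl

theorem toOut_union_card (w : W) (X : Finset W) :
    (toOut (Sum.elim s1 s2) (Sum.elim t1 t2) w X).card =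
      (toOut s1 t1 w X).card + (toOut s2 t2 w X).card := by
  unfold toOut
  rw [card_filter_sum]
  rfl

end Union

theorem exists_rgraph (D : ℕ) (W : Type) [Fintype W] [DecidableEq W]
    (hn : 1000 ≤ Fintype.card W) :
    ∃ (R : Type) (_ : Fintype R) (_ : DecidableEq R) (rsrc rtgt : R → W),
      (∀ e, rsrc e ≠ rtgt e) ∧
      (∀ w, (bd rsrc rtgt {w}).card ≤ 2 * D + 280) ∧
      (∀ X : Finset W, min X.card (Fintype.card W - X.card) ≤ 1000 * (bd rsrc rtgt X).card) ∧
      (∀ X : Finset W, X.Nonempty → 1024 * X.card ≤ Fintype.card W →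
        D * X.card + ∑ w ∈ X, (toIn rsrc rtgt w X).card
          < ∑ w ∈ X, (toOut rsrc rtgt w X).card) ∧
      Fintype.card R ≤ (D + 140) * Fintype.card W := by
  obtain ⟨σ, hS, hM⟩ := sg_exists_perms (W := W) hn
  obtain ⟨τ, hτ⟩ := rexists_perms (W := W) D
  set n := Fintype.card W with hN
  refine ⟨RE σ ⊕ RE τ, inferInstance, inferInstance, Sum.elim (resrc σ) (resrc τ),
    Sum.elim (retgt σ) (retgt τ), ?_, ?_, ?_, ?_, ?_⟩
  · rintro (e | e) h
    · exact e.2 h.symm
    · exact e.2 h.symm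
  · intro w
    rw [bd_union_card]
    have h1 := re_deg σ w
    have h2 := re_deg τ w
    omega
  · intro X
    rw [bd_union_card]
    have hXn : X.card ≤ n := Finset.card_le_univ X
    have hsmall : ∀ Y : Finset W, 16 * Y.card ≤ n →
        Y.card ≤ ∑ i, (cr (σ i) Y).card := by
      intro Y hY
      rcases Y.eq_empty_or_nonempty with h0 | h0
      · rw [h0]
        simp
      · have h1 := hS Y h0 hY
        have h2 : ∑ i : Fin 40, 2 * Y.card ≤ ∑ i, ((cr (σ i) Y).card + 2 * sgmv (σ i) Y) :=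
          Finset.sum_le_sum fun i _ => sg_cr_ge (σ i) Y
        rw [Finset.sum_const, Finset.sum_add_distrib, ← Finset.mul_sum, Finset.card_univ,
          Fintype.card_fin, smul_eq_mul] at h2
        omega
    have hb := re_bd_ge σ X
    by_cases h1 : 16 * X.card ≤ n
    · have := hsmall X h1
      have h2 := Nat.min_le_left X.card (n - X.card)
      omega
    · by_cases h2 : 16 * X.card ≤ 15 * n
      · obtain ⟨i, hi⟩ := hM X (by omega) h2
        have h3 : (cr (σ i) X).card ≤ ∑ i, (cr (σ i) X).card :=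
          Finset.single_le_sum (f := fun i => (cr (σ i) X).card) (fun _ _ => Nat.zero_le _)
            (mem_univ i)
        have h4 := Nat.min_le_left X.card (n - X.card)
        omega
      · have h3 : Xᶜ.card = n - X.card := by rw [Finset.card_compl]
        have h4 := hsmall Xᶜ (by omega)
        simp only [sg_cr_compl] at h4
        have h5 := Nat.min_le_right X.card (n - X.card)
        omega
  · intro X hX hXn
    have h1 := hS X hX (by omega)
    have h2 := hτ X hX hXn
    have h3 := re_out_ge σ X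
    have h4 := re_in_le σ X
    have h5 := re_out_ge τ X
    have h6 := re_in_le τ X
    have h7 : 0 < X.card := Finset.card_pos.mpr hX
    have h8 : (D + 100) * X.card = D * X.card + 100 * X.card := by ring
    rw [Finset.sum_congr rfl fun w _ => toIn_union_card (resrc σ) (retgt σ) (resrc τ) (retgt τ) w X,
      Finset.sum_congr rfl fun w _ => toOut_union_card (resrc σ) (retgt σ) (resrc τ) (retgt τ) w X,
      Finset.sum_add_distrib, Finset.sum_add_distrib]
    omega
  · rw [Fintype.card_sum]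
    have h1 : Fintype.card (RE σ) ≤ 40 * n := by
      refine (Fintype.card_subtype_le _).trans ?_
      rw [Fintype.card_prod, Fintype.card_fin]
    have h2 : Fintype.card (RE τ) ≤ (D + 100) * n := by
      refine (Fintype.card_subtype_le _).trans ?_
      rw [Fintype.card_prod, Fintype.card_fin]
    have h3 : (D + 140) * n = 40 * n + (D + 100) * n := by ring
    omega

end Pool.Agent.H3.Frg3
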