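import Mathlib
import Pool.Agent.H3.Frg3.Defs
import Pool.Agent.H3.Frg2.SuperGraph

set_option autoImplicit false
set_option linter.unusedSectionVars false

/-!
# Module CLOS: closure of a small set of edges of an expander; expanders on a given vertex set

* `con_of_cheeger`: `bd X = ∅` gives `min |X| (n - |X|) = 0`.
* `exists_clos`: like `exists_closure` in `Pool/Agent/H3/Frg2/Blowup.lean`, but simpler:
  `F = {X : 2 |X| ≤ n, bd X ⊆ S0}`; every `X ∈ F` has `|X| ≤ c0 |S0|` by `cheeger`; `F` contains `∅` and is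
  closed under unions (`bd (X ∪ X') ⊆ bd X ∪ bd X'`, `2 |X ∪ X'| ≤ 4 c0 |S0| ≤ n`). Take for `Y` an element of
  `F` of maximal cardinality (it contains all the others, because `Y ∪ X ∈ F`). If `bd X ⊆ S0` then
  `2 |X| ≤ n` or `2 |Xᶜ| ≤ n`, and `bd Xᶜ = bd X`.
* `exists_superW`: `exists_super` of `Pool/Agent/H3/Frg2/SuperGraph.lean` with an arbitrary finite type `W`
  in place of `Fin n` (all lemmas there are for general `W`; copy the proof of `exists_super`).
-/

namespace Pool.Agent.H3.Frg3

open Finset Pool.Agent.H3.Frg Pool.Agent.H3.Frg2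

variable {E Wv : Type} [Fintype E] [DecidableEq E] [Fintype Wv] [DecidableEq Wv]

theorem con_of_cheeger {src tgt : E → Wv} {c0 : ℕ}
    (h : ∀ X : Finset Wv, min X.card (Fintype.card Wv - X.card) ≤ c0 * (bd src tgt X).card) :
    Con src tgt := by
  intro X hX
  have h1 := h X
  rw [hX, Finset.card_empty, mul_zero] at h1
  have h2 : X.card ≤ Fintype.card Wv := Finset.card_le_univ X
  rcases Nat.le_total X.card (Fintype.card Wv - X.card) with h3 | h3
  · rw [min_eq_left h3] at h1
    exact Or.inl (Finset.card_eq_zero.mp (by omega))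
  · rw [min_eq_right h3] at h1
    exact Or.inr ((Finset.card_eq_iff_eq_univ X).mp (by omega))

private theorem bd_union_subset (src tgt : E → Wv) (X Y : Finset Wv) :
    bd src tgt (X ∪ Y) ⊆ bd src tgt X ∪ bd src tgt Y := by
  intro e he
  rw [Finset.mem_union, mem_bd, mem_bd]
  rw [mem_bd] at he
  simp only [Finset.mem_union] at he
  tauto

private theorem bd_compl' (src tgt : E → Wv) (X : Finset Wv) :
    bd src tgt Xᶜ = bd src tgt X := by
  ext e
  rw [mem_bd, mem_bd, Finset.mem_compl, Finset.mem_compl]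
  tauto

theorem exists_clos {src tgt : E → Wv} {c0 : ℕ}
    (h : ∀ X : Finset Wv, min X.card (Fintype.card Wv - X.card) ≤ c0 * (bd src tgt X).card)
    (S0 : Finset E) (hS : 4 * (c0 * S0.card) ≤ Fintype.card Wv) :
    ∃ Y : Finset Wv, bd src tgt Y ⊆ S0 ∧ Y.card ≤ c0 * S0.card ∧ Clos src tgt S0 Y := by
  set F : Finset (Finset Wv) := univ.filter fun X => 2 * X.card ≤ Fintype.card Wv ∧
    bd src tgt X ⊆ S0 with hF
  have hmem : ∀ X, X ∈ F ↔ 2 * X.card ≤ Fintype.card Wv ∧ bd src tgt X ⊆ S0 := by
    intro X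
    simp [hF]
  have hle : ∀ X ∈ F, X.card ≤ c0 * S0.card := by
    intro X hX
    obtain ⟨h1, h2⟩ := (hmem X).mp hX
    have h3 := h X
    rw [min_eq_left (by omega)] at h3
    exact h3.trans (Nat.mul_le_mul_left _ (Finset.card_le_card h2))
  have h0 : F.Nonempty := ⟨∅, (hmem ∅).mpr ⟨by simp, by rw [bd_empty]; exact Finset.empty_subset _⟩⟩
  obtain ⟨Y, hY, hmax⟩ := Finset.exists_max_image F Finset.card h0
  have hcont : ∀ X ∈ F, X ⊆ Y := by
    intro X hX
    have h1 : X ∪ Y ∈ F := by
      refine (hmem _).mpr ⟨?_, (bd_union_subset src tgt X Y).trans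
        (Finset.union_subset ((hmem X).mp hX).2 ((hmem Y).mp hY).2)⟩
      have h2 := Finset.card_union_le X Y
      have h3 := hle X hX
      have h4 := hle Y hY
      omega
    have h2 := hmax _ h1
    have h3 : Y = X ∪ Y := Finset.eq_of_subset_of_card_le Finset.subset_union_right h2
    rw [h3]
    exact Finset.subset_union_left
  refine ⟨Y, ((hmem Y).mp hY).2, hle Y hY, ?_⟩
  intro X hX
  by_cases h1 : 2 * X.card ≤ Fintype.card Wv
  · exact Or.inl (hcont X ((hmem X).mpr ⟨h1, hX⟩))
  · refine Or.inr (hcont Xᶜ ((hmem Xᶜ).mpr ⟨?_, ?_⟩))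
    · rw [Finset.card_compl]
      omega
    · rw [bd_compl']
      exact hX

theorem exists_superW (W : Type) [Fintype W] [DecidableEq W] (hn : 1000 ≤ Fintype.card W) :
    ∃ (E : Type) (_ : Fintype E) (_ : DecidableEq E) (src tgt : E → W),
      SG src tgt 80 1000 ∧ Fintype.card E ≤ 40 * Fintype.card W := by
  obtain ⟨σ, hS, hM⟩ := sg_exists_perms (W := W) hn
  generalize hnn : Fintype.card W = n at hS hM hn
  refine ⟨SE σ, inferInstance, inferInstance, ssrc σ, stgt σ, ⟨?_, sg_deg σ, ?_, ?_⟩, ?_⟩
  · intro e h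
    exact e.2 h.symm
  · intro X
    rw [hnn]
    have hXn : X.card ≤ n := by
      have := Finset.card_le_univ X
      rwa [hnn] at this
    have hsmall : ∀ Y : Finset W, 16 * Y.card ≤ n →
        Y.card ≤ ∑ i, (cr (σ i) Y).card := by
      intro Y hY
      rcases Y.eq_empty_or_nonempty with h0 | h0
      · rw [h0]
        simp
      · have h1 := hS Y h0 hY
        have h2 : ∑ i : Fin 40, 2 * Y.card ≤ ∑ i, ((cr (σ i) Y).card + 2 * sgmv (σ i) Y) :=
          Finset.sum_le_sum fun i _ => sg_cr_ge (σ i) Y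
        rw [Finset.sum_const, Finset.sum_add_distrib, ← Finset.mul_sum, Finset.card_univ,
          Fintype.card_fin, smul_eq_mul] at h2
        omega
    have hb := sg_bd_ge σ X
    by_cases h1 : 16 * X.card ≤ n
    · have := hsmall X h1
      have h2 := Nat.min_le_left X.card (n - X.card)
      omega
    · by_cases h2 : 16 * X.card ≤ 15 * n
      · obtain ⟨i, hi⟩ := hM X (by omega) h2
        have h3 : (cr (σ i) X).card ≤ ∑ i, (cr (σ i) X).card :=
          Finset.single_le_sum (f := fun i => (cr (σ i) X).card) (fun _ _ => Nat.zero_le _)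
            (mem_univ i)
        have h4 := Nat.min_le_left X.card (n - X.card)
        omega
      · have h3 : Xᶜ.card = n - X.card := by rw [Finset.card_compl, hnn]
        have h4 := hsmall Xᶜ (by omega)
        simp only [sg_cr_compl] at h4
        have h5 := Nat.min_le_right X.card (n - X.card)
        omega
  · intro X hX hXn
    rw [hnn] at hXn
    by_contra hcon
    push Not at hcon
    have h1 := Finset.sum_le_sum hcon
    have h2 := sg_sum_out σ X
    have h3 := sg_sum_in σ X
    have h4 := sgins_card σ X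
    have h5 := sg_bd_ge σ X
    have h6 : ∑ i : Fin 40, 2 * X.card ≤ ∑ i, ((cr (σ i) X).card + 2 * sgmv (σ i) X) :=
      Finset.sum_le_sum fun i _ => sg_cr_ge (σ i) X
    rw [Finset.sum_const, Finset.sum_add_distrib, ← Finset.mul_sum, Finset.card_univ,
      Fintype.card_fin, smul_eq_mul] at h6
    have h7 := hS X hX hXn
    omega
  · refine (Fintype.card_subtype_le _).trans ?_
    rw [Fintype.card_prod, Fintype.card_fin, hnn]

end Pool.Agent.H3.Frg3
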