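import Mathlib
import Pool.Agent.H3.Frg3.Defs

set_option autoImplicit false
set_option linter.unusedSectionVars false

/-!
# Restrictions of one stage: elementary properties
-/

namespace Pool.Agent.H3.Frg3

open Finset Pool.Agent.H3.Frg Pool.Agent.H3.Frg2

variable {E Wv E' Wv' C : Type} [Fintype E] [DecidableEq E] [Fintype Wv] [DecidableEq Wv]
  [Fintype E'] [DecidableEq E'] [Fintype Wv'] [DecidableEq Wv'] [Fintype C] [DecidableEq C]

section Live

variable {lvi : C → E → Finset E'} {c : C}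

theorem mem_lv {S : Finset E} {e : E'} :
    e ∈ lv lvi c S ↔ Odd (S.filter fun i => e ∈ lvi c i).card := by simp [lv]

theorem mem_lv' {S : Finset E} {e : E'} :
    e ∈ lv lvi c S ↔ Odd (S ∩ univ.filter fun i => e ∈ lvi c i).card := by
  rw [mem_lv]
  have : S.filter (fun i => e ∈ lvi c i) = S ∩ univ.filter fun i => e ∈ lvi c i := by
    ext i; simp
  rw [this]

theorem lv_symmDiff (S T : Finset E) :
    lv lvi c (symmDiff S T) = symmDiff (lv lvi c S) (lv lvi c T) := by
  ext e
  rw [Finset.mem_symmDiff, mem_lv', mem_lv', mem_lv', odd_symmDiff_inter]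
  tauto

theorem lv_empty : lv lvi c ∅ = ∅ := by
  ext e; simp [mem_lv]

theorem lv_subset_uv (S : Finset E) : lv lvi c S ⊆ uv lvi c S := by
  intro e he
  rw [mem_lv] at he
  obtain ⟨i, hi⟩ := Finset.card_pos.mp he.pos
  rw [Finset.mem_filter] at hi
  rw [uv, Finset.mem_biUnion]
  exact ⟨i, hi⟩

theorem uv_mono {S T : Finset E} (h : S ⊆ T) : uv lvi c S ⊆ uv lvi c T :=
  Finset.biUnion_subset_biUnion_of_subset_left _ h

theorem card_uv_le {D : ℕ} (h : ∀ c i, (lvi c i).card ≤ D) (S : Finset E) :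
    (uv lvi c S).card ≤ D * S.card := by
  refine Finset.card_biUnion_le.trans ?_
  refine (Finset.sum_le_card_nsmul S _ D fun i _ => h c i).trans ?_
  rw [smul_eq_mul, Nat.mul_comm]

theorem card_lv_le {D : ℕ} (h : ∀ c i, (lvi c i).card ≤ D) (S : Finset E) :
    (lv lvi c S).card ≤ D * S.card :=
  (Finset.card_le_card (lv_subset_uv S)).trans (card_uv_le h S)

theorem sg_pow (b : Bool) (n : ℕ) : sg b ^ n = if Odd n then sg b else 1 := by
  cases b
  · simp [sg]
  · unfold sg
    simp only [if_true]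
    by_cases h : Odd n
    · rw [if_pos h, h.neg_one_pow]
    · rw [if_neg h, (Nat.not_odd_iff_even.mp h).neg_one_pow]

theorem chi_rs (S : Finset E) (a : E → Bool) (z : E' → Bool) :
    chi S (rs lvi c a z) = chi S a * chi (lv lvi c S) z := by
  have h1 : chi S (rs lvi c a z) = chi S a * ∏ i ∈ S, ∏ e ∈ lvi c i, sg (z e) := by
    unfold chi
    rw [← Finset.prod_mul_distrib]
    refine Finset.prod_congr rfl fun i _ => ?_
    unfold rs
    rw [sg_xor', sg_decide_odd]
    congr 1
    have : ∏ e ∈ lvi c i, sg (z e) = ∏ e ∈ lvi c i, (if z e = true then (-1:ℝ) else 1) :=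
      Finset.prod_congr rfl fun e _ => by unfold sg; rfl
    rw [this, Finset.prod_ite, Finset.prod_const, Finset.prod_const_one, mul_one]
  rw [h1]
  congr 1
  have h2 : ∀ i ∈ S, ∏ e ∈ lvi c i, sg (z e) = ∏ e, (if e ∈ lvi c i then sg (z e) else 1) := by
    intro i _
    rw [Finset.prod_ite_mem univ (lvi c i) (fun e => sg (z e)), Finset.univ_inter]
  rw [Finset.prod_congr rfl h2, Finset.prod_comm, chi_eq_univ]
  refine Finset.prod_congr rfl fun e _ => ?_
  rw [Finset.prod_ite, Finset.prod_const, Finset.prod_const_one, mul_one, sg_pow]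
  by_cases h : e ∈ lv lvi c S
  · rw [if_pos h, if_pos (mem_lv.mp h)]
  · rw [if_neg h, if_neg (fun h' => h (mem_lv.mpr h'))]

theorem W_rs (f : (E → Bool) → ℝ) (a : E → Bool) (T : Finset E') :
    (2:ℝ) ^ Fintype.card E * W (fun z => f (rs lvi c a z)) T
      = (2:ℝ) ^ Fintype.card E' * ∑ S : Finset E,
        (if lv lvi c S = T then W f S else 0) * chi S a := by
  have h1 : (2:ℝ) ^ Fintype.card E * W (fun z => f (rs lvi c a z)) T
      = ∑ z : E' → Bool, ∑ S : Finset E, W f S * chi S a * (chi (lv lvi c S) z * chi T z) := by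
    unfold W
    rw [Finset.mul_sum]
    refine Finset.sum_congr rfl fun z _ => ?_
    rw [← mul_assoc, ← inversion, Finset.sum_mul]
    refine Finset.sum_congr rfl fun S _ => ?_
    rw [chi_rs]
    unfold W
    ring
  rw [h1, Finset.sum_comm, Finset.mul_sum]
  refine Finset.sum_congr rfl fun S _ => ?_
  rw [← Finset.mul_sum, sum_x_chi_chi]
  split_ifs <;> ring

theorem dg_rs {D : ℕ} (h : ∀ c i, (lvi c i).card ≤ D) {p : (E → Bool) → ℝ} {m : ℕ}
    (hp : Dg p m) (a : E → Bool) : Dg (fun z => p (rs lvi c a z)) (D * m) := by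
  intro T hT
  have h1 := W_rs (lvi := lvi) (c := c) p a T
  have h2 : ∑ S : Finset E, (if lv lvi c S = T then W p S else 0) * chi S a = 0 := by
    refine Finset.sum_eq_zero fun S _ => ?_
    by_cases h3 : lv lvi c S = T
    · rw [if_pos h3]
      by_cases h4 : m < S.card
      · rw [hp S h4, zero_mul]
      · exfalso
        have h5 := card_lv_le (c := c) h S
        rw [h3] at h5
        have h6 : D * S.card ≤ D * m := Nat.mul_le_mul_left _ (by omega)
        omega
    · rw [if_neg h3, zero_mul]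
  rw [h2, mul_zero] at h1
  exact (mul_eq_zero.mp h1).resolve_left (by positivity)

/-- the degree is at most the number of live variables -/
theorem dg_rs_supp {S0 : Finset E} {p : (E → Bool) → ℝ} (hp : ∀ S, W p S ≠ 0 → S ⊆ S0) {m : ℕ}
    (hm : (uv lvi c S0).card ≤ m) (a : E → Bool) : Dg (fun z => p (rs lvi c a z)) m := by
  intro T hT
  have h1 := W_rs (lvi := lvi) (c := c) p a T
  have h2 : ∑ S : Finset E, (if lv lvi c S = T then W p S else 0) * chi S a = 0 := by
    refine Finset.sum_eq_zero fun S _ => ?_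
    by_cases h3 : lv lvi c S = T
    · rw [if_pos h3]
      by_cases h4 : W p S = 0
      · rw [h4, zero_mul]
      · exfalso
        have h5 := Finset.card_le_card ((lv_subset_uv (lvi := lvi) (c := c) S).trans
          (uv_mono (hp S h4)))
        rw [h3] at h5
        omega
    · rw [if_neg h3, zero_mul]
  rw [h2, mul_zero] at h1
  exact (mul_eq_zero.mp h1).resolve_left (by positivity)

end Live

section Centre

variable {cen : C → Wv' → Wv} {c : C}

theorem mem_cn {X : Finset Wv} {w : Wv'} : w ∈ cn cen c X ↔ cen c w ∈ X := by simp [cn]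

theorem mem_lft {X : Finset Wv'} {v : Wv} : v ∈ lft cen c X ↔ ∃ w ∈ X, cen c w = v := by
  simp [lft]

theorem mem_nce {v : Wv} : v ∈ nce cen c ↔ ∀ w, cen c w ≠ v := by simp [nce]

theorem cn_symmDiff (S T : Finset Wv) :
    cn cen c (symmDiff S T) = symmDiff (cn cen c S) (cn cen c T) := by
  ext e
  simp only [mem_cn, Finset.mem_symmDiff]

theorem cn_mono {X Y : Finset Wv} (h : X ⊆ Y) : cn cen c X ⊆ cn cen c Y := by
  intro w hw
  rw [mem_cn] at hw ⊢
  exact h hw

theorem cn_lft (hinj : Function.Injective (cen c)) (X : Finset Wv') :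
    cn cen c (lft cen c X) = X := by
  ext w
  rw [mem_cn, mem_lft]
  constructor
  · rintro ⟨w', h1, h2⟩
    rw [← hinj h2]; exact h1
  · intro h
    exact ⟨w, h, rfl⟩

theorem card_cn_le (hinj : Function.Injective (cen c)) (X : Finset Wv) :
    (cn cen c X).card ≤ X.card := by
  refine Finset.card_le_card_of_injOn (cen c) ?_ (fun _ _ _ _ h => hinj h)
  intro w hw
  exact mem_cn.mp hw

theorem lft_symmDiff (hinj : Function.Injective (cen c)) (S T : Finset Wv') :
    lft cen c (symmDiff S T) = symmDiff (lft cen c S) (lft cen c T) := by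
  ext v
  simp only [mem_lft, Finset.mem_symmDiff]
  constructor
  · rintro ⟨w, (⟨h1, h2⟩ | ⟨h1, h2⟩), rfl⟩
    · refine Or.inl ⟨⟨w, h1, rfl⟩, ?_⟩
      rintro ⟨w', h3, h4⟩
      exact h2 (hinj h4 ▸ h3)
    · refine Or.inr ⟨⟨w, h1, rfl⟩, ?_⟩
      rintro ⟨w', h3, h4⟩
      exact h2 (hinj h4 ▸ h3)
  · rintro (⟨⟨w, h1, rfl⟩, h2⟩ | ⟨⟨w, h1, rfl⟩, h2⟩)
    · exact ⟨w, Or.inl ⟨h1, fun h3 => h2 ⟨w, h3, rfl⟩⟩, rfl⟩
    · exact ⟨w, Or.inr ⟨h1, fun h3 => h2 ⟨w, h3, rfl⟩⟩, rfl⟩

theorem lft_empty : lft cen c ∅ = ∅ := by simp [lft]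

theorem card_nce (hinj : Function.Injective (cen c)) :
    (nce cen c).card + Fintype.card Wv' = Fintype.card Wv := by
  have h1 : (univ.filter fun v : Wv => ¬ ∀ w, cen c w ≠ v) = univ.image (cen c) := by
    ext v
    simp
  have h2 := Finset.card_filter_add_card_filter_not (s := (univ : Finset Wv))
    (fun v => ∀ w, cen c w ≠ v)
  rw [h1, Finset.card_image_of_injective _ hinj, Finset.card_univ, Finset.card_univ] at h2
  exact h2

end Centre

section Assign

variable {src tgt : E → Wv} {ε : Wv → ℝ} {cen : C → Wv' → Wv} {c : C}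

theorem mem_Asn {a : E → Bool} :
    a ∈ Asn src tgt ε cen c ↔ ∀ v ∈ nce cen c, chi (bd src tgt {v}) a = ε v := by simp [Asn]

theorem sum_Asn (hε : ∀ v, ε v * ε v = 1) (f : (E → Bool) → ℝ) :
    (2:ℝ) ^ (nce cen c).card * ∑ a ∈ Asn src tgt ε cen c, f a
      = ∑ X ∈ (nce cen c).powerset, epsX ε X * ∑ a, f a * chi (bd src tgt X) a := by
  classical
  have h1 : ∀ a : E → Bool,
      (if a ∈ Asn src tgt ε cen c then (2:ℝ) ^ (nce cen c).card else 0)
      = ∑ X ∈ (nce cen c).powerset, epsX ε X * chi (bd src tgt X) a := by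
    intro a
    have h2 : ∑ X ∈ (nce cen c).powerset, epsX ε X * chi (bd src tgt X) a
        = ∏ v ∈ nce cen c, (1 + ε v * chi (bd src tgt {v}) a) := by
      rw [Finset.prod_one_add]
      refine Finset.sum_congr rfl fun X _ => ?_
      rw [chi_bd, Finset.prod_mul_distrib]
      rfl
    rw [h2]
    by_cases h3 : a ∈ Asn src tgt ε cen c
    · rw [if_pos h3]
      rw [mem_Asn] at h3
      rw [Finset.prod_congr rfl (fun v hv => by rw [h3 v hv, hε v]), Finset.prod_const]
      norm_num
    · rw [if_neg h3]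
      rw [mem_Asn] at h3
      push Not at h3
      obtain ⟨v, hv, h4⟩ := h3
      refine (Finset.prod_eq_zero hv ?_).symm
      have h5 := sign_cases (chi_mul_self (bd src tgt {v}) a) (hε v)
      rw [if_pos h4] at h5
      linarith
  have h2 : (2:ℝ) ^ (nce cen c).card * ∑ a ∈ Asn src tgt ε cen c, f a
      = ∑ a, f a * (if a ∈ Asn src tgt ε cen c then (2:ℝ) ^ (nce cen c).card else 0) := by
    rw [Finset.mul_sum]
    simp only [mul_ite, mul_zero]
    rw [Finset.sum_ite_mem, Finset.univ_inter]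
    exact Finset.sum_congr rfl fun a _ => by ring
  rw [h2]
  simp only [h1, Finset.mul_sum]
  rw [Finset.sum_comm]
  exact Finset.sum_congr rfl fun X _ => Finset.sum_congr rfl fun a _ => by ring

/-- sum of a character over `Asn` -/
theorem sum_Asn_chi (hε : ∀ v, ε v * ε v = 1) (T : Finset E) :
    (2:ℝ) ^ (nce cen c).card * ∑ a ∈ Asn src tgt ε cen c, chi T a
      = (2:ℝ) ^ Fintype.card E *
        ∑ X ∈ (nce cen c).powerset, (if bd src tgt X = T then epsX ε X else 0) := by
  rw [sum_Asn hε, Finset.mul_sum]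
  refine Finset.sum_congr rfl fun X _ => ?_
  rw [sum_x_chi_chi]
  by_cases h : bd src tgt X = T
  · rw [if_pos h.symm, if_pos h]; ring
  · rw [if_neg (fun h2 => h h2.symm), if_neg h]; ring

theorem card_Asn (hconn : Con src tgt) [Nonempty Wv'] (hε : ∀ v, ε v * ε v = 1) :
    (2:ℝ) ^ (nce cen c).card * ((Asn src tgt ε cen c).card : ℝ)
      = (2:ℝ) ^ Fintype.card E := by
  have h1 := sum_Asn_chi (src := src) (tgt := tgt) (cen := cen) (c := c) hε ∅
  simp only [chi_empty, Finset.sum_const, nsmul_eq_mul, mul_one] at h1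
  rw [h1]
  have h2 : ∑ X ∈ (nce cen c).powerset, (if bd src tgt X = ∅ then epsX ε X else 0) = 1 := by
    rw [Finset.sum_eq_single ∅]
    · rw [if_pos (bd_empty _ _)]; simp [epsX]
    · intro X hX hne
      rw [if_neg]
      intro h3
      rcases hconn X h3 with h4 | h4
      · exact hne h4
      · obtain ⟨w⟩ := ‹Nonempty Wv'›
        rw [Finset.mem_powerset, h4] at hX
        have := hX (mem_univ (cen c w))
        rw [mem_nce] at this
        exact this w rfl
    · intro h; exact absurd (Finset.empty_mem_powerset _) h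
  rw [h2, mul_one]

theorem eN_sq (hε : ∀ v, ε v * ε v = 1) (a : E → Bool) (w : Wv') :
    eN src tgt ε cen c a w * eN src tgt ε cen c a w = 1 := by
  unfold eN
  linear_combination (chi (bd src tgt {cen c w}) a) ^ 2 * hε (cen c w) +
    chi_mul_self (bd src tgt {cen c w}) a

theorem epsX_eN (hinj : Function.Injective (cen c)) (a : E → Bool) (Z : Finset Wv') :
    epsX (eN src tgt ε cen c a) Z
      = epsX ε (lft cen c Z) * chi (bd src tgt (lft cen c Z)) a := by
  induction Z using Finset.induction_on with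
  | empty =>
    rw [lft_empty, bd_empty]
    simp [epsX, chi_empty]
  | insert w Z hw ih =>
    have h1 : lft cen c (insert w Z) = insert (cen c w) (lft cen c Z) := by
      simp [lft, Finset.image_insert]
    have h2 : cen c w ∉ lft cen c Z := by
      rw [mem_lft]
      rintro ⟨w', h3, h4⟩
      exact hw (hinj h4 ▸ h3)
    have h3 : bd src tgt (insert (cen c w) (lft cen c Z))
        = symmDiff (bd src tgt {cen c w}) (bd src tgt (lft cen c Z)) := bd_insert h2
    have h4 : epsX (eN src tgt ε cen c a) (insert w Z)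
        = eN src tgt ε cen c a w * epsX (eN src tgt ε cen c a) Z := by
      unfold epsX; rw [Finset.prod_insert hw]
    have h5 : epsX ε (insert (cen c w) (lft cen c Z)) = ε (cen c w) * epsX ε (lft cen c Z) := by
      unfold epsX; rw [Finset.prod_insert h2]
    rw [h4, ih, h1, h3, h5, ← chi_mul]
    unfold eN
    ring

/-- boundaries evaluate with the correct sign -/
theorem chi_bd_Asn (hε : ∀ v, ε v * ε v = 1) (hinj : Function.Injective (cen c))
    {a : E → Bool} (ha : a ∈ Asn src tgt ε cen c) (X : Finset Wv) :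
    chi (bd src tgt X) a = epsX ε X * epsX (eN src tgt ε cen c a) (cn cen c X) := by
  have h1 : X = symmDiff (symmDiff X (lft cen c (cn cen c X))) (lft cen c (cn cen c X)) :=
    (symmDiff_symmDiff_cancel_right (lft cen c (cn cen c X)) X).symm
  set N := symmDiff X (lft cen c (cn cen c X)) with hN
  have h2 : N ⊆ nce cen c := by
    intro v hv
    rw [mem_nce]
    rintro w rfl
    rw [hN, Finset.mem_symmDiff, mem_lft] at hv
    rcases hv with ⟨h5, h6⟩ | ⟨⟨w', h5, h7⟩, h6⟩
    · exact h6 ⟨w, mem_cn.mpr h5, rfl⟩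
    · rw [mem_cn, h7] at h5
      exact h6 h5
  have h3 : chi (bd src tgt N) a = epsX ε N := by
    rw [chi_bd]
    unfold epsX
    exact Finset.prod_congr rfl fun v hv => mem_Asn.mp ha v (h2 hv)
  conv_lhs => rw [h1, bd_symmDiff, ← chi_mul, h3]
  conv_rhs => rw [h1, epsX_symmDiff hε]
  have h5 : cn cen c (symmDiff N (lft cen c (cn cen c X))) = cn cen c X := by
    rw [← h1]
  rw [h5, epsX_eN hinj]
  linear_combination (-(epsX ε N * chi (bd src tgt (lft cen c (cn cen c X))) a)) *
    epsX_mul_self hε (lft cen c (cn cen c X))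

theorem mem_Omg {ω : C × (E → Bool)} :
    ω ∈ Omg src tgt ε cen ↔ ω.2 ∈ Asn src tgt ε cen ω.1 := by simp [Omg]

end Assign

end Pool.Agent.H3.Frg3
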