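import Mathlib
import Pool.Agent.H3.Frg3.Basic
import Pool.Agent.H3.Frg2.Gran

set_option autoImplicit false
set_option linter.unusedSectionVars false

/-!
# The second moment of a restricted and projected Boolean function
-/

namespace Pool.Agent.H3.Frg3

open Finset Pool.Agent.H3.Frg Pool.Agent.H3.Frg2

variable {E Wv E' Wv' C : Type} [Fintype E] [DecidableEq E] [Fintype Wv] [DecidableEq Wv]
  [Fintype E'] [DecidableEq E'] [Fintype Wv'] [DecidableEq Wv'] [Fintype C] [DecidableEq C]

variable {src tgt : E → Wv} {src' tgt' : E' → Wv'} {cen : C → Wv' → Wv}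
  {lvi : C → E → Finset E'} {D : ℕ} {ε : Wv → ℝ} {c : C}

variable (src tgt cen lvi) in
/-- the normal form -/
def str (c : C) (π : Wv' → Finset E') (X : Finset Wv') (S : Finset E) : Finset E :=
  symmDiff S (bd src tgt (lft cen c (OO π X (lv lvi c S))))

theorem lv_str (hst : Stg src tgt src' tgt' cen lvi D) (π : Wv' → Finset E') (X : Finset Wv')
    (S : Finset E) :
    lv lvi c (str src tgt cen lvi c π X S)
      = symmDiff (lv lvi c S) (bd src' tgt' (OO π X (lv lvi c S))) := by
  rw [str, lv_symmDiff, hst.path, cn_lft (hst.inj c)]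

theorem W_GP (hst : Stg src tgt src' tgt' cen lvi D) (hε : ∀ v, ε v * ε v = 1)
    (a : E → Bool) (π : Wv' → Finset E') (X : Finset Wv') (f : (E → Bool) → Bool)
    (R : Finset E') :
    (2:ℝ) ^ Fintype.card E * W (rl (GP src tgt src' tgt' ε cen lvi c a π X f)) R
      = (2:ℝ) ^ Fintype.card E' * ∑ S : Finset E,
        (if lv lvi c (str src tgt cen lvi c π X S) = R then
          epsX ε (lft cen c (OO π X (lv lvi c S))) * W (rl f) S else 0) *
          chi (str src tgt cen lvi c π X S) a := by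
  have h1 : W (rl (GP src tgt src' tgt' ε cen lvi c a π X f)) R
      = ∑ Q : Finset E', (if symmDiff Q (bd src' tgt' (OO π X Q)) = R then
          epsX (eN src tgt ε cen c a) (OO π X Q) *
            W (fun z' => rl f (rs lvi c a z')) Q else 0) :=
    W_PiE (eN_sq hε a) π X (fun z' => rl f (rs lvi c a z')) R
  rw [h1, Finset.mul_sum]
  have h2 : ∀ Q : Finset E', (2:ℝ) ^ Fintype.card E *
      (if symmDiff Q (bd src' tgt' (OO π X Q)) = R then
        epsX (eN src tgt ε cen c a) (OO π X Q) *
          W (fun z' => rl f (rs lvi c a z')) Q else 0)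
      = (2:ℝ) ^ Fintype.card E' * ∑ S : Finset E,
        (if lv lvi c S = Q then
          (if lv lvi c (str src tgt cen lvi c π X S) = R then
            epsX ε (lft cen c (OO π X (lv lvi c S))) * W (rl f) S else 0) *
            chi (str src tgt cen lvi c π X S) a else 0) := by
    intro Q
    split_ifs with hQ
    · have h3 := W_rs (lvi := lvi) (c := c) (rl f) a Q
      calc (2:ℝ) ^ Fintype.card E *
            (epsX (eN src tgt ε cen c a) (OO π X Q) *
              W (fun z' => rl f (rs lvi c a z')) Q)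
          = epsX (eN src tgt ε cen c a) (OO π X Q) *
            ((2:ℝ) ^ Fintype.card E * W (fun z' => rl f (rs lvi c a z')) Q) := by ring
        _ = (2:ℝ) ^ Fintype.card E' * ∑ S : Finset E,
              epsX (eN src tgt ε cen c a) (OO π X Q) *
              ((if lv lvi c S = Q then W (rl f) S else 0) * chi S a) := by
            rw [h3, ← Finset.mul_sum]; ring
        _ = _ := by
            congr 1
            refine Finset.sum_congr rfl fun S _ => ?_
            by_cases h4 : lv lvi c S = Q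
            · rw [if_pos h4, if_pos h4]
              have h5 : lv lvi c (str src tgt cen lvi c π X S) = R := by
                rw [lv_str hst, h4]; exact hQ
              rw [if_pos h5, epsX_eN (hst.inj c), h4]
              have h6 : chi (str src tgt cen lvi c π X S) a
                  = chi S a * chi (bd src tgt (lft cen c (OO π X Q))) a := by
                rw [str, h4, chi_mul]
              rw [h6]
              ring
            · rw [if_neg h4, if_neg h4]; ring
    · rw [mul_zero]
      symm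
      rw [mul_eq_zero]
      right
      refine Finset.sum_eq_zero fun S _ => ?_
      by_cases h4 : lv lvi c S = Q
      · rw [if_pos h4, if_neg, zero_mul]
        rw [lv_str hst, h4]; exact hQ
      · rw [if_neg h4]
  rw [Finset.sum_congr rfl (fun Q _ => h2 Q), ← Finset.mul_sum, Finset.sum_comm]
  congr 1
  refine Finset.sum_congr rfl fun S _ => ?_
  rw [Finset.sum_ite_eq]
  simp

theorem OO_shift3 (hst : Stg src tgt src' tgt' cen lvi D) {Y : Finset Wv}
    {π : Wv' → Finset E'} (hπ : IsDual src' tgt' π (cn cen c Y)) (S : Finset E)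
    {X : Finset Wv} (hX : X ⊆ Y) :
    OO π (cn cen c Y) (lv lvi c (symmDiff S (bd src tgt X)))
      = symmDiff (OO π (cn cen c Y) (lv lvi c S)) (cn cen c X) := by
  rw [lv_symmDiff, hst.path]
  exact OO_symmDiff_bd hπ _ _ (cn_mono hX)

theorem lv_str_shift (hst : Stg src tgt src' tgt' cen lvi D) {Y : Finset Wv}
    {π : Wv' → Finset E'} (hπ : IsDual src' tgt' π (cn cen c Y)) (S : Finset E)
    {X : Finset Wv} (hX : X ⊆ Y) :
    lv lvi c (str src tgt cen lvi c π (cn cen c Y) (symmDiff S (bd src tgt X)))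
      = lv lvi c (str src tgt cen lvi c π (cn cen c Y) S) := by
  rw [lv_str hst, lv_str hst, OO_shift3 hst hπ S hX, lv_symmDiff, hst.path, bd_symmDiff]
  ext e
  simp only [Finset.mem_symmDiff]
  tauto

theorem Nd_leM {Y X : Finset Wv} (hX : X ⊆ Y) (T : Finset E) :
    Nd src tgt lvi c Y T ≤ (lv lvi c (symmDiff T (bd src tgt X))).card :=
  Finset.inf'_le (fun X => (lv lvi c (symmDiff T (bd src tgt X))).card)
    (Finset.mem_powerset.mpr hX)

theorem exists_NdM (src tgt : E → Wv) (lvi : C → E → Finset E') (c : C) (Y : Finset Wv)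
    (T : Finset E) :
    ∃ X ⊆ Y, Nd src tgt lvi c Y T = (lv lvi c (symmDiff T (bd src tgt X))).card := by
  obtain ⟨X, hX, h⟩ := Finset.exists_mem_eq_inf' (s := Y.powerset) ⟨∅, by simp⟩
    (fun X => (lv lvi c (symmDiff T (bd src tgt X))).card)
  exact ⟨X, Finset.mem_powerset.mp hX, h⟩

theorem Nd_bd {Y X : Finset Wv} (hX : X ⊆ Y) :
    Nd src tgt lvi c Y (bd src tgt X) = 0 := by
  have h := Nd_leM (src := src) (tgt := tgt) (lvi := lvi) (c := c) hX (bd src tgt X)
  rw [symmDiff_self] at h
  have h2 : (lv lvi c (⊥ : Finset E)).card = 0 := by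
    rw [Finset.bot_eq_empty, lv_empty, Finset.card_empty]
  omega

theorem Ph_bd (u : ℝ) {Y X : Finset Wv} (hX : X ⊆ Y) :
    Ph src tgt lvi u Y (bd src tgt X) = (Fintype.card C : ℝ) := by
  unfold Ph
  simp only [Nd_bd hX, pow_zero]
  simp

theorem Ph_pos {u : ℝ} (hu : 1 ≤ u) [Nonempty C] (Y : Finset Wv) (T : Finset E) :
    0 < Ph src tgt lvi u Y T :=
  Finset.sum_pos (fun c _ => by positivity) Finset.univ_nonempty

theorem card_bd_le3 {D' : ℕ} (h : ∀ w, (bd src' tgt' {w}).card ≤ D') (Z : Finset Wv') :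
    (bd src' tgt' Z).card ≤ D' * Z.card := by
  induction Z using Finset.induction_on with
  | empty => simp [bd_empty]
  | insert a Z ha ih =>
    rw [bd_insert ha, Finset.card_insert_of_notMem ha]
    refine (card_symmDiff_le' _ _).trans ?_
    have := h a
    rw [Nat.mul_add, Nat.mul_one]
    omega

/-- the live part of the normal form is controlled by `Nd` -/
theorem card_lv_str_le (hst : Stg src tgt src' tgt' cen lvi D) {D' : ℕ}
    (h : ∀ w, (bd src' tgt' {w}).card ≤ D') {Y : Finset Wv} {π : Wv' → Finset E'}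
    (hπ : IsDual src' tgt' π (cn cen c Y)) (S : Finset E) :
    (lv lvi c (str src tgt cen lvi c π (cn cen c Y) S)).card
      ≤ (D' + 1) * Nd src tgt lvi c Y S := by
  obtain ⟨X, hX, hN⟩ := exists_NdM src tgt lvi c Y S
  rw [hN, ← lv_str_shift hst hπ S hX, lv_str hst]
  set L := lv lvi c (symmDiff S (bd src tgt X))
  calc (symmDiff L (bd src' tgt' (OO π (cn cen c Y) L))).card
      ≤ L.card + (bd src' tgt' (OO π (cn cen c Y) L)).card := card_symmDiff_le' _ _
    _ ≤ L.card + D' * (OO π (cn cen c Y) L).card := Nat.add_le_add_left (card_bd_le3 h _) _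
    _ ≤ L.card + D' * L.card := Nat.add_le_add_left (Nat.mul_le_mul_left _ (card_OO_le hπ L)) _
    _ = (D' + 1) * L.card := by ring

theorem pair_sum3 (hst : Stg src tgt src' tgt' cen lvi D) (hε : ∀ v, ε v * ε v = 1)
    {Y : Finset Wv} {S0 : Finset E} (hclo : Clos src tgt S0 Y)
    {w1 : Wv'} (hw1 : cen c w1 ∉ Y) {π : Wv' → Finset E'}
    (hπ : IsDual src' tgt' π (cn cen c Y)) (R : Finset E') (S1 S2 : Finset E)
    (h1 : S1 ⊆ S0) (h2 : S2 ⊆ S0) :
    (if lv lvi c (str src tgt cen lvi c π (cn cen c Y) S1) = R then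
        epsX ε (lft cen c (OO π (cn cen c Y) (lv lvi c S1))) else 0) *
      (if lv lvi c (str src tgt cen lvi c π (cn cen c Y) S2) = R then
        epsX ε (lft cen c (OO π (cn cen c Y) (lv lvi c S2))) else 0) *
      ((2:ℝ) ^ (nce cen c).card * ∑ a ∈ Asn src tgt ε cen c,
        chi (str src tgt cen lvi c π (cn cen c Y) S1) a *
        chi (str src tgt cen lvi c π (cn cen c Y) S2) a)
    = (if lv lvi c (str src tgt cen lvi c π (cn cen c Y) S1) = R then
        (2:ℝ) ^ Fintype.card E *
        ∑ X ∈ Y.powerset, (if bd src tgt X = symmDiff S1 S2 then epsX ε X else 0) else 0) := by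
  have hinj := hst.inj c
  set O1 := OO π (cn cen c Y) (lv lvi c S1) with hO1
  set O2 := OO π (cn cen c Y) (lv lvi c S2) with hO2
  by_cases hR1 : lv lvi c (str src tgt cen lvi c π (cn cen c Y) S1) = R
  swap
  · rw [if_neg hR1, if_neg hR1]; ring
  rw [if_pos hR1, if_pos hR1]
  by_cases hR2 : lv lvi c (str src tgt cen lvi c π (cn cen c Y) S2) = R
  swap
  · rw [if_neg hR2]
    have h3 : ∑ X ∈ Y.powerset, (if bd src tgt X = symmDiff S1 S2 then epsX ε X else 0)
        = 0 := by
      refine Finset.sum_eq_zero fun X hX => ?_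
      rw [Finset.mem_powerset] at hX
      rw [if_neg]
      intro h4
      apply hR2
      rw [← hR1, ← lv_str_shift hst hπ S1 hX, h4, sd_sd]
    rw [h3]; ring
  rw [if_pos hR2]
  have h3 : ∀ a : E → Bool,
      chi (str src tgt cen lvi c π (cn cen c Y) S1) a *
        chi (str src tgt cen lvi c π (cn cen c Y) S2) a
      = chi (symmDiff (str src tgt cen lvi c π (cn cen c Y) S1)
          (str src tgt cen lvi c π (cn cen c Y) S2)) a := by
    intro a
    rw [chi_mul]
  rw [Finset.sum_congr rfl (fun a _ => h3 a), sum_Asn_chi hε]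
  have h4 : epsX ε (lft cen c O1) * epsX ε (lft cen c O2) *
      ∑ X ∈ (nce cen c).powerset, (if bd src tgt X
        = symmDiff (str src tgt cen lvi c π (cn cen c Y) S1)
            (str src tgt cen lvi c π (cn cen c Y) S2)
        then epsX ε X else 0)
      = ∑ X ∈ Y.powerset, (if bd src tgt X = symmDiff S1 S2 then epsX ε X else 0) := by
    rw [← Finset.sum_filter, ← Finset.sum_filter, Finset.mul_sum]
    have hinv : ∀ X Z : Finset Wv, symmDiff (symmDiff X Z) Z = X := fun X Z =>
      symmDiff_symmDiff_cancel_right Z X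
    have hLeq : lft cen c (symmDiff O1 O2) = symmDiff (lft cen c O1) (lft cen c O2) :=
      lft_symmDiff hinj O1 O2
    have hstar : symmDiff (str src tgt cen lvi c π (cn cen c Y) S1)
          (str src tgt cen lvi c π (cn cen c Y) S2)
        = symmDiff (symmDiff S1 S2) (bd src tgt (lft cen c (symmDiff O1 O2))) := by
      rw [hLeq, bd_symmDiff, str, str, ← hO1, ← hO2, symmDiff_symmDiff_symmDiff_comm]
    refine Finset.sum_nbij' (fun X => symmDiff X (lft cen c (symmDiff O1 O2)))
      (fun X => symmDiff X (lft cen c (symmDiff O1 O2))) ?_ ?_ ?_ ?_ ?_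
    · intro X hX
      rw [Finset.mem_filter, Finset.mem_powerset] at hX ⊢
      have h5 : bd src tgt (symmDiff X (lft cen c (symmDiff O1 O2))) = symmDiff S1 S2 := by
        rw [bd_symmDiff, hX.2, hstar]
        exact symmDiff_symmDiff_cancel_right _ _
      refine ⟨?_, h5⟩
      have h6 : bd src tgt (symmDiff X (lft cen c (symmDiff O1 O2))) ⊆ S0 := by
        rw [h5]
        intro v hv
        rw [Finset.mem_symmDiff] at hv
        rcases hv with hv | hv
        · exact h1 hv.1
        · exact h2 hv.1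
      rcases hclo _ h6 with h7 | h7
      · exact h7
      · exfalso
        have h8 : cen c w1 ∈ symmDiff X (lft cen c (symmDiff O1 O2)) := by
          by_contra h9
          exact hw1 (h7 (Finset.mem_compl.mpr h9))
        rw [Finset.mem_symmDiff] at h8
        rcases h8 with ⟨h9, _⟩ | ⟨h9, _⟩
        · have := hX.1 h9
          rw [mem_nce] at this
          exact this w1 rfl
        · rw [mem_lft] at h9
          obtain ⟨w2, h9, h12⟩ := h9
          have h13 : w2 = w1 := hinj h12
          rw [h13, Finset.mem_symmDiff] at h9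
          have h10 : w1 ∈ cn cen c Y := by
            rcases h9 with ⟨h11, _⟩ | ⟨h11, _⟩
            · exact (mem_OO.mp h11).1
            · exact (mem_OO.mp h11).1
          exact hw1 (mem_cn.mp h10)
    · intro X hX
      rw [Finset.mem_filter, Finset.mem_powerset] at hX ⊢
      have h5 : O2 = symmDiff O1 (cn cen c X) := by
        have h6 := OO_shift3 (c := c) hst hπ S1 hX.1
        rw [hX.2, sd_sd] at h6
        exact h6
      have h6 : symmDiff O1 O2 = cn cen c X := by
        rw [h5, sd_sd]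
      constructor
      · intro v hv
        rw [mem_nce]
        rintro w rfl
        rw [h6, Finset.mem_symmDiff, mem_lft] at hv
        rcases hv with ⟨h9, h10⟩ | ⟨⟨w', h9, h11⟩, h10⟩
        · exact h10 ⟨w, mem_cn.mpr h9, rfl⟩
        · rw [mem_cn, h11] at h9
          exact h10 h9
      · rw [bd_symmDiff, hX.2, hstar]
    · intro X _; exact hinv X _
    · intro X _; exact hinv X _
    · intro X _
      rw [epsX_symmDiff hε, hLeq, epsX_symmDiff hε]
      ring
  rw [← h4]
  ring

theorem moment_R3 (hst : Stg src tgt src' tgt' cen lvi D) (hε : ∀ v, ε v * ε v = 1)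
    {Y : Finset Wv} {S0 : Finset E} (hclo : Clos src tgt S0 Y)
    {w1 : Wv'} (hw1 : cen c w1 ∉ Y) {π : Wv' → Finset E'}
    (hπ : IsDual src' tgt' π (cn cen c Y)) (f : (E → Bool) → Bool)
    (hS0 : ∀ S, W (rl f) S ≠ 0 → S ⊆ S0) (R : Finset E') :
    (2:ℝ) ^ (nce cen c).card * ∑ a ∈ Asn src tgt ε cen c,
      ((2:ℝ) ^ Fintype.card E *
        W (rl (GP src tgt src' tgt' ε cen lvi c a π (cn cen c Y) f)) R) ^ 2
    = (4:ℝ) ^ Fintype.card E' * (2:ℝ) ^ Fintype.card E *
      ∑ S : Finset E,
        (if lv lvi c (str src tgt cen lvi c π (cn cen c Y) S) = R then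
          W (rl f) S * gt3 src tgt ε Y (rl f) S else 0) := by
  set h : Finset E → ℝ := fun S =>
    if lv lvi c (str src tgt cen lvi c π (cn cen c Y) S) = R then
      epsX ε (lft cen c (OO π (cn cen c Y) (lv lvi c S))) else 0 with hh
  set dS : Finset E → Finset E := fun S =>
    str src tgt cen lvi c π (cn cen c Y) S with hdS
  have e1 : ∀ a : E → Bool,
      ((2:ℝ) ^ Fintype.card E *
        W (rl (GP src tgt src' tgt' ε cen lvi c a π (cn cen c Y) f)) R) ^ 2
      = (4:ℝ) ^ Fintype.card E' * ∑ S1, ∑ S2, W (rl f) S1 * W (rl f) S2 *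
          (h S1 * h S2 * (chi (dS S1) a * chi (dS S2) a)) := by
    intro a
    rw [W_GP hst hε, mul_pow]
    have : ((2:ℝ) ^ Fintype.card E') ^ 2 = 4 ^ Fintype.card E' := by
      rw [← pow_mul, mul_comm, pow_mul]; norm_num
    rw [this, sq, Finset.sum_mul_sum]
    congr 1
    refine Finset.sum_congr rfl fun S1 _ => Finset.sum_congr rfl fun S2 _ => ?_
    rw [hh, hdS]
    simp only
    split_ifs <;> ring
  have e2 : ∀ S1 S2 : Finset E, W (rl f) S1 * W (rl f) S2 *
      (h S1 * h S2 * ((2:ℝ) ^ (nce cen c).card * ∑ a ∈ Asn src tgt ε cen c,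
        chi (dS S1) a * chi (dS S2) a))
      = (2:ℝ) ^ Fintype.card E * (W (rl f) S1 *
        ∑ X ∈ Y.powerset, (if bd src tgt X = symmDiff S1 S2 then
          (if lv lvi c (str src tgt cen lvi c π (cn cen c Y) S1) = R then
          epsX ε X * W (rl f) S2 else 0) else 0)) := by
    intro S1 S2
    by_cases hS1 : W (rl f) S1 = 0
    · rw [hS1]; ring
    by_cases hS2 : W (rl f) S2 = 0
    · rw [hS2]
      simp
    rw [hh, hdS]
    simp only
    rw [pair_sum3 hst hε hclo hw1 hπ R S1 S2 (hS0 _ hS1) (hS0 _ hS2)]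
    by_cases hR : lv lvi c (str src tgt cen lvi c π (cn cen c Y) S1) = R
    · simp only [if_pos hR]
      rw [Finset.mul_sum, Finset.mul_sum, Finset.mul_sum, Finset.mul_sum]
      refine Finset.sum_congr rfl fun X _ => ?_
      split_ifs <;> ring
    · simp only [if_neg hR]
      simp
  calc (2:ℝ) ^ (nce cen c).card * ∑ a ∈ Asn src tgt ε cen c,
      ((2:ℝ) ^ Fintype.card E *
        W (rl (GP src tgt src' tgt' ε cen lvi c a π (cn cen c Y) f)) R) ^ 2
      = (4:ℝ) ^ Fintype.card E' * ∑ S1, ∑ S2, W (rl f) S1 * W (rl f) S2 *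
        (h S1 * h S2 * ((2:ℝ) ^ (nce cen c).card * ∑ a ∈ Asn src tgt ε cen c,
          chi (dS S1) a * chi (dS S2) a)) := by
        simp only [e1]
        rw [← Finset.mul_sum, Finset.sum_comm]
        rw [show (2:ℝ) ^ (nce cen c).card * ((4:ℝ) ^ Fintype.card E' *
            ∑ y, ∑ x ∈ Asn src tgt ε cen c, ∑ S2, W (rl f) y * W (rl f) S2 *
              (h y * h S2 * (chi (dS y) x * chi (dS S2) x)))
            = (4:ℝ) ^ Fintype.card E' * ∑ y, ((2:ℝ) ^ (nce cen c).card *
              ∑ x ∈ Asn src tgt ε cen c, ∑ S2, W (rl f) y * W (rl f) S2 *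
              (h y * h S2 * (chi (dS y) x * chi (dS S2) x))) from by
              rw [← Finset.mul_sum]; ring]
        congr 1
        refine Finset.sum_congr rfl fun S1 _ => ?_
        rw [Finset.sum_comm, Finset.mul_sum]
        refine Finset.sum_congr rfl fun S2 _ => ?_
        rw [← Finset.mul_sum, ← Finset.mul_sum]
        ring
    _ = (4:ℝ) ^ Fintype.card E' * ∑ S1, ∑ S2, (2:ℝ) ^ Fintype.card E *
        (W (rl f) S1 * ∑ X ∈ Y.powerset, (if bd src tgt X = symmDiff S1 S2 then
          (if lv lvi c (str src tgt cen lvi c π (cn cen c Y) S1) = R then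
          epsX ε X * W (rl f) S2 else 0) else 0)) := by
        congr 1
        exact Finset.sum_congr rfl fun S1 _ => Finset.sum_congr rfl fun S2 _ => e2 S1 S2
    _ = _ := by
        rw [mul_assoc]
        congr 1
        rw [Finset.mul_sum]
        refine Finset.sum_congr rfl fun S1 _ => ?_
        rw [← Finset.mul_sum]
        congr 1
        rw [← Finset.mul_sum, Finset.sum_comm]
        by_cases hR : lv lvi c (str src tgt cen lvi c π (cn cen c Y) S1) = R
        · simp only [if_pos hR]
          congr 1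
          unfold gt3
          refine Finset.sum_congr rfl fun X _ => ?_
          rw [Finset.sum_eq_single (symmDiff S1 (bd src tgt X))]
          · rw [if_pos (sd_sd _ _).symm]
          · intro S2 _ hne
            rw [if_neg]
            intro h5
            apply hne
            rw [h5, sd_sd]
          · intro h5; exact absurd (mem_univ _) h5
        · simp only [if_neg hR]
          simp

/-- weighted sum over all `R` -/
theorem moment_all3 (hst : Stg src tgt src' tgt' cen lvi D) (hε : ∀ v, ε v * ε v = 1)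
    {Y : Finset Wv} {S0 : Finset E} (hclo : Clos src tgt S0 Y)
    {w1 : Wv'} (hw1 : cen c w1 ∉ Y) {π : Wv' → Finset E'}
    (hπ : IsDual src' tgt' π (cn cen c Y)) (f : (E → Bool) → Bool)
    (hS0 : ∀ S, W (rl f) S ≠ 0 → S ⊆ S0) (u0 : ℝ) :
    (2:ℝ) ^ (nce cen c).card * ∑ a ∈ Asn src tgt ε cen c, ∑ R : Finset E', u0 ^ R.card *
      (2:ℝ) ^ Fintype.card E *
        W (rl (GP src tgt src' tgt' ε cen lvi c a π (cn cen c Y) f)) R ^ 2
    = (4:ℝ) ^ Fintype.card E' *
      ∑ S : Finset E,
        u0 ^ (lv lvi c (str src tgt cen lvi c π (cn cen c Y) S)).card *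
          (W (rl f) S * gt3 src tgt ε Y (rl f) S) := by
  have hV : (2:ℝ) ^ Fintype.card E ≠ 0 := by positivity
  refine mul_left_cancel₀ hV ?_
  have h1 := fun R => moment_R3 hst hε hclo hw1 hπ f hS0 R
  calc (2:ℝ) ^ Fintype.card E *
      ((2:ℝ) ^ (nce cen c).card * ∑ a ∈ Asn src tgt ε cen c, ∑ R : Finset E', u0 ^ R.card *
      (2:ℝ) ^ Fintype.card E *
        W (rl (GP src tgt src' tgt' ε cen lvi c a π (cn cen c Y) f)) R ^ 2)
      = ∑ R : Finset E', u0 ^ R.card * ((2:ℝ) ^ (nce cen c).card * ∑ a ∈ Asn src tgt ε cen c,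
      ((2:ℝ) ^ Fintype.card E *
        W (rl (GP src tgt src' tgt' ε cen lvi c a π (cn cen c Y) f)) R) ^ 2) := by
        rw [Finset.sum_comm, Finset.mul_sum, Finset.mul_sum]
        refine Finset.sum_congr rfl fun R _ => ?_
        rw [Finset.mul_sum, Finset.mul_sum, Finset.mul_sum, Finset.mul_sum]
        refine Finset.sum_congr rfl fun a _ => ?_
        ring
    _ = ∑ R : Finset E', u0 ^ R.card * ((4:ℝ) ^ Fintype.card E' *
        (2:ℝ) ^ Fintype.card E *
      ∑ S : Finset E,
        (if lv lvi c (str src tgt cen lvi c π (cn cen c Y) S) = R then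
          W (rl f) S * gt3 src tgt ε Y (rl f) S else 0)) :=
        Finset.sum_congr rfl fun R _ => by rw [h1 R]
    _ = _ := by
        have h2 : ∀ R : Finset E', u0 ^ R.card * ((4:ℝ) ^ Fintype.card E' *
            (2:ℝ) ^ Fintype.card E *
            ∑ S : Finset E,
            (if lv lvi c (str src tgt cen lvi c π (cn cen c Y) S) = R then
              W (rl f) S * gt3 src tgt ε Y (rl f) S else 0))
            = (4:ℝ) ^ Fintype.card E' * (2:ℝ) ^ Fintype.card E *
            ∑ S : Finset E,
            (if lv lvi c (str src tgt cen lvi c π (cn cen c Y) S) = R then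
              u0 ^ R.card * (W (rl f) S * gt3 src tgt ε Y (rl f) S) else 0) := by
          intro R
          rw [← mul_assoc, mul_comm (u0 ^ R.card), mul_assoc]
          congr 1
          rw [Finset.mul_sum]
          refine Finset.sum_congr rfl fun S _ => ?_
          split_ifs <;> ring
        simp only [h2]
        rw [← Finset.mul_sum, Finset.sum_comm]
        simp only [Finset.sum_ite_eq, mem_univ, if_true]
        ring

theorem gt_shift3 (hε : ∀ v, ε v * ε v = 1) {Y : Finset Wv} (f : (E → Bool) → ℝ)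
    (S : Finset E) {X : Finset Wv} (hX : X ⊆ Y) :
    gt3 src tgt ε Y f (symmDiff S (bd src tgt X)) = epsX ε X * gt3 src tgt ε Y f S := by
  unfold gt3
  rw [Finset.mul_sum]
  have hsub : ∀ Z : Finset Wv, Z ⊆ Y → symmDiff Z X ⊆ Y := by
    intro Z hZ v hv
    rw [Finset.mem_symmDiff] at hv
    rcases hv with hv | hv
    · exact hZ hv.1
    · exact hX hv.1
  refine Finset.sum_nbij' (fun Z => symmDiff Z X) (fun Z => symmDiff Z X) ?_ ?_ ?_ ?_ ?_
  · intro Z hZ
    rw [Finset.mem_powerset] at hZ ⊢
    exact hsub Z hZ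
  · intro Z hZ
    rw [Finset.mem_powerset] at hZ ⊢
    exact hsub Z hZ
  · intro Z _; exact symmDiff_symmDiff_cancel_right X Z
  · intro Z _; exact symmDiff_symmDiff_cancel_right X Z
  · intro Z _
    rw [epsX_symmDiff hε, bd_symmDiff]
    have h1 : symmDiff S (symmDiff (bd src tgt Z) (bd src tgt X))
        = symmDiff (symmDiff S (bd src tgt X)) (bd src tgt Z) := by
      ext e
      simp only [Finset.mem_symmDiff]
      tauto
    rw [h1]
    linear_combination (-(epsX ε Z * W f (symmDiff (symmDiff S (bd src tgt X))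
      (bd src tgt Z)))) * epsX_mul_self hε X

/-- the shift permutation of sets -/
def shiftP3 {α : Type} [DecidableEq α] (B : Finset α) : Equiv.Perm (Finset α) :=
  Function.Involutive.toPerm (fun S => symmDiff S B) (fun S =>
    symmDiff_symmDiff_cancel_right B S)

theorem sum_shift3 {α : Type} [DecidableEq α] [Fintype α] (B : Finset α) (f : Finset α → ℝ) :
    ∑ S, f (symmDiff S B) = ∑ S, f S :=
  Equiv.sum_comp (shiftP3 B) f

theorem gt_average3 (hε : ∀ v, ε v * ε v = 1)
    {Y : Finset Wv} (f : (E → Bool) → ℝ) (w : Finset E → ℝ)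
    (hw : ∀ S, ∀ X ⊆ Y, w (symmDiff S (bd src tgt X)) = w S) :
    (2:ℝ) ^ Y.card * ∑ S, w S * (W f S * gt3 src tgt ε Y f S)
      = ∑ S, w S * gt3 src tgt ε Y f S ^ 2 := by
  have h1 : ∀ S, w S * gt3 src tgt ε Y f S ^ 2
      = ∑ X ∈ Y.powerset, w S * gt3 src tgt ε Y f S *
        (epsX ε X * W f (symmDiff S (bd src tgt X))) := by
    intro S
    rw [← Finset.mul_sum]
    have : ∑ X ∈ Y.powerset, epsX ε X * W f (symmDiff S (bd src tgt X))
        = gt3 src tgt ε Y f S := rfl
    rw [this]; ring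
  simp only [h1]
  rw [Finset.sum_comm]
  have h2 : ∀ X ∈ Y.powerset, ∑ S, w S * gt3 src tgt ε Y f S *
        (epsX ε X * W f (symmDiff S (bd src tgt X)))
      = ∑ S, w S * (W f S * gt3 src tgt ε Y f S) := by
    intro X hX
    rw [Finset.mem_powerset] at hX
    rw [← sum_shift3 (bd src tgt X) (fun S => w S * (W f S * gt3 src tgt ε Y f S))]
    refine Finset.sum_congr rfl fun S _ => ?_
    rw [hw S X hX, gt_shift3 hε f S hX]
    ring
  rw [Finset.sum_congr rfl h2, Finset.sum_const, Finset.card_powerset, nsmul_eq_mul]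
  push_cast
  ring

theorem W_mul_phY (ε : Wv → ℝ) (Y : Finset Wv) (f : (E → Bool) → ℝ) (S : Finset E) :
    W (fun x => f x * phY src tgt ε Y x) S = gt3 src tgt ε Y f S := by
  unfold gt3 phY W
  simp only [Finset.mul_sum, Finset.sum_mul]
  rw [Finset.sum_comm]
  refine Finset.sum_congr rfl fun X _ => Finset.sum_congr rfl fun x _ => ?_
  rw [← chi_mul]; ring

theorem NP_phY (hconn : Con src tgt) (hε : ∀ v, ε v * ε v = 1)
    {Y : Finset Wv} (hY : Y ≠ univ) (Φ : Finset E → ℝ) :
    NP Φ (phY src tgt ε Y)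
      = (4:ℝ) ^ Fintype.card E * ∑ X ∈ Y.powerset, Φ (bd src tgt X) := by
  have hinj : ∀ X ∈ Y.powerset, ∀ X' ∈ Y.powerset, bd src tgt X = bd src tgt X' →
      X = X' := by
    intro X hX X' hX' h
    rw [Finset.mem_powerset] at hX hX'
    have h1 : bd src tgt (symmDiff X X') = ∅ := by
      rw [bd_symmDiff, h, symmDiff_self]; rfl
    rcases hconn _ h1 with h2 | h2
    · rw [← Finset.bot_eq_empty, symmDiff_eq_bot] at h2
      exact h2
    · exfalso
      apply hY
      refine Finset.eq_univ_of_forall fun v => ?_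
      have h3 : v ∈ symmDiff X X' := by rw [h2]; exact mem_univ v
      rw [Finset.mem_symmDiff] at h3
      rcases h3 with h3 | h3
      · exact hX h3.1
      · exact hX' h3.1
  have h1 : ∀ S, W (phY src tgt ε Y) S
      = ∑ X ∈ Y.powerset, epsX ε X * (if bd src tgt X = S then
        (2:ℝ) ^ Fintype.card E else 0) := by
    intro S
    unfold phY
    unfold W
    simp only [Finset.sum_mul]
    rw [Finset.sum_comm]
    refine Finset.sum_congr rfl fun X _ => ?_
    simp only [mul_assoc]
    rw [← Finset.mul_sum, sum_x_chi_chi]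
  have h4V : (4:ℝ) ^ Fintype.card E
      = (2:ℝ) ^ Fintype.card E * (2:ℝ) ^ Fintype.card E := by
    rw [← mul_pow]; norm_num
  unfold NP
  calc ∑ S, Φ S * W (phY src tgt ε Y) S ^ 2
      = ∑ S, ∑ X ∈ Y.powerset, ∑ X' ∈ Y.powerset,
        (if bd src tgt X = S then (if bd src tgt X' = S then Φ S * (epsX ε X * epsX ε X' *
          (4:ℝ) ^ Fintype.card E) else 0) else 0) := by
        refine Finset.sum_congr rfl fun S _ => ?_
        rw [h1, sq, Finset.sum_mul_sum, Finset.mul_sum]
        refine Finset.sum_congr rfl fun X _ => ?_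
        rw [Finset.mul_sum]
        refine Finset.sum_congr rfl fun X' _ => ?_
        rw [h4V]
        split_ifs <;> ring
    _ = ∑ X ∈ Y.powerset, ∑ X' ∈ Y.powerset,
        (if bd src tgt X' = bd src tgt X then Φ (bd src tgt X) * (epsX ε X * epsX ε X' *
          (4:ℝ) ^ Fintype.card E) else 0) := by
        rw [Finset.sum_comm]
        refine Finset.sum_congr rfl fun X _ => ?_
        rw [Finset.sum_comm]
        refine Finset.sum_congr rfl fun X' _ => ?_
        rw [Finset.sum_ite_eq]
        simp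
    _ = ∑ X ∈ Y.powerset, (4:ℝ) ^ Fintype.card E * Φ (bd src tgt X) := by
        refine Finset.sum_congr rfl fun X hX => ?_
        rw [Finset.sum_eq_single X]
        · rw [if_pos rfl]
          linear_combination (Φ (bd src tgt X) *
            (4:ℝ) ^ Fintype.card E) * epsX_mul_self hε X
        · intro X' hX' hne
          rw [if_neg]
          intro h
          exact hne (hinj X' hX' X hX h)
        · intro h; exact absurd hX h
    _ = _ := by rw [Finset.mul_sum]

/-- **Main moment bound.** `good` is a set of choices, `πs c` a dual family on `cn cen c Y`. -/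
theorem main_moment3 (hst : Stg src tgt src' tgt' cen lvi D) (hconn : Con src tgt)
    {D' : ℕ} (hdeg : ∀ w, (bd src' tgt' {w}).card ≤ D')
    (hε : ∀ v, ε v * ε v = 1) {Y : Finset Wv} (hY : Y ≠ univ)
    {S0 : Finset E} (hclo : Clos src tgt S0 Y)
    (good : Finset C) (πs : C → Wv' → Finset E')
    (hgood : ∀ c ∈ good, (∃ w1, cen c w1 ∉ Y) ∧ IsDual src' tgt' (πs c) (cn cen c Y))
    (f : (E → Bool) → Bool) (hS0 : ∀ S, W (rl f) S ≠ 0 → S ⊆ S0)
    (u0 u B : ℝ) (hu0 : 1 ≤ u0) (hu : u = u0 ^ (D' + 1))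
    (hsp : NP (Ph src tgt lvi u Y) (fun x => rl f x * phY src tgt ε Y x)
      ≤ B * NP (Ph src tgt lvi u Y) (phY src tgt ε Y)) :
    (2:ℝ) ^ (Fintype.card Wv - Fintype.card Wv') *
      ∑ c ∈ good, ∑ a ∈ Asn src tgt ε cen c, ∑ R : Finset E', u0 ^ R.card *
        W (rl (GP src tgt src' tgt' ε cen lvi c a (πs c) (cn cen c Y) f)) R ^ 2
    ≤ (4:ℝ) ^ Fintype.card E' * (2:ℝ) ^ Fintype.card E * B * (Fintype.card C : ℝ) := by
  have hu1 : 1 ≤ u := by rw [hu]; exact one_le_pow₀ hu0
  set NV : ℝ := (2:ℝ) ^ Fintype.card E with hNV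
  have hNVpos : 0 < NV := by rw [hNV]; positivity
  have hYpos : (0:ℝ) < 2 ^ Y.card := by positivity
  -- one choice
  have h1 : ∀ c ∈ good, (2:ℝ) ^ Y.card * (NV * ((2:ℝ) ^ (Fintype.card Wv - Fintype.card Wv') *
      ∑ a ∈ Asn src tgt ε cen c, ∑ R : Finset E', u0 ^ R.card *
        W (rl (GP src tgt src' tgt' ε cen lvi c a (πs c) (cn cen c Y) f)) R ^ 2))
      ≤ (4:ℝ) ^ Fintype.card E' *
        ∑ S, u ^ Nd src tgt lvi c Y S * gt3 src tgt ε Y (rl f) S ^ 2 := by
    intro c hc
    obtain ⟨⟨w1, hw1⟩, hπ⟩ := hgood c hc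
    have h2 := moment_all3 hst hε hclo hw1 hπ f hS0 u0
    have h3 : (nce cen c).card = Fintype.card Wv - Fintype.card Wv' := by
      have := card_nce (hst.inj c); omega
    rw [h3] at h2
    have h4 : NV * ((2:ℝ) ^ (Fintype.card Wv - Fintype.card Wv') *
      ∑ a ∈ Asn src tgt ε cen c, ∑ R : Finset E', u0 ^ R.card *
        W (rl (GP src tgt src' tgt' ε cen lvi c a (πs c) (cn cen c Y) f)) R ^ 2)
        = (2:ℝ) ^ (Fintype.card Wv - Fintype.card Wv') *
        ∑ a ∈ Asn src tgt ε cen c, ∑ R : Finset E', u0 ^ R.card *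
          (2:ℝ) ^ Fintype.card E *
          W (rl (GP src tgt src' tgt' ε cen lvi c a (πs c) (cn cen c Y) f)) R ^ 2 := by
      rw [Finset.mul_sum, Finset.mul_sum, Finset.mul_sum]
      refine Finset.sum_congr rfl fun a _ => ?_
      rw [Finset.mul_sum, Finset.mul_sum, Finset.mul_sum]
      refine Finset.sum_congr rfl fun R _ => ?_
      rw [hNV]; ring
    rw [h4, h2]
    have h5 := gt_average3 (src := src) (tgt := tgt) hε (Y := Y) (rl f)
      (fun S => u0 ^ (lv lvi c (str src tgt cen lvi c (πs c) (cn cen c Y) S)).card)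
      (fun S X hX => by
        show u0 ^ _ = u0 ^ _
        rw [lv_str_shift hst hπ S hX])
    calc (2:ℝ) ^ Y.card * ((4:ℝ) ^ Fintype.card E' *
          ∑ S : Finset E,
          u0 ^ (lv lvi c (str src tgt cen lvi c (πs c) (cn cen c Y) S)).card *
            (W (rl f) S * gt3 src tgt ε Y (rl f) S))
        = (4:ℝ) ^ Fintype.card E' * ((2:ℝ) ^ Y.card *
          ∑ S : Finset E,
          u0 ^ (lv lvi c (str src tgt cen lvi c (πs c) (cn cen c Y) S)).card *
            (W (rl f) S * gt3 src tgt ε Y (rl f) S)) := by ring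
      _ = (4:ℝ) ^ Fintype.card E' * ∑ S : Finset E,
          u0 ^ (lv lvi c (str src tgt cen lvi c (πs c) (cn cen c Y) S)).card *
            gt3 src tgt ε Y (rl f) S ^ 2 := by rw [h5]
      _ ≤ _ := by
          refine mul_le_mul_of_nonneg_left ?_ (by positivity)
          refine Finset.sum_le_sum fun S _ => ?_
          refine mul_le_mul_of_nonneg_right ?_ (sq_nonneg _)
          calc u0 ^ (lv lvi c (str src tgt cen lvi c (πs c) (cn cen c Y) S)).card
              ≤ u0 ^ ((D' + 1) * Nd src tgt lvi c Y S) :=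
                pow_le_pow_right₀ hu0 (card_lv_str_le hst hdeg hπ S)
            _ = u ^ Nd src tgt lvi c Y S := by rw [hu, ← pow_mul]
  -- sum over the choices
  have h2 : ∑ c ∈ good, (4:ℝ) ^ Fintype.card E' *
      ∑ S, u ^ Nd src tgt lvi c Y S * gt3 src tgt ε Y (rl f) S ^ 2
      ≤ (4:ℝ) ^ Fintype.card E' *
        NP (Ph src tgt lvi u Y) (fun x => rl f x * phY src tgt ε Y x) := by
    rw [← Finset.mul_sum]
    refine mul_le_mul_of_nonneg_left ?_ (by positivity)
    refine (Finset.sum_le_sum_of_subset_of_nonneg (Finset.subset_univ good)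
      (fun c _ _ => Finset.sum_nonneg fun S _ => by positivity)).trans (le_of_eq ?_)
    rw [Finset.sum_comm]
    unfold NP
    refine Finset.sum_congr rfl fun S _ => ?_
    rw [W_mul_phY]
    unfold Ph
    rw [Finset.sum_mul]
  have h3 := hsp
  rw [NP_phY hconn hε hY] at h3
  have h4 : ∑ X ∈ Y.powerset, Ph src tgt lvi u Y (bd src tgt X)
      = (2:ℝ) ^ Y.card * (Fintype.card C : ℝ) := by
    rw [Finset.sum_congr rfl (fun X hX => Ph_bd u (Finset.mem_powerset.mp hX)),
      Finset.sum_const, Finset.card_powerset, nsmul_eq_mul]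
    push_cast
    ring
  rw [h4] at h3
  have h4V : (4:ℝ) ^ Fintype.card E = NV * NV := by
    rw [hNV, ← mul_pow]; norm_num
  rw [h4V] at h3
  have h5 : (2:ℝ) ^ Y.card * (NV * ((2:ℝ) ^ (Fintype.card Wv - Fintype.card Wv') *
      ∑ c ∈ good, ∑ a ∈ Asn src tgt ε cen c, ∑ R : Finset E', u0 ^ R.card *
        W (rl (GP src tgt src' tgt' ε cen lvi c a (πs c) (cn cen c Y) f)) R ^ 2))
      ≤ (4:ℝ) ^ Fintype.card E' * (B * (NV * NV *
        ((2:ℝ) ^ Y.card * (Fintype.card C : ℝ)))) := by
    calc (2:ℝ) ^ Y.card * (NV * ((2:ℝ) ^ (Fintype.card Wv - Fintype.card Wv') *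
        ∑ c ∈ good, ∑ a ∈ Asn src tgt ε cen c, ∑ R : Finset E', u0 ^ R.card *
          W (rl (GP src tgt src' tgt' ε cen lvi c a (πs c) (cn cen c Y) f)) R ^ 2))
        = ∑ c ∈ good, (2:ℝ) ^ Y.card * (NV *
          ((2:ℝ) ^ (Fintype.card Wv - Fintype.card Wv') *
          ∑ a ∈ Asn src tgt ε cen c, ∑ R : Finset E', u0 ^ R.card *
            W (rl (GP src tgt src' tgt' ε cen lvi c a (πs c) (cn cen c Y) f)) R ^ 2)) := by
          rw [Finset.mul_sum, Finset.mul_sum, Finset.mul_sum]
      _ ≤ ∑ c ∈ good, (4:ℝ) ^ Fintype.card E' *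
          ∑ S, u ^ Nd src tgt lvi c Y S * gt3 src tgt ε Y (rl f) S ^ 2 := Finset.sum_le_sum h1
      _ ≤ _ := h2
      _ ≤ _ := mul_le_mul_of_nonneg_left h3 (by positivity)
  have hfac : (0:ℝ) < 2 ^ Y.card * NV := by positivity
  refine le_of_mul_le_mul_left ?_ hfac
  calc _ = (2:ℝ) ^ Y.card * (NV * ((2:ℝ) ^ (Fintype.card Wv - Fintype.card Wv') *
      ∑ c ∈ good, ∑ a ∈ Asn src tgt ε cen c, ∑ R : Finset E', u0 ^ R.card *
        W (rl (GP src tgt src' tgt' ε cen lvi c a (πs c) (cn cen c Y) f)) R ^ 2)) := by ring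
    _ ≤ _ := h5
    _ = _ := by ring

/-- granularity with a general weight -/
theorem gran_moment3 (f : (E' → Bool) → Bool) (t : ℕ) (u0 : ℝ) (hu0 : 4 ≤ u0)
    (h : ¬ Dg (rl f) t) :
    (u0 / 4) ^ (t + 1) * 4 ^ Fintype.card E' ≤
      ∑ R : Finset E', u0 ^ R.card * (W (rl f) R) ^ 2 := by
  classical
  unfold Dg at h
  push Not at h
  obtain ⟨T, hT, hWT⟩ := h
  obtain ⟨R, hR, hmax⟩ := Finset.exists_max_image (univ.filter fun S : Finset E' => W (rl f) S ≠ 0)
    Finset.card ⟨T, by simp [hWT]⟩
  have hWR : W (rl f) R ≠ 0 := (Finset.mem_filter.1 hR).2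
  have hTR : T.card ≤ R.card := hmax T (by simp [hWT])
  have hdeg : Dg (rl f) R.card := by
    intro S hS
    by_contra hne
    have := hmax S (by simp [hne])
    omega
  have h1 := gran f R.card hdeg R rfl hWR
  have h2 : u0 ^ R.card * (W (rl f) R) ^ 2 ≤
      ∑ R : Finset E', u0 ^ R.card * (W (rl f) R) ^ 2 :=
    Finset.single_le_sum (f := fun R : Finset E' => u0 ^ R.card * (W (rl f) R) ^ 2)
      (fun _ _ => by positivity) (Finset.mem_univ R)
  refine le_trans ?_ h2
  have h8 : u0 ^ R.card = (u0 / 4) ^ R.card * 4 ^ R.card := by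
    rw [← mul_pow]
    congr 1
    ring
  rw [h8, mul_assoc]
  have h3 : (u0 / 4) ^ (t + 1) ≤ (u0 / 4) ^ R.card :=
    pow_le_pow_right₀ (by linarith) (by omega)
  exact mul_le_mul h3 h1 (by positivity) (by positivity)

end Pool.Agent.H3.Frg3
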