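import Mathlib
import Pool.Agent.H3.Frg3.Mass3
import Pool.Agent.H3.Frg2.Pseudo
import Pool.Agent.H3.Frg2.Small

set_option autoImplicit false
set_option linter.unusedSectionVars false

/-!
# Families of pseudo-evaluations: the bottom level, one stage up, projection
-/

namespace Pool.Agent.H3.Frg3

open Finset Pool.Agent.H3.Frg Pool.Agent.H3.Frg2

theorem PA.z_sum {X : Type} (P : PA X) {ι : Type} (s : Finset ι) (f : ι → X → ℝ)
    (h : ∀ i ∈ s, P.Z (f i)) : P.Z (fun z => ∑ i ∈ s, f i z) := by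
  classical
  induction s using Finset.induction_on with
  | empty => simpa using P.z_zero
  | insert a s ha ih =>
    refine P.z_congr (P.z_add (h a (Finset.mem_insert_self a s))
      (ih fun i hi => h i (Finset.mem_insert_of_mem hi))) ?_
    intro z
    rw [Finset.sum_insert ha]

section Bottom

variable {E Wv : Type} [Fintype E] [DecidableEq E] [Fintype Wv] [DecidableEq Wv]
  {src tgt : E → Wv}

theorem Dg_bd_sub (src tgt : E → Wv) (ε : Wv → ℝ) (O : Finset Wv) (m : ℕ)
    (h : (bd src tgt O).card ≤ m) :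
    Dg (fun z => chi (bd src tgt O) z - epsX ε O) m := by
  intro T hT
  have h1 : (fun z : E → Bool => chi (bd src tgt O) z - epsX ε O)
      = fun z => chi (bd src tgt O) z + (-epsX ε O) * 1 := by
    funext z; ring
  rw [h1, W_add, W_smul]
  have h2 : W (chi (bd src tgt O)) T = 0 := Dg_chi _ T (by omega)
  have h3 : W (fun _ : E → Bool => (1:ℝ)) T = 0 := Dg_zero 1 T (by omega)
  rw [h2, h3]; ring

/-- the bottom level -/
noncomputable def PFam.bottom (d M K : ℕ) (hx : Expd src tgt d) (hM : 2 * M ≤ d)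
    (hK : 3 * K ≤ Fintype.card Wv)
    (hd : ∀ O : Finset Wv, O.card ≤ K → M + (bd src tgt O).card ≤ d) : PFam src tgt where
  P := fun ε hε => pa d M hx hM ε hε
  M := M
  K := K
  dg := fun _ _ _ _ => Iff.rfl
  hM := fun _ _ => rfl
  bf := by
    intro ε hε O hO S hS
    have h1 : (fun z => chi S z * (chi (bd src tgt O) z - epsX ε O))
        = fun z => 1 * chi (symmDiff S (bd src tgt O)) z + (-epsX ε O) * chi S z := by
      funext z; rw [← chi_mul]; ring
    have h2 := hd O hO
    have h3 := card_symmDiff_le' S (bd src tgt O)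
    rw [h1, Et_add, Et_smul, Et_smul]
    have h4 := Et_shift_set hx hε O (by omega) S (by omega) (by omega)
    have h5 := epsX_mul_self hε O
    rw [h4]
    linear_combination (-(Et src tgt d ε (chi (symmDiff S (bd src tgt O))))) * h5

theorem PFam.proj (fam : PFam src tgt) {D : ℕ} (hdeg : ∀ w, (bd src tgt {w}).card ≤ D)
    {ε : Wv → ℝ} (hε : ∀ w, ε w * ε w = 1) (π : Wv → Finset E) (X : Finset Wv)
    (hπ : IsDual src tgt π X) (p : (E → Bool) → ℝ) {K : ℕ} (hp : Dg p K)
    (hK : K ≤ fam.K) (hM : D * K + K ≤ fam.M) :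
    (fam.P ε hε).Z (fun z => p (PiE src tgt ε π X z) - p z) := by
  have hE : (2:ℝ) ^ Fintype.card E ≠ 0 := by positivity
  have h1 : (fam.P ε hε).Z (fun z => ∑ Q : Finset E, W p Q *
      (chi Q z * epsX ε (OO π X Q) * (chi (bd src tgt (OO π X Q)) z - epsX ε (OO π X Q)))) := by
    refine PA.z_sum _ _ _ fun Q _ => ?_
    by_cases hQ : Q.card ≤ K
    · refine (fam.P ε hε).z_smul _ ?_
      have h2 : (OO π X Q).card ≤ K := (card_OO_le hπ Q).trans hQ
      have h3 := card_bd_le3 hdeg (OO π X Q)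
      have h4 : D * (OO π X Q).card ≤ D * K := Nat.mul_le_mul_left _ h2
      refine (fam.P ε hε).z_mul (a := D * K) (b := K) (fam.bf ε hε (OO π X Q) (h2.trans hK))
        ((fam.dg _ _ _ _).mpr (Dg_bd_sub src tgt ε _ _ (h3.trans h4))) ?_ ?_
      · rw [fam.dg]
        intro T hT
        have h5 : (fun z : E → Bool => chi Q z * epsX ε (OO π X Q))
            = fun z => epsX ε (OO π X Q) * chi Q z := by funext z; ring
        rw [h5, W_smul, Dg_chi Q T (by omega), mul_zero]
      · rw [fam.hM]; exact hM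
    · refine (fam.P ε hε).z_congr (fam.P ε hε).z_zero fun z => ?_
      rw [hp Q (by omega), zero_mul]
  refine (fam.P ε hε).z_congr ((fam.P ε hε).z_smul ((2:ℝ) ^ Fintype.card E)⁻¹ h1) fun z => ?_
  have h2 : ∑ Q : Finset E, W p Q *
      (chi Q z * epsX ε (OO π X Q) * (chi (bd src tgt (OO π X Q)) z - epsX ε (OO π X Q)))
      = (2:ℝ) ^ Fintype.card E * (p (PiE src tgt ε π X z) - p z) := by
    rw [mul_sub, ← inversion, ← inversion, ← Finset.sum_sub_distrib]
    refine Finset.sum_congr rfl fun Q _ => ?_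
    rw [chi_PiE hε, ← chi_mul]
    linear_combination (-(W p Q * chi Q z)) * epsX_mul_self hε (OO π X Q)
  rw [h2, ← mul_assoc, inv_mul_cancel₀ hE, one_mul]

/-- a formula equivalent to the axiom of a vertex is pseudo-true -/
theorem PFam.ax (fam : PFam src tgt) {ε : Wv → ℝ} (hε : ∀ w, ε w * ε w = 1) (hK : 1 ≤ fam.K)
    (v : Wv) (A : Fm E) (hA : ∀ x, A.eval x = true ↔ chi (bd src tgt {v}) x = ε v) :
    (fam.P ε hε).Z (fun z => rl (hv (fun i z => z i) A) z - 1) := by
  have h1 := (fam.P ε hε).z_smul ((1 / 2) * ε v) (fam.bf ε hε {v} (by simpa using hK))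
  refine (fam.P ε hε).z_congr h1 fun z => ?_
  have h2 : epsX ε {v} = ε v := by simp [epsX]
  rw [h2]
  have h3 : rl (hv (fun (i : E) (z : E → Bool) => z i) A) z
      = if A.eval z = true then (1:ℝ) else 0 := rfl
  rw [h3]
  have h4 := chi_mul_self (bd src tgt {v}) z
  have h5 := hε v
  have h6 : (chi (bd src tgt {v}) z - ε v) * (chi (bd src tgt {v}) z + ε v) = 0 := by
    linear_combination h4 - h5
  rcases mul_eq_zero.mp h6 with h7 | h7
  · have h8 : chi (bd src tgt {v}) z = ε v := by linarith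
    rw [if_pos ((hA z).mpr h8), h8]; ring
  · have h8 : chi (bd src tgt {v}) z = - ε v := by linarith
    rw [if_neg, h8]
    · linear_combination (-1 : ℝ) * h5
    · intro h9
      have h10 := (hA z).mp h9
      rw [h8] at h10
      have h11 : ε v = 0 := by linarith
      rw [h11] at h5
      norm_num at h5

end Bottom

section Up

variable {E Wv E' Wv' C : Type} [Fintype E] [DecidableEq E] [Fintype Wv] [DecidableEq Wv]
  [Fintype E'] [DecidableEq E'] [Fintype Wv'] [DecidableEq Wv'] [Fintype C] [DecidableEq C]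
  {src tgt : E → Wv} {src' tgt' : E' → Wv'} {cen : C → Wv' → Wv}
  {lvi : C → E → Finset E'} {D : ℕ}

theorem Asn_nonempty (hconn : Con src tgt) [Nonempty Wv'] {ε : Wv → ℝ}
    (hε : ∀ v, ε v * ε v = 1) (c : C) : (Asn src tgt ε cen c).Nonempty := by
  have h1 := card_Asn (src := src) (tgt := tgt) (cen := cen) (c := c) hconn hε
  rw [← Finset.card_pos]
  by_contra h3
  have h4 : (Asn src tgt ε cen c).card = 0 := by omega
  rw [h4] at h1
  simp only [Nat.cast_zero, mul_zero] at h1
  have : (0:ℝ) < 2 ^ Fintype.card E := by positivity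
  linarith

/-- one stage up -/
noncomputable def PFam.up (fam : PFam src' tgt') (hst : Stg src tgt src' tgt' cen lvi D)
    (hconn : Con src tgt) [Nonempty C] [Nonempty Wv'] (M : ℕ) (hM : D * M ≤ fam.M) :
    PFam src tgt where
  P := fun ε hε =>
    { Dg := Dg
      Z := fun p => ∀ (c : C) (a : E → Bool), a ∈ Asn src tgt ε cen c →
        (fam.P (eN src tgt ε cen c a) (eN_sq hε a)).Z (fun z => p (rs lvi c a z))
      M := M
      dg_mono := fun h hab => Dg_mono h hab
      dg_const := Dg_zero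
      dg_add := by
        intro p q a hp hq T hT
        rw [W_add, hp T hT, hq T hT, add_zero]
      dg_smul := by
        intro p a c hp T hT
        rw [W_smul, hp T hT, mul_zero]
      dg_mul := fun h1 h2 => Dg_mul h1 h2
      z_zero := fun c a _ => (fam.P _ _).z_zero
      z_add := fun hp hq c a ha => (fam.P _ _).z_add (hp c a ha) (hq c a ha)
      z_smul := fun s hp c a ha => (fam.P _ _).z_smul s (hp c a ha)
      z_mul := by
        intro p h a b hp hpa hhb hab c a' ha'
        refine (fam.P _ _).z_mul (a := D * a) (b := D * b) (hp c a' ha')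
          ((fam.dg _ _ _ _).mpr (dg_rs hst.card hpa a'))
          ((fam.dg _ _ _ _).mpr (dg_rs hst.card hhb a')) ?_
        rw [fam.hM, ← Nat.mul_add]
        exact (Nat.mul_le_mul_left _ hab).trans hM
      z_one := by
        intro h
        obtain ⟨c⟩ := ‹Nonempty C›
        obtain ⟨a, ha⟩ := Asn_nonempty (cen := cen) hconn hε c
        exact (fam.P _ _).z_one (h c a ha) }
  M := M
  K := fam.K
  dg := fun _ _ _ _ => Iff.rfl
  hM := fun _ _ => rfl
  bf := by
    intro ε hε O hO c a ha
    have hcard : (cn cen c O).card ≤ fam.K := (card_cn_le (hst.inj c) O).trans hO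
    refine (fam.P _ _).z_congr ((fam.P _ _).z_smul (epsX ε O * epsX (eN src tgt ε cen c a)
      (cn cen c O)) (fam.bf (eN src tgt ε cen c a) (eN_sq hε a) (cn cen c O) hcard)) fun z => ?_
    show _ = chi (bd src tgt O) (rs lvi c a z) - epsX ε O
    rw [chi_rs, hst.path, chi_bd_Asn hε (hst.inj c) ha]
    have h1 := epsX_mul_self (eN_sq (src := src) (tgt := tgt) (cen := cen) (c := c) hε a)
      (cn cen c O)
    linear_combination (-(epsX ε O)) * h1

theorem PFam.up_Z (fam : PFam src' tgt') (hst : Stg src tgt src' tgt' cen lvi D)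
    (hconn : Con src tgt) [Nonempty C] [Nonempty Wv'] (M : ℕ) (hM : D * M ≤ fam.M)
    {ε : Wv → ℝ} (hε : ∀ v, ε v * ε v = 1) {p : (E → Bool) → ℝ}
    (hp : ((fam.up hst hconn M hM).P ε hε).Z p) {c : C} {a : E → Bool}
    (ha : a ∈ Asn src tgt ε cen c) :
    (fam.P (eN src tgt ε cen c a) (eN_sq hε a)).Z (fun z => p (rs lvi c a z)) :=
  hp c a ha

/-- coherent evaluations transfer to the next level -/
theorem ce_down {V : Type} (fam : PFam src' tgt') (hst : Stg src tgt src' tgt' cen lvi D)
    (hconn : Con src tgt) [Nonempty C] [Nonempty Wv'] (M : ℕ) (hM : D * M ≤ fam.M)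
    {ε : Wv → ℝ} (hε : ∀ v, ε v * ε v = 1) (F : V → (E → Bool) → Bool) (k : ℕ)
    {c : C} {a : E → Bool} (ha : a ∈ Asn src tgt ε cen c) (A : Fm V) :
    ∀ {p : (E → Bool) → Bool}, CE ((fam.up hst hconn M hM).P ε hε) F k A p →
      CE (fam.P (eN src tgt ε cen c a) (eN_sq hε a)) (fun v z => F v (rs lvi c a z)) (D * k) A
        (fun z => p (rs lvi c a z)) := by
  have hdg : ∀ {p : (E → Bool) → Bool}, Dg (rl p) k →
      (fam.P (eN src tgt ε cen c a) (eN_sq hε a)).Dg (rl fun z => p (rs lvi c a z)) (D * k) :=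
    fun {p} hp => (fam.dg _ _ _ _).mpr (dg_rs hst.card hp a)
  induction A with
  | var i =>
    intro p h
    exact ⟨hdg h.1, h.2 c a ha⟩
  | neg A ih =>
    intro p h
    obtain ⟨h0, q, hq, h1⟩ := ce_neg_iff.1 h
    exact ⟨hdg h0, _, ih hq, h1 c a ha⟩
  | imp A B ihA ihB =>
    intro p h
    obtain ⟨h0, q, q', hq, hq', h1⟩ := ce_imp_iff.1 h
    exact ⟨hdg h0, _, _, ihA hq, ihB hq', h1 c a ha⟩

end Up

end Pool.Agent.H3.Frg3
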