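import Mathlib
import Pool.Agent.H3.Frg3.Fam
import Pool.Agent.H3.Frg3.Clo3
import Pool.Agent.H3.Frg2.Dual

set_option autoImplicit false
set_option linter.unusedSectionVars false

/-!
# Most restrictions are good for a small formula
-/

namespace Pool.Agent.H3.Frg3

open Finset Pool.Agent.H3.Frg Pool.Agent.H3.Frg2

variable {E Wv E' Wv' C : Type} [Fintype E] [DecidableEq E] [Fintype Wv] [DecidableEq Wv]
  [Fintype E'] [DecidableEq E'] [Fintype Wv'] [DecidableEq Wv'] [Fintype C] [DecidableEq C]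
  {src tgt : E → Wv} {src' tgt' : E' → Wv'} {cen : C → Wv' → Wv}
  {lvi : C → E → Finset E'} {D : ℕ} {ε : Wv → ℝ}

/-- counting pairs -/
theorem card_pairs3 (P : Finset C) (B : C → Finset (E → Bool)) (S : Finset (C × (E → Bool)))
    (hS : ∀ ω ∈ S, ω.1 ∈ P ∧ ω.2 ∈ B ω.1) : S.card ≤ ∑ c ∈ P, (B c).card := by
  classical
  have h1 : S ⊆ P.biUnion fun c => (B c).map ⟨fun a => (c, a), fun a b hab => by
      simpa using hab⟩ := by
    intro ω hω
    obtain ⟨h2, h3⟩ := hS ω hω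
    rw [Finset.mem_biUnion]
    refine ⟨ω.1, h2, ?_⟩
    rw [Finset.mem_map]
    exact ⟨ω.2, h3, rfl⟩
  refine (Finset.card_le_card h1).trans (Finset.card_biUnion_le.trans ?_)
  exact Finset.sum_le_sum fun c _ => by rw [Finset.card_map]

theorem card_Omg : (Omg src tgt ε cen).card = ∑ c : C, (Asn src tgt ε cen c).card := by
  classical
  have h1 : Omg src tgt ε cen = (univ : Finset C).biUnion fun c =>
      (Asn src tgt ε cen c).map ⟨fun a => (c, a), fun a b hab => by simpa using hab⟩ := by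
    ext ω
    rw [Finset.mem_biUnion, mem_Omg]
    constructor
    · intro h
      exact ⟨ω.1, mem_univ _, Finset.mem_map.mpr ⟨ω.2, h, rfl⟩⟩
    · rintro ⟨c, _, h⟩
      obtain ⟨a, ha, rfl⟩ := Finset.mem_map.mp h
      exact ha
  rw [h1, Finset.card_biUnion]
  · exact Finset.sum_congr rfl fun c _ => by rw [Finset.card_map]
  · intro c _ c' _ hne
    rw [Function.onFun, Finset.disjoint_left]
    intro ω h2 h3
    obtain ⟨a, _, rfl⟩ := Finset.mem_map.mp h2
    obtain ⟨a', _, h4⟩ := Finset.mem_map.mp h3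
    exact hne (Prod.ext_iff.mp h4).1.symm

/-- the value of a variable after the restriction -/
def Fr (lvi : C → E → Finset E') (c : C) (a : E → Bool) (v : E) (z : E' → Bool) : Bool :=
  rs lvi c a z v

theorem rl_hv3 (c : C) (a : E → Bool) (A : Fm E) :
    rl (hv (Fr lvi c a) A) = fun z => ind A (rs lvi c a z) := rfl

theorem good_of3 {D' c0 d M K t : ℕ} (hG : SG src' tgt' D' c0) (hx : Expd src' tgt' d)
    (hM : 2 * M ≤ d) (hε : ∀ v, ε v * ε v = 1) (c : C)
    (a : E → Bool) (π : Wv' → Finset E') (X : Finset Wv')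
    (hπ : IsDual src' tgt' π X) (A : Fm E)
    (hA : (uv lvi c A.vars).card ≤ K)
    (hdeg : Dg (rl (GP src tgt src' tgt' ε cen lvi c a π X fun x => A.eval x)) t)
    (hK : 3 * K ≤ Fintype.card Wv') (hd : M + K + D' * K ≤ d) :
    Good (pa d M hx hM (eN src tgt ε cen c a) (eN_sq hε a)) (Fr lvi c a) K t A := by
  have h1 : Dg (rl (hv (Fr lvi c a) A)) K := by
    rw [rl_hv3]
    exact dg_rs_supp (W_ind_supp A) hA a
  refine ⟨h1, GP src tgt src' tgt' ε cen lvi c a π X fun x => A.eval x, hdeg, ?_⟩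
  exact ZZ_proj hG hx (eN_sq hε a) π X hπ (fun z => ind A (rs lvi c a z)) h1 hK hd

theorem bad_bound3 {D' c0 c0' d M K t h : ℕ} (hst : Stg src tgt src' tgt' cen lvi D)
    (hch : ∀ X : Finset Wv, min X.card (Fintype.card Wv - X.card) ≤ c0 * (bd src tgt X).card)
    (hG : SG src' tgt' D' c0') (hx : Expd src' tgt' d)
    (hM : 2 * M ≤ d) (hε : ∀ v, ε v * ε v = 1) [Nonempty C]
    (hW : 3 ≤ Fintype.card Wv') (u η ρ : ℝ) (hu : u = 8 ^ (D' + 1)) (hη : 0 ≤ η)
    (hlip : ∀ (Y : Finset Wv) (T : Finset E) (i : E),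
      Ph src tgt lvi u Y (symmDiff T {i}) ≤ (1 + η) * Ph src tgt lvi u Y T)
    (huv : ∀ S : Finset E, ∑ c : C, u ^ (uv lvi c S).card
      ≤ (1 + η) ^ S.card * (Fintype.card C : ℝ))
    (hcen : ∀ Y : Finset Wv, ∑ c : C, (2:ℝ) ^ (cn cen c Y).card
      ≤ (Fintype.card C : ℝ) * Real.exp ((Y.card : ℝ) / ρ)) (hρ : 0 < ρ)
    (hC0 : 4 * (c0 * (4 * h)) ≤ Fintype.card Wv) (hC0' : 0 < Fintype.card Wv)
    (hC1 : (1 + η) ^ (4 * h) * 2 ^ t ≤ u ^ (K + 1))
    (hC2 : Real.exp ((c0:ℝ) * (4 * h) / ρ) * 2 ^ t ≤ 2 ^ (Fintype.card Wv' / 16 + 1))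
    (hC3 : (1 + η ^ 2 / 4) ^ (4 * h) ≤ 2)
    (hK : 3 * K ≤ Fintype.card Wv') (hd : M + K + D' * K ≤ d)
    (A : Fm E) (hA : A.len ≤ 4 * h) (B : Finset (C × (E → Bool)))
    (hB : ∀ ω ∈ B, ω ∈ Omg src tgt ε cen ∧
      ¬ Good (pa d M hx hM (eN src tgt ε cen ω.1 ω.2) (eN_sq hε ω.2)) (Fr lvi ω.1 ω.2) K t A) :
    (B.card : ℝ) * 2 ^ t ≤ 3 * ((Omg src tgt ε cen).card : ℝ) := by
  classical
  have hu1 : 1 ≤ u := by rw [hu]; exact one_le_pow₀ (by norm_num)
  have hne : Nonempty Wv' := Fintype.card_pos_iff.mp (by omega)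
  have hconn : Con src tgt := con_of_cheeger hch
  -- the closure
  have hS0 : A.vars.card ≤ 4 * h := (card_vars_le A).trans hA
  obtain ⟨Y, -, hYc, hclo⟩ := exists_clos hch A.vars
    ((Nat.mul_le_mul_left _ (Nat.mul_le_mul_left _ hS0)).trans hC0)
  have hYc' : Y.card ≤ c0 * (4 * h) := hYc.trans (Nat.mul_le_mul_left _ hS0)
  have hY : Y ≠ univ := by
    intro h1
    rw [h1, Finset.card_univ] at hYc'
    omega
  -- `α`
  set m := Fintype.card Wv - Fintype.card Wv' with hm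
  set NV : ℝ := (2:ℝ) ^ Fintype.card E with hNV
  set α : ℝ := NV / 2 ^ m with hα
  have hαpos : 0 < α := by rw [hα, hNV]; positivity
  have hAc : ∀ c : C, ((Asn src tgt ε cen c).card : ℝ) = α := by
    intro c
    have h1 := card_Asn (src := src) (tgt := tgt) (cen := cen) (c := c) hconn hε
    have h3 : (nce cen c).card = m := by
      have := card_nce (hst.inj c); omega
    rw [h3] at h1
    rw [hα, eq_div_iff (by positivity), mul_comm]
    exact h1
  set CC : ℝ := (Fintype.card C : ℝ) with hCC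
  have hCCpos : 0 < CC := by rw [hCC]; exact_mod_cast Fintype.card_pos
  have hOm : ((Omg src tgt ε cen).card : ℝ) = CC * α := by
    rw [card_Omg]
    push_cast
    rw [Finset.sum_congr rfl (fun c _ => hAc c), Finset.sum_const, Finset.card_univ,
      nsmul_eq_mul]
  -- the three kinds of bad restrictions
  set P1 : Finset C := univ.filter fun c => K < (uv lvi c A.vars).card with hP1
  set P2 : Finset C := univ.filter fun c => Fintype.card Wv' < 16 * (cn cen c Y).card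
    with hP2
  set P3 : Finset C := univ.filter fun c => 16 * (cn cen c Y).card ≤ Fintype.card Wv'
    with hP3
  have hdual : ∀ c : C, ∃ π : Wv' → Finset E', c ∈ P3 → IsDual src' tgt' π (cn cen c Y) := by
    intro c
    by_cases hc : c ∈ P3
    · obtain ⟨π, h1, h2⟩ := exists_dual hG (cn cen c Y) (Finset.mem_filter.mp hc).2
      exact ⟨π, fun _ => ⟨h1, h2⟩⟩
    · exact ⟨fun _ => ∅, fun h => absurd h hc⟩
  choose πs hπs using hdual
  have hgood : ∀ c ∈ P3, (∃ w1, cen c w1 ∉ Y) ∧ IsDual src' tgt' (πs c) (cn cen c Y) := by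
    intro c hc
    refine ⟨?_, hπs c hc⟩
    by_contra h1
    push Not at h1
    have h2 : cn cen c Y = univ := Finset.eq_univ_of_forall fun w => mem_cn.mpr (h1 w)
    have h3 := (Finset.mem_filter.mp hc).2
    rw [h2, Finset.card_univ] at h3
    omega
  set B3 : C → Finset (E → Bool) := fun c =>
    (Asn src tgt ε cen c).filter fun a => ¬ Dg (rl (GP src tgt src' tgt' ε cen lvi c a (πs c)
      (cn cen c Y) fun x => A.eval x)) t with hB3
  have hcover : B ⊆ (B.filter fun ω => ω.1 ∈ P1) ∪ ((B.filter fun ω => ω.1 ∈ P2) ∪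
      (B.filter fun ω => ω.1 ∈ P3 ∧ ω.2 ∈ B3 ω.1)) := by
    intro ω hω
    obtain ⟨h1, h2⟩ := hB ω hω
    by_cases h3 : ω.1 ∈ P1
    · exact Finset.mem_union_left _ (Finset.mem_filter.mpr ⟨hω, h3⟩)
    by_cases h4 : ω.1 ∈ P2
    · exact Finset.mem_union_right _ (Finset.mem_union_left _
        (Finset.mem_filter.mpr ⟨hω, h4⟩))
    refine Finset.mem_union_right _ (Finset.mem_union_right _ (Finset.mem_filter.mpr ?_))
    have h5 : ω.1 ∈ P3 := by
      rw [hP3, Finset.mem_filter]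
      rw [hP2, Finset.mem_filter] at h4
      push Not at h4
      exact ⟨mem_univ _, h4 (mem_univ _)⟩
    refine ⟨hω, h5, ?_⟩
    rw [hB3, Finset.mem_filter]
    refine ⟨mem_Omg.mp h1, fun h6 => h2 ?_⟩
    rw [hP1, Finset.mem_filter] at h3
    push Not at h3
    exact good_of3 hG hx hM hε ω.1 ω.2 (πs ω.1) (cn cen ω.1 Y) (hgood _ h5).2 A
      (h3 (mem_univ _)) h6 hK hd
  -- first kind
  have hN1 : ((B.filter fun ω => ω.1 ∈ P1).card : ℝ) * 2 ^ t ≤ CC * α := by
    have h1 : ((B.filter fun ω => ω.1 ∈ P1).card : ℝ) ≤ (P1.card : ℝ) * α := by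
      have h2 := card_pairs3 P1 (fun c => Asn src tgt ε cen c) (B.filter fun ω => ω.1 ∈ P1)
        (fun ω hω => by
          rw [Finset.mem_filter] at hω
          exact ⟨hω.2, mem_Omg.mp (hB ω hω.1).1⟩)
      calc ((B.filter fun ω => ω.1 ∈ P1).card : ℝ)
          ≤ ((∑ c ∈ P1, (Asn src tgt ε cen c).card : ℕ) : ℝ) := by exact_mod_cast h2
        _ = (P1.card : ℝ) * α := by
            push_cast
            rw [Finset.sum_congr rfl (fun c _ => hAc c), Finset.sum_const, nsmul_eq_mul]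
    have h3 : (P1.card : ℝ) * u ^ (K + 1) ≤ (1 + η) ^ (4 * h) * CC := by
      calc (P1.card : ℝ) * u ^ (K + 1) = ∑ c ∈ P1, u ^ (K + 1) := by
            rw [Finset.sum_const, nsmul_eq_mul]
        _ ≤ ∑ c ∈ P1, u ^ (uv lvi c A.vars).card := by
            refine Finset.sum_le_sum fun c hc => ?_
            exact pow_le_pow_right₀ hu1 (Finset.mem_filter.mp hc).2
        _ ≤ ∑ c : C, u ^ (uv lvi c A.vars).card :=
            Finset.sum_le_sum_of_subset_of_nonneg (Finset.subset_univ _)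
              fun c _ _ => by positivity
        _ ≤ (1 + η) ^ A.vars.card * CC := huv A.vars
        _ ≤ _ := mul_le_mul_of_nonneg_right (pow_le_pow_right₀ (by linarith) hS0) hCCpos.le
    have h4 : (P1.card : ℝ) * 2 ^ t ≤ CC := by
      have hup : 0 < u ^ (K + 1) := by positivity
      refine le_of_mul_le_mul_left ?_ hup
      calc u ^ (K + 1) * ((P1.card : ℝ) * 2 ^ t) = ((P1.card : ℝ) * u ^ (K + 1)) * 2 ^ t := by
            ring
        _ ≤ ((1 + η) ^ (4 * h) * CC) * 2 ^ t :=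
            mul_le_mul_of_nonneg_right h3 (by positivity)
        _ = ((1 + η) ^ (4 * h) * 2 ^ t) * CC := by ring
        _ ≤ _ := mul_le_mul_of_nonneg_right hC1 hCCpos.le
    calc ((B.filter fun ω => ω.1 ∈ P1).card : ℝ) * 2 ^ t ≤ ((P1.card : ℝ) * α) * 2 ^ t :=
          mul_le_mul_of_nonneg_right h1 (by positivity)
      _ = ((P1.card : ℝ) * 2 ^ t) * α := by ring
      _ ≤ _ := mul_le_mul_of_nonneg_right h4 hαpos.le
  -- second kind
  have hN2 : ((B.filter fun ω => ω.1 ∈ P2).card : ℝ) * 2 ^ t ≤ CC * α := by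
    have h1 : ((B.filter fun ω => ω.1 ∈ P2).card : ℝ) ≤ (P2.card : ℝ) * α := by
      have h2 := card_pairs3 P2 (fun c => Asn src tgt ε cen c) (B.filter fun ω => ω.1 ∈ P2)
        (fun ω hω => by
          rw [Finset.mem_filter] at hω
          exact ⟨hω.2, mem_Omg.mp (hB ω hω.1).1⟩)
      calc ((B.filter fun ω => ω.1 ∈ P2).card : ℝ)
          ≤ ((∑ c ∈ P2, (Asn src tgt ε cen c).card : ℕ) : ℝ) := by exact_mod_cast h2
        _ = (P2.card : ℝ) * α := by
            push_cast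
            rw [Finset.sum_congr rfl (fun c _ => hAc c), Finset.sum_const, nsmul_eq_mul]
    have h3 : (P2.card : ℝ) * 2 ^ (Fintype.card Wv' / 16 + 1)
        ≤ CC * Real.exp ((c0:ℝ) * (4 * h) / ρ) := by
      calc (P2.card : ℝ) * 2 ^ (Fintype.card Wv' / 16 + 1)
          = ∑ c ∈ P2, (2:ℝ) ^ (Fintype.card Wv' / 16 + 1) := by
            rw [Finset.sum_const, nsmul_eq_mul]
        _ ≤ ∑ c ∈ P2, (2:ℝ) ^ (cn cen c Y).card := by
            refine Finset.sum_le_sum fun c hc => ?_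
            have h5 := (Finset.mem_filter.mp hc).2
            exact pow_le_pow_right₀ (by norm_num) (by omega)
        _ ≤ ∑ c : C, (2:ℝ) ^ (cn cen c Y).card :=
            Finset.sum_le_sum_of_subset_of_nonneg (Finset.subset_univ _)
              fun c _ _ => by positivity
        _ ≤ CC * Real.exp ((Y.card : ℝ) / ρ) := hcen Y
        _ ≤ _ := by
            refine mul_le_mul_of_nonneg_left (Real.exp_le_exp.mpr ?_) hCCpos.le
            refine div_le_div_of_nonneg_right ?_ hρ.le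
            exact_mod_cast hYc'
    have h4 : (P2.card : ℝ) * 2 ^ t ≤ CC := by
      have hup : (0:ℝ) < 2 ^ (Fintype.card Wv' / 16 + 1) := by positivity
      refine le_of_mul_le_mul_left ?_ hup
      calc (2:ℝ) ^ (Fintype.card Wv' / 16 + 1) * ((P2.card : ℝ) * 2 ^ t)
          = ((P2.card : ℝ) * 2 ^ (Fintype.card Wv' / 16 + 1)) * 2 ^ t := by ring
        _ ≤ (CC * Real.exp ((c0:ℝ) * (4 * h) / ρ)) * 2 ^ t :=
            mul_le_mul_of_nonneg_right h3 (by positivity)
        _ = (Real.exp ((c0:ℝ) * (4 * h) / ρ) * 2 ^ t) * CC := by ring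
        _ ≤ _ := mul_le_mul_of_nonneg_right hC2 hCCpos.le
    calc ((B.filter fun ω => ω.1 ∈ P2).card : ℝ) * 2 ^ t ≤ ((P2.card : ℝ) * α) * 2 ^ t :=
          mul_le_mul_of_nonneg_right h1 (by positivity)
      _ = ((P2.card : ℝ) * 2 ^ t) * α := by ring
      _ ≤ _ := mul_le_mul_of_nonneg_right h4 hαpos.le
  -- third kind
  have hN3 : ((B.filter fun ω => ω.1 ∈ P3 ∧ ω.2 ∈ B3 ω.1).card : ℝ) * 2 ^ t ≤ CC * α := by
    have h1 : ((B.filter fun ω => ω.1 ∈ P3 ∧ ω.2 ∈ B3 ω.1).card : ℝ)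
        ≤ ∑ c ∈ P3, ((B3 c).card : ℝ) := by
      have h2 := card_pairs3 P3 B3 (B.filter fun ω => ω.1 ∈ P3 ∧ ω.2 ∈ B3 ω.1)
        (fun ω hω => (Finset.mem_filter.mp hω).2)
      exact_mod_cast h2
    have hleaf : (1 + η ^ 2 / 4) ^ A.leaves ≤ 2 := by
      refine le_trans ?_ hC3
      exact pow_le_pow_right₀ (by nlinarith [sq_nonneg η]) ((leaves_le_len A).trans hA)
    have hsp : NP (Ph src tgt lvi u Y) (fun x => rl (fun x => A.eval x) x * phY src tgt ε Y x)
        ≤ 2 * NP (Ph src tgt lvi u Y) (phY src tgt ε Y) := by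
      have h6 := weighted_moment (fun S => Ph_pos (src := src) (tgt := tgt) (lvi := lvi) hu1 Y S)
        hη (fun S i => hlip Y S i) A (phY src tgt ε Y)
      refine le_trans h6 ?_
      refine mul_le_mul_of_nonneg_right hleaf ?_
      exact NP_nonneg (fun S => Ph_pos (src := src) (tgt := tgt) (lvi := lvi) hu1 Y S) _
    have hmain := main_moment3 hst hconn hG.deg hε hY hclo P3 πs hgood (fun x => A.eval x)
      (W_ind_supp A) 8 u 2 (by norm_num) hu hsp
    have h2 : (2:ℝ) ^ (t + 1) * 4 ^ Fintype.card E' * ∑ c ∈ P3, ((B3 c).card : ℝ)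
        ≤ ∑ c ∈ P3, ∑ a ∈ Asn src tgt ε cen c, ∑ R : Finset E', 8 ^ R.card *
          W (rl (GP src tgt src' tgt' ε cen lvi c a (πs c) (cn cen c Y) fun x => A.eval x)) R
            ^ 2 := by
      rw [Finset.mul_sum]
      refine Finset.sum_le_sum fun c _ => ?_
      calc (2:ℝ) ^ (t + 1) * 4 ^ Fintype.card E' * ((B3 c).card : ℝ)
          = ∑ a ∈ B3 c, (2:ℝ) ^ (t + 1) * 4 ^ Fintype.card E' := by
            rw [Finset.sum_const, nsmul_eq_mul]; ring
        _ ≤ ∑ a ∈ B3 c, ∑ R : Finset E', 8 ^ R.card *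
            W (rl (GP src tgt src' tgt' ε cen lvi c a (πs c) (cn cen c Y) fun x => A.eval x)) R
              ^ 2 := by
            refine Finset.sum_le_sum fun a ha => ?_
            exact gran_moment _ t (Finset.mem_filter.mp ha).2
        _ ≤ _ := Finset.sum_le_sum_of_subset_of_nonneg (Finset.filter_subset _ _)
            fun a _ _ => Finset.sum_nonneg fun R _ => by positivity
    have h3 : (2:ℝ) ^ m * ((2:ℝ) ^ (t + 1) * 4 ^ Fintype.card E' *
        ∑ c ∈ P3, ((B3 c).card : ℝ))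
        ≤ (4:ℝ) ^ Fintype.card E' * NV * 2 * CC := by
      calc (2:ℝ) ^ m * ((2:ℝ) ^ (t + 1) * 4 ^ Fintype.card E' * ∑ c ∈ P3, ((B3 c).card : ℝ))
          ≤ (2:ℝ) ^ m * ∑ c ∈ P3, ∑ a ∈ Asn src tgt ε cen c, ∑ R : Finset E', 8 ^ R.card *
            W (rl (GP src tgt src' tgt' ε cen lvi c a (πs c) (cn cen c Y) fun x => A.eval x)) R
              ^ 2 :=
            mul_le_mul_of_nonneg_left h2 (by positivity)
        _ ≤ _ := hmain
    have h4 : (∑ c ∈ P3, ((B3 c).card : ℝ)) * 2 ^ t ≤ CC * α := by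
      have hfac : (0:ℝ) < 2 ^ m * (2 * 4 ^ Fintype.card E') := by positivity
      refine le_of_mul_le_mul_left ?_ hfac
      calc (2:ℝ) ^ m * (2 * 4 ^ Fintype.card E') * ((∑ c ∈ P3, ((B3 c).card : ℝ)) * 2 ^ t)
          = (2:ℝ) ^ m * ((2:ℝ) ^ (t + 1) * 4 ^ Fintype.card E' *
            ∑ c ∈ P3, ((B3 c).card : ℝ)) := by rw [pow_succ]; ring
        _ ≤ (4:ℝ) ^ Fintype.card E' * NV * 2 * CC := h3
        _ = _ := by
            rw [hα]
            field_simp
    exact (mul_le_mul_of_nonneg_right h1 (by positivity)).trans h4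
  -- conclusion
  have hfin : (B.card : ℝ) ≤ ((B.filter fun ω => ω.1 ∈ P1).card : ℝ) +
      (((B.filter fun ω => ω.1 ∈ P2).card : ℝ) +
      ((B.filter fun ω => ω.1 ∈ P3 ∧ ω.2 ∈ B3 ω.1).card : ℝ)) := by
    have h1 := (Finset.card_le_card hcover).trans ((Finset.card_union_le _ _).trans
      (Nat.add_le_add_left (Finset.card_union_le _ _) _))
    exact_mod_cast h1
  have h2t : (0:ℝ) < 2 ^ t := by positivity
  rw [hOm]
  calc (B.card : ℝ) * 2 ^ t ≤ (((B.filter fun ω => ω.1 ∈ P1).card : ℝ) +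
      (((B.filter fun ω => ω.1 ∈ P2).card : ℝ) +
      ((B.filter fun ω => ω.1 ∈ P3 ∧ ω.2 ∈ B3 ω.1).card : ℝ))) * 2 ^ t :=
        mul_le_mul_of_nonneg_right hfin h2t.le
    _ = ((B.filter fun ω => ω.1 ∈ P1).card : ℝ) * 2 ^ t +
        (((B.filter fun ω => ω.1 ∈ P2).card : ℝ) * 2 ^ t +
        ((B.filter fun ω => ω.1 ∈ P3 ∧ ω.2 ∈ B3 ω.1).card : ℝ) * 2 ^ t) := by ring
    _ ≤ _ := by linarith

end Pool.Agent.H3.Frg3
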