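import Mathlib
import Pool.Agent.H3.Frg3.Count3
import Pool.Agent.H3.Frg2.Eval
import Pool.Agent.H3.Frg2.Decomp

set_option autoImplicit false
set_option linter.unusedSectionVars false

/-!
# The lower bound for one stage
-/

namespace Pool.Agent.H3.Frg3

open Finset Pool.Agent.H3.Frg Pool.Agent.H3.Frg2

variable {E Wv E' Wv' C : Type} [Fintype E] [DecidableEq E] [Fintype Wv] [DecidableEq Wv]
  [Fintype E'] [DecidableEq E'] [Fintype Wv'] [DecidableEq Wv'] [Fintype C] [DecidableEq C]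
  {src tgt : E → Wv} {src' tgt' : E' → Wv'} {cen : C → Wv' → Wv}
  {lvi : C → E → Finset E'} {D : ℕ} {ε : Wv → ℝ}

theorem Omg_nonempty (hconn : Con src tgt) [Nonempty Wv'] [Nonempty C]
    (hε : ∀ v, ε v * ε v = 1) : (Omg src tgt ε cen).Nonempty := by
  obtain ⟨c⟩ := ‹Nonempty C›
  obtain ⟨a, ha⟩ := Asn_nonempty (cen := cen) hconn hε c
  exact ⟨(c, a), mem_Omg.mpr ha⟩

/-- a union bound -/
theorem exists_omega {ι : Type} [Fintype ι] [DecidableEq ι] {Ω : Type} [DecidableEq Ω]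
    (S : Finset Ω) (hS : S.Nonempty) (bad : ι → Finset Ω) (x : ℝ)
    (hbad : ∀ i, ((bad i).card : ℝ) * x ≤ (S.card : ℝ)) (hx : (Fintype.card ι : ℝ) < x) :
    ∃ ω ∈ S, ∀ i, ω ∉ bad i := by
  by_contra hcon
  push Not at hcon
  have h1 : S ⊆ (univ : Finset ι).biUnion bad := by
    intro ω hω
    obtain ⟨i, hi⟩ := hcon ω hω
    exact Finset.mem_biUnion.mpr ⟨i, mem_univ _, hi⟩
  have hx0 : 0 < x := lt_of_le_of_lt (by positivity) hx
  have h2 : (S.card : ℝ) * x ≤ (Fintype.card ι : ℝ) * (S.card : ℝ) := by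
    calc (S.card : ℝ) * x ≤ (∑ i, ((bad i).card : ℝ)) * x := by
          refine mul_le_mul_of_nonneg_right ?_ hx0.le
          exact_mod_cast (Finset.card_le_card h1).trans Finset.card_biUnion_le
      _ = ∑ i, ((bad i).card : ℝ) * x := by rw [Finset.sum_mul]
      _ ≤ ∑ _i : ι, (S.card : ℝ) := Finset.sum_le_sum fun i _ => hbad i
      _ = _ := by rw [Finset.sum_const, nsmul_eq_mul, Finset.card_univ]
  have h3 : (0:ℝ) < (S.card : ℝ) := by exact_mod_cast Finset.card_pos.mpr hS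
  nlinarith

theorem exists_restriction3 {D' c0 c0' d M K t h : ℕ} (hst : Stg src tgt src' tgt' cen lvi D)
    (hch : ∀ X : Finset Wv, min X.card (Fintype.card Wv - X.card) ≤ c0 * (bd src tgt X).card)
    (hG : SG src' tgt' D' c0') (hx : Expd src' tgt' d)
    (hM : 2 * M ≤ d) (hε : ∀ v, ε v * ε v = 1) [Nonempty C]
    (hW : 3 ≤ Fintype.card Wv') (u η ρ : ℝ) (hu : u = 8 ^ (D' + 1)) (hη : 0 ≤ η)
    (hlip : ∀ (Y : Finset Wv) (T : Finset E) (i : E),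
      Ph src tgt lvi u Y (symmDiff T {i}) ≤ (1 + η) * Ph src tgt lvi u Y T)
    (huv : ∀ S : Finset E, ∑ c : C, u ^ (uv lvi c S).card
      ≤ (1 + η) ^ S.card * (Fintype.card C : ℝ))
    (hcen : ∀ Y : Finset Wv, ∑ c : C, (2:ℝ) ^ (cn cen c Y).card
      ≤ (Fintype.card C : ℝ) * Real.exp ((Y.card : ℝ) / ρ)) (hρ : 0 < ρ)
    (hC0 : 4 * (c0 * (4 * h)) ≤ Fintype.card Wv) (hC0' : 0 < Fintype.card Wv)
    (hC1 : (1 + η) ^ (4 * h) * 2 ^ t ≤ u ^ (K + 1))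
    (hC2 : Real.exp ((c0:ℝ) * (4 * h) / ρ) * 2 ^ t ≤ 2 ^ (Fintype.card Wv' / 16 + 1))
    (hC3 : (1 + η ^ 2 / 4) ^ (4 * h) ≤ 2)
    (hK : 3 * K ≤ Fintype.card Wv') (hd : M + K + D' * K ≤ d)
    (v0 : E) {L s : ℕ} (pf : Fin L → Fm E)
    (hs : ∀ i, (pf i).len ≤ s) (hL : 9 * L * s ^ 2 < 2 ^ t) :
    ∃ ω ∈ Omg src tgt ε cen, ∀ i, ∀ B ∈ allInst v0 (pf i), B.len ≤ 4 * h →
      Good (pa d M hx hM (eN src tgt ε cen ω.1 ω.2) (eN_sq hε ω.2)) (Fr lvi ω.1 ω.2) K t B := by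
  classical
  have hne : Nonempty Wv' := Fintype.card_pos_iff.mp (by omega)
  have hconn : Con src tgt := con_of_cheeger hch
  let ι := (i : Fin L) × Fin (allInst v0 (pf i)).length
  let Bf : ι → Fm E := fun x => (allInst v0 (pf x.1))[x.2]
  let bad : ι → Finset (C × (E → Bool)) := fun x =>
    (Omg src tgt ε cen).filter fun ω => (Bf x).len ≤ 4 * h ∧
      ¬ Good (pa d M hx hM (eN src tgt ε cen ω.1 ω.2) (eN_sq hε ω.2))
        (Fr lvi ω.1 ω.2) K t (Bf x)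
  have h3 : Fintype.card ι ≤ L * (3 * s ^ 2) := by
    have h4 : Fintype.card ι = ∑ i : Fin L, (allInst v0 (pf i)).length := by
      rw [Fintype.card_sigma]
      simp
    rw [h4]
    calc ∑ i : Fin L, (allInst v0 (pf i)).length ≤ ∑ _i : Fin L, 3 * s ^ 2 := by
          refine Finset.sum_le_sum fun i _ => ?_
          refine (length_allInst v0 (pf i)).trans ?_
          exact Nat.mul_le_mul_left _ (Nat.pow_le_pow_left (hs i) 2)
      _ = L * (3 * s ^ 2) := by simp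
  have h5 : (Fintype.card ι : ℝ) < 2 ^ t / 3 := by
    have h6 : (9 * L * s ^ 2 : ℝ) < 2 ^ t := by exact_mod_cast hL
    have h7 : (Fintype.card ι : ℝ) ≤ L * (3 * (s:ℝ) ^ 2) := by exact_mod_cast h3
    linarith
  obtain ⟨ω, hω, hnb⟩ := exists_omega (Omg src tgt ε cen) (Omg_nonempty hconn hε) bad
    (2 ^ t / 3) (fun x => by
      by_cases hx' : (Bf x).len ≤ 4 * h
      · have h8 := bad_bound3 hst hch hG hx hM hε hW u η ρ hu hη hlip huv hcen hρ hC0 hC0' hC1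
          hC2 hC3 hK hd (Bf x) hx' (bad x) fun ω hω => by
            have h3 := Finset.mem_filter.mp hω
            exact ⟨h3.1, h3.2.2⟩
        linarith
      · have h3 : bad x = ∅ := by
          refine Finset.eq_empty_of_forall_notMem fun ω hω => ?_
          exact hx' (Finset.mem_filter.mp hω).2.1
        rw [h3, Finset.card_empty, Nat.cast_zero, zero_mul]
        positivity) h5
  refine ⟨ω, hω, fun i B hB hlen => ?_⟩
  obtain ⟨j, hj, hjB⟩ := List.mem_iff_getElem.mp hB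
  have h9 := hnb ⟨i, ⟨j, hj⟩⟩
  have h10 : Bf ⟨i, ⟨j, hj⟩⟩ = B := hjB
  by_contra hcon
  apply h9
  refine Finset.mem_filter.mpr ⟨hω, ?_⟩
  rw [h10]
  exact ⟨hlen, hcon⟩

/-- **Lower bound for one stage.** -/
theorem lower3 {D' c0 c0' d M K t h k ℓ : ℕ} (hst : Stg src tgt src' tgt' cen lvi D)
    (hch : ∀ X : Finset Wv, min X.card (Fintype.card Wv - X.card) ≤ c0 * (bd src tgt X).card)
    (hG : SG src' tgt' D' c0') (hx : Expd src' tgt' d)
    (hM : 2 * M ≤ d) (hε : ∀ v, ε v * ε v = 1) [Nonempty C]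
    (hW : 3 ≤ Fintype.card Wv') (u η ρ : ℝ) (hu : u = 8 ^ (D' + 1)) (hη : 0 ≤ η)
    (hlip : ∀ (Y : Finset Wv) (T : Finset E) (i : E),
      Ph src tgt lvi u Y (symmDiff T {i}) ≤ (1 + η) * Ph src tgt lvi u Y T)
    (huv : ∀ S : Finset E, ∑ c : C, u ^ (uv lvi c S).card
      ≤ (1 + η) ^ S.card * (Fintype.card C : ℝ))
    (hcen : ∀ Y : Finset Wv, ∑ c : C, (2:ℝ) ^ (cn cen c Y).card
      ≤ (Fintype.card C : ℝ) * Real.exp ((Y.card : ℝ) / ρ)) (hρ : 0 < ρ)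
    (hC0 : 4 * (c0 * (4 * h)) ≤ Fintype.card Wv) (hC0' : 0 < Fintype.card Wv)
    (hC1 : (1 + η) ^ (4 * h) * 2 ^ t ≤ u ^ (K + 1))
    (hC2 : Real.exp ((c0:ℝ) * (4 * h) / ρ) * 2 ^ t ≤ 2 ^ (Fintype.card Wv' / 16 + 1))
    (hC3 : (1 + η ^ 2 / 4) ^ (4 * h) ≤ 2)
    (hK : 3 * K ≤ Fintype.card Wv') (hd : M + K + D' * K ≤ d)
    (hh : 4 ≤ h) (htk : t ≤ k) (hk : 1 ≤ k) (hkM : 20 * (k + K) ≤ M)
    (hkM' : 10 * (ℓ + 2) * (k + K) ≤ M) (hK1 : 1 ≤ K)
    {Sch : Set (Fm ℕ)} (htaut : ∀ ψ ∈ Sch, ∀ x : ℕ → Bool, ψ.eval x = true)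
    (hlen : ∀ ψ ∈ Sch, ψ.len ≤ ℓ)
    (v0 : E) {L s : ℕ} (hsize : t * (h + 2 * s) ≤ h * k)
    (pf : Fin L → Fm E) (hpf : IsProof Sch pf)
    (hs : ∀ i, (pf i).len ≤ s) (hL : 9 * L * s ^ 2 < 2 ^ t)
    (As : List (Fm E))
    (hAs : ∀ A ∈ As, D * A.vars.card ≤ K ∧ ∃ v : Wv,
      ∀ x, A.eval x = true ↔ chi (bd src tgt {v}) x = ε v)
    (hfin : ∃ i, pf i = As.foldr Fm.imp (bot v0)) : False := by
  have hne : Nonempty Wv' := Fintype.card_pos_iff.mp (by omega)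
  have hconn : Con src tgt := con_of_cheeger hch
  obtain ⟨ω, hω, hgood⟩ := exists_restriction3 hst hch hG hx hM hε hW u η ρ hu hη hlip huv hcen
    hρ hC0 hC0' hC1 hC2 hC3 hK hd v0 pf hs hL
  have hac := mem_Omg.mp hω
  have hDK : D' ≤ D' * K := Nat.le_mul_of_pos_right _ hK1
  let fam : PFam src' tgt' := PFam.bottom d M 1 hx hM (by omega) (fun O hO => by
    have h1 := card_bd_le3 hG.deg O
    have h2 : D' * O.card ≤ D' * 1 := Nat.mul_le_mul_left _ hO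
    omega)
  refine no_proof (pa d M hx hM (eN src tgt ε cen ω.1 ω.2) (eN_sq hε ω.2))
    (Fr lvi ω.1 ω.2) k K ℓ hk hkM' Sch htaut hlen pf hpf (fun i => ?_) v0 As
    (fun A hA => ?_) hfin
  · refine exists_ce _ _ k K t h hh htk hkM v0 (pf i) ?_ (hgood i)
    refine le_trans ?_ hsize
    have := hs i
    exact Nat.mul_le_mul_left _ (by omega)
  · obtain ⟨hv, v, hev⟩ := hAs A hA
    refine ⟨fun B hB => ?_, ?_⟩
    · have h1 : (uv lvi ω.1 B.vars).card ≤ K := by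
        refine (card_uv_le hst.card _).trans (le_trans ?_ hv)
        exact Nat.mul_le_mul_left _ (Finset.card_le_card (vars_subs A B hB))
      show Dg _ K
      rw [rl_hv3]
      exact dg_rs_supp (W_ind_supp B) h1 ω.2
    · exact PFam.up_Z fam hst hconn 0 (by omega) hε
        (PFam.ax (fam.up hst hconn 0 (by omega)) hε (le_refl 1) v A hev) hac

end Pool.Agent.H3.Frg3
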