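import Mathlib
import Pool.Agent.H3.Frg3.Defs

set_option autoImplicit false
set_option linter.unusedSectionVars false

/-!
# Module NET: the butterfly blow-up is a stage

`net_stg` has three parts.

* `inj`: `ncen c w = (w, 0, c.1 w)`, clear.
* `card`: `nlvi` of `inl v` is a singleton or empty, of `inr (inr _)` empty, and of
  `inr (inl (w, l, x, b))` it is contained in `bd src' tgt' {w}` (no loops: `e` is in
  `bd src' tgt' {w}` iff `src' e = w ∨ tgt' e = w`).
* `path`: let `S = bd (nsrc src' rsrc) (ntgt tgt' rtgt) X` and `e : E'`, `w1 = src' e`,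
  `w2 = tgt' e`, `w1 ≠ w2`, `y = c.2 e`. The variables `i` with `e ∈ nlvi R src' tgt' c i` are
  the `2 k + 1` different variables
  `inr (inl (w, l, mix l y (c.1 w), y l))` for `w = w1, w2`, `l : Fin k`, and `inl (e, y)`.
  Put `p w l = (w, l, mix l y (c.1 w))` for `l = 0, …, k`; then `p w 0 = ncen c w` (`mix 0 y α = α`),
  `p w k = (w, Fin.last k, y)`, the variable `inr (inl (w, l, mix l y (c.1 w), y l))` joins
  `p w l` and `p w (l+1)` because `Function.update (mix l y α) l (y l) = mix (l+1) y α`, and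
  `inl (e, y)` joins `p w1 k` and `p w2 k`. With `[v] = 1` if `v ∈ X` and `0` otherwise (in `ZMod 2`)
  the number of these variables in `S` is, modulo 2 (telescoping, `mem_bd`: `i ∈ bd X` iff the
  values of the two ends are different, i.e. their sum is `1`),
  `([p w1 0] + [p w1 k]) + ([p w1 k] + [p w2 k]) + ([p w2 k] + [p w2 0]) = [ncen c w1] + [ncen c w2]`,
  so it is odd iff `e ∈ bd src' tgt' (cn ncen c X)`.
  A convenient way: write `(S.filter fun i => e ∈ nlvi R src' tgt' c i).card` (cast to `ZMod 2`) as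
  `∑ i, if e ∈ nlvi … i then (if i ∈ S then 1 else 0) else 0`, split the sum over the sum type
  (`Fintype.sum_sum_type`, `Fintype.sum_prod_type`), and prove
  `∑ l : Fin k, ([p w l.castSucc] + [p w l.succ]) = [p w 0] + [p w k]` by `Fin.sum_univ` telescoping
  (`Finset.sum_range_sub` style, or induction on `m ≤ k` for partial sums; signs do not matter in
  `ZMod 2`).
-/

namespace Pool.Agent.H3.Frg3

open Finset Pool.Agent.H3.Frg Pool.Agent.H3.Frg2

variable {E' Wv' R : Type} [Fintype E'] [DecidableEq E'] [Fintype Wv'] [DecidableEq Wv']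
  [Fintype R] [DecidableEq R] {k : ℕ}

/-- indicator in `ZMod 2` -/
def ind2 {α : Type} [DecidableEq α] (X : Finset α) (v : α) : ZMod 2 := if v ∈ X then 1 else 0

theorem two_eq_zero2 (a : ZMod 2) : a + a = 0 := by
  revert a; decide

theorem ind2_bd {E Wv : Type} [Fintype E] [DecidableEq E] [Fintype Wv] [DecidableEq Wv] (src tgt : E → Wv)
    (X : Finset Wv) (i : E) :
    (if i ∈ bd src tgt X then (1 : ZMod 2) else 0) = ind2 X (src i) + ind2 X (tgt i) := by
  have hm := mem_bd (src := src) (tgt := tgt) (X := X) (e := i)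
  unfold ind2
  by_cases h1 : src i ∈ X
  · by_cases h2 : tgt i ∈ X
    · have h3 : ¬ i ∈ bd src tgt X := by rw [hm]; tauto
      rw [if_neg h3, if_pos h1, if_pos h2]; decide
    · have h3 : i ∈ bd src tgt X := by rw [hm]; tauto
      rw [if_pos h3, if_pos h1, if_neg h2]; decide
  · by_cases h2 : tgt i ∈ X
    · have h3 : i ∈ bd src tgt X := by rw [hm]; tauto
      rw [if_pos h3, if_neg h1, if_pos h2]; decide
    · have h3 : ¬ i ∈ bd src tgt X := by rw [hm]; tauto
      rw [if_neg h3, if_neg h1, if_neg h2]; decide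

theorem mix_zero (y α : Al k) : mix 0 y α = α := by
  funext j; simp [mix]

theorem mix_top (y α : Al k) : mix k y α = y := by
  funext j; simp [mix]

theorem mix_update (l : Fin k) (y α : Al k) :
    Function.update (mix (l : ℕ) y α) l (y l) = mix ((l : ℕ) + 1) y α := by
  funext j
  by_cases h : j = l
  · subst h; simp [mix]
  · rw [Function.update_of_ne h]
    unfold mix
    have h' : (j : ℕ) ≠ (l : ℕ) := fun hh => h (Fin.ext hh)
    by_cases h2 : (j : ℕ) < (l : ℕ)
    · rw [if_pos h2, if_pos (by omega)]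
    · rw [if_neg h2, if_neg (by omega)]

theorem telescope2 (p : ℕ → ZMod 2) (n : ℕ) :
    ∑ l ∈ Finset.range n, (p l + p (l + 1)) = p 0 + p n := by
  induction n with
  | zero => simp [two_eq_zero2]
  | succ n ih =>
    rw [Finset.sum_range_succ, ih]
    have := two_eq_zero2 (p n)
    linear_combination this

theorem sum_path (X : Finset (NV Wv' k)) (w : Wv') (y α : Al k) :
    ∑ l : Fin k, (ind2 X (w, l.castSucc, mix (l : ℕ) y α) +
      ind2 X (w, l.succ, mix ((l : ℕ) + 1) y α)) =
    ind2 X (w, 0, α) + ind2 X (w, Fin.last k, y) := by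
  have h := telescope2 (fun l => ind2 X (w, Fin.ofNat (k + 1) l, mix l y α)) k
  rw [Finset.sum_range] at h
  simp only [mix_zero, mix_top] at h
  have e1 : (Fin.ofNat (k + 1) 0) = (0 : Fin (k + 1)) := rfl
  have e2 : (Fin.ofNat (k + 1) k) = Fin.last k := by
    ext; simp [Fin.ofNat]
  rw [e1, e2] at h
  rw [← h]
  apply Finset.sum_congr rfl
  intro l _
  have e3 : (Fin.ofNat (k + 1) (l : ℕ)) = l.castSucc := by
    ext; simp [Fin.ofNat, Nat.mod_eq_of_lt (show (l : ℕ) < k + 1 by omega)]
  have e4 : (Fin.ofNat (k + 1) ((l : ℕ) + 1)) = l.succ := by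
    ext; simp [Fin.ofNat]
  rw [e3, e4]

theorem part1 (X : Finset (NV Wv' k)) (src' tgt' : E' → Wv') (c : Ch E' Wv' k) (e : E') :
    ∑ v : E' × Al k, (if e ∈ (if c.2 v.1 = v.2 then ({v.1} : Finset E') else ∅) then
      (ind2 X (src' v.1, Fin.last k, v.2) + ind2 X (tgt' v.1, Fin.last k, v.2)) else 0) =
    ind2 X (src' e, Fin.last k, c.2 e) + ind2 X (tgt' e, Fin.last k, c.2 e) := by
  rw [Finset.sum_eq_single (e, c.2 e)]
  · simp
  · intro v _ hv
    rw [if_neg]
    intro h
    apply hv
    by_cases h1 : c.2 v.1 = v.2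
    · rw [if_pos h1] at h
      have h2 := Finset.mem_singleton.1 h
      rw [h2, h1]
    · rw [if_neg h1] at h
      simp at h
  · intro h; simp at h

theorem part2 (X : Finset (NV Wv' k)) {src' tgt' : E' → Wv'} (hloop : ∀ e, src' e ≠ tgt' e)
    (c : Ch E' Wv' k) (e : E') :
    ∑ v : Wv' × Fin k × Al k × Bool,
      (if ((src' e = v.1 ∨ tgt' e = v.1) ∧
        mix (v.2.1 : ℕ) (c.2 e) (c.1 v.1) = v.2.2.1 ∧ c.2 e v.2.1 = v.2.2.2) then
      (ind2 X (v.1, v.2.1.castSucc, v.2.2.1) +
        ind2 X (v.1, v.2.1.succ, Function.update v.2.2.1 v.2.1 v.2.2.2)) else 0) =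
    (ind2 X (src' e, 0, c.1 (src' e)) + ind2 X (src' e, Fin.last k, c.2 e)) +
    (ind2 X (tgt' e, 0, c.1 (tgt' e)) + ind2 X (tgt' e, Fin.last k, c.2 e)) := by
  have key : ∀ w : Wv', ∑ v : Fin k × Al k × Bool,
      (if ((src' e = w ∨ tgt' e = w) ∧
        mix (v.1 : ℕ) (c.2 e) (c.1 w) = v.2.1 ∧ c.2 e v.1 = v.2.2) then
      (ind2 X (w, v.1.castSucc, v.2.1) +
        ind2 X (w, v.1.succ, Function.update v.2.1 v.1 v.2.2)) else 0) =
      if (src' e = w ∨ tgt' e = w) then
        (ind2 X (w, 0, c.1 w) + ind2 X (w, Fin.last k, c.2 e)) else 0 := by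
    intro w
    by_cases hw : src' e = w ∨ tgt' e = w
    · rw [if_pos hw, ← sum_path, Fintype.sum_prod_type]
      apply Finset.sum_congr rfl
      intro l _
      rw [Finset.sum_eq_single (mix (l : ℕ) (c.2 e) (c.1 w), c.2 e l)]
      · rw [if_pos ⟨hw, rfl, rfl⟩]
        simp only
        rw [mix_update]
      · intro v _ hv
        rw [if_neg]
        rintro ⟨_, h1, h2⟩
        apply hv
        ext1
        · exact h1.symm
        · exact h2.symm
      · intro h; simp at h
    · rw [if_neg hw]
      apply Finset.sum_eq_zero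
      intro v _
      rw [if_neg]
      rintro ⟨h1, _⟩
      exact hw h1
  rw [Fintype.sum_prod_type]
  rw [Finset.sum_congr rfl fun w _ => key w]
  rw [← Finset.sum_filter]
  have hf : (univ.filter fun w => src' e = w ∨ tgt' e = w) = ({src' e, tgt' e} : Finset Wv') := by
    ext w; simp [eq_comm]
  rw [hf, Finset.sum_pair (hloop e)]

theorem net_stg {src' tgt' : E' → Wv'} {D : ℕ} (hD : 1 ≤ D) (hloop : ∀ e, src' e ≠ tgt' e)
    (hdeg : ∀ w, (bd src' tgt' {w}).card ≤ D) (rsrc rtgt : R → NV Wv' k) :
    Stg (nsrc src' rsrc) (ntgt tgt' rtgt) src' tgt' (ncen (E' := E') (Wv' := Wv') (k := k))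
      (nlvi R src' tgt') D := by
  refine ⟨?_, ?_, ?_⟩
  · intro c w w' h
    unfold ncen at h
    exact (Prod.ext_iff.1 h).1
  · intro c X
    ext e
    have hmem : e ∈ lv (nlvi R src' tgt') c (bd (nsrc src' rsrc) (ntgt tgt' rtgt) X) ↔
        Odd ((bd (nsrc src' rsrc) (ntgt tgt' rtgt) X).filter
          fun i => e ∈ nlvi R src' tgt' c i).card := by
      unfold lv; simp
    rw [hmem, mem_bd]
    have hcast : (((bd (nsrc src' rsrc) (ntgt tgt' rtgt) X).filter
          fun i => e ∈ nlvi R src' tgt' c i).card : ZMod 2) =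
        ind2 X (ncen c (src' e)) + ind2 X (ncen c (tgt' e)) := by
      have h1 : (((bd (nsrc src' rsrc) (ntgt tgt' rtgt) X).filter
          fun i => e ∈ nlvi R src' tgt' c i).card : ZMod 2) =
          ∑ i : NE E' Wv' k R, if e ∈ nlvi R src' tgt' c i then
            (ind2 X (nsrc src' rsrc i) + ind2 X (ntgt tgt' rtgt i)) else 0 := by
        rw [Finset.card_eq_sum_ones, Nat.cast_sum, Finset.sum_filter]
        rw [← Finset.sum_filter_add_sum_filter_not univ
          (fun i => i ∈ bd (nsrc src' rsrc) (ntgt tgt' rtgt) X)]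
        have hfil : (univ.filter fun i => i ∈ bd (nsrc src' rsrc) (ntgt tgt' rtgt) X) =
            bd (nsrc src' rsrc) (ntgt tgt' rtgt) X := by
          ext i; simp
        rw [hfil]
        have hz : ∑ i ∈ univ.filter (fun i => ¬ i ∈ bd (nsrc src' rsrc) (ntgt tgt' rtgt) X),
            (if e ∈ nlvi R src' tgt' c i then
            (ind2 X (nsrc src' rsrc i) + ind2 X (ntgt tgt' rtgt i)) else 0) = 0 := by
          apply Finset.sum_eq_zero
          intro i hi
          have hi2 := (Finset.mem_filter.1 hi).2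
          have := ind2_bd (nsrc src' rsrc) (ntgt tgt' rtgt) X i
          rw [if_neg hi2] at this
          rw [← this]
          simp
        rw [hz, add_zero]
        apply Finset.sum_congr rfl
        intro i hi
        have := ind2_bd (nsrc src' rsrc) (ntgt tgt' rtgt) X i
        rw [if_pos hi] at this
        rw [← this]
        simp
      rw [h1, Fintype.sum_sum_type, Fintype.sum_sum_type]
      have p1 := part1 X src' tgt' c e
      have p2 := part2 X hloop c e
      have p3 : ∑ x : R, (if e ∈ nlvi R src' tgt' c (Sum.inr (Sum.inr x)) then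
          (ind2 X (nsrc src' rsrc (Sum.inr (Sum.inr x))) +
            ind2 X (ntgt tgt' rtgt (Sum.inr (Sum.inr x)))) else (0 : ZMod 2)) = 0 := by
        apply Finset.sum_eq_zero
        intro x _
        rw [if_neg]
        simp [nlvi]
      rw [p3]
      have p1' : ∑ x : E' × Al k, (if e ∈ nlvi R src' tgt' c (Sum.inl x) then
          (ind2 X (nsrc src' rsrc (Sum.inl x)) + ind2 X (ntgt tgt' rtgt (Sum.inl x)))
          else (0 : ZMod 2)) = _ := p1
      rw [p1']
      have p2' : ∑ x : Wv' × Fin k × Al k × Bool,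
          (if e ∈ nlvi R src' tgt' c (Sum.inr (Sum.inl x)) then
          (ind2 X (nsrc src' rsrc (Sum.inr (Sum.inl x))) +
            ind2 X (ntgt tgt' rtgt (Sum.inr (Sum.inl x)))) else (0 : ZMod 2)) =
          (ind2 X (src' e, 0, c.1 (src' e)) + ind2 X (src' e, Fin.last k, c.2 e)) +
          (ind2 X (tgt' e, 0, c.1 (tgt' e)) + ind2 X (tgt' e, Fin.last k, c.2 e)) := by
        rw [← p2]
        apply Finset.sum_congr rfl
        intro v _
        simp only [nlvi, Finset.mem_filter, Finset.mem_univ, true_and, nsrc, ntgt]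
      rw [p2']
      unfold ncen
      have q1 := two_eq_zero2 (ind2 X (src' e, Fin.last k, c.2 e))
      have q2 := two_eq_zero2 (ind2 X (tgt' e, Fin.last k, c.2 e))
      linear_combination q1 + q2
    rw [← ZMod.natCast_ne_zero_iff_odd, hcast]
    have hc1 : src' e ∈ cn ncen c X ↔ ncen c (src' e) ∈ X := by
      unfold cn; simp
    have hc2 : tgt' e ∈ cn ncen c X ↔ ncen c (tgt' e) ∈ X := by
      unfold cn; simp
    rw [hc1, hc2]
    unfold ind2
    by_cases h1 : ncen c (src' e) ∈ X <;> by_cases h2 : ncen c (tgt' e) ∈ X <;> simp [h1, h2]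
    decide
  · intro c i
    rcases i with v | v | v
    · unfold nlvi
      simp only
      split_ifs
      · simpa using hD
      · simp
    · refine le_trans (Finset.card_le_card ?_) (hdeg v.1)
      intro e he
      simp only [nlvi, Finset.mem_filter, Finset.mem_univ, true_and] at he
      rw [mem_bd]
      simp only [Finset.mem_singleton]
      rcases he.1 with h | h
      · intro hh
        exact hloop e (by rw [h, hh.1 h])
      · intro hh
        exact hloop e (by rw [h, hh.2 h])
    · simp [nlvi]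

end Pool.Agent.H3.Frg3
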