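import Mathlib
import Pool.Agent.H3.Frg3.Defs

set_option autoImplicit false
set_option linter.unusedSectionVars false

/-!
# Module RES: resampling bounds for the butterfly blow-up

Model: `Pool/Agent/H3/Frg2/Weight.lean` (`resample`, `Phi_lip`, `live_tail`, `cen_tail`).
Put `N = 2 ^ k` (number of rows), `η = D u^(2D) / 2^k`.

**Resampling.** Let `h : Ch E' Wv' k → ℝ`.
(R1) If `h c ≤ K * h (c.1, Function.update c.2 e y)` for all `c, y`, then
`N * ∑ c, (if c.2 e = y0 then h c else 0) ≤ K * ∑ c, h c`.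
(R2) If `h c ≤ K * h (Function.update c.1 w α, Function.update c.2 e y)` for all `c, α, y` then, for
`l : Fin k`, `x : Al k`, `b : Bool`,
`N * ∑ c, (if mix l (c.2 e) (c.1 w) = x ∧ c.2 e l = b then h c else 0) ≤ K * ∑ c, h c`.
Proof of (R2): the set `Q` of pairs `(α, y)` with `mix l y α = x` (and `y l = b`) has at most `N` elements,
because `(α, y)` is determined by `mix l α y`: for `j < l` we have `y j = x j`, for `j ≥ l` we have
`α j = x j`. Sum the inequality over all `c` with `(c.1 w, c.2 e) ∈ Q` and all `(α, y)`; the map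
`(c, (α, y)) ↦ ((update c.1 w α, update c.2 e y), (c.1 w, c.2 e))` is injective with image in
`Ch × Q`. So `N^2 * ∑ … ≤ K * |Q| * ∑ c, h c ≤ K * N * ∑ c, h c`; divide by `N`.
(R1) is the same (or compare `resample` in `Weight.lean`, whose proof can be copied).

**`res_phi`.** `lv lvi c (symmDiff S S') = symmDiff (lv lvi c S) (lv lvi c S')` (parities add, compare
`odd_symmDiff_inter` in `Frg2/Proj.lean`), `lv lvi c {i} = lvi c i`. Hence
`Nd c Y (symmDiff T {i}) ≤ Nd c Y T + (nlvi … c i).card` (as `Nc_flip`).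
Moreover if `c` and `c'` differ only in `c.2 e` then `lv … c S` and `lv … c' S` differ at most in the
element `e`, so `Nd c Y T ≤ Nd c' Y T + 1`; and if `c'` is obtained from `c` by changing `c.1 w` and
`c.2 e`, where `src' e = w ∨ tgt' e = w`, then they differ only in elements `e'` with
`src' e' = w ∨ tgt' e' = w`, i.e. in `bd src' tgt' {w}` (no loops), so `Nd c Y T ≤ Nd c' Y T + D`.
* `i = inl (e, y)`: `u^(Nd c Y (T Δ i)) ≤ u^(Nd c Y T) + (u - 1) [c.2 e = y] u^(Nd c Y T)`, then (R1)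
  with `K = u`: total `≤ (1 + (u-1) u / N) Ph T ≤ (1 + η) Ph T` as `(u - 1) u ≤ u^2 ≤ D u^(2D)`.
* `i = inr (inl (w, l, x, b))`: `u^(Nd c Y (T Δ i)) ≤ u^(Nd c Y T) + (u^D - 1) ∑_{e ∈ bd src' tgt' {w}}
  [mix l (c.2 e) (c.1 w) = x ∧ c.2 e l = b] u^(Nd c Y T)` (`nlvi c i` has at most `D` elements, and if it is
  nonempty then one of the brackets is `1`), then (R2) with `K = u^D` for each of the `≤ D` edges `e`:
  total `≤ (1 + (u^D - 1) D u^D / N) Ph T ≤ (1 + η) Ph T`.
* `i = inr (inr _)`: no change.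

**`res_uv`.** Induction on `S`, the same argument with `uv` in place of `lv`:
`uv c (insert i S) = uv c S ∪ nlvi c i`.

**`res_cen`.** `2 ^ |cn c Y| = ∏ w, (1 + [(w, 0, c.1 w) ∈ Y])` depends only on `c.1`; the sum over `c.1` is
`∏ w, ∑ α, (1 + [(w, 0, α) ∈ Y]) = ∏ w, (N + a w) ≤ N^|Wv'| * exp (∑ w, a w / N)`, `∑ w, a w ≤ |Y|`
(`Finset.prod_univ_sum`/`Fintype.piFinset` or `Finset.prod_add`-style; `Fintype.sum_prod_type` splits off
`c.2`; `1 + x ≤ exp x` is `Real.add_one_le_exp`).
-/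

namespace Pool.Agent.H3.Frg3

open Finset Pool.Agent.H3.Frg Pool.Agent.H3.Frg2

variable {E' Wv' R : Type} [Fintype E'] [DecidableEq E'] [Fintype Wv'] [DecidableEq Wv']
  [Fintype R] [DecidableEq R] {k : ℕ}

/-! ### Abstract resampling -/

theorem resample_abs {C A : Type} [Fintype C] [Fintype A] [DecidableEq A] {h : C → ℝ} {K : ℝ}
    (get : C → A) (set : C → A → C) (hgs : ∀ c a, get (set c a) = a)
    (hsg : ∀ c, set c (get c) = c) (hss : ∀ c a b, set (set c a) b = set c b)
    (hh : ∀ c a, h c ≤ K * h (set c a)) (Q : Finset A) :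
    (Fintype.card A : ℝ) * ∑ c : C, (if get c ∈ Q then h c else 0)
      ≤ K * Q.card * ∑ c : C, h c := by
  classical
  have h1 : (Fintype.card A : ℝ) * ∑ c : C, (if get c ∈ Q then h c else 0)
      = ∑ p ∈ (univ.filter fun c : C => get c ∈ Q) ×ˢ (univ : Finset A), h p.1 := by
    rw [Finset.sum_product, ← Finset.sum_filter, Finset.mul_sum]
    refine Finset.sum_congr rfl fun c _ => ?_
    simp
  rw [h1]
  have h2 : ∑ p ∈ (univ.filter fun c : C => get c ∈ Q) ×ˢ (univ : Finset A), h p.1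
      ≤ ∑ p ∈ (univ.filter fun c : C => get c ∈ Q) ×ˢ (univ : Finset A),
        K * h (set p.1 p.2) := Finset.sum_le_sum fun p _ => hh p.1 p.2
  refine h2.trans (le_of_eq ?_)
  have h3 : K * Q.card * ∑ c : C, h c = ∑ p ∈ (univ : Finset C) ×ˢ Q, K * h p.1 := by
    rw [Finset.sum_product, Finset.mul_sum]
    refine Finset.sum_congr rfl fun c _ => ?_
    simp only [Finset.sum_const, nsmul_eq_mul]
    ring
  rw [h3]
  refine Finset.sum_nbij' (fun p => (set p.1 p.2, get p.1))
    (fun p => (set p.1 p.2, get p.1)) ?_ ?_ ?_ ?_ ?_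
  · intro p hp
    rw [Finset.mem_product, Finset.mem_filter] at hp
    rw [Finset.mem_product]
    exact ⟨mem_univ _, hp.1.2⟩
  · intro p hp
    rw [Finset.mem_product] at hp
    rw [Finset.mem_product, Finset.mem_filter]
    refine ⟨⟨mem_univ _, ?_⟩, mem_univ _⟩
    change get (set p.1 p.2) ∈ Q
    rw [hgs]
    exact hp.2
  · intro p _
    change (set (set p.1 p.2) (get p.1), get (set p.1 p.2)) = p
    rw [hss, hsg, hgs]
  · intro p _
    change (set (set p.1 p.2) (get p.1), get (set p.1 p.2)) = p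
    rw [hss, hsg, hgs]
  · intro p _
    rfl

theorem card_Al (k : ℕ) : Fintype.card (Al k) = 2 ^ k := by
  simp [Al]

theorem card_mixset (l : Fin k) (x : Al k) (b : Bool) :
    ((univ : Finset (Al k × Al k)).filter
      fun p => mix (l : ℕ) p.2 p.1 = x ∧ p.2 l = b).card ≤ 2 ^ k := by
  rw [← card_Al k, ← Finset.card_univ]
  refine Finset.card_le_card_of_injOn (fun p => mix (l : ℕ) p.1 p.2) (fun _ _ => mem_univ _) ?_
  rintro ⟨α, y⟩ hp ⟨α', y'⟩ hp' h
  rw [Finset.mem_coe, Finset.mem_filter] at hp hp'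
  have h1 : mix (l : ℕ) y α = mix (l : ℕ) y' α' := hp.2.1.trans hp'.2.1.symm
  have h2 : mix (l : ℕ) α y = mix (l : ℕ) α' y' := h
  have h3 : ∀ j, α j = α' j ∧ y j = y' j := by
    intro j
    have e1 := congrFun h1 j
    have e2 := congrFun h2 j
    unfold mix at e1 e2
    by_cases hj : (j : ℕ) < l
    · simp only [hj, if_true] at e1 e2
      exact ⟨e2, e1⟩
    · simp only [hj, if_false] at e1 e2
      exact ⟨e1, e2⟩
  exact Prod.ext (funext fun j => (h3 j).1) (funext fun j => (h3 j).2)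

theorem resample_one {h : Ch E' Wv' k → ℝ} {K : ℝ} (e : E')
    (hh : ∀ c y, h c ≤ K * h (c.1, Function.update c.2 e y)) (y0 : Al k) :
    (2:ℝ) ^ k * ∑ c : Ch E' Wv' k, (if c.2 e = y0 then h c else 0)
      ≤ K * ∑ c : Ch E' Wv' k, h c := by
  have h1 := resample_abs (h := h) (K := K) (fun c : Ch E' Wv' k => c.2 e)
    (fun c y => (c.1, Function.update c.2 e y)) (fun c y => by simp) (fun c => by simp)
    (fun c a b => by simp) hh {y0}
  rw [card_Al] at h1
  simpa using h1

theorem resample_two {h : Ch E' Wv' k → ℝ} {K : ℝ} (hK : 0 ≤ K) (h0 : ∀ c, 0 ≤ h c)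
    (e : E') (w : Wv')
    (hh : ∀ c α y, h c ≤ K * h (Function.update c.1 w α, Function.update c.2 e y))
    (l : Fin k) (x : Al k) (b : Bool) :
    (2:ℝ) ^ k * ∑ c : Ch E' Wv' k,
      (if mix (l : ℕ) (c.2 e) (c.1 w) = x ∧ c.2 e l = b then h c else 0)
      ≤ K * ∑ c : Ch E' Wv' k, h c := by
  have h1 := resample_abs (h := h) (K := K)
    (fun c : Ch E' Wv' k => ((c.1 w, c.2 e) : Al k × Al k))
    (fun c p => (Function.update c.1 w p.1, Function.update c.2 e p.2))
    (fun c y => by simp) (fun c => by simp)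
    (fun c a b => by simp) (fun c p => hh c p.1 p.2)
    ((univ : Finset (Al k × Al k)).filter fun p => mix (l : ℕ) p.2 p.1 = x ∧ p.2 l = b)
  have h2 : (Fintype.card (Al k × Al k) : ℝ) = (2:ℝ) ^ k * 2 ^ k := by
    rw [Fintype.card_prod, card_Al]; push_cast; ring
  rw [h2] at h1
  simp only [Finset.mem_filter, mem_univ, true_and] at h1
  have h3 : ((((univ : Finset (Al k × Al k)).filter
      fun p => mix (l : ℕ) p.2 p.1 = x ∧ p.2 l = b).card : ℕ) : ℝ) ≤ (2:ℝ) ^ k := by
    exact_mod_cast card_mixset l x b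
  have h4 : 0 ≤ ∑ c : Ch E' Wv' k, h c := Finset.sum_nonneg fun c _ => h0 c
  have h5 : K * ((((univ : Finset (Al k × Al k)).filter
      fun p => mix (l : ℕ) p.2 p.1 = x ∧ p.2 l = b).card : ℕ) : ℝ) * ∑ c : Ch E' Wv' k, h c
      ≤ K * (2:ℝ) ^ k * ∑ c : Ch E' Wv' k, h c :=
    mul_le_mul_of_nonneg_right (mul_le_mul_of_nonneg_left h3 hK) h4
  have h6 : (0:ℝ) < (2:ℝ) ^ k := by positivity
  have h7 := h1.trans h5
  refine le_of_mul_le_mul_left ?_ h6
  calc _ = (2:ℝ) ^ k * 2 ^ k * ∑ c : Ch E' Wv' k,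
      (if mix (l : ℕ) (c.2 e) (c.1 w) = x ∧ c.2 e l = b then h c else 0) := by ring
    _ ≤ _ := h7
    _ = _ := by ring

/-! ### Live parts -/

section Live

variable {E Wv C : Type} [Fintype E] [DecidableEq E] [Fintype Wv] [DecidableEq Wv]
  [Fintype C] [DecidableEq C]

theorem mem_lv3 {lvi : C → E → Finset E'} {c : C} {S : Finset E} {e : E'} :
    e ∈ lv lvi c S ↔ Odd (S.filter fun i => e ∈ lvi c i).card := by
  simp [lv]

theorem lv_symmDiff3 (lvi : C → E → Finset E') (c : C) (S T : Finset E) :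
    lv lvi c (symmDiff S T) = symmDiff (lv lvi c S) (lv lvi c T) := by
  have hf : ∀ (S : Finset E) (e : E'), (S.filter fun i => e ∈ lvi c i)
      = S ∩ (univ.filter fun i => e ∈ lvi c i) := by
    intro S e; ext i; simp
  ext e
  rw [Finset.mem_symmDiff, mem_lv3, mem_lv3, mem_lv3, hf (symmDiff S T) e, hf S e, hf T e,
    odd_symmDiff_inter]
  tauto

theorem lv_singleton3 (lvi : C → E → Finset E') (c : C) (i : E) :
    lv lvi c {i} = lvi c i := by
  ext e
  rw [mem_lv3, Finset.filter_singleton]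
  by_cases h : e ∈ lvi c i
  · simp [h]
  · simp [h]

theorem Nd_le {src tgt : E → Wv} {lvi : C → E → Finset E'} {c : C} {Y X : Finset Wv}
    (hX : X ⊆ Y) (T : Finset E) :
    Nd src tgt lvi c Y T ≤ (lv lvi c (symmDiff T (bd src tgt X))).card :=
  Finset.inf'_le (fun X => (lv lvi c (symmDiff T (bd src tgt X))).card)
    (Finset.mem_powerset.mpr hX)

theorem exists_Nd (src tgt : E → Wv) (lvi : C → E → Finset E') (c : C) (Y : Finset Wv)
    (T : Finset E) :
    ∃ X ⊆ Y, Nd src tgt lvi c Y T = (lv lvi c (symmDiff T (bd src tgt X))).card := by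
  obtain ⟨X, hX, h⟩ := Finset.exists_mem_eq_inf' (s := Y.powerset) ⟨∅, by simp⟩
    (fun X => (lv lvi c (symmDiff T (bd src tgt X))).card)
  exact ⟨X, Finset.mem_powerset.mp hX, h⟩

theorem Nd_flip (src tgt : E → Wv) (lvi : C → E → Finset E') (c : C) (Y : Finset Wv)
    (T : Finset E) (i : E) :
    Nd src tgt lvi c Y (symmDiff T {i}) ≤ Nd src tgt lvi c Y T + (lvi c i).card := by
  obtain ⟨X, hX, h⟩ := exists_Nd src tgt lvi c Y T
  refine (Nd_le hX _).trans ?_
  rw [h]
  have h1 : symmDiff (symmDiff T {i}) (bd src tgt X)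
      = symmDiff (symmDiff T (bd src tgt X)) {i} := by
    ext v; simp only [Finset.mem_symmDiff]; tauto
  rw [h1, lv_symmDiff3, lv_singleton3]
  have h2 : symmDiff (lv lvi c (symmDiff T (bd src tgt X))) (lvi c i)
      ⊆ lv lvi c (symmDiff T (bd src tgt X)) ∪ lvi c i := by
    intro v hv
    rw [Finset.mem_symmDiff] at hv
    rw [Finset.mem_union]
    tauto
  exact (Finset.card_le_card h2).trans (Finset.card_union_le _ _)

/-- if the live parts of `c` and `c'` agree outside `B`, the distances differ by at most `|B|` -/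
theorem Nd_change (src tgt : E → Wv) (lvi : C → E → Finset E') (c c' : C) (B : Finset E')
    (hB : ∀ e ∉ B, ∀ i, e ∈ lvi c i ↔ e ∈ lvi c' i) (Y : Finset Wv) (T : Finset E) :
    Nd src tgt lvi c Y T ≤ B.card + Nd src tgt lvi c' Y T := by
  obtain ⟨X, hX, h1⟩ := exists_Nd src tgt lvi c' Y T
  refine (Nd_le hX _).trans ?_
  rw [h1]
  set S := symmDiff T (bd src tgt X)
  have h2 : lv lvi c S ⊆ B ∪ lv lvi c' S := by
    intro e he
    rw [Finset.mem_union]
    by_cases h3 : e ∈ B
    · exact Or.inl h3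
    · right
      rw [mem_lv3] at he ⊢
      simp only [hB e h3] at he
      exact he
  exact (Finset.card_le_card h2).trans (Finset.card_union_le _ _)

theorem uv_change (lvi : C → E → Finset E') (c c' : C) (B : Finset E')
    (hB : ∀ e ∉ B, ∀ i, e ∈ lvi c i ↔ e ∈ lvi c' i) (S : Finset E) :
    (uv lvi c S).card ≤ B.card + (uv lvi c' S).card := by
  have h2 : uv lvi c S ⊆ B ∪ uv lvi c' S := by
    intro e he
    rw [Finset.mem_union]
    by_cases h3 : e ∈ B
    · exact Or.inl h3
    · right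
      unfold uv at he ⊢
      rw [Finset.mem_biUnion] at he ⊢
      obtain ⟨i, hi, he⟩ := he
      exact ⟨i, hi, (hB e h3 i).mp he⟩
  exact (Finset.card_le_card h2).trans (Finset.card_union_le _ _)

theorem uv_insert (lvi : C → E → Finset E') (c : C) (S : Finset E) (i : E) :
    (uv lvi c (insert i S)).card ≤ (uv lvi c S).card + (lvi c i).card := by
  have h2 : uv lvi c (insert i S) ⊆ uv lvi c S ∪ lvi c i := by
    intro e he
    unfold uv at he ⊢
    rw [Finset.mem_biUnion] at he
    rw [Finset.mem_union, Finset.mem_biUnion]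
    obtain ⟨j, hj, he⟩ := he
    rw [Finset.mem_insert] at hj
    rcases hj with rfl | hj
    · exact Or.inr he
    · exact Or.inl ⟨j, hj, he⟩
  exact (Finset.card_le_card h2).trans (Finset.card_union_le _ _)

end Live

/-! ### The butterfly blow-up -/

theorem nlvi_congr {src' tgt' : E' → Wv'} {c c' : Ch E' Wv' k} {e : E'}
    (h2 : c.2 e = c'.2 e) (hs : c.1 (src' e) = c'.1 (src' e))
    (ht : c.1 (tgt' e) = c'.1 (tgt' e)) (i : NE E' Wv' k R) :
    e ∈ nlvi R src' tgt' c i ↔ e ∈ nlvi R src' tgt' c' i := by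
  rcases i with v | v | v
  · simp only [nlvi]
    by_cases he : e = v.1
    · subst he
      rw [h2]
    · have h3 : ∀ (p : Prop) [Decidable p], e ∉ (if p then ({v.1} : Finset E') else ∅) := by
        intro p _
        split_ifs
        · simpa using he
        · simp
      exact ⟨fun h => absurd h (h3 _), fun h => absurd h (h3 _)⟩
  · simp only [nlvi, Finset.mem_filter, mem_univ, true_and]
    rw [h2]
    constructor
    · rintro ⟨hv, h4⟩
      refine ⟨hv, ?_⟩
      rcases hv with hv | hv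
      · rw [← hv] at h4 ⊢; rw [← hs]; exact h4
      · rw [← hv] at h4 ⊢; rw [← ht]; exact h4
    · rintro ⟨hv, h4⟩
      refine ⟨hv, ?_⟩
      rcases hv with hv | hv
      · rw [← hv] at h4 ⊢; rw [hs]; exact h4
      · rw [← hv] at h4 ⊢; rw [ht]; exact h4
  · simp only [nlvi]

theorem agree_one {src' tgt' : E' → Wv'} (c : Ch E' Wv' k) (e : E') (y : Al k) :
    ∀ e' ∉ ({e} : Finset E'), ∀ i : NE E' Wv' k R, e' ∈ nlvi R src' tgt' c i ↔
      e' ∈ nlvi R src' tgt' (c.1, Function.update c.2 e y) i := by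
  intro e' he' i
  rw [Finset.mem_singleton] at he'
  have h1 : c.2 e' = (c.1, Function.update c.2 e y).2 e' := by
    change c.2 e' = Function.update c.2 e y e'
    rw [Function.update_of_ne he']
  exact nlvi_congr (c' := (c.1, Function.update c.2 e y)) h1 rfl rfl i

theorem agree_two {src' tgt' : E' → Wv'} (hloop : ∀ e, src' e ≠ tgt' e) (c : Ch E' Wv' k)
    (e : E') (w : Wv') (hew : e ∈ bd src' tgt' {w}) (α y : Al k) :
    ∀ e' ∉ bd src' tgt' {w}, ∀ i : NE E' Wv' k R, e' ∈ nlvi R src' tgt' c i ↔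
      e' ∈ nlvi R src' tgt' (Function.update c.1 w α, Function.update c.2 e y) i := by
  intro e' he' i
  have hne : e' ≠ e := by rintro rfl; exact he' hew
  rw [mem_bd, not_not, Finset.mem_singleton, Finset.mem_singleton] at he'
  have h4 : src' e' ≠ w := fun h5 => hloop e' (h5.trans (he'.mp h5).symm)
  have h5 : tgt' e' ≠ w := fun h6 => h4 (he'.mpr h6)
  refine nlvi_congr ?_ ?_ ?_ i
  · change c.2 e' = Function.update c.2 e y e'
    rw [Function.update_of_ne hne]
  · change c.1 (src' e') = Function.update c.1 w α (src' e')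
    rw [Function.update_of_ne h4]
  · change c.1 (tgt' e') = Function.update c.1 w α (tgt' e')
    rw [Function.update_of_ne h5]

theorem mem_bd_of {src' tgt' : E' → Wv'} (hloop : ∀ e, src' e ≠ tgt' e) {e : E'} {w : Wv'}
    (h : src' e = w ∨ tgt' e = w) : e ∈ bd src' tgt' {w} := by
  rw [mem_bd, Finset.mem_singleton, Finset.mem_singleton]
  rcases h with h | h
  · intro h1; exact hloop e (h.trans (h1.mp h).symm)
  · intro h1; exact hloop e ((h1.mpr h).trans h.symm)

/-- the common part of `res_phi` and `res_uv` -/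
theorem res_core {src' tgt' : E' → Wv'} {D : ℕ} (hD : 1 ≤ D) (hloop : ∀ e, src' e ≠ tgt' e)
    (hdeg : ∀ w, (bd src' tgt' {w}).card ≤ D) {u : ℝ} (hu : 1 ≤ u)
    (F G : Ch E' Wv' k → ℕ) (i : NE E' Wv' k R)
    (hFG : ∀ c, G c ≤ F c + (nlvi R src' tgt' c i).card)
    (hF : ∀ (c c' : Ch E' Wv' k) (B : Finset E'), (∀ e ∉ B, ∀ j : NE E' Wv' k R,
      e ∈ nlvi R src' tgt' c j ↔ e ∈ nlvi R src' tgt' c' j) → F c ≤ B.card + F c') :
    ∑ c, u ^ G c ≤ (1 + D * u ^ (2 * D) / 2 ^ k) * ∑ c, u ^ F c := by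
  have hu0 : 0 ≤ u := by linarith
  have hN : (0:ℝ) < 2 ^ k := by positivity
  have hS : 0 ≤ ∑ c, u ^ F c := Finset.sum_nonneg fun c _ => by positivity
  have hDR : (1:ℝ) ≤ D := by exact_mod_cast hD
  rcases i with v | v | v
  · -- matching edges
    have h1 : ∀ c : Ch E' Wv' k, u ^ G c ≤ u ^ F c +
        (u - 1) * (if c.2 v.1 = v.2 then u ^ F c else 0) := by
      intro c
      have h2 := pow_le_pow_right₀ hu (hFG c)
      refine h2.trans ?_
      simp only [nlvi]
      by_cases h3 : c.2 v.1 = v.2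
      · simp only [h3, if_true, Finset.card_singleton, pow_succ]
        exact le_of_eq (by ring)
      · simp only [h3, if_false, Finset.card_empty, add_zero, mul_zero]
        exact le_refl _
    have h4 := resample_one (h := fun c : Ch E' Wv' k => u ^ F c) (K := u) v.1
      (fun c y => by
        have h5 := hF c (c.1, Function.update c.2 v.1 y) {v.1} (agree_one c v.1 y)
        rw [Finset.card_singleton] at h5
        calc u ^ F c ≤ u ^ (1 + F (c.1, Function.update c.2 v.1 y)) := pow_le_pow_right₀ hu h5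
          _ = u * u ^ F (c.1, Function.update c.2 v.1 y) := by rw [pow_add, pow_one]) v.2
    set Q : ℝ := ∑ c : Ch E' Wv' k, (if c.2 v.1 = v.2 then u ^ F c else 0) with hQ
    have h5 : Q ≤ u * (∑ c, u ^ F c) / 2 ^ k := by
      rw [le_div_iff₀ hN]; linarith
    have h6 : (u - 1) * u ≤ D * u ^ (2 * D) := by
      have e1 : u ^ 2 ≤ u ^ (2 * D) := pow_le_pow_right₀ hu (by omega)
      have e2 : u ^ (2 * D) ≤ D * u ^ (2 * D) := le_mul_of_one_le_left (by positivity) hDR
      have e3 : (u - 1) * u ≤ u ^ 2 := by nlinarith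
      linarith
    calc ∑ c, u ^ G c ≤ ∑ c, (u ^ F c + (u - 1) * (if c.2 v.1 = v.2 then u ^ F c else 0)) :=
          Finset.sum_le_sum fun c _ => h1 c
      _ = ∑ c, u ^ F c + (u - 1) * Q := by
          rw [Finset.sum_add_distrib, ← Finset.mul_sum]
      _ ≤ ∑ c, u ^ F c + (u - 1) * (u * (∑ c, u ^ F c) / 2 ^ k) := by
          have := mul_le_mul_of_nonneg_left h5 (show (0:ℝ) ≤ u - 1 by linarith)
          linarith
      _ = (1 + (u - 1) * u / 2 ^ k) * ∑ c, u ^ F c := by ring
      _ ≤ _ := by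
          refine mul_le_mul_of_nonneg_right ?_ hS
          have := div_le_div_of_nonneg_right h6 hN.le
          linarith
  · -- butterfly edges
    obtain ⟨w, l, x, b⟩ := v
    have hsub : ∀ c : Ch E' Wv' k, nlvi R src' tgt' c (Sum.inr (Sum.inl (w, l, x, b)))
        ⊆ bd src' tgt' {w} := by
      intro c e he
      simp only [nlvi, Finset.mem_filter, mem_univ, true_and] at he
      exact mem_bd_of hloop he.1
    have h1 : ∀ c : Ch E' Wv' k, u ^ G c ≤ u ^ F c +
        (u ^ D - 1) * ∑ e ∈ bd src' tgt' {w},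
          (if mix (l : ℕ) (c.2 e) (c.1 w) = x ∧ c.2 e l = b then u ^ F c else 0) := by
      intro c
      have hpos : ∀ e ∈ bd src' tgt' {w}, 0 ≤
          (if mix (l : ℕ) (c.2 e) (c.1 w) = x ∧ c.2 e l = b then u ^ F c else 0) := by
        intro e _
        split_ifs
        · positivity
        · exact le_refl _
      have hsum : 0 ≤ ∑ e ∈ bd src' tgt' {w},
          (if mix (l : ℕ) (c.2 e) (c.1 w) = x ∧ c.2 e l = b then u ^ F c else 0) :=
        Finset.sum_nonneg hpos
      have huD : 0 ≤ u ^ D - 1 := by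
        have := one_le_pow₀ hu (n := D)
        linarith
      have h2 := hFG c
      rcases Finset.eq_empty_or_nonempty
        (nlvi R src' tgt' c (Sum.inr (Sum.inl (w, l, x, b)))) with h3 | ⟨e, he⟩
      · rw [h3, Finset.card_empty, add_zero] at h2
        have h4 := pow_le_pow_right₀ hu h2
        have h5 := mul_nonneg huD hsum
        linarith
      · have h4 : G c ≤ F c + D :=
          h2.trans (Nat.add_le_add_left ((Finset.card_le_card (hsub c)).trans (hdeg w)) _)
        have h5 := pow_le_pow_right₀ hu h4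
        have he2 := hsub c he
        simp only [nlvi, Finset.mem_filter, mem_univ, true_and] at he
        have h6 : u ^ F c ≤ ∑ e ∈ bd src' tgt' {w},
            (if mix (l : ℕ) (c.2 e) (c.1 w) = x ∧ c.2 e l = b then u ^ F c else 0) := by
          refine le_trans (le_of_eq ?_) (Finset.single_le_sum hpos he2)
          rw [if_pos he.2]
        calc u ^ G c ≤ u ^ (F c + D) := h5
          _ = u ^ F c + (u ^ D - 1) * u ^ F c := by rw [pow_add]; ring
          _ ≤ _ := by
            have := mul_le_mul_of_nonneg_left h6 huD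
            linarith
    have h4 : ∀ e ∈ bd src' tgt' {w}, ∑ c : Ch E' Wv' k,
        (if mix (l : ℕ) (c.2 e) (c.1 w) = x ∧ c.2 e l = b then u ^ F c else 0)
        ≤ u ^ D * (∑ c, u ^ F c) / 2 ^ k := by
      intro e he
      rw [le_div_iff₀ hN, mul_comm]
      refine resample_two (h := fun c : Ch E' Wv' k => u ^ F c) (K := u ^ D) (by positivity)
        (fun c => by positivity) e w ?_ l x b
      intro c α y
      have h5 := hF c (Function.update c.1 w α, Function.update c.2 e y) _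
        (agree_two hloop c e w he α y)
      have h6 := h5.trans (Nat.add_le_add_right (hdeg w) _)
      calc u ^ F c ≤ u ^ (D + F (Function.update c.1 w α, Function.update c.2 e y)) :=
            pow_le_pow_right₀ hu h6
        _ = _ := by rw [pow_add]
    have huD : 0 ≤ u ^ D - 1 := by
      have := one_le_pow₀ hu (n := D)
      linarith
    have h5 : ∑ e ∈ bd src' tgt' {w}, ∑ c : Ch E' Wv' k,
        (if mix (l : ℕ) (c.2 e) (c.1 w) = x ∧ c.2 e l = b then u ^ F c else 0)
        ≤ D * (u ^ D * (∑ c, u ^ F c) / 2 ^ k) := by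
      refine (Finset.sum_le_sum h4).trans ?_
      rw [Finset.sum_const, nsmul_eq_mul]
      refine mul_le_mul_of_nonneg_right ?_ (by positivity)
      exact_mod_cast hdeg w
    calc ∑ c, u ^ G c ≤ ∑ c, (u ^ F c + (u ^ D - 1) * ∑ e ∈ bd src' tgt' {w},
          (if mix (l : ℕ) (c.2 e) (c.1 w) = x ∧ c.2 e l = b then u ^ F c else 0)) :=
          Finset.sum_le_sum fun c _ => h1 c
      _ = ∑ c, u ^ F c + (u ^ D - 1) * ∑ e ∈ bd src' tgt' {w}, ∑ c : Ch E' Wv' k,
          (if mix (l : ℕ) (c.2 e) (c.1 w) = x ∧ c.2 e l = b then u ^ F c else 0) := by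
          rw [Finset.sum_add_distrib, ← Finset.mul_sum, Finset.sum_comm]
      _ ≤ ∑ c, u ^ F c + (u ^ D - 1) * (D * (u ^ D * (∑ c, u ^ F c) / 2 ^ k)) := by
          have := mul_le_mul_of_nonneg_left h5 huD
          linarith
      _ = (1 + D * ((u ^ D - 1) * u ^ D) / 2 ^ k) * ∑ c, u ^ F c := by ring
      _ ≤ _ := by
          refine mul_le_mul_of_nonneg_right ?_ hS
          have h6 : (u ^ D - 1) * u ^ D ≤ u ^ (2 * D) := by
            have e1 : u ^ (2 * D) = u ^ D * u ^ D := by rw [two_mul, pow_add]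
            rw [e1]
            have : 0 ≤ u ^ D := by positivity
            nlinarith
          have h7 : D * ((u ^ D - 1) * u ^ D) ≤ D * u ^ (2 * D) :=
            mul_le_mul_of_nonneg_left h6 (by positivity)
          have := div_le_div_of_nonneg_right h7 hN.le
          linarith
  · -- further edges
    have h1 : ∀ c : Ch E' Wv' k, u ^ G c ≤ u ^ F c := by
      intro c
      have h2 := hFG c
      simp only [nlvi, Finset.card_empty, add_zero] at h2
      exact pow_le_pow_right₀ hu h2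
    calc ∑ c, u ^ G c ≤ ∑ c, u ^ F c := Finset.sum_le_sum fun c _ => h1 c
      _ ≤ _ := by
        refine le_mul_of_one_le_left hS ?_
        have : 0 ≤ (D:ℝ) * u ^ (2 * D) / 2 ^ k := by positivity
        linarith

theorem res_phi {src' tgt' : E' → Wv'} {D : ℕ} (hD : 1 ≤ D) (hloop : ∀ e, src' e ≠ tgt' e)
    (hdeg : ∀ w, (bd src' tgt' {w}).card ≤ D) (rsrc rtgt : R → NV Wv' k) {u : ℝ} (hu : 1 ≤ u)
    (Y : Finset (NV Wv' k)) (T : Finset (NE E' Wv' k R)) (i : NE E' Wv' k R) :
    Ph (nsrc src' rsrc) (ntgt tgt' rtgt) (nlvi R src' tgt') u Y (symmDiff T {i})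
      ≤ (1 + D * u ^ (2 * D) / 2 ^ k) *
        Ph (nsrc src' rsrc) (ntgt tgt' rtgt) (nlvi R src' tgt') u Y T := by
  unfold Ph
  refine res_core (R := R) hD hloop hdeg hu _ _ i ?_ ?_
  · intro c
    exact Nd_flip _ _ _ c Y T i
  · intro c c' B hB
    exact Nd_change _ _ _ c c' B hB Y T

theorem res_uv {src' tgt' : E' → Wv'} {D : ℕ} (hD : 1 ≤ D) (hloop : ∀ e, src' e ≠ tgt' e)
    (hdeg : ∀ w, (bd src' tgt' {w}).card ≤ D) {u : ℝ} (hu : 1 ≤ u)
    (S : Finset (NE E' Wv' k R)) :
    ∑ c : Ch E' Wv' k, u ^ (uv (nlvi R src' tgt') c S).card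
      ≤ (1 + D * u ^ (2 * D) / 2 ^ k) ^ S.card * (Fintype.card (Ch E' Wv' k) : ℝ) := by
  have hu0 : 0 ≤ u := by linarith
  have hη : 0 ≤ 1 + (D:ℝ) * u ^ (2 * D) / 2 ^ k := by positivity
  induction S using Finset.induction_on with
  | empty =>
    have h1 : ∀ c : Ch E' Wv' k, (uv (nlvi R src' tgt') c ∅).card = 0 := by
      intro c; simp [uv]
    simp only [h1, pow_zero, Finset.card_empty, one_mul, Finset.sum_const, nsmul_eq_mul,
      mul_one, Finset.card_univ]
    exact le_refl _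
  | insert i S hi ih =>
    rw [Finset.card_insert_of_notMem hi, pow_succ]
    refine (res_core (R := R) hD hloop hdeg hu
      (fun c => (uv (nlvi R src' tgt') c S).card)
      (fun c => (uv (nlvi R src' tgt') c (insert i S)).card) i ?_ ?_).trans ?_
    · intro c
      exact uv_insert _ c S i
    · intro c c' B hB
      exact uv_change _ c c' B hB S
    · calc _ ≤ (1 + (D:ℝ) * u ^ (2 * D) / 2 ^ k) *
          ((1 + (D:ℝ) * u ^ (2 * D) / 2 ^ k) ^ S.card * (Fintype.card (Ch E' Wv' k) : ℝ)) :=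
            mul_le_mul_of_nonneg_left ih hη
        _ = _ := by ring

theorem res_cen (Y : Finset (NV Wv' k)) :
    ∑ c : Ch E' Wv' k, (2:ℝ) ^ (cn ncen c Y).card
      ≤ (Fintype.card (Ch E' Wv' k) : ℝ) * Real.exp ((Y.card : ℝ) / 2 ^ k) := by
  have hN : (0:ℝ) < 2 ^ k := by positivity
  have h1 : ∀ c : Ch E' Wv' k, (2:ℝ) ^ (cn ncen c Y).card
      = ∏ w, (if ((w, 0, c.1 w) : NV Wv' k) ∈ Y then (2:ℝ) else 1) := by
    intro c
    rw [Finset.prod_ite, Finset.prod_const, Finset.prod_const_one, mul_one]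
    rfl
  simp only [h1]
  rw [Fintype.sum_prod_type]
  have h0 : ∀ x : Wv' → Al k, (∑ _y : E' → Al k, ∏ w,
      (if ((w, 0, x w) : NV Wv' k) ∈ Y then (2:ℝ) else 1))
      = (Fintype.card (E' → Al k) : ℝ) *
        ∏ w, (if ((w, 0, x w) : NV Wv' k) ∈ Y then (2:ℝ) else 1) := by
    intro x
    rw [Finset.sum_const, Finset.card_univ, nsmul_eq_mul]
  rw [Finset.sum_congr rfl fun x _ => h0 x, ← Finset.mul_sum]
  have h2 : ∑ α : Wv' → Al k, ∏ w, (if ((w, 0, α w) : NV Wv' k) ∈ Y then (2:ℝ) else 1)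
      = ∏ w, ∑ a : Al k, (if ((w, 0, a) : NV Wv' k) ∈ Y then (2:ℝ) else 1) := by
    rw [Finset.prod_univ_sum]
    rw [Fintype.piFinset_univ]
  rw [h2]
  set A : Wv' → Finset (Al k) := fun w => univ.filter fun a => ((w, 0, a) : NV Wv' k) ∈ Y with hA
  have h3 : ∀ w, ∑ a : Al k, (if ((w, 0, a) : NV Wv' k) ∈ Y then (2:ℝ) else 1)
      ≤ 2 ^ k * Real.exp (((A w).card : ℝ) / 2 ^ k) := by
    intro w
    have e1 : ∑ a : Al k, (if ((w, 0, a) : NV Wv' k) ∈ Y then (2:ℝ) else 1)
        = 2 ^ k + (A w).card := by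
      have e2 : ∀ a : Al k, (if ((w, 0, a) : NV Wv' k) ∈ Y then (2:ℝ) else 1)
          = 1 + (if ((w, 0, a) : NV Wv' k) ∈ Y then (1:ℝ) else 0) := by
        intro a; split_ifs <;> norm_num
      simp only [e2]
      rw [Finset.sum_add_distrib, Finset.sum_const, Finset.card_univ, card_Al, nsmul_eq_mul,
        mul_one, Finset.sum_boole]
      push_cast
      rfl
    rw [e1]
    have e3 := Real.add_one_le_exp (((A w).card : ℝ) / 2 ^ k)
    calc (2:ℝ) ^ k + (A w).card = 2 ^ k * (((A w).card : ℝ) / 2 ^ k + 1) := by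
          field_simp
          ring
      _ ≤ _ := mul_le_mul_of_nonneg_left e3 hN.le
  have h4 : ∏ w, ∑ a : Al k, (if ((w, 0, a) : NV Wv' k) ∈ Y then (2:ℝ) else 1)
      ≤ ∏ w : Wv', (2 ^ k * Real.exp (((A w).card : ℝ) / 2 ^ k)) := by
    refine Finset.prod_le_prod ?_ fun w _ => h3 w
    intro w _
    refine Finset.sum_nonneg fun a _ => ?_
    split_ifs <;> norm_num
  have h5 : ∏ w : Wv', (2 ^ k * Real.exp (((A w).card : ℝ) / 2 ^ k))
      = (2 ^ k) ^ Fintype.card Wv' * Real.exp (∑ w, ((A w).card : ℝ) / 2 ^ k) := by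
    rw [Finset.prod_mul_distrib, Finset.prod_const, Finset.card_univ, Real.exp_sum]
  have h6 : ∑ w, (A w).card ≤ Y.card := by
    rw [← Finset.card_sigma]
    refine Finset.card_le_card_of_injOn (fun p : (_ : Wv') × Al k => ((p.1, 0, p.2) : NV Wv' k))
      ?_ ?_
    · intro p hp
      rw [Finset.mem_coe, Finset.mem_sigma] at hp
      have := hp.2
      rw [hA] at this
      simpa using this
    · rintro ⟨w, a⟩ _ ⟨w', a'⟩ _ h
      simp only [Prod.mk.injEq, true_and] at h
      obtain ⟨rfl, rfl⟩ := h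
      rfl
  have h7 : ∑ w, ((A w).card : ℝ) / 2 ^ k ≤ (Y.card : ℝ) / 2 ^ k := by
    rw [← Finset.sum_div]
    refine div_le_div_of_nonneg_right ?_ hN.le
    exact_mod_cast h6
  have h8 : (Fintype.card (Ch E' Wv' k) : ℝ)
      = (Fintype.card (E' → Al k) : ℝ) * (2 ^ k) ^ Fintype.card Wv' := by
    rw [Fintype.card_prod, Fintype.card_fun (α := Wv'), card_Al]
    push_cast
    ring
  rw [h8, mul_assoc]
  refine mul_le_mul_of_nonneg_left ?_ (by positivity)
  refine h4.trans ?_
  rw [h5]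
  refine mul_le_mul_of_nonneg_left ?_ (by positivity)
  exact Real.exp_le_exp.mpr h7

end Pool.Agent.H3.Frg3
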