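import Mathlib
import Pool.Agent.H3.Frg3.Lower3
import Pool.Agent.H3.Frg3.NetStg
import Pool.Agent.H3.Frg3.NetDeg
import Pool.Agent.H3.Frg3.Res
import Pool.Agent.H3.Frg3.Clo3
import Pool.Agent.H3.Frg2.Numerics

set_option autoImplicit false
set_option linter.unusedSectionVars false

/-!
# The tautology
-/

namespace Pool.Agent.H3.Frg3

open Finset Pool.Agent.H3.Frg Pool.Agent.H3.Frg2

variable {E Wv : Type} [Fintype E] [DecidableEq E] [Fintype Wv] [DecidableEq Wv]

/-- the sign pattern: one vertex is odd -/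
def sgn3 (v1 v : Wv) : Bool := decide (v = v1)

/-- the axiom of the vertex `v` -/
noncomputable def axm3 (src tgt : E → Wv) (Δ : ℕ) (v0 : E) (v1 v : Wv) : Fm E :=
  parAx v0 Δ (bd src tgt {v}) (sgn3 v1 v)

/-- the list of axioms -/
noncomputable def axl3 (src tgt : E → Wv) (Δ : ℕ) (v0 : E) (v1 : Wv) : List (Fm E) :=
  (univ : Finset Wv).toList.map (axm3 src tgt Δ v0 v1)

/-- the tautology over `E` -/
noncomputable def tau3 (src tgt : E → Wv) (Δ : ℕ) (v0 : E) (v1 : Wv) : Fm E :=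
  (axl3 src tgt Δ v0 v1).foldr Fm.imp (bot v0)

variable {src tgt : E → Wv} {Δ : ℕ}

theorem eval_axm3 (h : ∀ w, (bd src tgt {w}).card ≤ Δ) (v0 : E) (v1 v : Wv) (x : E → Bool) :
    (axm3 src tgt Δ v0 v1 v).eval x = true ↔ chi (bd src tgt {v}) x = sg (sgn3 v1 v) :=
  eval_parAx v0 Δ _ (h v) _ x

theorem tau3_taut (h : ∀ w, (bd src tgt {w}).card ≤ Δ) (v0 : E) (v1 : Wv) (x : E → Bool) :
    (tau3 src tgt Δ v0 v1).eval x = true := by
  refine eval_foldr _ x _ fun h1 => ?_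
  exfalso
  have h2 : ∀ v, chi (bd src tgt {v}) x = sg (sgn3 v1 v) := by
    intro v
    rw [← eval_axm3 h v0]
    refine h1 _ ?_
    rw [axl3, List.mem_map]
    exact ⟨v, by simp, rfl⟩
  have h3 : chi (bd src tgt univ) x = ∏ v, chi (bd src tgt {v}) x := chi_bd _ _ univ x
  have h4 : bd src tgt univ = ∅ := by
    ext e; rw [mem_bd]; simp
  rw [h4, chi_empty, Finset.prod_congr rfl (fun v _ => h2 v)] at h3
  have h5 : ∏ v : Wv, sg (sgn3 v1 v) = -1 := by
    rw [Finset.prod_eq_single v1]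
    · simp [sgn3, sg]
    · intro v _ hv
      simp [sgn3, sg, hv]
    · intro h; exact absurd (mem_univ _) h
  rw [h5] at h3
  norm_num at h3

theorem len_tau3_le (hΔ : 1 ≤ Δ) (v0 : E) (v1 : Wv) :
    (tau3 src tgt Δ v0 v1).len ≤ Fintype.card Wv * (24 * Δ ^ 2 + 1) + 4 := by
  have h1 := len_foldr (bot v0) (24 * Δ ^ 2) (axl3 src tgt Δ v0 v1) (fun A hA => by
    rw [axl3, List.mem_map] at hA
    obtain ⟨v, _, rfl⟩ := hA
    exact len_parAx v0 Δ hΔ _ _)
  rw [len_bot] at h1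
  have h2 : (axl3 src tgt Δ v0 v1).length = Fintype.card Wv := by
    rw [axl3, List.length_map, Finset.length_toList, Finset.card_univ]
  rw [h2] at h1
  exact h1

theorem le_len_tau3 (v0 : E) (v1 : Wv) :
    Fintype.card Wv ≤ (tau3 src tgt Δ v0 v1).len := by
  have h1 := length_le_len_foldr (bot v0) (axl3 src tgt Δ v0 v1)
  have h2 : (axl3 src tgt Δ v0 v1).length = Fintype.card Wv := by
    rw [axl3, List.length_map, Finset.length_toList, Finset.card_univ]
  rw [h2] at h1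
  exact h1

theorem axl3_spec (h : ∀ w, (bd src tgt {w}).card ≤ Δ) (v0 : E) (v1 : Wv) :
    ∀ A ∈ axl3 src tgt Δ v0 v1, A.vars.card ≤ Δ + 1 ∧ ∃ v : Wv,
      ∀ x, A.eval x = true ↔ chi (bd src tgt {v}) x = sg (sgn3 v1 v) := by
  intro A hA
  rw [axl3, List.mem_map] at hA
  obtain ⟨v, _, rfl⟩ := hA
  refine ⟨?_, v, eval_axm3 h v0 v1 v⟩
  have h1 : (axm3 src tgt Δ v0 v1 v).vars ⊆ insert v0 (bd src tgt {v}) := vars_parAx _ _ _ _
  have h2 := Finset.card_le_card h1
  have h3 := Finset.card_insert_le v0 (bd src tgt {v})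
  have h4 := h v
  omega

/-- the tautology with variables in `ℕ` -/
theorem exists_nat_tau (hΔ : 1 ≤ Δ) (h : ∀ w, (bd src tgt {w}).card ≤ Δ) (v0 : E) (v1 : Wv) :
    ∃ (τ : Fm ℕ) (g : ℕ → E), (∀ x, τ.eval x = true) ∧ Fintype.card Wv ≤ τ.enc.length ∧
      τ.enc.length ≤ (Fintype.card Wv * (24 * Δ ^ 2 + 1) + 4) *
        (2 * Nat.size (Fintype.card E) + 2) ∧
      τ.ren g = tau3 src tgt Δ v0 v1 := by
  set φ := Fintype.equivFin E with hφ
  set f : E → ℕ := fun v => (φ v : ℕ) with hf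
  have hfB : ∀ v, f v < Fintype.card E := fun v => (φ v).isLt
  set g : ℕ → E := fun i => if h : i < Fintype.card E then φ.symm ⟨i, h⟩ else v0 with hg
  have hgf : ∀ v, g (f v) = v := by
    intro v
    have h1 : f v < Fintype.card E := (φ v).isLt
    rw [hg]
    simp only [h1, dif_pos]
    exact φ.symm_apply_apply v
  refine ⟨(tau3 src tgt Δ v0 v1).ren f, g, fun x => ?_, ?_, ?_, ?_⟩
  · rw [eval_ren]; exact tau3_taut h v0 v1 _
  · refine le_trans ?_ (len_le_enc _)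
    rw [len_ren]
    exact le_len_tau3 v0 v1
  · refine (enc_le f _ hfB _).trans ?_
    exact Nat.mul_le_mul_right _ (len_tau3_le hΔ v0 v1)
  · rw [ren_ren]
    simp only [hgf]
    exact ren_id _

end Pool.Agent.H3.Frg3
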