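import Mathlib
import Pool.Agent.H3.Frg3.Taut3
import Pool.Agent.H3.Frg3.Mid
import Pool.Agent.H3.Frg3.Junta
import Pool.Agent.H3.Frg3.DegLeaf
import Pool.Agent.H3.Frg3.Dualq
import Pool.Agent.H3.Frg3.RGraph
import Pool.Agent.H3.Frg3.NetLG

set_option autoImplicit false
set_option linter.unusedSectionVars false

/-!
# Several stages: definitions
-/

namespace Pool.Agent.H3.Frg3

open Finset Pool.Agent.H3.Frg Pool.Agent.H3.Frg2

/-- iterated instances of subformulas -/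
def deep {V : Type} (v : V) : ℕ → List (Fm V) → List (Fm V)
  | 0, l => l
  | j + 1, l => (deep v j l).flatMap (allInst v)

/-- the Boolean function `g` depends on at most `σ` variables -/
def Sup {E : Type} [Fintype E] [DecidableEq E] (σ : ℕ) (g : (E → Bool) → Bool) : Prop :=
  ∃ S : Finset E, S.card ≤ σ ∧ ∀ T, W (rl g) T ≠ 0 → T ⊆ S

/-- The lower bound on one level: there is no proof with at most `cnt` lines of size at most `s`
if all short formulas that occur have coherent values of degree `t` with at most `σ` variables. -/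
def Lev {E Wv : Type} [Fintype E] [DecidableEq E] [Fintype Wv] [DecidableEq Wv]
    {src tgt : E → Wv} (fam : PFam src tgt) (j h k Kx t σ s ℓ cnt : ℕ) : Prop :=
  ∀ (V : Type) (v0 : V) (F : V → (E → Bool) → Bool) (ε : Wv → ℝ) (hε : ∀ v, ε v * ε v = 1)
    (Sch : Set (Fm ℕ)), (∀ ψ ∈ Sch, ∀ x : ℕ → Bool, ψ.eval x = true) →
    (∀ ψ ∈ Sch, ψ.len ≤ ℓ) →
    ∀ (L : ℕ) (pf : Fin L → Fm V), IsProof Sch pf → (∀ i, (pf i).len ≤ s) → L ≤ cnt →
    (∀ B ∈ deep v0 (j + 1) (List.ofFn pf), B.len ≤ 4 * h →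
      ∃ g : (E → Bool) → Bool, Dg (rl g) t ∧ Sup σ g ∧ CE (fam.P ε hε) F k B g) →
    ∀ As : List (Fm V), (∀ A ∈ As, (∀ B ∈ A.subs, Dg (rl (hv F B)) Kx) ∧
      (fam.P ε hε).Z (fun z => rl (hv F A) z - 1)) →
    (∃ i, pf i = As.foldr Fm.imp (bot v0)) → False

/-- degrees of the graphs of the tower -/
def dgf : ℕ → ℕ
  | 0 => 80
  | j + 1 => 3 * dgf j + 292

/-- all numerical conditions -/
structure Nq (J n k t X Dm kt Kt Mt K s ℓ cnt : ℕ) (u0 η : ℝ) : Prop where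
  /-- degree bound -/
  dm : dgf J ≤ Dm
  /-- number of vertices of the bottom graph -/
  n1 : 1000 ≤ n
  /-- allowed degree at the bottom -/
  n2 : 3 * 1000 * (2 * (Mt * Dm ^ J)) < n
  /-- size of sets of axioms -/
  n3 : 3 * K ≤ n
  /-- room for sets of axioms -/
  n4 : 80 * K ≤ Mt * Dm ^ J
  /-- closures are small -/
  n5 : 1024 * (1000 * ((1 + 72 * X) * (4 * t * 2 ^ t))) ≤ n
  /-- threshold for degrees -/
  t1 : 16 ≤ t
  /-- ratio of sizes -/
  x1 : 1 ≤ X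
  /-- degree of coherent values -/
  k1 : t * (1 + 72 * X) ≤ kt
  /-- degree of coherent values -/
  k2 : 20 * kt ≤ Mt
  /-- degree of coherent values -/
  k3 : 10 * (ℓ + 2) * (kt + Kt) ≤ Mt
  /-- projection -/
  p1 : Dm * (t * (1 + 72 * X)) ≤ K
  /-- projection -/
  p2 : Dm * (Dm * (t * (1 + 72 * X))) + Dm * (t * (1 + 72 * X)) ≤ Mt
  /-- size of the lines -/
  s1 : t * (4 * X ^ J + 18 * s) ≤ 4 * X ^ J * (kt * Dm ^ J)
  /-- union bound -/
  c1 : ((cnt * (3 * (s + 3 * J) ^ 2) ^ J : ℕ) : ℝ) * 2 < (u0 / 4) ^ (t + 1)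
  /-- base of the moments -/
  u1 : 4 ≤ u0
  /-- noise -/
  e1 : (Dm : ℝ) * (u0 ^ (Dm + 1)) ^ (2 * Dm) / 2 ^ k ≤ η
  /-- noise -/
  e2 : ((t : ℝ) + 1) * η ≤ 1 / 100
  /-- noise -/
  e3 : (1 + 40 * (((t : ℝ) + 1) * η) ^ 2) ^ (1 + 72 * X) ≤ 2

end Pool.Agent.H3.Frg3
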