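import Mathlib
import Pool.Agent.H3.Frg3.QDefs

set_option autoImplicit false
set_option linter.unusedSectionVars false

/-!
# Module QDEEP: iterated instances; exact values of short formulas

`deep` is in `QDefs.lean`; `allInst`, `Fm.subs`, `Fm.insts`, `CE`, `hv`, `rl` are in
`Pool/Agent/H3/Frg2/Defs.lean`; `length_allInst` is in `Frg2/Decomp.lean`, `W_ind_supp`,
`card_vars_le`, `vars_subs` are in `Frg2/Small.lean`; lemmas on `PA`, `CE` in `Frg2/PALem.lean`.

* `len_allInst`: subformulas are not longer; an instance replaces an occurrence (length at least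
  1) by `top v` (3 symbols) or `bot v` (4 symbols).
* `deep_len`, `length_deep`: induction on `j` (for `length_deep` bound each term of the sum of
  lengths, `List.length_flatMap`, by `3 * (s + 3 * j) ^ 2`).
* `ce_mono3`: induction on `A`.
* `ce_exact`: induction on `A`, all pseudo-equalities are equalities (`z_zero`, `z_congr`).
* `top_rep`: `g = hv F B = fun z => B.eval z`; `rl g = ind B` and `W_ind_supp` give the degree and
  the support.
-/

namespace Pool.Agent.H3.Frg3

open Finset Pool.Agent.H3.Frg Pool.Agent.H3.Frg2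

private theorem self_mem_subs {V : Type} (A : Fm V) : A ∈ A.subs := by
  cases A <;> simp [Fm.subs]

private theorem len_insts {V : Type} (v : V) (A : Fm V) :
    ∀ B ∈ A.insts v, B.len ≤ A.len + 3 := by
  induction A with
  | var i =>
    intro B hB
    simp only [Fm.insts, List.mem_cons, List.not_mem_nil, or_false] at hB
    rcases hB with rfl | rfl
    · simp [top, Fm.len]
    · simp [bot, Fm.len]
  | neg A ih =>
    intro B hB
    have hA := Fm_len_pos A
    simp only [Fm.insts, List.mem_cons, List.mem_map] at hB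
    rcases hB with rfl | rfl | ⟨C, hC, rfl⟩
    · simp only [top, Fm.len]
      omega
    · simp only [bot, Fm.len]
      omega
    · have := ih C hC
      simp only [Fm.len]
      omega
  | imp A B ihA ihB =>
    intro D hD
    have hA := Fm_len_pos A
    simp only [Fm.insts, List.mem_cons, List.mem_append, List.mem_map] at hD
    rcases hD with rfl | rfl | ⟨C, hC, rfl⟩ | ⟨C, hC, rfl⟩
    · simp only [top, Fm.len]
      omega
    · simp only [bot, Fm.len]
      omega
    · have := ihA C hC
      simp only [Fm.len]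
      omega
    · have := ihB C hC
      simp only [Fm.len]
      omega

theorem len_allInst {V : Type} (v : V) (A : Fm V) : ∀ B ∈ allInst v A, B.len ≤ A.len + 3 := by
  induction A with
  | var i =>
    intro B hB
    simp only [allInst, Fm.subs, List.flatMap_cons, List.flatMap_nil, List.append_nil,
      List.mem_cons] at hB
    rcases hB with rfl | hB
    · omega
    · exact len_insts v _ B hB
  | neg A ih =>
    intro B hB
    rw [allInst_neg, List.mem_append, List.mem_cons] at hB
    rcases hB with (rfl | hB) | hB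
    · omega
    · exact len_insts v _ B hB
    · have := ih B hB
      simp only [Fm.len]
      omega
  | imp A B ihA ihB =>
    intro C hC
    rw [allInst_imp, List.mem_append, List.mem_append, List.mem_cons] at hC
    rcases hC with (rfl | hC) | hC | hC
    · omega
    · exact len_insts v _ C hC
    · have := ihA C hC
      simp only [Fm.len]
      omega
    · have := ihB C hC
      simp only [Fm.len]
      omega

theorem deep_len {V : Type} (v : V) (l : List (Fm V)) (s : ℕ) (hl : ∀ A ∈ l, A.len ≤ s) (j : ℕ) :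
    ∀ B ∈ deep v j l, B.len ≤ s + 3 * j := by
  induction j with
  | zero => exact hl
  | succ j ih =>
    intro B hB
    simp only [deep, List.mem_flatMap] at hB
    obtain ⟨A, hA, hB⟩ := hB
    have h1 := ih A hA
    have h2 := len_allInst v A B hB
    omega

theorem length_deep {V : Type} (v : V) (l : List (Fm V)) (s : ℕ) (hl : ∀ A ∈ l, A.len ≤ s)
    (j : ℕ) : (deep v j l).length ≤ l.length * (3 * (s + 3 * j) ^ 2) ^ j := by
  induction j with
  | zero => simp [deep]
  | succ j ih =>
    have h1 : (deep v (j + 1) l).length ≤ (deep v j l).length * (3 * (s + 3 * j) ^ 2) := by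
      simp only [deep]
      rw [List.length_flatMap]
      have h2 : ∀ x ∈ (deep v j l).map (fun A => (allInst v A).length),
          x ≤ 3 * (s + 3 * j) ^ 2 := by
        intro x hx
        rw [List.mem_map] at hx
        obtain ⟨A, hA, rfl⟩ := hx
        have h3 := deep_len v l s hl j A hA
        calc (allInst v A).length ≤ 3 * A.len ^ 2 := length_allInst v A
          _ ≤ 3 * (s + 3 * j) ^ 2 := Nat.mul_le_mul_left 3 (Nat.pow_le_pow_left h3 2)
      have h4 := List.sum_le_card_nsmul _ _ h2
      rw [List.length_map, smul_eq_mul] at h4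
      exact h4
    have h5 : 3 * (s + 3 * j) ^ 2 ≤ 3 * (s + 3 * (j + 1)) ^ 2 :=
      Nat.mul_le_mul_left 3 (Nat.pow_le_pow_left (by omega) 2)
    calc (deep v (j + 1) l).length ≤ (deep v j l).length * (3 * (s + 3 * j) ^ 2) := h1
      _ ≤ (l.length * (3 * (s + 3 * j) ^ 2) ^ j) * (3 * (s + 3 * j) ^ 2) :=
          Nat.mul_le_mul_right _ ih
      _ ≤ (l.length * (3 * (s + 3 * (j + 1)) ^ 2) ^ j) * (3 * (s + 3 * (j + 1)) ^ 2) :=
          Nat.mul_le_mul (Nat.mul_le_mul_left _ (Nat.pow_le_pow_left h5 j)) h5
      _ = l.length * (3 * (s + 3 * (j + 1)) ^ 2) ^ (j + 1) := by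
          rw [pow_succ (3 * (s + 3 * (j + 1)) ^ 2) j, mul_assoc]

theorem ce_mono3 {V X : Type} {P : PA X} {F : V → X → Bool} {k k' : ℕ} (hk : k ≤ k')
    {A : Fm V} : ∀ {p : X → Bool}, CE P F k A p → CE P F k' A p := by
  induction A with
  | var i => intro p h; exact ⟨P.dg_mono h.1 hk, h.2⟩
  | neg A ih =>
    intro p h
    obtain ⟨h1, a, ha, h2⟩ := h
    exact ⟨P.dg_mono h1 hk, a, ih ha, h2⟩
  | imp A B ihA ihB =>
    intro p h
    obtain ⟨h1, a, b, ha, hb, h2⟩ := h
    exact ⟨P.dg_mono h1 hk, a, b, ihA ha, ihB hb, h2⟩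

theorem ce_exact {V X : Type} (P : PA X) (F : V → X → Bool) (k : ℕ) (A : Fm V)
    (h : ∀ B ∈ A.subs, P.Dg (rl (hv F B)) k) : CE P F k A (hv F A) := by
  induction A with
  | var i => exact ⟨h _ (self_mem_subs _), P.peq_of_eq fun z => rfl⟩
  | neg A ih =>
    refine ⟨h _ (self_mem_subs _), hv F A, ih fun B hB => h B ?_, P.peq_of_eq fun z => ?_⟩
    · simp only [Fm.subs, List.mem_cons]
      exact Or.inr hB
    · rw [hv_neg]
      exact rl_not _ z
  | imp A B ihA ihB =>
    refine ⟨h _ (self_mem_subs _), hv F A, hv F B, ihA fun C hC => h C ?_,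
      ihB fun C hC => h C ?_, P.peq_of_eq fun z => ?_⟩
    · simp only [Fm.subs, List.mem_cons, List.mem_append]
      exact Or.inr (Or.inl hC)
    · simp only [Fm.subs, List.mem_cons, List.mem_append]
      exact Or.inr (Or.inr hC)
    · rw [hv_imp]
      exact rl_imp _ _ z

theorem top_rep {E Wv : Type} [Fintype E] [DecidableEq E] [Fintype Wv] [DecidableEq Wv]
    {src tgt : E → Wv} (fam : PFam src tgt) (ε : Wv → ℝ) (hε : ∀ v, ε v * ε v = 1) {k t σ : ℕ}
    (hk : 16 ≤ k) (ht : 16 ≤ t) (hσ : 16 ≤ σ) (B : Fm E) (hB : B.len ≤ 16) :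
    ∃ g : (E → Bool) → Bool, Dg (rl g) t ∧ Sup σ g ∧
      CE (fam.P ε hε) (fun i z => z i) k B g := by
  have hvars : B.vars.card ≤ 16 := (card_vars_le B).trans hB
  have hdg : ∀ (C : Fm E) (m : ℕ), C.vars ⊆ B.vars → 16 ≤ m →
      Dg (rl (hv (fun (i : E) (z : E → Bool) => z i) C)) m := by
    intro C m hC hm T hT
    by_contra hne
    have h1 : T ⊆ C.vars := W_ind_supp C T hne
    have h2 := Finset.card_le_card (h1.trans hC)
    omega
  refine ⟨hv (fun (i : E) (z : E → Bool) => z i) B, hdg B t (Finset.Subset.refl _) ht,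
    ⟨B.vars, hvars.trans hσ, fun T hT => W_ind_supp B T hT⟩, ?_⟩
  refine ce_exact _ _ _ _ fun C hC => ?_
  rw [fam.dg]
  exact hdg C k (vars_subs B C hC) hk

end Pool.Agent.H3.Frg3
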