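import Mathlib
import Pool.Agent.H3.Frg3.QDefs

set_option autoImplicit false
set_option linter.unusedSectionVars false

/-!
# Module QLEAF: spectral bound, support for formulas over low degree Boolean functions

`vl`, `Fm.all` are in `Mid.lean` (with `rl_vl_neg`, `rl_vl_imp`), `Sup` in `QDefs.lean`.

* `vl_bound`: induction on `A` as in `weighted_moment` of `Pool/Agent/H3/Frg2/Quad.lean`, with
  `deg_bound` (`DegLeaf.lean`) for a variable and `mult_compl` (`Frg2/Quad.lean`) for the negation
  and the implication `A → B`, whose value is `1 - a (1 - b)`.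
* `vl_supp`: `W (rl g) T ≠ 0 → T ⊆ S` for all `T` is equivalent to: `g` does not change when a
  variable outside `S` is changed. Only one direction each way is needed: if `W (rl g)` is supported
  in `S` then `g x = g y` whenever `x = y` on `S` (inversion formula); and if `g x = g y` whenever
  `x = y` on `S` then `W (rl g) T = 0` for `T` not inside `S` (flip a variable of `T` outside `S`,
  as in `W_ind_supp` of `Frg2/Small.lean`). The union of the supports of the leaves works, the
  number of leaves is at most `A.len`.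
-/

namespace Pool.Agent.H3.Frg3

open Finset Pool.Agent.H3.Frg Pool.Agent.H3.Frg2

variable {E : Type} [Fintype E] [DecidableEq E]

private theorem rl_idem {X : Type} (p : X → Bool) (x : X) : rl p x * rl p x = rl p x := by
  unfold rl; split_ifs <;> norm_num

theorem vl_bound {Φ : Finset E → ℝ} (hΦ : ∀ S, 0 < Φ S) {η : ℝ} (hη : 0 < η)
    (hlip : ∀ S i, Φ (symmDiff S {i}) ≤ (1 + η) * Φ S) (t : ℕ)
    (ht : ((t:ℝ) + 1) * η ≤ 1 / 100) (A : Fm ((E → Bool) → Bool))
    (hA : A.all fun g => Dg (rl g) t) :
    ∀ f : (E → Bool) → ℝ, NP Φ (fun x => rl (vl A) x * f x)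
      ≤ (1 + 40 * (((t:ℝ) + 1) * η) ^ 2) ^ A.len * NP Φ f := by
  have h1 : (1:ℝ) ≤ 1 + 40 * (((t:ℝ) + 1) * η) ^ 2 := by
    nlinarith [sq_nonneg (((t:ℝ) + 1) * η)]
  set c : ℝ := 1 + 40 * (((t:ℝ) + 1) * η) ^ 2 with hc
  have h0 : (0:ℝ) < c := by linarith
  induction A with
  | var g =>
    intro f
    have h2 := deg_bound hΦ hη hlip g t hA ht f
    simpa [Fm.len, vl_var] using h2
  | neg A ih =>
    intro f
    simp only [rl_vl_neg]
    refine (mult_compl hΦ (rl (vl A)) (rl_idem _) _ (one_le_pow₀ h1) (ih hA) f).trans ?_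
    refine mul_le_mul_of_nonneg_right ?_ (NP_nonneg hΦ f)
    exact pow_le_pow_right₀ h1 (by simp [Fm.len])
  | imp A B ihA ihB =>
    intro f
    have hA' : A.all (fun g => Dg (rl g) t) := hA.1
    have hB' : B.all (fun g => Dg (rl g) t) := hA.2
    simp only [rl_vl_imp]
    have h5 : NP Φ (fun x => (1 - rl (vl A) x * (1 - rl (vl B) x)) * f x) ≤
        c ^ (A.len + B.len) * NP Φ f := by
      refine mult_compl hΦ (fun x => rl (vl A) x * (1 - rl (vl B) x)) (fun x => ?_) _
        (one_le_pow₀ h1) (fun f => ?_) f
      · have hA := rl_idem (vl A) x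
        have hB := rl_idem (vl B) x
        linear_combination (1 - rl (vl B) x) ^ 2 * hA + rl (vl A) x * hB
      · have h2 : (fun x => rl (vl A) x * (1 - rl (vl B) x) * f x)
            = fun x => rl (vl A) x * ((1 - rl (vl B) x) * f x) := by funext x; ring
        rw [h2]
        refine (ihA hA' _).trans ?_
        have h3 := mult_compl hΦ (rl (vl B)) (rl_idem _) _ (one_le_pow₀ h1) (ihB hB') f
        calc c ^ A.len * NP Φ (fun x => (1 - rl (vl B) x) * f x)
            ≤ c ^ A.len * (c ^ B.len * NP Φ f) :=
              mul_le_mul_of_nonneg_left h3 (by positivity)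
          _ = _ := by rw [pow_add]; ring
    refine h5.trans ?_
    refine mul_le_mul_of_nonneg_right ?_ (NP_nonneg hΦ f)
    exact pow_le_pow_right₀ h1 (by simp [Fm.len])

/-- a function with spectral support in `S` depends only on the variables of `S` -/
theorem QLeaf.congr_of_supp {g : (E → Bool) → Bool} {S : Finset E}
    (h : ∀ T, W (rl g) T ≠ 0 → T ⊆ S) {x y : E → Bool} (hxy : ∀ i ∈ S, x i = y i) :
    g x = g y := by
  have h1 := inversion (rl g) x
  have h2 := inversion (rl g) y
  have h3 : ∑ T : Finset E, W (rl g) T * chi T x = ∑ T : Finset E, W (rl g) T * chi T y := by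
    refine Finset.sum_congr rfl fun T _ => ?_
    by_cases hT : W (rl g) T = 0
    · rw [hT, zero_mul, zero_mul]
    · congr 1
      unfold chi
      exact Finset.prod_congr rfl fun i hi => by rw [hxy i (h T hT hi)]
  rw [h3, h2] at h1
  have h4 : rl g x = rl g y := by
    have h5 : (2:ℝ) ^ Fintype.card E ≠ 0 := by positivity
    exact (mul_left_cancel₀ h5 h1).symm
  unfold rl at h4
  cases hx : g x <;> cases hy : g y <;> simp_all

/-- a function of the variables of `S` has spectral support in `S` -/
theorem QLeaf.supp_of_congr {g : (E → Bool) → Bool} {S : Finset E}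
    (h : ∀ x y : E → Bool, (∀ i ∈ S, x i = y i) → g x = g y) (T : Finset E)
    (hT : W (rl g) T ≠ 0) : T ⊆ S := by
  intro i hi
  by_contra hn
  have h1 := W_jflip (rl g) i T
  rw [if_pos hi] at h1
  have h2 : (fun x => rl g x - rl g (jflip i x)) = fun _ => (0:ℝ) := by
    funext x
    have h3 : g (jflip i x) = g x := by
      refine h _ _ fun j hj => ?_
      show Function.update x i (!x i) j = x j
      rw [Function.update_of_ne]
      rintro rfl
      exact hn hj
    unfold rl
    rw [h3]
    ring
  rw [h2] at h1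
  have h4 : W (fun _ : E → Bool => (0:ℝ)) T = 0 := by
    unfold W
    simp
  rw [h4] at h1
  apply hT
  linarith

theorem vl_supp {σ : ℕ} (A : Fm ((E → Bool) → Bool)) (hA : A.all fun g => Sup σ g) :
    Sup (A.len * σ) (vl A) := by
  have key : ∃ S : Finset E, S.card ≤ A.len * σ ∧
      ∀ x y : E → Bool, (∀ i ∈ S, x i = y i) → vl A x = vl A y := by
    induction A with
    | var g =>
      obtain ⟨S, hS, h⟩ := hA
      exact ⟨S, by simpa [Fm.len] using hS, fun x y hxy => QLeaf.congr_of_supp h hxy⟩
    | neg A ih =>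
      obtain ⟨S, hS, h⟩ := ih hA
      refine ⟨S, hS.trans (Nat.mul_le_mul_right σ (by simp [Fm.len])), fun x y hxy => ?_⟩
      have h1 := h x y hxy
      unfold vl at h1 ⊢
      simp only [Fm.eval, h1]
    | imp A B ihA ihB =>
      obtain ⟨S, hS, h⟩ := ihA hA.1
      obtain ⟨S', hS', h'⟩ := ihB hA.2
      refine ⟨S ∪ S', ?_, fun x y hxy => ?_⟩
      · refine (Finset.card_union_le S S').trans ?_
        have e1 : (Fm.imp A B).len * σ = A.len * σ + B.len * σ + σ := by
          simp only [Fm.len]
          ring
        omega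
      · have h1 := h x y (fun i hi => hxy i (Finset.mem_union_left _ hi))
        have h2 := h' x y (fun i hi => hxy i (Finset.mem_union_right _ hi))
        unfold vl at h1 h2 ⊢
        simp only [Fm.eval, h1, h2]
  obtain ⟨S, hS, h⟩ := key
  exact ⟨S, hS, fun T hT => QLeaf.supp_of_congr h T hT⟩

end Pool.Agent.H3.Frg3
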