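import Mathlib
import Pool.Agent.H3.Frg3.QDeep
import Pool.Agent.H3.Frg3.QLeaf

set_option autoImplicit false
set_option linter.unusedSectionVars false

/-!
# One stage for formulas over low degree functions with small support
-/

namespace Pool.Agent.H3.Frg3

open Finset Pool.Agent.H3.Frg Pool.Agent.H3.Frg2

variable {E Wv E' Wv' C : Type} [Fintype E] [DecidableEq E] [Fintype Wv] [DecidableEq Wv]
  [Fintype E'] [DecidableEq E'] [Fintype Wv'] [DecidableEq Wv'] [Fintype C] [DecidableEq C]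
  {src tgt : E → Wv} {src' tgt' : E' → Wv'} {cen : C → Wv' → Wv}
  {lvi : C → E → Finset E'} {D : ℕ} {ε : Wv → ℝ}

theorem all_mono {V : Type} {p q : V → Prop} (h : ∀ i, p i → q i) (A : Fm V) :
    A.all p → A.all q := by
  induction A with
  | var i => exact h i
  | neg A ih => exact ih
  | imp A B ihA ihB => exact fun h1 => ⟨ihA h1.1, ihB h1.2⟩

theorem stage_bad {D' c0 c0' t H σ : ℕ} (hst : Stg src tgt src' tgt' cen lvi D)
    (hch : ∀ X : Finset Wv, min X.card (Fintype.card Wv - X.card) ≤ c0 * (bd src tgt X).card)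
    (hG : LG src' tgt' D' c0' 1024) (hε : ∀ v, ε v * ε v = 1) [Nonempty C]
    (u0 u η : ℝ) (hu0 : 4 ≤ u0) (hu : u = u0 ^ (D' + 1)) (hη : 0 < η)
    (hlip : ∀ (Y : Finset Wv) (T : Finset E) (i : E),
      Ph src tgt lvi u Y (symmDiff T {i}) ≤ (1 + η) * Ph src tgt lvi u Y T)
    (ht : ((t:ℝ) + 1) * η ≤ 1 / 100) (hH : (1 + 40 * (((t:ℝ) + 1) * η) ^ 2) ^ H ≤ 2)
    (hW' : 1 ≤ Fintype.card Wv') (hC : 1024 * (c0 * (H * σ)) ≤ Fintype.card Wv')
    (Ah : Fm ((E → Bool) → Bool)) (hAh : Ah.all fun g => Dg (rl g) t ∧ Sup σ g)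
    (hlen : Ah.len ≤ H) :
    ∃ (Y : Finset Wv) (πs : C → Wv' → Finset E'),
      (∀ c, IsDual src' tgt' (πs c) (cn cen c Y)) ∧
      ∃ Bd : Finset (C × (E → Bool)), (∀ ω ∈ Omg src tgt ε cen, ω ∉ Bd →
        Dg (rl (GP src tgt src' tgt' ε cen lvi ω.1 ω.2 (πs ω.1) (cn cen ω.1 Y) (vl Ah))) t) ∧
        (Bd.card : ℝ) * (u0 / 4) ^ (t + 1) ≤ 2 * ((Omg src tgt ε cen).card : ℝ) := by
  classical
  have hu01 : 1 ≤ u0 := by linarith
  have hu1 : 1 ≤ u := by rw [hu]; exact one_le_pow₀ hu01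
  have hne : Nonempty Wv' := Fintype.card_pos_iff.mp hW'
  have hconn : Con src tgt := con_of_cheeger hch
  obtain ⟨c1⟩ := ‹Nonempty C›
  have hWW : Fintype.card Wv' ≤ Fintype.card Wv := Fintype.card_le_of_injective _ (hst.inj c1)
  -- support and closure
  obtain ⟨S0, hS0c, hS0⟩ := vl_supp Ah (all_mono (fun g hg => hg.2) Ah hAh)
  have hS0c' : S0.card ≤ H * σ := hS0c.trans (Nat.mul_le_mul_right _ hlen)
  have hx1 : c0 * S0.card ≤ c0 * (H * σ) := Nat.mul_le_mul_left _ hS0c'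
  obtain ⟨Y, -, hYc, hclo⟩ := exists_clos hch S0 (by omega)
  have hYc' : Y.card ≤ c0 * (H * σ) := hYc.trans hx1
  have hY : Y ≠ univ := by
    intro h1
    rw [h1, Finset.card_univ] at hYc'
    omega
  have hcn : ∀ c : C, (cn cen c Y).card ≤ Y.card := fun c => card_cn_le (hst.inj c) Y
  have hdual : ∀ c : C, ∃ π : Wv' → Finset E', IsDual src' tgt' π (cn cen c Y) := fun c =>
    exists_dualq hG (cn cen c Y) (by have := hcn c; omega)
  choose πs hπs using hdual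
  refine ⟨Y, πs, hπs, (Omg src tgt ε cen).filter fun ω => ¬ Dg (rl (GP src tgt src' tgt' ε cen
    lvi ω.1 ω.2 (πs ω.1) (cn cen ω.1 Y) (vl Ah))) t, fun ω hω h1 => ?_, ?_⟩
  · by_contra h2
    exact h1 (Finset.mem_filter.mpr ⟨hω, h2⟩)
  have hgood : ∀ c ∈ (univ : Finset C), (∃ w1, cen c w1 ∉ Y) ∧
      IsDual src' tgt' (πs c) (cn cen c Y) := by
    intro c _
    refine ⟨?_, hπs c⟩
    by_contra h1
    push Not at h1
    have h2 : cn cen c Y = univ := Finset.eq_univ_of_forall fun w => mem_cn.mpr (h1 w)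
    have h3 := hcn c
    rw [h2, Finset.card_univ] at h3
    omega
  -- `α`
  set m := Fintype.card Wv - Fintype.card Wv' with hm
  set NV : ℝ := (2:ℝ) ^ Fintype.card E with hNV
  set α : ℝ := NV / 2 ^ m with hα
  have hαpos : 0 < α := by rw [hα, hNV]; positivity
  have hAc : ∀ c : C, ((Asn src tgt ε cen c).card : ℝ) = α := by
    intro c
    have h1 := card_Asn (src := src) (tgt := tgt) (cen := cen) (c := c) hconn hε
    have h3 : (nce cen c).card = m := by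
      have := card_nce (hst.inj c); omega
    rw [h3] at h1
    rw [hα, eq_div_iff (by positivity), mul_comm]
    exact h1
  have hneC : Nonempty C := ⟨c1⟩
  set CC : ℝ := (Fintype.card C : ℝ) with hCC
  have hCCpos : 0 < CC := by rw [hCC]; exact_mod_cast Fintype.card_pos
  have hOm : ((Omg src tgt ε cen).card : ℝ) = CC * α := by
    rw [card_Omg]
    push_cast
    rw [Finset.sum_congr rfl (fun c _ => hAc c), Finset.sum_const, Finset.card_univ,
      nsmul_eq_mul]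
  set B3 : C → Finset (E → Bool) := fun c =>
    (Asn src tgt ε cen c).filter fun a => ¬ Dg (rl (GP src tgt src' tgt' ε cen lvi c a (πs c)
      (cn cen c Y) (vl Ah))) t with hB3
  have h1 : (((Omg src tgt ε cen).filter fun ω => ¬ Dg (rl (GP src tgt src' tgt' ε cen lvi ω.1
      ω.2 (πs ω.1) (cn cen ω.1 Y) (vl Ah))) t).card : ℝ) ≤ ∑ c : C, ((B3 c).card : ℝ) := by
    have h2 := card_pairs3 (univ : Finset C) B3 ((Omg src tgt ε cen).filter fun ω =>
      ¬ Dg (rl (GP src tgt src' tgt' ε cen lvi ω.1 ω.2 (πs ω.1) (cn cen ω.1 Y) (vl Ah))) t)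
      (fun ω hω => by
        have h3 := Finset.mem_filter.mp hω
        exact ⟨mem_univ _, Finset.mem_filter.mpr ⟨mem_Omg.mp h3.1, h3.2⟩⟩)
    exact_mod_cast h2
  have hsp : NP (Ph src tgt lvi u Y) (fun x => rl (vl Ah) x * phY src tgt ε Y x)
      ≤ 2 * NP (Ph src tgt lvi u Y) (phY src tgt ε Y) := by
    have h6 := vl_bound (fun S => Ph_pos (src := src) (tgt := tgt) (lvi := lvi) hu1 Y S)
      hη (fun S i => hlip Y S i) t ht Ah (all_mono (fun g hg => hg.1) Ah hAh)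
      (phY src tgt ε Y)
    refine le_trans h6 ?_
    refine mul_le_mul_of_nonneg_right (le_trans ?_ hH) ?_
    · refine pow_le_pow_right₀ ?_ hlen
      have : 0 ≤ 40 * (((t:ℝ) + 1) * η) ^ 2 := by positivity
      linarith
    · exact NP_nonneg (fun S => Ph_pos (src := src) (tgt := tgt) (lvi := lvi) hu1 Y S) _
  have hmain := main_moment3 hst hconn hG.deg hε hY hclo univ πs hgood (vl Ah)
    hS0 u0 u 2 hu01 hu hsp
  have h2 : (u0 / 4) ^ (t + 1) * 4 ^ Fintype.card E' * ∑ c : C, ((B3 c).card : ℝ)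
      ≤ ∑ c : C, ∑ a ∈ Asn src tgt ε cen c, ∑ R : Finset E', u0 ^ R.card *
        W (rl (GP src tgt src' tgt' ε cen lvi c a (πs c) (cn cen c Y) (vl Ah))) R ^ 2 := by
    rw [Finset.mul_sum]
    refine Finset.sum_le_sum fun c _ => ?_
    calc (u0 / 4) ^ (t + 1) * 4 ^ Fintype.card E' * ((B3 c).card : ℝ)
        = ∑ a ∈ B3 c, (u0 / 4) ^ (t + 1) * 4 ^ Fintype.card E' := by
          rw [Finset.sum_const, nsmul_eq_mul]; ring
      _ ≤ ∑ a ∈ B3 c, ∑ R : Finset E', u0 ^ R.card *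
          W (rl (GP src tgt src' tgt' ε cen lvi c a (πs c) (cn cen c Y) (vl Ah))) R ^ 2 := by
          refine Finset.sum_le_sum fun a ha => ?_
          exact gran_moment3 _ t u0 hu0 (Finset.mem_filter.mp ha).2
      _ ≤ _ := Finset.sum_le_sum_of_subset_of_nonneg (Finset.filter_subset _ _)
          fun a _ _ => Finset.sum_nonneg fun R _ => by positivity
  have h3 : (2:ℝ) ^ m * ((u0 / 4) ^ (t + 1) * 4 ^ Fintype.card E' *
      ∑ c : C, ((B3 c).card : ℝ))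
      ≤ (4:ℝ) ^ Fintype.card E' * NV * 2 * CC := by
    calc (2:ℝ) ^ m * ((u0 / 4) ^ (t + 1) * 4 ^ Fintype.card E' * ∑ c : C, ((B3 c).card : ℝ))
        ≤ (2:ℝ) ^ m * ∑ c : C, ∑ a ∈ Asn src tgt ε cen c, ∑ R : Finset E', u0 ^ R.card *
          W (rl (GP src tgt src' tgt' ε cen lvi c a (πs c) (cn cen c Y) (vl Ah))) R ^ 2 :=
          mul_le_mul_of_nonneg_left h2 (by positivity)
      _ ≤ _ := hmain
  have h4 : (∑ c : C, ((B3 c).card : ℝ)) * (u0 / 4) ^ (t + 1) ≤ 2 * (CC * α) := by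
    have hfac : (0:ℝ) < 2 ^ m * 4 ^ Fintype.card E' := by positivity
    refine le_of_mul_le_mul_left ?_ hfac
    calc (2:ℝ) ^ m * 4 ^ Fintype.card E' * ((∑ c : C, ((B3 c).card : ℝ)) * (u0 / 4) ^ (t + 1))
        = (2:ℝ) ^ m * ((u0 / 4) ^ (t + 1) * 4 ^ Fintype.card E' *
          ∑ c : C, ((B3 c).card : ℝ)) := by ring
      _ ≤ (4:ℝ) ^ Fintype.card E' * NV * 2 * CC := h3
      _ = _ := by
          rw [hα]
          field_simp
  rw [hOm]
  have hu4 : 0 ≤ (u0 / 4) ^ (t + 1) := by positivity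
  exact (mul_le_mul_of_nonneg_right h1 hu4).trans h4

/-- a good restriction for a family of short formulas over low degree functions -/
theorem stage_exists {D' c0 c0' t H σ : ℕ} (fam' : PFam src' tgt')
    (hst : Stg src tgt src' tgt' cen lvi D)
    (hch : ∀ X : Finset Wv, min X.card (Fintype.card Wv - X.card) ≤ c0 * (bd src tgt X).card)
    (hG : LG src' tgt' D' c0' 1024) (hε : ∀ v, ε v * ε v = 1) [Nonempty C]
    (u0 u η : ℝ) (hu0 : 4 ≤ u0) (hu : u = u0 ^ (D' + 1)) (hη : 0 < η)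
    (hlip : ∀ (Y : Finset Wv) (T : Finset E) (i : E),
      Ph src tgt lvi u Y (symmDiff T {i}) ≤ (1 + η) * Ph src tgt lvi u Y T)
    (ht : ((t:ℝ) + 1) * η ≤ 1 / 100) (hH : (1 + 40 * (((t:ℝ) + 1) * η) ^ 2) ^ H ≤ 2)
    (hW' : 1 ≤ Fintype.card Wv') (hC : 1024 * (c0 * (H * σ)) ≤ Fintype.card Wv')
    (hσ : 4 * t * 2 ^ t ≤ σ) (hK : D * (t * H) ≤ fam'.K)
    (hM : D' * (D * (t * H)) + D * (t * H) ≤ fam'.M)
    {ι : Type} [Fintype ι] [DecidableEq ι] (Ah : ι → Fm ((E → Bool) → Bool))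
    (hAh : ∀ i, (Ah i).all fun g => Dg (rl g) t ∧ Sup σ g) (hlen : ∀ i, (Ah i).len ≤ H)
    (hcard : (Fintype.card ι : ℝ) * 2 < (u0 / 4) ^ (t + 1)) :
    ∃ ω ∈ Omg src tgt ε cen, ∀ i, ∃ g : (E' → Bool) → Bool, Dg (rl g) t ∧ Sup σ g ∧
      (fam'.P (eN src tgt ε cen ω.1 ω.2) (eN_sq hε ω.2)).Z
        (fun z => rl g z - rl (vl (Ah i)) (rs lvi ω.1 ω.2 z)) := by
  classical
  have hne : Nonempty Wv' := Fintype.card_pos_iff.mp hW'
  have hconn : Con src tgt := con_of_cheeger hch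
  have hb := fun i => stage_bad hst hch hG hε u0 u η hu0 hu hη hlip ht hH hW' hC (Ah i) (hAh i)
    (hlen i)
  choose Y πs hπs Bd hgd hbad using hb
  obtain ⟨ω, hω, hnb⟩ := exists_omega (Omg src tgt ε cen) (Omg_nonempty hconn hε)
    Bd ((u0 / 4) ^ (t + 1) / 2) (fun i => by have := hbad i; linarith) (by linarith)
  refine ⟨ω, hω, fun i => ?_⟩
  have h1 : Dg (rl (GP src tgt src' tgt' ε cen lvi ω.1 ω.2 (πs i ω.1) (cn cen ω.1 (Y i))
      (vl (Ah i)))) t := hgd i ω hω (hnb i)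
  refine ⟨_, h1, ?_, ?_⟩
  · obtain ⟨S, hS, hS'⟩ := junta _ t h1
    exact ⟨S, hS.trans hσ, hS'⟩
  · have h2 : Dg (rl (vl (Ah i))) (t * H) := by
      have h3 := dg_vl (P := (PFam.up fam' hst hconn 0 (by simp)).P ε hε) (t := t)
        (Q := fun _ => True) (A := Ah i)
        (all_mono (fun g hg => ⟨hg.1, trivial⟩) (Ah i) (hAh i))
      exact Dg_mono h3 (Nat.mul_le_mul_left _ (hlen i))
    have h4 : Dg (fun z => rl (vl (Ah i)) (rs lvi ω.1 ω.2 z)) (D * (t * H)) :=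
      dg_rs hst.card h2 ω.2
    exact PFam.proj fam' hG.deg (eN_sq hε ω.2) (πs i ω.1) (cn cen ω.1 (Y i)) (hπs i ω.1)
      (fun z => rl (vl (Ah i)) (rs lvi ω.1 ω.2 z)) h4 hK hM

end Pool.Agent.H3.Frg3
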