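import Mathlib
import Pool.Agent.H3.Frg3.QStage

set_option autoImplicit false
set_option linter.unusedSectionVars false

/-!
# The recursion over the levels
-/

namespace Pool.Agent.H3.Frg3

open Finset Pool.Agent.H3.Frg Pool.Agent.H3.Frg2

section Base

variable {E Wv : Type} [Fintype E] [DecidableEq E] [Fintype Wv] [DecidableEq Wv]
  {src tgt : E → Wv}

theorem lev_base (fam : PFam src tgt) {h k Kx t σ s ℓ cnt : ℕ} (hh : 4 ≤ h) (htk : t ≤ k)
    (hk : 1 ≤ k) (hkM : 20 * k ≤ fam.M) (hkM' : 10 * (ℓ + 2) * (k + Kx) ≤ fam.M)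
    (hsize : t * (h + 18 * s) ≤ h * k) : Lev fam 0 h k Kx t σ s ℓ cnt := by
  intro V v0 F ε hε Sch htaut hlen L pf hpf hs hL hrep As hAs hfin
  refine no_proof (fam.P ε hε) F k Kx ℓ hk (by rw [fam.hM]; exact hkM') Sch htaut hlen pf hpf
    (fun i => ?_) v0 As (fun A hA => ?_) hfin
  · obtain ⟨Ah, -, h2, -⟩ := mid (fam.P ε hε) F k t h hh htk (by rw [fam.hM]; exact hkM) v0
      (Sup σ) (pf i) (by
        refine le_trans ?_ hsize
        have := hs i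
        exact Nat.mul_le_mul_left _ (by omega)) (fun B hB hBl => by
        obtain ⟨g, h1, h2, h3⟩ := hrep B (by
          show B ∈ (deep v0 0 (List.ofFn pf)).flatMap (allInst v0)
          exact List.mem_flatMap.mpr ⟨pf i, by
            show pf i ∈ List.ofFn pf
            exact List.mem_ofFn.mpr ⟨i, rfl⟩, hB⟩) hBl
        exact ⟨g, (fam.dg _ _ _ _).mpr h1, h2, h3⟩)
    exact ⟨_, h2⟩
  · obtain ⟨h1, h2⟩ := hAs A hA
    exact ⟨fun B hB => (fam.dg _ _ _ _).mpr (h1 B hB), h2⟩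

/-- the bound at the top level -/
theorem lev_top (fam : PFam src tgt) {J k Kx t σ s ℓ cnt : ℕ}
    (hlev : Lev fam J 4 k Kx t σ s ℓ cnt) (hk : 16 ≤ k) (ht : 16 ≤ t) (hσ : 16 ≤ σ)
    (hK : 1 ≤ fam.K) (v0 : E) {ε : Wv → ℝ} (hε : ∀ v, ε v * ε v = 1)
    {Sch : Set (Fm ℕ)} (htaut : ∀ ψ ∈ Sch, ∀ x : ℕ → Bool, ψ.eval x = true)
    (hlen : ∀ ψ ∈ Sch, ψ.len ≤ ℓ) {L : ℕ} (pf : Fin L → Fm E) (hpf : IsProof Sch pf)
    (hs : ∀ i, (pf i).len ≤ s) (hL : L ≤ cnt) (As : List (Fm E))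
    (hAs : ∀ A ∈ As, A.vars.card ≤ Kx ∧ ∃ v : Wv,
      ∀ x, A.eval x = true ↔ chi (bd src tgt {v}) x = ε v)
    (hfin : ∃ i, pf i = As.foldr Fm.imp (bot v0)) : False := by
  refine hlev E v0 (fun i z => z i) ε hε Sch htaut hlen L pf hpf hs hL
    (fun B _ hB => top_rep fam ε hε hk ht hσ B (by omega)) As (fun A hA => ?_) hfin
  obtain ⟨hv, v, hev⟩ := hAs A hA
  refine ⟨fun B hB => ?_, PFam.ax fam hε hK v A hev⟩
  intro T hT
  by_contra h1
  have h2 := W_ind_supp B T h1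
  have h3 := Finset.card_le_card (h2.trans (vars_subs A B hB))
  omega

end Base

variable {E Wv E' Wv' C : Type} [Fintype E] [DecidableEq E] [Fintype Wv] [DecidableEq Wv]
  [Fintype E'] [DecidableEq E'] [Fintype Wv'] [DecidableEq Wv'] [Fintype C] [DecidableEq C]
  {src tgt : E → Wv} {src' tgt' : E' → Wv'} {cen : C → Wv' → Wv}
  {lvi : C → E → Finset E'} {D : ℕ}

theorem lev_step {D' c0 c0' t H σ : ℕ} (fam' : PFam src' tgt')
    (hst : Stg src tgt src' tgt' cen lvi D)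
    (hch : ∀ X : Finset Wv, min X.card (Fintype.card Wv - X.card) ≤ c0 * (bd src tgt X).card)
    (hG : LG src' tgt' D' c0' 1024) [Nonempty C] [Nonempty Wv']
    (hconn : Con src tgt)
    (u0 u η : ℝ) (hu0 : 4 ≤ u0) (hu : u = u0 ^ (D' + 1)) (hη : 0 < η)
    (hlip : ∀ (Y : Finset Wv) (T : Finset E) (i : E),
      Ph src tgt lvi u Y (symmDiff T {i}) ≤ (1 + η) * Ph src tgt lvi u Y T)
    (ht : ((t:ℝ) + 1) * η ≤ 1 / 100) (hH : (1 + 40 * (((t:ℝ) + 1) * η) ^ 2) ^ H ≤ 2)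
    (hW' : 1 ≤ Fintype.card Wv') (hC : 1024 * (c0 * (H * σ)) ≤ Fintype.card Wv')
    (hσ : 4 * t * 2 ^ t ≤ σ) (hK : D * (t * H) ≤ fam'.K)
    (hM : D' * (D * (t * H)) + D * (t * H) ≤ fam'.M)
    {j h h' k k' Kx Kx' s ℓ cnt : ℕ} (IH : Lev fam' j h' k' Kx' t σ s ℓ cnt) (M : ℕ)
    (hDM : D * M ≤ fam'.M) (hDk : D * k ≤ k') (hDK : D * Kx ≤ Kx') (hh : 4 ≤ h) (htk : t ≤ k')
    (htk' : t ≤ k)
    (hkM : 20 * k ≤ M) (hsize : t * (h + 18 * (4 * h')) ≤ h * k)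
    (hHh : h + 18 * (4 * h') ≤ h * H)
    (hcnt : ((cnt * (3 * (s + 3 * (j + 1)) ^ 2) ^ (j + 1) : ℕ) : ℝ) * 2 < (u0 / 4) ^ (t + 1)) :
    Lev (fam'.up hst hconn M hDM) (j + 1) h k Kx t σ s ℓ cnt := by
  classical
  intro V v0 F ε hε Sch htaut hlen L pf hpf hs hL hrep As hAs hfin
  set l : List (Fm V) := deep v0 (j + 1) (List.ofFn pf) with hl
  -- the mid-sized formulas
  have hmid : ∀ x : {x : Fin l.length // (l[x]).len ≤ 4 * h'},
      ∃ Ah : Fm ((E → Bool) → Bool), Ah.all (fun g => Dg (rl g) t ∧ Sup σ g) ∧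
        CE ((fam'.up hst hconn M hDM).P ε hε) F k (l[x.1]) (vl Ah) ∧ Ah.len ≤ H := by
    intro x
    obtain ⟨Ah, h1, h2, h3⟩ := mid ((fam'.up hst hconn M hDM).P ε hε) F k t h hh htk'
      (by rw [(fam'.up hst hconn M hDM).hM]; exact hkM) v0
      (Sup σ) (l[x.1]) (by
        refine le_trans ?_ hsize
        have := x.2
        exact Nat.mul_le_mul_left _ (by omega)) (fun B hB hBl => by
        obtain ⟨g, h1, h2, h3⟩ := hrep B (by
          show B ∈ (deep v0 (j + 1) (List.ofFn pf)).flatMap (allInst v0)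
          exact List.mem_flatMap.mpr ⟨l[x.1], List.getElem_mem _, hB⟩) hBl
        exact ⟨g, ((fam'.up hst hconn M hDM).dg _ _ _ _).mpr h1, h2, h3⟩)
    refine ⟨Ah, all_mono (fun g hg => ⟨((fam'.up hst hconn M hDM).dg _ _ _ _).mp hg.1, hg.2⟩)
      Ah h1, h2, ?_⟩
    have h4 : h * Ah.len ≤ h * H := by
      refine le_trans h3 (le_trans ?_ hHh)
      have := x.2
      omega
    exact Nat.le_of_mul_le_mul_left h4 (by omega)
  choose Ah hAh1 hAh2 hAh3 using hmid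
  have hcard : (Fintype.card {x : Fin l.length // (l[x]).len ≤ 4 * h'} : ℝ) * 2
      < (u0 / 4) ^ (t + 1) := by
    refine lt_of_le_of_lt ?_ hcnt
    have h1 : Fintype.card {x : Fin l.length // (l[x]).len ≤ 4 * h'} ≤ l.length := by
      refine (Fintype.card_subtype_le _).trans ?_
      simp
    have h2 := length_deep v0 (List.ofFn pf) s (fun A hA => by
      obtain ⟨i, rfl⟩ := List.mem_ofFn.mp hA
      exact hs i) (j + 1)
    rw [← hl, List.length_ofFn] at h2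
    have h3 : Fintype.card {x : Fin l.length // (l[x]).len ≤ 4 * h'}
        ≤ cnt * (3 * (s + 3 * (j + 1)) ^ 2) ^ (j + 1) :=
      (h1.trans h2).trans (Nat.mul_le_mul_right _ hL)
    have h4 : (Fintype.card {x : Fin l.length // (l[x]).len ≤ 4 * h'} : ℝ)
        ≤ ((cnt * (3 * (s + 3 * (j + 1)) ^ 2) ^ (j + 1) : ℕ) : ℝ) := by exact_mod_cast h3
    linarith
  obtain ⟨ω, hω, hgood⟩ := stage_exists fam' hst hch hG hε u0 u η hu0 hu hη hlip ht hH hW' hC hσ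
    hK hM Ah hAh1 hAh3 hcard
  have hac := mem_Omg.mp hω
  refine IH V v0 (fun v z => F v (rs lvi ω.1 ω.2 z)) (eN src tgt ε cen ω.1 ω.2)
    (eN_sq hε ω.2) Sch htaut hlen L pf hpf hs hL (fun B hB hBl => ?_) As (fun A hA => ?_) hfin
  · obtain ⟨x, hx, rfl⟩ := List.mem_iff_getElem.mp hB
    obtain ⟨g, hg1, hg2, hg3⟩ := hgood ⟨⟨x, hx⟩, hBl⟩
    refine ⟨g, hg1, hg2, ?_⟩
    have h1 := ce_down fam' hst hconn M hDM hε F k hac _ (hAh2 ⟨⟨x, hx⟩, hBl⟩)
    have h2 := ce_mono3 hDk h1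
    exact ce_congr h2 ((fam'.dg _ _ _ _).mpr (Dg_mono hg1 htk)) hg3
  · obtain ⟨h1, h2⟩ := hAs A hA
    refine ⟨fun B hB => ?_, ?_⟩
    · have h3 := dg_rs hst.card (c := ω.1) (h1 B hB) ω.2
      exact Dg_mono h3 hDK
    · exact PFam.up_Z fam' hst hconn M hDM hε h2 hac

end Pool.Agent.H3.Frg3
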