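import Mathlib
import Pool.Agent.H3.Frg3.QLev
import Pool.Agent.H3.Frg3.NetDeg
import Pool.Agent.H3.Frg3.NetStg
import Pool.Agent.H3.Frg3.Res
import Pool.Agent.H3.Frg2.SuperGraph

set_option autoImplicit false
set_option linter.unusedSectionVars false

/-!
# The tower of graphs
-/

namespace Pool.Agent.H3.Frg3

open Finset Pool.Agent.H3.Frg Pool.Agent.H3.Frg2

theorem dgf_mono {i j : ℕ} (h : i ≤ j) : dgf i ≤ dgf j := by
  induction j with
  | zero =>
    have : i = 0 := by omega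
    rw [this]
  | succ j ih =>
    rcases Nat.lt_or_ge i (j + 1) with h1 | h1
    · refine (ih (by omega)).trans ?_
      show dgf j ≤ 3 * dgf j + 292
      omega
    · have : i = j + 1 := by omega
      rw [this]

theorem one_le_dgf (j : ℕ) : 80 ≤ dgf j := dgf_mono (Nat.zero_le j)

theorem tower {J n k Dm : ℕ} (hJD : dgf J ≤ Dm) (hn1 : 1000 ≤ n) (j : ℕ) : j ≤ J →
    ∃ (E Wv : Type) (_ : Fintype E) (_ : DecidableEq E) (_ : Fintype Wv) (_ : DecidableEq Wv)
      (src tgt : E → Wv), LG src tgt (dgf j) 1000 1024 ∧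
      Fintype.card Wv = n * ((k + 1) * 2 ^ k) ^ j ∧
      Fintype.card E ≤ dgf j * Fintype.card Wv ∧
      ∀ (t X kt Kt Mt K s ℓ cnt : ℕ) (u0 η : ℝ),
      Nq J n k t X Dm kt Kt Mt K s ℓ cnt u0 η →
      ∃ fam : PFam src tgt, fam.M = Mt * Dm ^ (J - j) ∧ fam.K = K ∧
      Lev fam j (4 * X ^ (J - j)) (kt * Dm ^ (J - j)) (Kt * Dm ^ (J - j)) t (4 * t * 2 ^ t) s ℓ
        cnt := by
  have hDm : 80 ≤ Dm := (one_le_dgf J).trans hJD
  have hDp : ∀ i : ℕ, 1 ≤ Dm ^ i := fun i => Nat.one_le_pow _ _ (by omega)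
  have hle : ∀ a i : ℕ, a ≤ a * Dm ^ i := fun a i => Nat.le_mul_of_pos_right _ (hDp i)
  induction j with
  | zero =>
    intro _
    obtain ⟨E, iE, iD, src, tgt, hG, hE⟩ := exists_super n hn1
    have hcardW : Fintype.card (Fin n) = n := Fintype.card_fin n
    refine ⟨E, Fin n, iE, iD, inferInstance, inferInstance, src, tgt,
      ⟨hG.loopless, hG.deg, hG.cheeger, fun X hX hXn => hG.peel X hX (by omega)⟩, ?_, ?_,
      ?_⟩
    · rw [hcardW]; simp
    · rw [hcardW]
      refine hE.trans ?_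
      exact Nat.mul_le_mul_right _ (by decide)
    · intro t X kt Kt Mt K s ℓ cnt u0 η hN
      have htkt : t ≤ kt := by
        refine le_trans ?_ hN.k1
        exact Nat.le_mul_of_pos_right _ (by omega)
      have hX : ∀ i : ℕ, 4 ≤ 4 * X ^ i := fun i =>
        Nat.le_mul_of_pos_right _ (Nat.pow_pos hN.x1)
      have ht1 := hN.t1
      have hx : Expd src tgt (2 * (Mt * Dm ^ J)) :=
        expd_of_SG hG (by rw [hcardW]; exact hN.n2) (by rw [hcardW]; omega)
      have hKbot : ∀ O : Finset (Fin n), O.card ≤ K →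
          Mt * Dm ^ J + (bd src tgt O).card ≤ 2 * (Mt * Dm ^ J) := by
        intro O hO
        have h1 := card_bd_le3 hG.deg O
        have h2 := hN.n4
        omega
      refine ⟨PFam.bottom (2 * (Mt * Dm ^ J)) (Mt * Dm ^ J) K hx le_rfl
        (by rw [hcardW]; exact hN.n3) hKbot, rfl, rfl, ?_⟩
      refine lev_base _ (hX _) (htkt.trans (hle _ _)) ?_ ?_ ?_ ?_
      · exact le_trans (by omega) (htkt.trans (hle _ _))
      · show 20 * (kt * Dm ^ J) ≤ Mt * Dm ^ J
        rw [← mul_assoc]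
        exact Nat.mul_le_mul_right _ hN.k2
      · show 10 * (ℓ + 2) * (kt * Dm ^ J + Kt * Dm ^ J) ≤ Mt * Dm ^ J
        rw [← add_mul, ← mul_assoc]
        exact Nat.mul_le_mul_right _ hN.k3
      · exact hN.s1
  | succ j ih =>
    intro hj
    obtain ⟨E', Wv', iE', iDE', iW', iDW', src', tgt', hG, hcW, hcE, hlev⟩ :=
      ih (by omega)
    have hD1 : 1 ≤ dgf j := le_trans (by norm_num) (one_le_dgf j)
    have hDjDm : dgf j ≤ Dm := (dgf_mono (by omega)).trans hJD
    have hkk : 1 ≤ (k + 1) * 2 ^ k := Nat.mul_pos (by omega) (by positivity)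
    have hnW : n ≤ Fintype.card Wv' := by
      rw [hcW]; exact Nat.le_mul_of_pos_right _ (Nat.pow_pos hkk)
    have hcNV : Fintype.card (NV Wv' k) = Fintype.card Wv' * ((k + 1) * 2 ^ k) := card_NV
    have hnNV : n ≤ Fintype.card (NV Wv' k) := by
      rw [hcNV]; exact hnW.trans (Nat.le_mul_of_pos_right _ hkk)
    obtain ⟨R, iR, iDR, rsrc, rtgt, r1, r2, r3, r4, r5⟩ :=
      exists_rgraph (dgf j + 4) (NV Wv' k) (by omega)
    have hLG := net_LG hG.loopless hG.deg r1 r2 r3 r4
    have hdeq : dgf j + 4 + (2 * (dgf j + 4) + 280) = dgf (j + 1) := by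
      show _ = 3 * dgf j + 292
      ring
    rw [hdeq] at hLG
    have hst := net_stg (k := k) hD1 hG.loopless hG.deg rsrc rtgt
    have hneW : Nonempty Wv' := Fintype.card_pos_iff.mp (by omega)
    have hneC : Nonempty (Ch E' Wv' k) := ⟨(fun _ _ => false, fun _ _ => false)⟩
    have hconn : Con (nsrc src' rsrc) (ntgt tgt' rtgt) := con_of_cheeger hLG.cheeger
    refine ⟨NE E' Wv' k R, NV Wv' k, inferInstance, inferInstance, inferInstance, inferInstance,
      nsrc src' rsrc, ntgt tgt' rtgt, hLG, ?_, ?_, ?_⟩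
    · rw [hcNV, hcW, pow_succ]; ring
    · rw [card_NE]
      have h1 : Fintype.card E' * 2 ^ k ≤ dgf j * (Fintype.card Wv' * ((k + 1) * 2 ^ k)) := by
        calc Fintype.card E' * 2 ^ k ≤ dgf j * Fintype.card Wv' * 2 ^ k :=
              Nat.mul_le_mul_right _ hcE
          _ = dgf j * (Fintype.card Wv' * (1 * 2 ^ k)) := by ring
          _ ≤ _ := Nat.mul_le_mul_left _ (Nat.mul_le_mul_left _ (Nat.mul_le_mul_right _
              (by omega)))
      have h2 : Fintype.card Wv' * (k * (2 ^ k * 2))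
          ≤ 2 * (Fintype.card Wv' * ((k + 1) * 2 ^ k)) := by
        calc Fintype.card Wv' * (k * (2 ^ k * 2)) = 2 * (Fintype.card Wv' * (k * 2 ^ k)) := by
              ring
          _ ≤ _ := Nat.mul_le_mul_left _ (Nat.mul_le_mul_left _ (Nat.mul_le_mul_right _
              (by omega)))
      rw [hcNV] at r5 ⊢
      have h3 : dgf (j + 1) * (Fintype.card Wv' * ((k + 1) * 2 ^ k))
          = dgf j * (Fintype.card Wv' * ((k + 1) * 2 ^ k))
            + 2 * (Fintype.card Wv' * ((k + 1) * 2 ^ k))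
            + (dgf j + 4 + 140) * (Fintype.card Wv' * ((k + 1) * 2 ^ k))
            + (dgf j + 146) * (Fintype.card Wv' * ((k + 1) * 2 ^ k)) := by
        show (3 * dgf j + 292) * _ = _
        ring
      rw [h3]
      omega
    · intro t X kt Kt Mt K s ℓ cnt u0 η hN
      have htkt : t ≤ kt := by
        refine le_trans ?_ hN.k1
        exact Nat.le_mul_of_pos_right _ (by omega)
      have hX : ∀ i : ℕ, 4 ≤ 4 * X ^ i := fun i =>
        Nat.le_mul_of_pos_right _ (Nat.pow_pos hN.x1)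
      have ht1 := hN.t1
      obtain ⟨fam', hfM, hfK, hlev⟩ := hlev t X kt Kt Mt K s ℓ cnt u0 η hN
      have hsub : J - j = (J - (j + 1)) + 1 := by omega
      set i := J - (j + 1) with hi
      rw [hsub] at hfM hlev
      have hDM : dgf j * (Mt * Dm ^ i) ≤ fam'.M := by
        rw [hfM]
        calc dgf j * (Mt * Dm ^ i) ≤ Dm * (Mt * Dm ^ i) := Nat.mul_le_mul_right _ hDjDm
          _ = Mt * Dm ^ (i + 1) := by rw [pow_succ]; ring
      have hu4 := hN.u1
      have hu1 : 1 ≤ u0 := by linarith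
      have hη : (dgf j : ℝ) * (u0 ^ (dgf j + 1)) ^ (2 * dgf j) / 2 ^ k ≤ η := by
        refine le_trans ?_ hN.e1
        have hc : (dgf j : ℝ) ≤ Dm := by exact_mod_cast hDjDm
        refine div_le_div_of_nonneg_right ?_ (by positivity)
        refine mul_le_mul hc ?_ (by positivity) (by positivity)
        calc (u0 ^ (dgf j + 1)) ^ (2 * dgf j) ≤ (u0 ^ (Dm + 1)) ^ (2 * dgf j) :=
              pow_le_pow_left₀ (by positivity) (pow_le_pow_right₀ hu1 (by omega)) _
          _ ≤ (u0 ^ (Dm + 1)) ^ (2 * Dm) :=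
              pow_le_pow_right₀ (one_le_pow₀ hu1) (by omega)
      have hη0 : 0 < η := by
        refine lt_of_lt_of_le ?_ hη
        have : (0:ℝ) < dgf j := by exact_mod_cast hD1
        positivity
      have hlip : ∀ (Y : Finset (NV Wv' k)) (T : Finset (NE E' Wv' k R)) (e : NE E' Wv' k R),
          Ph (nsrc src' rsrc) (ntgt tgt' rtgt) (nlvi R src' tgt') (u0 ^ (dgf j + 1)) Y
            (symmDiff T {e}) ≤ (1 + η) *
          Ph (nsrc src' rsrc) (ntgt tgt' rtgt) (nlvi R src' tgt') (u0 ^ (dgf j + 1)) Y T := by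
        intro Y T e
        refine (res_phi (D := dgf j) hD1 hG.loopless hG.deg rsrc rtgt (one_le_pow₀ hu1) Y T
          e).trans ?_
        refine mul_le_mul_of_nonneg_right (by linarith) ?_
        unfold Ph
        exact Finset.sum_nonneg fun c _ => by positivity
      refine ⟨fam'.up hst hconn (Mt * Dm ^ i) hDM, rfl, hfK, ?_⟩
      have hfM' : Mt ≤ fam'.M := by rw [hfM]; exact hle _ _
      refine lev_step (H := 1 + 72 * X) (D' := dgf j) (c0 := 1000) (c0' := 1000) fam' hst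
        hLG.cheeger hG hconn u0 (u0 ^ (dgf j + 1)) η hu4 rfl hη0 hlip hN.e2 hN.e3
        (by omega) (hN.n5.trans hnW) le_rfl ?_ ?_ hlev (Mt * Dm ^ i) hDM ?_ ?_ (hX i) ?_ ?_ ?_ ?_
        ?_ ?_
      · rw [hfK]
        exact (Nat.mul_le_mul_right _ hDjDm).trans hN.p1
      · refine le_trans ?_ (hN.p2.trans hfM')
        refine Nat.add_le_add ?_ (Nat.mul_le_mul_right _ hDjDm)
        exact Nat.mul_le_mul hDjDm (Nat.mul_le_mul_right _ hDjDm)
      · calc dgf j * (kt * Dm ^ i) ≤ Dm * (kt * Dm ^ i) := Nat.mul_le_mul_right _ hDjDm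
          _ = kt * Dm ^ (i + 1) := by rw [pow_succ]; ring
      · calc dgf j * (Kt * Dm ^ i) ≤ Dm * (Kt * Dm ^ i) := Nat.mul_le_mul_right _ hDjDm
          _ = Kt * Dm ^ (i + 1) := by rw [pow_succ]; ring
      · exact htkt.trans (hle _ _)
      · exact htkt.trans (hle _ _)
      · show 20 * (kt * Dm ^ i) ≤ Mt * Dm ^ i
        rw [← mul_assoc]
        exact Nat.mul_le_mul_right _ hN.k2
      · calc t * (4 * X ^ i + 18 * (4 * (4 * X ^ (i + 1))))
            = 4 * X ^ i * (t * (1 + 72 * X)) := by rw [pow_succ]; ring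
          _ ≤ 4 * X ^ i * (kt * Dm ^ i) := Nat.mul_le_mul_left _ (hN.k1.trans (hle _ _))
      · rw [pow_succ]
        exact le_of_eq (by ring)
      · refine lt_of_le_of_lt ?_ hN.c1
        have h1 : cnt * (3 * (s + 3 * (j + 1)) ^ 2) ^ (j + 1)
            ≤ cnt * (3 * (s + 3 * J) ^ 2) ^ J := by
          refine Nat.mul_le_mul_left _ ?_
          calc (3 * (s + 3 * (j + 1)) ^ 2) ^ (j + 1) ≤ (3 * (s + 3 * J) ^ 2) ^ (j + 1) :=
                Nat.pow_le_pow_left (Nat.mul_le_mul_left _ (Nat.pow_le_pow_left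
                  (by omega) 2)) _
            _ ≤ _ := Nat.pow_le_pow_right (Nat.mul_pos (by norm_num)
                (Nat.pow_pos (by omega))) hj
        have h2 : ((cnt * (3 * (s + 3 * (j + 1)) ^ 2) ^ (j + 1) : ℕ) : ℝ)
            ≤ ((cnt * (3 * (s + 3 * J) ^ 2) ^ J : ℕ) : ℝ) := by exact_mod_cast h1
        linarith

end Pool.Agent.H3.Frg3
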