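import Mathlib
import Pool.Agent.H3.Frg3.QDefs

set_option autoImplicit false
set_option linter.unusedSectionVars false

/-!
# Module QNUM: all numerical conditions hold for large `t`

`Nq` is in `QDefs.lean`. With `Q = 4 ^ t`, `n = Q ^ (2 q)`, `2 ^ k = Q ^ q`, `X = Q ^ (2 q - p)`
choose `K = Dm * (t * (1 + 72 * X))`, `Mt = n / (6001 * Dm ^ J)`, `kt = Mt / (20 * (ℓ + 2))`
(natural number divisions; `Dm ≥ 80`). Everything below is for large `t` (constants depending on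
`J, Dm, q, p, ℓ` only, `4 * t * 2 ^ t ≤ Q` for `t ≥ 5`):

* n2: `6000 * (Mt * Dm ^ J) < n` because `6001 * Dm ^ J * Mt ≤ n` (and `n > 0`).
* n3, n4, p1, p2, k1: `K ≤ C * t * X`, `X = Q ^ (2 q - p)`, `Mt ≥ n / (12002 * Dm ^ J)`,
  `kt ≥ n / C'`, `n = Q ^ (2 q)`.
* n5: `(1 + 72 X) (4 t 2 ^ t) ≤ 73 Q ^ (2 q - p + 1)` and `p ≥ 2`.
* k2, k3: `20 (ℓ + 2) kt ≤ Mt`, so `10 (ℓ + 2) kt ≤ Mt / 2` and `10 (ℓ + 2) (Dm + 1) ≤ Mt / 2`.
* s1: `s = X ^ J * Q ^ (2 q - 1)`, so after division by `X ^ J` it says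
  `t * (4 + 18 Q ^ (2 q - 1)) ≤ 4 kt Dm ^ J`.
* c1: `s = 2 ^ (2 t B)` with `B = J (2 q - p) + 2 q - 1`, `s + 3 J ≤ 2 s`, hence
  `2 ^ (t ^ 2) * (3 (s + 3 J) ^ 2) ^ J * 2 ≤ 2 ^ (t ^ 2 + 1 + 4 J + 4 t B J) < 2 ^ (2 t ^ 2 - 2)`.
* e2: `η = Dm * 4 ^ (t (2 Dm (Dm + 1))) / 4 ^ (q t)` and `2 Dm (Dm + 1) < q`.
* e3: `(1 + x) ^ (1 + 72 X) ≤ exp (73 X x)` with `x = 40 ((t + 1) η) ^ 2`, and
  `73 X x = 2920 (t + 1) ^ 2 Dm ^ 2 * 4 ^ (t (4 Dm (Dm + 1) - p)) ≤ 1 / 2`, `exp (1 / 2) ≤ 2`.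
-/

namespace Pool.Agent.H3.Frg3

open Filter

private theorem sq_le_two_pow {t : ℕ} (ht : 4 ≤ t) : t ^ 2 ≤ 2 ^ t := by
  induction t, ht using Nat.le_induction with
  | base => norm_num
  | succ k hk ih =>
    have h1 : 2 ^ (k + 1) = 2 * 2 ^ k := by ring
    rw [h1]
    nlinarith

private theorem four_pow_eq (t : ℕ) : 4 ^ t = 2 ^ t * 2 ^ t := by
  rw [← mul_pow]
  norm_num

/-- the conditions on the growth of `4 ^ t` -/
private theorem growth (A C T0 : ℕ) : ∀ᶠ t : ℕ in atTop,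
    A * t ≤ 4 ^ t ∧ C * (t + 1) ^ 2 ≤ 4 ^ t ∧ T0 ≤ t := by
  filter_upwards [eventually_ge_atTop (A + 4 * C + T0 + 4)] with t ht
  refine ⟨?_, ?_, by omega⟩
  · calc A * t ≤ t * t := Nat.mul_le_mul_right t (by omega)
      _ ≤ 2 ^ t * 2 ^ t := Nat.mul_le_mul Nat.lt_two_pow_self.le Nat.lt_two_pow_self.le
      _ = 4 ^ t := (four_pow_eq t).symm
  · have h1 := sq_le_two_pow (t := t) (by omega)
    have h2 : (t + 1) ^ 2 ≤ 4 * t ^ 2 := by nlinarith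
    have h3 : 4 * C ≤ t ^ 2 := by nlinarith
    calc C * (t + 1) ^ 2 ≤ C * (4 * t ^ 2) := Nat.mul_le_mul_left C h2
      _ = (4 * C) * t ^ 2 := by ring
      _ ≤ t ^ 2 * t ^ 2 := Nat.mul_le_mul_right _ h3
      _ ≤ 2 ^ t * 2 ^ t := Nat.mul_le_mul h1 h1
      _ = 4 ^ t := (four_pow_eq t).symm

theorem nq_exists (J Dm q p ℓ : ℕ) (hDm : dgf J ≤ Dm) (hD : 80 ≤ Dm)
    (hp : 4 * Dm * (Dm + 1) + 1 ≤ p) (hq : p < 2 * q) :
    ∀ᶠ t : ℕ in atTop, ∃ K kt Mt : ℕ,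
      Nq J ((4 ^ t) ^ (2 * q)) (2 * q * t) t ((4 ^ t) ^ (2 * q - p)) Dm kt (Dm + 1) Mt K
        ((4 ^ t) ^ (J * (2 * q - p) + 2 * q - 1)) ℓ (2 ^ (t ^ 2)) ((4:ℝ) ^ t)
        ((Dm : ℝ) * (((4:ℝ) ^ t) ^ (Dm + 1)) ^ (2 * Dm) / 2 ^ (2 * q * t)) := by
  -- constants
  have hDmJ : 1 ≤ Dm ^ J := Nat.one_le_pow _ _ (by omega)
  set c : ℕ := 6001 * Dm ^ J with hc
  have hc1 : 1 ≤ c := by omega
  have hc0 : 0 < c := hc1
  set P : ℕ := (ℓ + 2) * ((Dm + 1) ^ 2 * c) with hP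
  set B : ℕ := J * (2 * q - p) + 2 * q - 1 with hB
  have hp2 : 2 ≤ p := by nlinarith
  have hb1 : 1 ≤ (Dm + 1) ^ 2 := Nat.one_le_pow _ _ (by omega)
  have hP1 : (Dm + 1) ^ 2 * c ≤ P := by
    rw [hP]
    exact Nat.le_mul_of_pos_left _ (by omega)
  have hP2 : c ≤ P := (Nat.le_mul_of_pos_left _ hb1).trans hP1
  have hP0 : 1 ≤ P := hc1.trans hP2
  have hP3 : Dm * c ≤ P := (Nat.mul_le_mul_right c (by nlinarith)).trans hP1
  have hP4 : (Dm ^ 2 + Dm) * c ≤ P := (Nat.mul_le_mul_right c (by nlinarith)).trans hP1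
  have hP5 : Dm ≤ P := (Nat.le_mul_of_pos_right _ hc0).trans hP3
  have hP6 : (ℓ + 2) * c ≤ P := by
    rw [hP]
    exact Nat.mul_le_mul_left _ (Nat.le_mul_of_pos_left _ hb1)
  have hP7 : (ℓ + 2) * ((Dm + 1) * c) ≤ P := by
    rw [hP]
    exact Nat.mul_le_mul_left _ (Nat.mul_le_mul_right c (by nlinarith))
  filter_upwards [growth (300000000 * P + 3 * J) (5840 * Dm ^ 2) (4 * J + 4 * (J * B) + 16)]
    with t ht
  obtain ⟨hA, hE2, hT⟩ := ht
  have ht16 : 16 ≤ t := by omega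
  have ht1 : 1 ≤ t := by omega
  set Q : ℕ := 4 ^ t with hQ
  have hAQ : 300000000 * P + 3 * J ≤ Q := (Nat.le_mul_of_pos_right _ ht1).trans hA
  have hPt : 300000000 * P * t ≤ Q := by
    refine le_trans ?_ hA
    exact Nat.mul_le_mul_right t (by omega)
  have hQ1 : 1 ≤ Q := by omega
  have hQ0 : 0 < Q := hQ1
  set n : ℕ := Q ^ (2 * q) with hn
  set X : ℕ := Q ^ (2 * q - p) with hX
  have hX1 : 1 ≤ X := Nat.one_le_pow _ _ hQ0
  have hnX : n = X * Q ^ p := by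
    rw [hn, hX, ← pow_add]
    congr 1
    omega
  have hQn : Q ≤ n := Nat.le_self_pow (by omega) Q
  have hQp : Q ≤ Q ^ p := Nat.le_self_pow (by omega) Q
  have hn0 : 0 < n := lt_of_lt_of_le hQ0 hQn
  set T : ℕ := t * (1 + 72 * X) with hTd
  -- the main estimate
  have H : ∀ C : ℕ, 73 * C ≤ 300000000 * P → C * T ≤ n := by
    intro C hC
    have h1 : 1 + 72 * X ≤ 73 * X := by omega
    calc C * T ≤ C * (t * (73 * X)) := Nat.mul_le_mul_left C (Nat.mul_le_mul_left t h1)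
      _ = (73 * C) * t * X := by ring
      _ ≤ 300000000 * P * t * X := Nat.mul_le_mul_right X (Nat.mul_le_mul_right t hC)
      _ ≤ Q * X := Nat.mul_le_mul_right X hPt
      _ ≤ Q ^ p * X := Nat.mul_le_mul_right X hQp
      _ = n := by rw [hnX, mul_comm]
  set Mt : ℕ := n / c with hMt
  set kt : ℕ := Mt / (20 * (ℓ + 2)) with hkt
  have hMtc : Mt * c ≤ n := Nat.div_mul_le_self n c
  have hMt_le : ∀ m, m * c ≤ n → m ≤ Mt := fun m hm => (Nat.le_div_iff_mul_le hc0).2 hm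
  have hkt_le : ∀ m, m * (20 * (ℓ + 2)) * c ≤ n → m ≤ kt := fun m hm =>
    (Nat.le_div_iff_mul_le (by omega)).2 (hMt_le _ hm)
  have hktM : kt * (20 * (ℓ + 2)) ≤ Mt := Nat.div_mul_le_self _ _
  -- `Q ^ (2 q - 1)`
  set R : ℕ := Q ^ (2 * q - 1) with hR
  have hR1 : 1 ≤ R := Nat.one_le_pow _ _ hQ0
  have hnR : n = R * Q := by
    rw [hn, hR, ← pow_succ]
    congr 1
    omega
  have hsX : Q ^ B = X ^ J * R := by
    have h1 : B = (2 * q - p) * J + (2 * q - 1) := by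
      have : (2 * q - p) * J = J * (2 * q - p) := mul_comm _ _
      omega
    calc Q ^ B = Q ^ ((2 * q - p) * J + (2 * q - 1)) := by rw [← h1]
      _ = X ^ J * R := by rw [pow_add, pow_mul Q (2 * q - p) J]
  have hQB : Q ≤ Q ^ B := Nat.le_self_pow (by omega) Q
  -- real versions
  have hQR : ((4 : ℝ) ^ t) = (Q : ℝ) := by
    rw [hQ]
    push_cast
    rfl
  have hQRpos : (0 : ℝ) < (Q : ℝ) := by exact_mod_cast hQ0
  have hQR1 : (1 : ℝ) ≤ (Q : ℝ) := by exact_mod_cast hQ1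
  have h2q : (2 : ℝ) ^ (2 * q * t) = (Q : ℝ) ^ q := by
    rw [← hQR, ← pow_mul]
    have : (4 : ℝ) = 2 ^ 2 := by norm_num
    rw [this, ← pow_mul]
    congr 1
    ring
  set W : ℕ := 2 * Dm * (Dm + 1) with hW
  have hη : (Dm : ℝ) * (((4:ℝ) ^ t) ^ (Dm + 1)) ^ (2 * Dm) / 2 ^ (2 * q * t) =
      (Dm : ℝ) * (Q : ℝ) ^ W / (Q : ℝ) ^ q := by
    rw [h2q, hQR, ← pow_mul]
    congr 3
    rw [hW]
    ring
  have hWq : W + 1 ≤ q := by
    have : 4 * Dm * (Dm + 1) = 2 * W := by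
      rw [hW]
      ring
    omega
  have hWp : 2 * W + 1 ≤ p := by
    have : 4 * Dm * (Dm + 1) = 2 * W := by
      rw [hW]
      ring
    omega
  refine ⟨Dm * T, kt, Mt, ?_⟩
  refine
    { dm := hDm
      n1 := by omega
      n2 := ?_
      n3 := ?_
      n4 := ?_
      n5 := ?_
      t1 := ht16
      x1 := hX1
      k1 := ?_
      k2 := ?_
      k3 := ?_
      p1 := le_rfl
      p2 := ?_
      s1 := ?_
      c1 := ?_
      u1 := ?_
      e1 := le_rfl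
      e2 := ?_
      e3 := ?_ }
  · -- n2
    have h1 : 6001 * (Mt * Dm ^ J) ≤ n := by
      calc 6001 * (Mt * Dm ^ J) = Mt * c := by
            rw [hc]
            ring
        _ ≤ n := hMtc
    omega
  · -- n3
    have h1 := H (3 * Dm) (by omega)
    calc 3 * (Dm * T) = 3 * Dm * T := by ring
      _ ≤ n := h1
  · -- n4
    have h1 := H (80 * (Dm * c)) (by omega)
    have h2 : 80 * (Dm * T) ≤ Mt := hMt_le _ (by
      calc 80 * (Dm * T) * c = 80 * (Dm * c) * T := by ring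
        _ ≤ n := h1)
    calc 80 * (Dm * T) ≤ Mt := h2
      _ ≤ Mt * Dm ^ J := Nat.le_mul_of_pos_right _ hDmJ
  · -- n5
    have h1 : t * 2 ^ t ≤ Q := by
      rw [hQ, four_pow_eq]
      exact Nat.mul_le_mul_right _ Nat.lt_two_pow_self.le
    have h2 : Q * Q ≤ Q ^ p := by
      rw [← sq]
      exact Nat.pow_le_pow_right hQ0 hp2
    have h3 : 1 + 72 * X ≤ 73 * X := by omega
    have h4 : 299008000 ≤ Q := by omega
    calc 1024 * (1000 * ((1 + 72 * X) * (4 * t * 2 ^ t)))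
        = 4096000 * ((1 + 72 * X) * (t * 2 ^ t)) := by ring
      _ ≤ 4096000 * ((73 * X) * Q) := Nat.mul_le_mul_left _ (Nat.mul_le_mul h3 h1)
      _ = X * (299008000 * Q) := by ring
      _ ≤ X * (Q * Q) := Nat.mul_le_mul_left _ (Nat.mul_le_mul_right _ h4)
      _ ≤ X * Q ^ p := Nat.mul_le_mul_left _ h2
      _ = n := hnX.symm
  · -- k1
    have h1 := H (20 * ((ℓ + 2) * c)) (by omega)
    exact hkt_le _ (by
      calc T * (20 * (ℓ + 2)) * c = 20 * ((ℓ + 2) * c) * T := by ring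
        _ ≤ n := h1)
  · -- k2
    calc 20 * kt ≤ kt * (20 * (ℓ + 2)) := by nlinarith
      _ ≤ Mt := hktM
  · -- k3
    have h1 : 20 * ((ℓ + 2) * (Dm + 1)) ≤ Mt := hMt_le _ (by
      calc 20 * ((ℓ + 2) * (Dm + 1)) * c = 20 * ((ℓ + 2) * ((Dm + 1) * c)) := by ring
        _ ≤ Q := by omega
        _ ≤ n := hQn)
    have h2 : 10 * (ℓ + 2) * (kt + (Dm + 1)) * 2 =
        kt * (20 * (ℓ + 2)) + 20 * ((ℓ + 2) * (Dm + 1)) := by ring
    omega
  · -- p2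
    have h1 := H ((Dm ^ 2 + Dm) * c) (by omega)
    exact hMt_le _ (by
      calc (Dm * (Dm * T) + Dm * T) * c = (Dm ^ 2 + Dm) * c * T := by ring
        _ ≤ n := h1)
  · -- s1
    have h1 : 6 * t * R ≤ kt := hkt_le _ (by
      have h2 : 120 * ((ℓ + 2) * c) * t ≤ Q := by
        refine le_trans (Nat.mul_le_mul_right t ?_) hPt
        omega
      calc 6 * t * R * (20 * (ℓ + 2)) * c = R * (120 * ((ℓ + 2) * c) * t) := by ring
        _ ≤ R * Q := Nat.mul_le_mul_left _ h2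
        _ = n := hnR.symm)
    rw [hsX]
    calc t * (4 * X ^ J + 18 * (X ^ J * R)) = X ^ J * (t * (4 + 18 * R)) := by ring
      _ ≤ X ^ J * (t * (24 * R)) := by
          refine Nat.mul_le_mul_left _ (Nat.mul_le_mul_left _ ?_)
          omega
      _ = 4 * X ^ J * (6 * t * R) := by ring
      _ ≤ 4 * X ^ J * kt := Nat.mul_le_mul_left _ h1
      _ ≤ 4 * X ^ J * (kt * Dm ^ J) :=
          Nat.mul_le_mul_left _ (Nat.le_mul_of_pos_right _ hDmJ)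
  · -- c1
    have h1 : Q ^ B = 2 ^ (2 * (t * B)) := by
      rw [hQ, ← pow_mul]
      have : (4 : ℕ) = 2 ^ 2 := by norm_num
      rw [this, ← pow_mul]
    have h2 : Q ^ B + 3 * J ≤ 2 * Q ^ B := by omega
    have h3 : 3 * (Q ^ B + 3 * J) ^ 2 ≤ 2 ^ (4 + 4 * (t * B)) := by
      calc 3 * (Q ^ B + 3 * J) ^ 2 ≤ 3 * (2 * Q ^ B) ^ 2 :=
            Nat.mul_le_mul_left _ (Nat.pow_le_pow_left h2 2)
        _ = 12 * (Q ^ B) ^ 2 := by ring
        _ ≤ 16 * (Q ^ B) ^ 2 := Nat.mul_le_mul_right _ (by norm_num)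
        _ = 2 ^ (4 + 4 * (t * B)) := by
            rw [h1, ← pow_mul, pow_add]
            congr 1
            congr 1
            ring
    have h4 : 2 ^ (t ^ 2) * (3 * (Q ^ B + 3 * J) ^ 2) ^ J * 2 ≤
        2 ^ (t ^ 2 + (4 + 4 * (t * B)) * J + 1) := by
      rw [pow_succ 2 (t ^ 2 + (4 + 4 * (t * B)) * J), pow_add 2 (t ^ 2) ((4 + 4 * (t * B)) * J),
        pow_mul 2 (4 + 4 * (t * B)) J]
      exact Nat.mul_le_mul_right _ (Nat.mul_le_mul_left _ (Nat.pow_le_pow_left h3 J))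
    have h5 : t ^ 2 + (4 + 4 * (t * B)) * J + 1 < 2 * t ^ 2 - 2 := by
      have h6 : (4 * J + 4 * (J * B) + 16) * t ≤ t * t := Nat.mul_le_mul_right t hT
      have h7 : 4 * J ≤ 4 * J * t := Nat.le_mul_of_pos_right _ ht1
      have h8 : (4 + 4 * (t * B)) * J = 4 * J + 4 * (J * B) * t := by ring
      have h9 : t ^ 2 = t * t := sq t
      have h10 : (4 * J + 4 * (J * B) + 16) * t = 4 * J * t + 4 * (J * B) * t + 16 * t := by ring
      rw [h8, h9]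
      omega
    have h6 : 2 ^ (t ^ 2) * (3 * (Q ^ B + 3 * J) ^ 2) ^ J * 2 < 2 ^ (2 * t ^ 2 - 2) :=
      lt_of_le_of_lt h4 (Nat.pow_lt_pow_right (by norm_num) h5)
    have h7 : ((4 : ℝ) ^ t / 4) ^ (t + 1) = (2 : ℝ) ^ (2 * t ^ 2 - 2) := by
      have h8 : (4 : ℝ) ^ t / 4 = 4 ^ (t - 1) := by
        have : t = (t - 1) + 1 := by omega
        conv_lhs => rw [this, pow_succ]
        field_simp
      rw [h8, ← pow_mul]
      have h9 : (4 : ℝ) = 2 ^ 2 := by norm_num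
      rw [h9, ← pow_mul]
      congr 1
      obtain ⟨u, rfl⟩ : ∃ u, t = u + 1 := ⟨t - 1, by omega⟩
      have h10 : (u + 1) ^ 2 = u * u + 2 * u + 1 := by ring
      have h11 : 2 * ((u + 1 - 1) * (u + 1 + 1)) = 2 * (u * u) + 4 * u := by
        rw [Nat.add_sub_cancel]
        ring
      rw [h10, h11]
      omega
    rw [h7]
    exact_mod_cast h6
  · -- u1
    rw [hQR]
    have : 4 ≤ Q := by omega
    exact_mod_cast this
  · -- e2
    rw [hη]
    have h1 : 100 * ((t : ℝ) + 1) * Dm ≤ Q := by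
      have h2 : 100 * (t + 1) * Dm ≤ Q := by
        have h3 : 200 * P * t ≤ Q := by
          refine le_trans (Nat.mul_le_mul_right t ?_) hPt
          omega
        calc 100 * (t + 1) * Dm ≤ 100 * (2 * t) * P :=
              Nat.mul_le_mul (Nat.mul_le_mul_left _ (by omega)) hP5
          _ = 200 * P * t := by ring
          _ ≤ Q := h3
      exact_mod_cast h2
    have h4 : (Q : ℝ) ^ (W + 1) ≤ (Q : ℝ) ^ q := pow_le_pow_right₀ hQR1 hWq
    have h5 : (0 : ℝ) < (Q : ℝ) ^ q := by positivity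
    have h6 : (0 : ℝ) < (Q : ℝ) ^ W := by positivity
    rw [mul_div_assoc', div_le_div_iff₀ h5 (by norm_num)]
    calc ((t : ℝ) + 1) * (Dm * (Q : ℝ) ^ W) * 100 = (100 * ((t : ℝ) + 1) * Dm) * (Q : ℝ) ^ W := by
          ring
      _ ≤ Q * (Q : ℝ) ^ W := mul_le_mul_of_nonneg_right h1 h6.le
      _ = (Q : ℝ) ^ (W + 1) := by ring
      _ ≤ 1 * (Q : ℝ) ^ q := by rw [one_mul]; exact h4
  · -- e3
    rw [hη]
    set x : ℝ := 40 * (((t : ℝ) + 1) * (Dm * (Q : ℝ) ^ W / (Q : ℝ) ^ q)) ^ 2 with hx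
    have hx0 : 0 ≤ x := by positivity
    have hXR1 : (1 : ℝ) ≤ (X : ℝ) := by exact_mod_cast hX1
    have h1 : 73 * (X : ℝ) * x ≤ 1 / 2 := by
      have h2 : (X : ℝ) * (Q : ℝ) ^ p = ((Q : ℝ) ^ q) ^ 2 := by
        have h3 : ((X * Q ^ p : ℕ) : ℝ) = ((n : ℕ) : ℝ) := by rw [hnX]
        rw [hn] at h3
        push_cast at h3
        rw [h3, ← pow_mul]
        congr 1
        ring
      have h5 : (0 : ℝ) < (Q : ℝ) ^ q := by positivity
      have h6 : 73 * (X : ℝ) * x = 2920 * ((t : ℝ) + 1) ^ 2 * (Dm : ℝ) ^ 2 *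
          (X * ((Q : ℝ) ^ W) ^ 2) / ((Q : ℝ) ^ q) ^ 2 := by
        rw [hx]
        field_simp
        ring
      rw [h6, ← h2, div_le_div_iff₀ (by positivity) (by norm_num)]
      have h7 : (5840 : ℝ) * (Dm : ℝ) ^ 2 * ((t : ℝ) + 1) ^ 2 ≤ Q := by exact_mod_cast hE2
      have h8 : (Q : ℝ) ^ (2 * W + 1) ≤ (Q : ℝ) ^ p := pow_le_pow_right₀ hQR1 hWp
      have h9 : ((Q : ℝ) ^ W) ^ 2 * Q = (Q : ℝ) ^ (2 * W + 1) := by
        rw [← pow_mul]
        ring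
      have h10 : (0 : ℝ) ≤ X * ((Q : ℝ) ^ W) ^ 2 := by positivity
      calc 2920 * ((t : ℝ) + 1) ^ 2 * (Dm : ℝ) ^ 2 * (X * ((Q : ℝ) ^ W) ^ 2) * 2
          = (5840 * (Dm : ℝ) ^ 2 * ((t : ℝ) + 1) ^ 2) * (X * ((Q : ℝ) ^ W) ^ 2) := by ring
        _ ≤ Q * (X * ((Q : ℝ) ^ W) ^ 2) := mul_le_mul_of_nonneg_right h7 h10
        _ = X * (((Q : ℝ) ^ W) ^ 2 * Q) := by ring
        _ = X * (Q : ℝ) ^ (2 * W + 1) := by rw [h9]
        _ ≤ X * (Q : ℝ) ^ p := mul_le_mul_of_nonneg_left h8 (by positivity)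
        _ = 1 * (X * (Q : ℝ) ^ p) := (one_mul _).symm
    have h11 : (1 + x) ^ (1 + 72 * X) ≤ Real.exp (1 / 2) := by
      calc (1 + x) ^ (1 + 72 * X) ≤ (Real.exp x) ^ (1 + 72 * X) := by
            refine pow_le_pow_left₀ (by linarith) ?_ _
            rw [add_comm]
            exact Real.add_one_le_exp x
        _ = Real.exp ((1 + 72 * X : ℕ) * x) := (Real.exp_nat_mul x _).symm
        _ ≤ Real.exp (1 / 2) := by
            apply Real.exp_le_exp.2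
            refine le_trans ?_ h1
            refine mul_le_mul_of_nonneg_right ?_ hx0
            push_cast
            linarith
    refine h11.trans ?_
    have h12 : Real.exp (1 / 2) ^ 2 ≤ 2 ^ 2 := by
      rw [← Real.exp_nat_mul]
      have : ((2 : ℕ) : ℝ) * (1 / 2) = 1 := by norm_num
      rw [this]
      have := Real.exp_one_lt_d9
      linarith
    exact le_of_sq_le_sq h12 (by norm_num)

end Pool.Agent.H3.Frg3
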