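import Mathlib
import Pool.Agent.H3.Frg3.QTower
import Pool.Agent.H3.Frg3.QNum

set_option autoImplicit false
set_option linter.unusedSectionVars false

/-!
# Final assembly for the quasipolynomial bound
-/

namespace Pool.Agent.H3.Frg3

open Finset Filter Topology Pool.Agent.H3.Frg Pool.Agent.H3.Frg2

theorem fixedQ {J n k Dm : ℕ} (hJD : dgf J ≤ Dm) (hn1 : 1000 ≤ n) :
    ∃ τ : Fm ℕ, (∀ x, τ.eval x = true) ∧ n ≤ τ.enc.length ∧
      τ.enc.length ≤ (n * ((k + 1) * 2 ^ k) ^ J * (24 * Dm ^ 2 + 1) + 4) *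
        (2 * Nat.size (Dm * (n * ((k + 1) * 2 ^ k) ^ J)) + 2) ∧
      ∀ (t X kt Mt K s ℓ cnt : ℕ) (u0 η : ℝ), Nq J n k t X Dm kt (Dm + 1) Mt K s ℓ cnt u0 η →
        ∀ Sch : Set (Fm ℕ), (∀ ψ ∈ Sch, ∀ x : ℕ → Bool, ψ.eval x = true) →
        (∀ ψ ∈ Sch, ψ.len ≤ ℓ) → ∀ (L : ℕ) (pf : Fin L → Fm ℕ), IsProof Sch pf →
        (∃ i, pf i = τ) → (∀ i, (pf i).len ≤ s) → cnt < L := by
  obtain ⟨E, Wv, iE, iD, iW, iDW, src, tgt, hG, hcW, hcE, hlev⟩ :=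
    tower (J := J) (n := n) (k := k) (Dm := Dm) hJD hn1 J le_rfl
  have hDm : 80 ≤ Dm := (one_le_dgf J).trans hJD
  have hkk : 1 ≤ (k + 1) * 2 ^ k := Nat.mul_pos (by omega) (by positivity)
  have hnW : n ≤ Fintype.card Wv := by
    rw [hcW]; exact Nat.le_mul_of_pos_right _ (Nat.pow_pos hkk)
  have hneW : Nonempty Wv := Fintype.card_pos_iff.mp (by omega)
  obtain ⟨v1⟩ := hneW
  have hne : (bd src tgt {v1}).Nonempty := by
    rw [Finset.nonempty_iff_ne_empty]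
    intro h0
    have h1 := hG.cheeger {v1}
    rw [h0, Finset.card_empty, mul_zero, Finset.card_singleton] at h1
    have : min 1 (Fintype.card Wv - 1) = 1 := min_eq_left (by omega)
    omega
  obtain ⟨v0, -⟩ := hne
  have hdeg : ∀ v, (bd src tgt {v}).card ≤ Dm := fun v => (hG.deg v).trans hJD
  obtain ⟨τ, g, hτ1, hτ2, hτ3, hτ4⟩ := exists_nat_tau (by omega) hdeg v0 v1
  refine ⟨τ, hτ1, hnW.trans hτ2, ?_, ?_⟩
  · rw [hcW] at hτ3 hcE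
    refine hτ3.trans (Nat.mul_le_mul_left _ ?_)
    have h1 : Nat.size (Fintype.card E) ≤ Nat.size (Dm * (n * ((k + 1) * 2 ^ k) ^ J)) :=
      Nat.size_le_size (hcE.trans (Nat.mul_le_mul_right _ hJD))
    omega
  · intro t X kt Mt K s ℓ cnt u0 η hN Sch htaut hlen L pf hpf hfin hs
    by_contra hL
    push Not at hL
    obtain ⟨fam, hfM, hfK, hlv⟩ := hlev t X kt (Dm + 1) Mt K s ℓ cnt u0 η hN
    rw [Nat.sub_self, pow_zero, pow_zero, mul_one, mul_one, mul_one] at hlv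
    have ht1 := hN.t1
    have htkt : t ≤ kt := by
      refine le_trans ?_ hN.k1
      exact Nat.le_mul_of_pos_right _ (by omega)
    have hσ : 16 ≤ 4 * t * 2 ^ t := by
      calc 16 ≤ 4 * t * 1 := by omega
        _ ≤ 4 * t * 2 ^ t := Nat.mul_le_mul_left _ Nat.one_le_two_pow
    have hK1 : 1 ≤ fam.K := by
      rw [hfK]
      refine le_trans ?_ hN.p1
      exact Nat.mul_pos (by omega) (Nat.mul_pos (by omega) (by omega))
    obtain ⟨i0, hi0⟩ := hfin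
    exact lev_top fam hlv (by omega) ht1 hσ hK1 v0 (ε := fun v => sg (sgn3 v1 v))
      (fun v => sg_mul_self _) htaut hlen (fun i => (pf i).ren g) (isProof_ren hpf g)
      (fun i => by rw [len_ren]; exact hs i) hL (axl3 src tgt Dm v0 v1)
      (axl3_spec hdeg v0 v1) ⟨i0, by
        show (pf i0).ren g = tau3 _ _ _ v0 v1
        rw [hi0, hτ4]⟩

theorem eventually_poly (C m : ℕ) : ∀ᶠ t : ℕ in atTop, C * t ^ m ≤ 4 ^ t := by
  have h1 : (1:ℝ) < 4 := by norm_num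
  have h2 := (isLittleO_pow_const_const_pow_of_one_lt (R := ℝ) m h1).bound
    (show (0:ℝ) < 1 / ((C:ℝ) + 1) by positivity)
  filter_upwards [h2] with t ht
  rw [Real.norm_eq_abs, Real.norm_eq_abs, abs_of_nonneg (by positivity),
    abs_of_nonneg (by positivity)] at ht
  have h3 : ((C * t ^ m : ℕ) : ℝ) ≤ ((4 ^ t : ℕ) : ℝ) := by
    push_cast
    have h5 : (0:ℝ) < (C:ℝ) + 1 := by positivity
    have h6 : (0:ℝ) ≤ (t:ℝ) ^ m := by positivity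
    calc (C:ℝ) * (t:ℝ) ^ m ≤ ((C:ℝ) + 1) * (t:ℝ) ^ m := by nlinarith
      _ ≤ ((C:ℝ) + 1) * (1 / ((C:ℝ) + 1) * 4 ^ t) := mul_le_mul_of_nonneg_left ht h5.le
      _ = 4 ^ t := by field_simp
  exact_mod_cast h3

theorem eventually_sizeQ (J q Dm : ℕ) : ∀ᶠ t : ℕ in atTop,
    ((4 ^ t) ^ (2 * q) * ((2 * q * t + 1) * 2 ^ (2 * q * t)) ^ J * (24 * Dm ^ 2 + 1) + 4) *
        (2 * Nat.size (Dm * ((4 ^ t) ^ (2 * q) * ((2 * q * t + 1) * 2 ^ (2 * q * t)) ^ J)) + 2)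
      ≤ (4 ^ t) ^ (2 * q + q * J + 1) := by
  obtain ⟨A, hA⟩ : ∃ A, A = 2 * q + q * J + 1 := ⟨_, rfl⟩
  filter_upwards [eventually_poly (Dm * (2 * q + 1) ^ J) J,
    eventually_poly (((2 * q + 1) ^ J * (24 * Dm ^ 2 + 1) + 4) * (4 * A + 4)) (J + 1),
    eventually_ge_atTop 1] with t h1 h2 h3
  obtain ⟨Q, hQ⟩ : ∃ Q, Q = 4 ^ t := ⟨_, rfl⟩
  have hQ1 : 1 ≤ Q := by rw [hQ]; exact Nat.one_le_pow _ _ (by norm_num)
  have h2k : 2 ^ (2 * q * t) = Q ^ q := by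
    rw [hQ, ← pow_mul, show (4:ℕ) = 2 ^ 2 by norm_num, ← pow_mul]
    congr 1; ring
  obtain ⟨P, hP⟩ : ∃ P, P = (2 * q * t + 1) ^ J := ⟨_, rfl⟩
  have hPle : P ≤ (2 * q + 1) ^ J * t ^ J := by
    rw [hP, ← mul_pow]
    exact Nat.pow_le_pow_left (by nlinarith) _
  obtain ⟨N, hN⟩ : ∃ N, N = (4 ^ t) ^ (2 * q) * ((2 * q * t + 1) * 2 ^ (2 * q * t)) ^ J :=
    ⟨_, rfl⟩
  have hN' : N = Q ^ (2 * q + q * J) * P := by
    rw [hN, h2k, ← hQ, hP, mul_pow, ← pow_mul]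
    ring
  rw [← hN]
  rw [← hQ] at h1 h2 ⊢
  have hsz : Nat.size (Dm * N) ≤ 2 * t * A + 1 := by
    rw [Nat.size_le]
    have h4 : Dm * N ≤ Q ^ A := by
      calc Dm * N = Q ^ (2 * q + q * J) * (Dm * P) := by rw [hN']; ring
        _ ≤ Q ^ (2 * q + q * J) * Q := Nat.mul_le_mul_left _ (by
            refine le_trans (Nat.mul_le_mul_left _ hPle) ?_
            rw [← mul_assoc]; exact h1)
        _ = Q ^ A := by rw [hA, pow_succ]
    have h5 : Q ^ A = 2 ^ (2 * t * A) := by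
      rw [hQ, ← pow_mul, show (4:ℕ) = 2 ^ 2 by norm_num, ← pow_mul]
      congr 1; ring
    rw [h5] at h4
    refine lt_of_le_of_lt h4 ?_
    exact Nat.pow_lt_pow_right (by norm_num) (by omega)
  have hQp : 1 ≤ Q ^ (2 * q + q * J) := Nat.one_le_pow _ _ hQ1
  have htJ : 1 ≤ t ^ J := Nat.one_le_pow _ _ h3
  calc (N * (24 * Dm ^ 2 + 1) + 4) * (2 * Nat.size (Dm * N) + 2)
      ≤ (Q ^ (2 * q + q * J) * (((2 * q + 1) ^ J * (24 * Dm ^ 2 + 1) + 4) * t ^ J)) *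
        ((4 * A + 4) * t) := by
        refine Nat.mul_le_mul ?_ ?_
        · rw [hN']
          have e1 : Q ^ (2 * q + q * J) * P * (24 * Dm ^ 2 + 1)
              ≤ Q ^ (2 * q + q * J) * ((2 * q + 1) ^ J * t ^ J) * (24 * Dm ^ 2 + 1) :=
            Nat.mul_le_mul_right _ (Nat.mul_le_mul_left _ hPle)
          have e2 : 4 ≤ Q ^ (2 * q + q * J) * (4 * t ^ J) := by
            calc 4 = 1 * (4 * 1) := by norm_num
              _ ≤ _ := Nat.mul_le_mul hQp (Nat.mul_le_mul_left _ htJ)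
          calc _ ≤ Q ^ (2 * q + q * J) * ((2 * q + 1) ^ J * t ^ J) * (24 * Dm ^ 2 + 1) +
                Q ^ (2 * q + q * J) * (4 * t ^ J) := Nat.add_le_add e1 e2
            _ = _ := by ring
        · calc 2 * Nat.size (Dm * N) + 2 ≤ 2 * (2 * t * A + 1) + 2 := by omega
            _ = 4 * A * t + 4 := by ring
            _ ≤ 4 * A * t + 4 * t := by omega
            _ = _ := by ring
    _ = Q ^ (2 * q + q * J) * (((2 * q + 1) ^ J * (24 * Dm ^ 2 + 1) + 4) * (4 * A + 4) *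
        t ^ (J + 1)) := by rw [pow_succ]; ring
    _ ≤ Q ^ (2 * q + q * J) * Q := Nat.mul_le_mul_left _ h2
    _ = Q ^ (2 * q + q * J + 1) := by rw [pow_succ]

theorem finalQ (θ : ℝ) (hθ : θ < 2) :
    ∃ c : ℝ, 0 < c ∧ ∃ τ : ℕ → Fm ℕ,
      (∀ n x, (τ n).eval x = true) ∧
      Tendsto (fun n => (τ n).enc.length) atTop atTop ∧
      ∀ Sch : Set (Fm ℕ), Sch.Finite → (∀ ψ ∈ Sch, ∀ x, ψ.eval x = true) →
        ∀ᶠ n in atTop, ∀ (L : ℕ) (pf : Fin L → Fm ℕ), IsProof Sch pf → (∃ i, pf i = τ n) →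
          (∀ i, ((pf i).enc.length : ℝ) ≤ ((τ n).enc.length : ℝ) ^ θ) →
          ((τ n).enc.length : ℝ) ^ (c * Real.log ((τ n).enc.length : ℝ)) ≤ L := by
  obtain ⟨θ', hθ'⟩ : ∃ θ' : ℝ, θ' = max θ 1 := ⟨_, rfl⟩
  have hθ1 : 1 ≤ θ' := by rw [hθ']; exact le_max_right _ _
  have hθθ : θ ≤ θ' := by rw [hθ']; exact le_max_left _ _
  have hθ2 : θ' < 2 := by rw [hθ']; exact max_lt hθ (by norm_num)
  obtain ⟨J, hJ⟩ : ∃ J : ℕ, J = ⌈2 / (2 - θ')⌉₊ := ⟨_, rfl⟩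
  obtain ⟨γ, hγ⟩ : ∃ γ : ℝ, γ = (2 * (J:ℝ) + 2) - ((J:ℝ) + 2) * θ' := ⟨_, rfl⟩
  have hγ0 : 0 < γ := by
    have h1 : 2 / (2 - θ') ≤ J := by rw [hJ]; exact Nat.le_ceil _
    have h2 : 0 < 2 - θ' := by linarith
    rw [div_le_iff₀ h2] at h1
    rw [hγ]
    nlinarith
  obtain ⟨Dm, hDm⟩ : ∃ Dm, Dm = dgf J := ⟨_, rfl⟩
  have hD80 : 80 ≤ Dm := by rw [hDm]; exact one_le_dgf J
  obtain ⟨p, hp⟩ : ∃ p, p = 4 * Dm * (Dm + 1) + 1 := ⟨_, rfl⟩
  obtain ⟨q, hq⟩ : ∃ q : ℕ, q = ⌈((J:ℝ) * p + 3) / γ⌉₊ + p := ⟨_, rfl⟩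
  have hp1 : 1 ≤ p := by omega
  have hpq : p < 2 * q := by omega
  have hq1 : 1 ≤ q := by omega
  have hqγ : (J:ℝ) * p + 3 ≤ γ * q := by
    have h1 : ((J:ℝ) * p + 3) / γ ≤ q := by
      refine (Nat.le_ceil _).trans ?_
      rw [hq]; push_cast
      have : (0:ℝ) ≤ p := by positivity
      linarith
    rw [div_le_iff₀ hγ0] at h1
    linarith
  obtain ⟨A, hA⟩ : ∃ A : ℕ, A = 2 * q + q * J + 1 := ⟨_, rfl⟩
  obtain ⟨B, hB⟩ : ∃ B : ℕ, B = J * (2 * q - p) + 2 * q - 1 := ⟨_, rfl⟩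
  have hBR : (B:ℝ) = J * (2 * q - p) + 2 * q - 1 := by
    have h1 : B + 1 = J * (2 * q - p) + 2 * q := by omega
    have h2 : ((B + 1 : ℕ) : ℝ) = ((J * (2 * q - p) + 2 * q : ℕ) : ℝ) := by rw [h1]
    rw [Nat.cast_add, Nat.cast_add, Nat.cast_mul, Nat.cast_sub hpq.le] at h2
    push_cast at h2
    linarith
  have hAθ : (A:ℝ) * θ' ≤ B := by
    rw [hBR, hA]
    push_cast
    have h1 : (2 * (q:ℝ) + q * J + 1) * θ' = q * (2 * J + 2) - γ * q + θ' := by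
      rw [hγ]; ring
    rw [h1]
    nlinarith
  have hA0 : (0:ℝ) < A := by rw [hA]; positivity
  have hch : ∀ n : ℕ, ∃ τ : Fm ℕ, (∀ x, τ.eval x = true) ∧
      (4 ^ (n + 5)) ^ (2 * q) ≤ τ.enc.length ∧
      τ.enc.length ≤ ((4 ^ (n + 5)) ^ (2 * q) * ((2 * q * (n + 5) + 1) *
        2 ^ (2 * q * (n + 5))) ^ J * (24 * Dm ^ 2 + 1) + 4) *
        (2 * Nat.size (Dm * ((4 ^ (n + 5)) ^ (2 * q) * ((2 * q * (n + 5) + 1) *
        2 ^ (2 * q * (n + 5))) ^ J)) + 2) ∧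
      ∀ (t X kt Mt K s ℓ cnt : ℕ) (u0 η : ℝ),
        Nq J ((4 ^ (n + 5)) ^ (2 * q)) (2 * q * (n + 5)) t X Dm kt (Dm + 1) Mt K s ℓ cnt u0 η →
        ∀ Sch : Set (Fm ℕ), (∀ ψ ∈ Sch, ∀ x : ℕ → Bool, ψ.eval x = true) →
        (∀ ψ ∈ Sch, ψ.len ≤ ℓ) → ∀ (L : ℕ) (pf : Fin L → Fm ℕ), IsProof Sch pf →
        (∃ i, pf i = τ) → (∀ i, (pf i).len ≤ s) → cnt < L := fun n =>
    fixedQ (by rw [hDm]) (by
      calc 1000 ≤ 4 ^ 5 := by norm_num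
        _ ≤ 4 ^ (n + 5) := Nat.pow_le_pow_right (by norm_num) (by omega)
        _ ≤ (4 ^ (n + 5)) ^ (2 * q) := Nat.le_self_pow (by omega) _)
  choose τ hτ1 hτ2 hτ3 hτ4 using hch
  refine ⟨1 / (4 * (A:ℝ) ^ 2), by positivity, τ, hτ1, ?_, ?_⟩
  · refine tendsto_atTop_mono (fun n => ?_) tendsto_id
    refine le_trans ?_ (hτ2 n)
    calc n ≤ n + 5 := by omega
      _ ≤ 4 ^ (n + 5) := (Nat.lt_pow_self (by norm_num)).le
      _ ≤ (4 ^ (n + 5)) ^ (2 * q) := Nat.le_self_pow (by omega) _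
  · intro Sch hfin htaut
    obtain ⟨ℓ, hℓ⟩ : ∃ ℓ : ℕ, ∀ ψ ∈ Sch, ψ.len ≤ ℓ := by
      obtain ⟨ℓ, hℓ⟩ := (hfin.image Fm.len).bddAbove
      exact ⟨ℓ, fun ψ hψ => hℓ (Set.mem_image_of_mem _ hψ)⟩
    have hshift : Tendsto (fun n : ℕ => n + 5) atTop atTop := tendsto_add_atTop_nat 5
    filter_upwards [hshift.eventually (eventually_sizeQ J q Dm),
      hshift.eventually (nq_exists J Dm q p ℓ (by rw [hDm]) hD80 (by omega) hpq)]
      with n h1 h2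
    intro L pf hpf hex hlines
    obtain ⟨K, kt, Mt, hNq⟩ := h2
    have hm3 := (hτ3 n).trans h1
    rw [← hA] at hm3
    obtain ⟨t, ht⟩ : ∃ t, t = n + 5 := ⟨_, rfl⟩
    have hm4 := hτ4 n _ _ _ _ _ _ _ _ _ _ hNq Sch htaut hℓ L pf hpf hex
    rw [← ht] at hm3 hm4
    rw [← hB] at hm4
    obtain ⟨Q, hQ⟩ : ∃ Q, Q = 4 ^ t := ⟨_, rfl⟩
    rw [← hQ] at hm3 hm4
    have hQ1 : 1 ≤ Q := by rw [hQ]; exact Nat.one_le_pow _ _ (by norm_num)
    have hQR : (1:ℝ) ≤ Q := by exact_mod_cast hQ1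
    have hQ0 : (0:ℝ) < Q := by linarith
    have hxle : ((τ n).enc.length : ℝ) ≤ (Q:ℝ) ^ A := by exact_mod_cast hm3
    have hx1 : (1:ℝ) ≤ ((τ n).enc.length : ℝ) := by
      have h3 : 1 ≤ (4 ^ (n + 5)) ^ (2 * q) := Nat.one_le_pow _ _ (by positivity)
      exact_mod_cast h3.trans (hτ2 n)
    have hlen : ∀ i, (pf i).len ≤ Q ^ B := by
      intro i
      have e2 : ((pf i).len : ℝ) ≤ (Q:ℝ) ^ B := by
        calc ((pf i).len : ℝ) ≤ ((pf i).enc.length : ℝ) := by exact_mod_cast len_le_enc _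
          _ ≤ ((τ n).enc.length : ℝ) ^ θ := hlines i
          _ ≤ ((τ n).enc.length : ℝ) ^ θ' := Real.rpow_le_rpow_of_exponent_le hx1 hθθ
          _ ≤ ((Q:ℝ) ^ A) ^ θ' := Real.rpow_le_rpow (by linarith) hxle (by linarith)
          _ = (Q:ℝ) ^ ((A:ℝ) * θ') := by
              rw [← Real.rpow_natCast, ← Real.rpow_mul hQ0.le]
          _ ≤ (Q:ℝ) ^ (B:ℝ) := Real.rpow_le_rpow_of_exponent_le hQR hAθ
          _ = (Q:ℝ) ^ B := Real.rpow_natCast _ _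
      exact_mod_cast e2
    have hL := hm4 hlen
    have hLR : (2:ℝ) ^ (t ^ 2) ≤ (L:ℝ) := by exact_mod_cast hL.le
    refine le_trans ?_ hLR
    obtain ⟨x, hx⟩ : ∃ x : ℝ, x = ((τ n).enc.length : ℝ) := ⟨_, rfl⟩
    rw [← hx] at hx1 hxle ⊢
    have hx0 : 0 < x := by linarith
    have hlog0 : 0 ≤ Real.log x := Real.log_nonneg hx1
    have hlog1 : Real.log x ≤ 2 * A * t * Real.log 2 := by
      have h3 := Real.log_le_log hx0 hxle
      rw [Real.log_pow, hQ] at h3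
      push_cast at h3
      rw [Real.log_pow, show (4:ℝ) = 2 ^ 2 by norm_num, Real.log_pow] at h3
      push_cast at h3
      linarith
    have hl2 : 0 < Real.log 2 := Real.log_pos (by norm_num)
    have hl21 : Real.log 2 ≤ 1 := by
      have := Real.log_two_lt_d9
      linarith
    rw [Real.rpow_def_of_pos hx0]
    have h2t : (2:ℝ) ^ (t ^ 2) = Real.exp ((t:ℝ) ^ 2 * Real.log 2) := by
      rw [← Real.rpow_natCast, Real.rpow_def_of_pos (by norm_num)]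
      congr 1
      push_cast
      ring
    rw [h2t]
    refine Real.exp_le_exp.mpr ?_
    have h5 : Real.log x * (1 / (4 * (A:ℝ) ^ 2) * Real.log x)
        = Real.log x ^ 2 * (1 / (4 * (A:ℝ) ^ 2)) := by ring
    rw [h5]
    calc Real.log x ^ 2 * (1 / (4 * (A:ℝ) ^ 2))
        ≤ (2 * A * t * Real.log 2) ^ 2 * (1 / (4 * (A:ℝ) ^ 2)) := by
          refine mul_le_mul_of_nonneg_right ?_ (by positivity)
          exact pow_le_pow_left₀ hlog0 hlog1 2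
      _ = (t:ℝ) ^ 2 * Real.log 2 * Real.log 2 := by
          field_simp
          ring
      _ ≤ (t:ℝ) ^ 2 * Real.log 2 * 1 := by
          refine mul_le_mul_of_nonneg_left hl21 (by positivity)
      _ = (t:ℝ) ^ 2 * Real.log 2 := by ring

end Pool.Agent.H3.Frg3
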