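import Mathlib
import Pool.Agent.H3.Frg3.Taut3

set_option autoImplicit false
set_option linter.unusedSectionVars false

/-!
# One stage: the tautology and the lower bound for fixed parameters
-/

namespace Pool.Agent.H3.Frg3

open Finset Pool.Agent.H3.Frg Pool.Agent.H3.Frg2

/-- the number of vertices -/
def Nv (b m : ℕ) : ℕ := 2 ^ m * ((2 ^ m) ^ b) ^ 4 * (2 * b * m + 1)

/-- the tautology and the lower bound for fixed `q` -/
theorem fixed3 (b m : ℕ) (hb : 1 ≤ b) (hm : 10 ≤ m) :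
    ∃ τ : Fm ℕ, (∀ x, τ.eval x = true) ∧ 2 ^ m ≤ τ.enc.length ∧
      τ.enc.length ≤ (Nv b m * 645505 + 4) * (2 * Nat.size (82 * Nv b m) + 2) ∧
      ∀ ℓ : ℕ, thr kap ℓ ≤ 2 ^ m → ∀ Sch : Set (Fm ℕ),
        (∀ ψ ∈ Sch, ∀ x : ℕ → Bool, ψ.eval x = true) → (∀ ψ ∈ Sch, ψ.len ≤ ℓ) →
        ∀ t s : ℕ, t ≤ ((2 ^ m) ^ b) ^ 2 → t * s ≤ ((2 ^ m) ^ b) ^ 6 →
        ∀ (L : ℕ) (pf : Fin L → Fm ℕ), IsProof Sch pf → (∃ i, pf i = τ) →
        (∀ i, (pf i).len ≤ s) → 2 ^ t ≤ 9 * L * s ^ 2 := by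
  obtain ⟨q, hq⟩ : ∃ q, q = 2 ^ m := ⟨_, rfl⟩
  obtain ⟨r, hr⟩ : ∃ r, r = q ^ b := ⟨_, rfl⟩
  obtain ⟨n, hn⟩ : ∃ n, n = q * r ^ 2 := ⟨_, rfl⟩
  obtain ⟨k, hk⟩ : ∃ k, k = 2 * b * m := ⟨_, rfl⟩
  have hq1000 : 1000 ≤ q := by
    rw [hq]
    calc 1000 ≤ 2 ^ 10 := by norm_num
      _ ≤ 2 ^ m := Nat.pow_le_pow_right (by norm_num) hm
  have hqr : q ≤ r := by
    rw [hr]; exact Nat.le_self_pow (by omega) q
  have hr1 : 1 ≤ r := by omega
  have h2k : 2 ^ k = r ^ 2 := by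
    rw [hr, hq, hk, ← pow_mul, ← pow_mul]
    congr 1; ring
  have hNv : Nv b m = n * (k + 1) * 2 ^ k := by
    unfold Nv
    rw [← hq, ← hr, ← hk, h2k, hn]; ring
  have hn1000 : 1000 ≤ n := by
    rw [hn]
    calc 1000 ≤ q * 1 := by omega
      _ ≤ q * r ^ 2 := Nat.mul_le_mul_left _ (Nat.one_le_pow _ _ hr1)
  obtain ⟨E', iE', iD', src', tgt', hG, hE'⟩ := exists_super n hn1000
  have : NeZero n := ⟨by omega⟩
  have hcardW : Fintype.card (Fin n) = n := Fintype.card_fin n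
  have hcNV : Fintype.card (NV (Fin n) k) = n * (k + 1) * 2 ^ k := by
    rw [card_NV, hcardW]; ring
  have hcNV' : n ≤ Fintype.card (NV (Fin n) k) := by
    rw [hcNV]
    calc n = n * 1 * 1 := by ring
      _ ≤ n * (k + 1) * 2 ^ k :=
        Nat.mul_le_mul (Nat.mul_le_mul_left _ (by omega)) Nat.one_le_two_pow
  obtain ⟨R, iR, iDR, rsrc, rtgt, hR, hcR⟩ := exists_superW (NV (Fin n) k) (by omega)
  have hdeg : ∀ v, (bd (nsrc src' rsrc) (ntgt tgt' rtgt) {v}).card ≤ 164 := by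
    intro v
    have := net_deg (D := 80) (ρ := 80) hG.loopless hG.deg hR.deg v
    omega
  have hch : ∀ X : Finset (NV (Fin n) k), min X.card (Fintype.card (NV (Fin n) k) - X.card)
      ≤ 1000 * (bd (nsrc src' rsrc) (ntgt tgt' rtgt) X).card := by
    intro X
    exact (hR.cheeger X).trans (Nat.mul_le_mul_left _ (net_bd_ge src' tgt' rsrc rtgt X))
  -- a variable
  have hRne : Nonempty R := by
    by_contra hne
    rw [not_nonempty_iff] at hne
    have h1 := hR.cheeger {((0 : Fin n), 0, fun _ => false)}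
    have h2 : bd rsrc rtgt {((0 : Fin n), (0 : Fin (k + 1)), fun _ => false)} = ∅ := by
      ext e; exact (hne.false e).elim
    rw [h2, Finset.card_empty, mul_zero, Finset.card_singleton] at h1
    have : min 1 (Fintype.card (NV (Fin n) k) - 1) = 1 := min_eq_left (by omega)
    omega
  obtain ⟨e0⟩ := hRne
  obtain ⟨v0, hv0⟩ : ∃ v0 : NE E' (Fin n) k R, v0 = Sum.inr (Sum.inr e0) := ⟨_, rfl⟩
  obtain ⟨v1, hv1⟩ : ∃ v1 : NV (Fin n) k, v1 = ((0 : Fin n), 0, fun _ => false) := ⟨_, rfl⟩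
  have hcE : Fintype.card (NE E' (Fin n) k R) ≤ 82 * Nv b m := by
    rw [card_NE, hNv, hcardW]
    have h1 : Fintype.card E' * 2 ^ k ≤ 40 * n * 2 ^ k := Nat.mul_le_mul_right _ hE'
    rw [hcNV] at hcR
    have h2 : 82 * (n * (k + 1) * 2 ^ k) = 40 * n * 2 ^ k + n * (k * (2 ^ k * 2))
        + 40 * (n * (k + 1) * 2 ^ k) + (40 * (n * k * 2 ^ k) + 2 * (n * 2 ^ k)) := by ring
    rw [h2]
    omega
  obtain ⟨τ, g, hτ1, hτ2, hτ3, hτ4⟩ := exists_nat_tau (by norm_num) hdeg v0 v1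
  refine ⟨τ, hτ1, ?_, ?_, ?_⟩
  · refine le_trans ?_ (hcNV'.trans hτ2)
    rw [← hq, hn]
    exact Nat.le_mul_of_pos_right _ (Nat.one_le_pow _ _ hr1)
  · refine hτ3.trans ?_
    rw [hcNV, ← hNv]
    have h1 : Nat.size (Fintype.card (NE E' (Fin n) k R)) ≤ Nat.size (82 * Nv b m) :=
      Nat.size_le_size hcE
    exact Nat.mul_le_mul (by norm_num) (by omega)
  · intro ℓ hℓ Sch htaut hlen t s ht hts L pf hpf hfin hs
    rw [← hq] at hℓ ht hts
    rw [← hr] at ht hts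
    by_contra hL
    push Not at hL
    obtain ⟨n', M, h, kk, hn', g1, g2, g3, g4, g5, g6, g7, g8, g9, g10, g11, g12, g14⟩ :=
      nums one_le_kap hℓ hqr ht
    rw [← hn] at hn'
    rw [hn'] at g1 g3 g4 g5
    obtain ⟨u, hu⟩ : ∃ u : ℝ, u = 8 ^ (80 + 1) := ⟨_, rfl⟩
    obtain ⟨η, hη⟩ : ∃ η : ℝ, η = (u - 1) * u ^ (2 * 80) / (r:ℝ) ^ 2 := ⟨_, rfl⟩
    obtain ⟨a1, a2, a3⟩ := real_nums (n := n) hr1 u η hu hη g2 g4 ht
    have hx : Expd src' tgt' (2 * M) :=
      expd_of_SG hG (by rw [hcardW]; exact g1) (by rw [hcardW]; omega)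
    obtain ⟨i0, hi0⟩ := hfin
    have hrR : (0:ℝ) < r := by exact_mod_cast hr1
    have hu80 : (81:ℝ) ≤ u := by
      rw [hu]
      calc (81:ℝ) ≤ 8 ^ 3 := by norm_num
        _ ≤ 8 ^ (80 + 1) := pow_le_pow_right₀ (by norm_num) (by norm_num)
    have hu1 : 1 ≤ u := by linarith
    have h2kR : (2:ℝ) ^ k = (r:ℝ) ^ 2 := by exact_mod_cast h2k
    have hη1 : ((80 : ℕ):ℝ) * u ^ (2 * 80) / 2 ^ k ≤ η := by
      rw [hη, h2kR]
      refine div_le_div_of_nonneg_right ?_ (by positivity)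
      refine mul_le_mul_of_nonneg_right ?_ (by positivity)
      push_cast; linarith
    have hη0 : 0 ≤ η := le_trans (by positivity) hη1
    have hCne : Nonempty (Ch E' (Fin n) k) := ⟨(fun _ _ => false, fun _ _ => false)⟩
    have hnr : 4 * h ≤ r ^ 4 := by
      refine le_trans ?_ g2
      calc 4 * h = 4 * h * 1 := by ring
        _ ≤ 4 * h * kap ^ 2 := Nat.mul_le_mul_left _ (Nat.one_le_pow _ _ one_le_kap)
    refine lower3 (K := r ^ 2) (t := t) (h := h) (k := kk) (ℓ := ℓ) (c0 := 1000) (D := 80)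
      (net_stg (D := 80) (by norm_num) hG.loopless hG.deg rsrc rtgt) hch hG hx le_rfl
      (ε := fun v => sg (sgn3 v1 v)) (fun v => sg_mul_self _) (by rw [hcardW]; omega) u η
      ((r:ℝ) ^ 2) hu hη0 ?_ ?_ ?_ (by positivity) ?_ (by omega) a1 ?_ a3
      (by rw [hcardW]; exact g5) g6
      g7 g8 g9 g10 g11 (by omega) htaut hlen v0 (s := s) (g14 _ hts)
      (fun i => (pf i).ren g) (isProof_ren hpf g) (fun i => by rw [len_ren]; exact hs i) hL
      (axl3 (nsrc src' rsrc) (ntgt tgt' rtgt) 164 v0 v1) ?_ ⟨i0, ?_⟩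
    · intro Y T i
      refine (res_phi (D := 80) (by norm_num) hG.loopless hG.deg rsrc rtgt hu1 Y T i).trans ?_
      refine mul_le_mul_of_nonneg_right (by linarith) ?_
      unfold Ph
      exact Finset.sum_nonneg fun c _ => by positivity
    · intro S
      refine (res_uv (D := 80) (by norm_num) hG.loopless hG.deg hu1 S).trans ?_
      refine mul_le_mul_of_nonneg_right ?_ (by positivity)
      exact pow_le_pow_left₀ (by positivity) (by linarith) _
    · intro Y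
      rw [← h2kR]
      exact res_cen Y
    · rw [hcNV, h2k]
      have h5 : 4 * (1000 * (4 * h)) ≤ 1 * (n * r ^ 2) := by
        have h6 : r * (n * r) = 1 * (n * r ^ 2) := by ring
        omega
      refine h5.trans ?_
      calc 1 * (n * r ^ 2) ≤ (k + 1) * (n * r ^ 2) := Nat.mul_le_mul_right _ (by omega)
        _ = n * (k + 1) * r ^ 2 := by ring
    · rw [hcardW]
      refine le_trans ?_ a2
      refine mul_le_mul_of_nonneg_right ?_ (by positivity)
      refine Real.exp_le_exp.mpr ?_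
      refine div_le_div_of_nonneg_right ?_ (by positivity)
      refine mul_le_mul_of_nonneg_right ?_ (by positivity)
      push_cast; norm_num
    · intro A hA
      obtain ⟨h5, h6⟩ := axl3_spec hdeg v0 v1 A hA
      refine ⟨?_, h6⟩
      have h7 : r * r = r ^ 2 := by ring
      have h8 : 1000 * 1000 ≤ r * r := Nat.mul_le_mul (by omega) (by omega)
      omega
    · show (pf i0).ren g = tau3 _ _ _ v0 v1
      rw [hi0, hτ4]

end Pool.Agent.H3.Frg3
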