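import Mathlib
import Pool.Agent.H3.Frg3.Numerics3

set_option autoImplicit false
set_option linter.unusedSectionVars false

/-!
# Final assembly, one stage
-/

namespace Pool.Agent.H3.Frg3

open Finset Filter Topology Pool.Agent.H3.Frg Pool.Agent.H3.Frg2

theorem Nv_le (b m : ℕ) : Nv b m < 2 ^ ((4 * b + 1) * m + (2 * b * m + 1)) := by
  have h1 : 2 * b * m + 1 < 2 ^ (2 * b * m + 1) := Nat.lt_two_pow_self
  have h2 : 2 ^ m * ((2 ^ m) ^ b) ^ 4 = 2 ^ ((4 * b + 1) * m) := by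
    rw [← pow_mul, ← pow_mul, ← pow_add]; congr 1; ring
  unfold Nv
  rw [h2, pow_add]
  exact Nat.mul_lt_mul_of_pos_left h1 (by positivity)

theorem size_bound3 (b m : ℕ) :
    Nat.size (82 * Nv b m) ≤ (6 * b + 1) * m + 8 := by
  rw [Nat.size_le]
  calc 82 * Nv b m < 82 * 2 ^ ((4 * b + 1) * m + (2 * b * m + 1)) :=
        Nat.mul_lt_mul_of_pos_left (Nv_le b m) (by norm_num)
    _ ≤ 2 ^ 7 * 2 ^ ((4 * b + 1) * m + (2 * b * m + 1)) := Nat.mul_le_mul_right _ (by norm_num)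
    _ = 2 ^ ((6 * b + 1) * m + 8) := by rw [← pow_add]; congr 1; ring

theorem eventually_size3 (b : ℕ) : ∀ᶠ m : ℕ in atTop,
    (Nv b m * 645505 + 4) * (2 * Nat.size (82 * Nv b m) + 2) ≤ (2 ^ m) ^ (4 * b + 2) := by
  have h1 : (1:ℝ) < 2 := by norm_num
  have h2 := (isLittleO_pow_const_const_pow_of_one_lt (R := ℝ) 2 h1).bound
    (show (0:ℝ) < 1 / (645509 * (2 * b + 1) * (2 * ((6 * b + 1) + 8) + 2)) by positivity)
  filter_upwards [h2, eventually_ge_atTop 1] with m hm hm1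
  rw [Real.norm_eq_abs, Real.norm_eq_abs, abs_of_nonneg (by positivity),
    abs_of_nonneg (by positivity)] at hm
  have h3 : 645509 * (2 * b + 1) * (2 * ((6 * b + 1) + 8) + 2) * m ^ 2 ≤ 2 ^ m := by
    have h4 : ((645509 * (2 * b + 1) * (2 * ((6 * b + 1) + 8) + 2) * m ^ 2 : ℕ) : ℝ) ≤ 2 ^ m := by
      push_cast
      have h5 : (0:ℝ) < 645509 * (2 * b + 1) * (2 * ((6 * b + 1) + 8) + 2) := by positivity
      calc (645509 * (2 * (b:ℝ) + 1) * (2 * ((6 * b + 1) + 8) + 2) * (m:ℝ) ^ 2)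
          ≤ (645509 * (2 * (b:ℝ) + 1) * (2 * ((6 * b + 1) + 8) + 2)) *
            (1 / (645509 * (2 * b + 1) * (2 * ((6 * b + 1) + 8) + 2)) * 2 ^ m) :=
            mul_le_mul_of_nonneg_left hm h5.le
        _ = 2 ^ m := by field_simp
    exact_mod_cast h4
  obtain ⟨A, hA⟩ : ∃ A, A = 2 ^ m * ((2 ^ m) ^ b) ^ 4 := ⟨_, rfl⟩
  have hA1 : 1 ≤ A := by rw [hA]; exact Nat.one_le_iff_ne_zero.mpr (by positivity)
  have hN : Nv b m = A * (2 * b * m + 1) := by rw [hA]; rfl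
  have hN2 : Nv b m ≤ A * ((2 * b + 1) * m) := by
    rw [hN]
    refine Nat.mul_le_mul_left _ ?_
    calc 2 * b * m + 1 ≤ 2 * b * m + m := by omega
      _ = (2 * b + 1) * m := by ring
  have hs : 2 * Nat.size (82 * Nv b m) + 2 ≤ (2 * ((6 * b + 1) + 8) + 2) * m := by
    have h4 := size_bound3 b m
    calc 2 * Nat.size (82 * Nv b m) + 2 ≤ 2 * ((6 * b + 1) * m + 8) + 2 := by omega
      _ ≤ 2 * ((6 * b + 1) * m + 8 * m) + 2 * m := by omega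
      _ = _ := by ring
  have hA4 : Nv b m * 645505 + 4 ≤ 645509 * (A * ((2 * b + 1) * m)) := by
    have h4 : 1 ≤ A * ((2 * b + 1) * m) := Nat.mul_pos hA1 (Nat.mul_pos (by omega) hm1)
    omega
  calc (Nv b m * 645505 + 4) * (2 * Nat.size (82 * Nv b m) + 2)
      ≤ (645509 * (A * ((2 * b + 1) * m))) * ((2 * ((6 * b + 1) + 8) + 2) * m) :=
        Nat.mul_le_mul hA4 hs
    _ = A * (645509 * (2 * b + 1) * (2 * ((6 * b + 1) + 8) + 2) * m ^ 2) := by ring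
    _ ≤ A * 2 ^ m := Nat.mul_le_mul_left _ h3
    _ = (2 ^ m) ^ (4 * b + 2) := by rw [hA]; ring

theorem eventually_exp (m : ℕ) : ∀ᶠ q : ℕ in atTop,
    9 * (q:ℝ) ^ m < (2:ℝ) ^ ((q:ℝ) / 2) := by
  have h1 : (1:ℝ) < (2:ℝ) ^ ((1:ℝ) / 2) := Real.one_lt_rpow (by norm_num) (by norm_num)
  have h2 := (isLittleO_pow_const_const_pow_of_one_lt (R := ℝ) m h1).bound
    (show (0:ℝ) < 1 / 18 by norm_num)
  filter_upwards [h2, eventually_ge_atTop 1] with q hq hq1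
  have hqR : (1:ℝ) ≤ q := by exact_mod_cast hq1
  rw [Real.norm_eq_abs, Real.norm_eq_abs, abs_of_nonneg (by positivity),
    abs_of_nonneg (by positivity)] at hq
  have h3 : ((2:ℝ) ^ ((1:ℝ) / 2)) ^ q = (2:ℝ) ^ ((q:ℝ) / 2) := by
    rw [← Real.rpow_natCast, ← Real.rpow_mul (by norm_num)]
    congr 1; ring
  rw [h3] at hq
  have h4 : 0 < (q:ℝ) ^ m := by positivity
  linarith

theorem final3 (θ δ : ℝ) (hθ : 1 ≤ θ) (hδ : 0 < δ) (hsum : θ + δ < 3 / 2) :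
    ∃ τ : ℕ → Fm ℕ,
      (∀ n x, (τ n).eval x = true) ∧
      Tendsto (fun n => (τ n).enc.length) atTop atTop ∧
      ∀ Sch : Set (Fm ℕ), Sch.Finite → (∀ ψ ∈ Sch, ∀ x, ψ.eval x = true) →
        ∀ᶠ n in atTop, ∀ (L : ℕ) (pf : Fin L → Fm ℕ), IsProof Sch pf → (∃ i, pf i = τ n) →
          (∀ i, ((pf i).enc.length : ℝ) ≤ ((τ n).enc.length : ℝ) ^ θ) →
          (2 : ℝ) ^ (((τ n).enc.length : ℝ) ^ δ) ≤ L := by
  obtain ⟨σ, hσ⟩ : ∃ σ, σ = θ + δ := ⟨_, rfl⟩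
  have hσ' : 0 < 6 - 4 * σ := by rw [hσ]; linarith
  obtain ⟨b, hb⟩ : ∃ b : ℕ, b = ⌈(2 * σ + 2) / (6 - 4 * σ)⌉₊ + 3 := ⟨_, rfl⟩
  have hb3 : 3 ≤ b := by omega
  have hb3R : (3:ℝ) ≤ b := by exact_mod_cast hb3
  have hbσ : (4 * (b:ℝ) + 2) * σ + 2 ≤ 6 * b := by
    have h1 : (2 * σ + 2) / (6 - 4 * σ) ≤ b := by
      refine (Nat.le_ceil _).trans ?_
      rw [hb]; push_cast; linarith
    rw [div_le_iff₀ hσ'] at h1
    linarith
  obtain ⟨a, ha⟩ : ∃ a : ℕ, a = ⌊(4 * (b:ℝ) + 2) * δ⌋₊ + 1 := ⟨_, rfl⟩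
  have ha1 : (4 * (b:ℝ) + 2) * δ < a := by
    rw [ha]; push_cast; exact Nat.lt_floor_add_one _
  have ha2 : (a:ℝ) ≤ (4 * (b:ℝ) + 2) * δ + 1 := by
    rw [ha]; push_cast
    have := Nat.floor_le (show 0 ≤ (4 * (b:ℝ) + 2) * δ by positivity)
    linarith
  have ha0 : 1 ≤ a := by omega
  have hσ1 : (4 * (b:ℝ) + 2) * σ = (4 * (b:ℝ) + 2) * θ + (4 * (b:ℝ) + 2) * δ := by
    rw [hσ]; ring
  have hθ1 : (4 * (b:ℝ) + 2) * 1 ≤ (4 * (b:ℝ) + 2) * θ :=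
    mul_le_mul_of_nonneg_left hθ (by positivity)
  have ha2b : a ≤ 2 * b := by
    have : (a:ℝ) ≤ 2 * b := by linarith
    exact_mod_cast this
  have hθa : (4 * (b:ℝ) + 2) * θ ≤ ((6 * b - a : ℕ) : ℝ) := by
    rw [Nat.cast_sub (by omega)]
    push_cast
    linarith
  have hch : ∀ n : ℕ, ∃ τ : Fm ℕ, (∀ x, τ.eval x = true) ∧ 2 ^ (n + 10) ≤ τ.enc.length ∧
      τ.enc.length ≤ (Nv b (n + 10) * 645505 + 4) * (2 * Nat.size (82 * Nv b (n + 10)) + 2) ∧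
      ∀ ℓ : ℕ, thr kap ℓ ≤ 2 ^ (n + 10) → ∀ Sch : Set (Fm ℕ),
        (∀ ψ ∈ Sch, ∀ x : ℕ → Bool, ψ.eval x = true) → (∀ ψ ∈ Sch, ψ.len ≤ ℓ) →
        ∀ t s : ℕ, t ≤ ((2 ^ (n + 10)) ^ b) ^ 2 → t * s ≤ ((2 ^ (n + 10)) ^ b) ^ 6 →
        ∀ (L : ℕ) (pf : Fin L → Fm ℕ), IsProof Sch pf → (∃ i, pf i = τ) →
        (∀ i, (pf i).len ≤ s) → 2 ^ t ≤ 9 * L * s ^ 2 :=
    fun n => fixed3 b (n + 10) (by omega) (by omega)
  choose τ hτ1 hτ2 hτ3 hτ4 using hch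
  refine ⟨τ, hτ1, ?_, ?_⟩
  · refine tendsto_atTop_mono (fun n => ?_) tendsto_id
    refine le_trans ?_ (hτ2 n)
    calc n ≤ n + 10 := by omega
      _ ≤ 2 ^ (n + 10) := Nat.lt_two_pow_self.le
  · intro Sch hfin htaut
    obtain ⟨ℓ, hℓ⟩ : ∃ ℓ : ℕ, ∀ ψ ∈ Sch, ψ.len ≤ ℓ := by
      obtain ⟨ℓ, hℓ⟩ := (hfin.image Fm.len).bddAbove
      exact ⟨ℓ, fun ψ hψ => hℓ (Set.mem_image_of_mem _ hψ)⟩
    have hshift : Tendsto (fun n : ℕ => n + 10) atTop atTop := tendsto_add_atTop_nat 10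
    have hshift2 : Tendsto (fun n : ℕ => 2 ^ (n + 10)) atTop atTop :=
      tendsto_atTop_mono (fun n => by
        calc n ≤ n + 10 := by omega
          _ ≤ 2 ^ (n + 10) := Nat.lt_two_pow_self.le) tendsto_id
    have hpow : ∀ᶠ q : ℕ in atTop, (q:ℝ) ^ ((4 * (b:ℝ) + 2) * δ) ≤ (q:ℝ) ^ a / 2 := by
      have h1 : Tendsto (fun q : ℕ => (q:ℝ) ^ ((a:ℝ) - (4 * (b:ℝ) + 2) * δ)) atTop atTop :=
        (tendsto_rpow_atTop (by linarith)).comp tendsto_natCast_atTop_atTop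
      filter_upwards [h1.eventually (eventually_ge_atTop 2), eventually_ge_atTop 1] with q hq hq1
      have hqR : (0:ℝ) < q := by exact_mod_cast hq1
      have h2 : (q:ℝ) ^ a = (q:ℝ) ^ ((4 * (b:ℝ) + 2) * δ) *
          (q:ℝ) ^ ((a:ℝ) - (4 * (b:ℝ) + 2) * δ) := by
        rw [← Real.rpow_add hqR, ← Real.rpow_natCast]
        congr 1; ring
      rw [h2, le_div_iff₀ (by norm_num)]
      exact mul_le_mul_of_nonneg_left hq (by positivity)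
    filter_upwards [hshift.eventually (eventually_size3 b), hshift2.eventually hpow,
      hshift2.eventually (eventually_exp (12 * b)),
      hshift2.eventually (eventually_ge_atTop (thr kap ℓ))] with n h1 h2 h3 h4
    intro L pf hpf hex hlines
    have hm4 := hτ4 n ℓ h4 Sch htaut hℓ
    have hm3 := (hτ3 n).trans h1
    obtain ⟨q, hq⟩ : ∃ q, q = 2 ^ (n + 10) := ⟨_, rfl⟩
    rw [← hq] at h2 h3 h4 hm3 hm4
    have hq1 : 1 ≤ q := by rw [hq]; exact Nat.one_le_two_pow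
    have hqR : (1:ℝ) ≤ q := by exact_mod_cast hq1
    have hq0 : (0:ℝ) < q := by linarith
    have hupR : ((τ n).enc.length : ℝ) ≤ (q:ℝ) ^ (4 * b + 2) := by exact_mod_cast hm3
    have hnn : (0:ℝ) ≤ ((τ n).enc.length : ℝ) := by positivity
    have hpw : ∀ e : ℝ, 0 ≤ e → ((τ n).enc.length : ℝ) ^ e ≤ (q:ℝ) ^ ((4 * (b:ℝ) + 2) * e) := by
      intro e he
      calc ((τ n).enc.length : ℝ) ^ e ≤ ((q:ℝ) ^ (4 * b + 2)) ^ e :=
            Real.rpow_le_rpow hnn hupR he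
        _ = (q:ℝ) ^ ((4 * (b:ℝ) + 2) * e) := by
            rw [← Real.rpow_natCast, ← Real.rpow_mul hq0.le]
            push_cast
            rfl
    by_contra hL
    push Not at hL
    have hLlt : (L:ℝ) < (2:ℝ) ^ ((q:ℝ) ^ a / 2) := by
      refine hL.trans_le (Real.rpow_le_rpow_of_exponent_le (by norm_num) ?_)
      exact (hpw δ hδ.le).trans h2
    have hlen : ∀ i, (pf i).len ≤ q ^ (6 * b - a) := by
      intro i
      have e1 : ((pf i).len : ℝ) ≤ ((pf i).enc.length : ℝ) := by exact_mod_cast len_le_enc _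
      have e2 : ((pf i).len : ℝ) ≤ (q:ℝ) ^ (6 * b - a) := by
        calc ((pf i).len : ℝ) ≤ ((pf i).enc.length : ℝ) := e1
          _ ≤ ((τ n).enc.length : ℝ) ^ θ := hlines i
          _ ≤ (q:ℝ) ^ ((4 * (b:ℝ) + 2) * θ) := hpw θ (by linarith)
          _ ≤ (q:ℝ) ^ ((6 * b - a : ℕ) : ℝ) :=
              Real.rpow_le_rpow_of_exponent_le hqR hθa
          _ = (q:ℝ) ^ (6 * b - a) := Real.rpow_natCast _ _
      exact_mod_cast e2
    have ht1 : q ^ a ≤ (q ^ b) ^ 2 := by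
      rw [← pow_mul]
      exact Nat.pow_le_pow_right hq1 (by omega)
    have ht2 : q ^ a * q ^ (6 * b - a) ≤ (q ^ b) ^ 6 := by
      rw [← pow_mul, ← pow_add]
      exact Nat.pow_le_pow_right hq1 (by omega)
    have hmain := hm4 (q ^ a) (q ^ (6 * b - a)) ht1 ht2 L pf hpf hex hlen
    have hmainR : (2:ℝ) ^ (q ^ a) ≤ 9 * L * ((q:ℝ) ^ (6 * b - a)) ^ 2 := by exact_mod_cast hmain
    have hs2 : ((q:ℝ) ^ (6 * b - a)) ^ 2 ≤ (q:ℝ) ^ (12 * b) := by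
      rw [← pow_mul]
      exact pow_le_pow_right₀ hqR (by omega)
    have hqa : (q:ℝ) ≤ (q:ℝ) ^ a := by
      calc (q:ℝ) = (q:ℝ) ^ 1 := (pow_one _).symm
        _ ≤ (q:ℝ) ^ a := pow_le_pow_right₀ hqR ha0
    have h5 : (2:ℝ) ^ ((q:ℝ) / 2) ≤ (2:ℝ) ^ ((q:ℝ) ^ a / 2) :=
      Real.rpow_le_rpow_of_exponent_le (by norm_num) (by linarith)
    have hX : (0:ℝ) < (2:ℝ) ^ ((q:ℝ) ^ a / 2) := by positivity
    have h6 : (2:ℝ) ^ (q ^ a) = (2:ℝ) ^ ((q:ℝ) ^ a / 2) * (2:ℝ) ^ ((q:ℝ) ^ a / 2) := by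
      rw [← Real.rpow_add (by norm_num), ← Real.rpow_natCast]
      congr 1
      push_cast
      ring
    have h7 : 9 * (L:ℝ) * ((q:ℝ) ^ (6 * b - a)) ^ 2
        ≤ (L:ℝ) * (9 * (q:ℝ) ^ (12 * b)) := by
      have : (0:ℝ) ≤ 9 * L := by positivity
      calc 9 * (L:ℝ) * ((q:ℝ) ^ (6 * b - a)) ^ 2 ≤ 9 * (L:ℝ) * (q:ℝ) ^ (12 * b) :=
            mul_le_mul_of_nonneg_left hs2 this
        _ = _ := by ring
    have h8 : (L:ℝ) * (9 * (q:ℝ) ^ (12 * b))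
        < (2:ℝ) ^ ((q:ℝ) ^ a / 2) * (2:ℝ) ^ ((q:ℝ) ^ a / 2) := by
      have h9 : 9 * (q:ℝ) ^ (12 * b) < (2:ℝ) ^ ((q:ℝ) ^ a / 2) := h3.trans_le h5
      have h10 : (0:ℝ) < 9 * (q:ℝ) ^ (12 * b) := by positivity
      calc (L:ℝ) * (9 * (q:ℝ) ^ (12 * b))
          ≤ (2:ℝ) ^ ((q:ℝ) ^ a / 2) * (9 * (q:ℝ) ^ (12 * b)) :=
            mul_le_mul_of_nonneg_right hLlt.le h10.le
        _ < _ := mul_lt_mul_of_pos_left h9 hX
    linarith

end Pool.Agent.H3.Frg3
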